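import Pool.Agent.TBC.Stmts

set_option autoImplicit false

open MeasureTheory Filter Topology
open scoped ContDiff

namespace Pool.Agent.TBC

open Pool.Agent.TBG Pool.Agent.TBF

theorem bnf_proof (hUBV : Stmt_UBV) (hWBA : Stmt_WBA) (hWBD : Stmt_WBD) (hEBD : Stmt_EBD) : Stmt_BNF := by
  intro N u e M r r' κ hFam hNear hEne
  have hDe : ∀ A : Finset (Fin N), Dep A (ub e A) := fun A => ((hUBV e).1 N A).1
  have hDW : ∀ A : Finset (Fin N), Dep A (WW u A) := fun A => ((hUBV u).1 N A).2.2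
  have hCe : ∀ A : Finset (Fin N), Continuous (ub e A) := fun A => ((hUBV e).2.1 hEne.cont N A).1
  have hCW : ∀ A : Finset (Fin N), Continuous (WW u A) := fun A =>
    ((hUBV u).2.1 (fun k => (hFam.smooth k).continuous) N A).2.2
  have hBe : ∀ A : Finset (Fin N), ∃ C : ℝ, ∀ X, |ub e A X| ≤ C := by
    intro A
    obtain ⟨R, hR⟩ := hEne.sup
    obtain ⟨C, hC⟩ := hEBD A.card (e A.card) R (hEne.cont _) (fun a y => hEne.inv.trans _ a y) (hR A.card)
    exact ⟨C, fun X => hC _⟩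
  have hBW : ∀ A : Finset (Fin N), ∃ C : ℝ, 0 ≤ C ∧ ∀ X, 0 ≤ WW u A X ∧ WW u A X ≤ C := by
    intro A
    refine ⟨Real.exp (2 * M * A.card), (Real.exp_pos _).le, fun X => ?_⟩
    obtain ⟨h1, h2⟩ := (hWBA N u M r r' hFam).1 A X
    exact ⟨h1.le, h2⟩
  have he0 : ∀ t : Finset (Fin N), t.card = 3 → ∀ X : Fin N → E, 0 ≤ ub e t X := by
    intro t ht X
    unfold ub
    have key : ∀ (k : ℕ) (y : Fin k → E), k = 3 → 0 ≤ e k y := by
      intro k y hk
      subst hk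
      exact hEne.pos3 y
    exact key _ _ ht
  have hP1 : ∀ t : Finset (Fin N), t.card = 3 → Bnn (fun X => ub e t X * WW u t X) := by
    intro t ht
    obtain ⟨C, hC⟩ := hBe t
    obtain ⟨D, hD0, hD⟩ := hBW t
    refine ⟨((hCe t).mul (hCW t)).measurable, fun X => mul_nonneg (he0 t ht X) (hD X).1, C * D, fun X => ?_⟩
    exact mul_le_mul ((le_abs_self _).trans (hC X)) (hD X).2 (hD X).1 ((abs_nonneg _).trans (hC X))
  have hD1 : ∀ t : Finset (Fin N), Dep t (fun X => ub e t X * WW u t X) := by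
    intro t X Y hXY
    show ub e t X * WW u t X = ub e t Y * WW u t Y
    rw [hDe t X Y hXY, hDW t X Y hXY]
  refine ⟨fun A => ⟨hCe A, hDe A, hBe A⟩, fun t ht => ⟨hP1 t ht, hD1 t⟩, fun t l ht hl => ?_, fun A => ?_⟩
  · obtain ⟨hzc, hz0, ⟨Cz, hCz⟩, hzD⟩ := (hWBD N u M r r' κ hFam hNear).2 t l hl
    obtain ⟨hm, h0, C, hC⟩ := hP1 t ht
    refine ⟨⟨hm.mul hzc.measurable, fun X => mul_nonneg (h0 X) (hz0 X), C * Cz, fun X => ?_⟩, ?_⟩
    · exact mul_le_mul (hC X) (hCz X) (hz0 X) ((h0 X).trans (hC X))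
    · intro X Y hXY
      show ub e t X * WW u t X * zz u κ t l X = ub e t Y * WW u t Y * zz u κ t l Y
      have hXY' : ∀ i ∈ t, X i = Y i := fun i hi => hXY i (Finset.mem_insert_of_mem hi)
      rw [hDe t X Y hXY', hDW t X Y hXY', hzD X Y hXY]
  · obtain ⟨C, hC⟩ := hBe A
    refine ⟨⟨(hCe A).abs.measurable, fun X => abs_nonneg _, C, hC⟩, ?_⟩
    intro X Y hXY
    show |ub e A X| = |ub e A Y|
    rw [hDe A X Y hXY]

end Pool.Agent.TBC
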