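import Pool.Agent.TBC.Stmts

/-!
# Three-body Bose gases (MP_80dc41_mp), module BRG: relative integrals
-/

set_option autoImplicit false

open MeasureTheory Filter Topology
open scoped ContDiff

namespace Pool.Agent.TBC

open Pool.Agent.TBG Pool.Agent.TBF

namespace BRG_

theorem neg2 (F : E × E → ℝ) : ∫ w, F (-w) = ∫ w, F w := by
  have h1 : (volume : Measure (E × E)).IsAddHaarMeasure := by
    rw [Measure.volume_eq_prod]
    exact Measure.prod.instIsAddHaarMeasure volume volume
  have h2 : (volume : Measure (E × E)).Regular :=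
    Measure.Regular.of_sigmaCompactSpace_of_isLocallyFiniteMeasure _
  have h3 : (volume : Measure (E × E)).IsNegInvariant := by infer_instance
  exact integral_neg_eq_self F volume

theorem neg3 (F : E × (E × E) → ℝ) : ∫ w, F (-w) = ∫ w, F w := by
  have h0 : (volume : Measure (E × E)).IsAddHaarMeasure := by
    rw [Measure.volume_eq_prod]
    exact Measure.prod.instIsAddHaarMeasure volume volume
  have h1 : (volume : Measure (E × (E × E))).IsAddHaarMeasure := by
    rw [Measure.volume_eq_prod]
    exact Measure.prod.instIsAddHaarMeasure volume volume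
  have h2 : (volume : Measure (E × (E × E))).Regular :=
    Measure.Regular.of_sigmaCompactSpace_of_isLocallyFiniteMeasure _
  have h3 : (volume : Measure (E × (E × E))).IsNegInvariant := by infer_instance
  exact integral_neg_eq_self F volume

theorem part1 (g : (Fin 3 → E) → ℝ) : RI 2 g = ∫ z : E × E, g ![0, -z.1, -z.2] := by
  unfold RI
  have h := (volume_preserving_finTwoArrow E).integral_comp' (fun w : E × E => g ![0, w.1, w.2])
  have e : ∀ z : Fin 2 → E, (Fin.cons (0 : E) z : Fin 3 → E) =
      ![0, (MeasurableEquiv.finTwoArrow z).1, (MeasurableEquiv.finTwoArrow z).2] := by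
    intro z
    funext i
    fin_cases i <;> rfl
  calc ∫ z : Fin 2 → E, g (Fin.cons (0 : E) z)
      = ∫ z : Fin 2 → E, (fun w : E × E => g ![0, w.1, w.2]) (MeasurableEquiv.finTwoArrow z) := by
        refine integral_congr_ae (Eventually.of_forall fun z => ?_)
        show g (Fin.cons (0 : E) z) = _
        rw [e z]
    _ = ∫ w : E × E, g ![0, w.1, w.2] := h
    _ = ∫ w : E × E, g ![0, -w.1, -w.2] :=
        (neg2 (fun w : E × E => g ![0, w.1, w.2])).symm

theorem part2 (g : (Fin 4 → E) → ℝ) : RI 3 g = ∫ p : W4, g (cf p) := by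
  unfold RI
  have h1 := volume_preserving_piFinSuccAbove (fun _ : Fin 3 => E) 0
  have h2 : MeasurePreserving (Prod.map (id : E → E) (MeasurableEquiv.finTwoArrow (α := E)))
      (volume : Measure (E × (Fin 2 → E))) (volume : Measure (E × (E × E))) :=
    (MeasurePreserving.id volume).prod (volume_preserving_finTwoArrow E)
  obtain ⟨e2, he2⟩ : ∃ e2 : (E × (Fin 2 → E)) ≃ᵐ (E × (E × E)), (e2 : _ → _) =
      Prod.map (id : E → E) (MeasurableEquiv.finTwoArrow (α := E)) :=
    ⟨(MeasurableEquiv.refl E).prodCongr MeasurableEquiv.finTwoArrow, rfl⟩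
  rw [← he2] at h2
  have h := (h1.trans h2).integral_comp' (f := (MeasurableEquiv.piFinSuccAbove
    (fun _ : Fin 3 => E) 0).trans e2) (fun w : E × (E × E) => g ![0, w.1, w.2.1, w.2.2])
  have e : ∀ z : Fin 3 → E, (Fin.cons (0 : E) z : Fin 4 → E) =
      ![0, (((MeasurableEquiv.piFinSuccAbove (fun _ : Fin 3 => E) 0).trans e2) z).1,
        (((MeasurableEquiv.piFinSuccAbove (fun _ : Fin 3 => E) 0).trans e2) z).2.1,
        (((MeasurableEquiv.piFinSuccAbove (fun _ : Fin 3 => E) 0).trans e2) z).2.2] := by
    intro z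
    have h3 : ((MeasurableEquiv.piFinSuccAbove (fun _ : Fin 3 => E) 0).trans e2) z =
        (z 0, (z 1, z 2)) := by
      rw [MeasurableEquiv.trans_apply, he2]
      rfl
    rw [h3]
    funext i
    fin_cases i <;> rfl
  calc ∫ z : Fin 3 → E, g (Fin.cons (0 : E) z)
      = ∫ z : Fin 3 → E, (fun w : E × (E × E) => g ![0, w.1, w.2.1, w.2.2])
          (((MeasurableEquiv.piFinSuccAbove (fun _ : Fin 3 => E) 0).trans e2) z) := by
        refine integral_congr_ae (Eventually.of_forall fun z => ?_)
        show g (Fin.cons (0 : E) z) = _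
        rw [e z]
    _ = ∫ w : E × (E × E), g ![0, w.1, w.2.1, w.2.2] := h
    _ = ∫ w : E × (E × E), g ![0, -w.1, -w.2.1, -w.2.2] :=
        (neg3 (fun w : E × (E × E) => g ![0, w.1, w.2.1, w.2.2])).symm

end BRG_

theorem brg_proof : Stmt_BRG := ⟨BRG_.part1, BRG_.part2⟩

end Pool.Agent.TBC
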