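import Pool.Agent.TBC.Stmts

/-!
# Three-body Bose gases, sharp upper bound: module DEC (decoupling)
-/

set_option autoImplicit false

open MeasureTheory Filter Topology
open scoped ContDiff

namespace Pool.Agent.TBC

open Pool.Agent.TBG Pool.Agent.TBF

theorem dec_proof (hCFD : Stmt_CFD) (hIND : Stmt_IND) (hUBV : Stmt_UBV) (hWBA : Stmt_WBA) : Stmt_DEC := by
  intro N L χ u M r r' T P G g hχ hF hPT hdis hgm hg0 hgi hgd
  have : IsProbabilityMeasure (nu χ) := (hCFD L χ hχ).1
  have : IsProbabilityMeasure (PP χ N) := by unfold PP; infer_instance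
  obtain ⟨w1, -, w3, -, -⟩ := hWBA N u M r r' hF
  have hcont : ∀ k, Continuous (u k) := fun k => (hF.smooth k).continuous
  have hWc : ∀ S : Finset (Fin N), Continuous (WW u S) := fun S => ((hUBV u).2.1 hcont N S).2.2
  have hWd : ∀ S : Finset (Fin N), Dep S (WW u S) := fun S => ((hUBV u).1 N S).2.2
  have hint : ∀ S : Finset (Fin N), Integrable (fun X => WW u S X * g X) (PP χ N) := by
    intro S
    refine hgi.bdd_mul (c := Real.exp (2 * M * S.card)) (hWc S).aestronglyMeasurable ?_
    refine Eventually.of_forall fun X => ?_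
    rw [Real.norm_eq_abs, abs_of_pos (w1 S X).1]
    exact (w1 S X).2
  calc ∫ X, WW u T X * g X ∂(PP χ N)
      ≤ ∫ X, Real.exp (2 * M * P.card) * (WW u (T \ P) X * g X) ∂(PP χ N) := by
        refine integral_mono (hint T) ((hint (T \ P)).const_mul _) fun X => ?_
        show WW u T X * g X ≤ Real.exp (2 * M * P.card) * (WW u (T \ P) X * g X)
        rw [← mul_assoc]
        exact mul_le_mul_of_nonneg_right (w3 P T X hPT) (hg0 X)
    _ = Real.exp (2 * M * P.card) * ZW u χ (T \ P) * ∫ X, g X ∂(PP χ N) := by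
        rw [integral_const_mul, hIND N L χ (T \ P) G (WW u (T \ P)) g hχ hdis (hWc _).measurable hgm (hWd _) hgd,
          ← mul_assoc]
        rfl

end Pool.Agent.TBC
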