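import Pool.Agent.TBC.Stmts

/-!
# Three-body Bose gases (MP_80dc41_mp), sharp upper bound: module DMF, domination of the four-body energies
-/

set_option autoImplicit false

open MeasureTheory Filter Topology
open scoped ContDiff

namespace Pool.Agent.TBC

open Pool.Agent.TBG Pool.Agent.TBF

namespace DMF_

lemma dvF (f : E × E → ℝ) (ξ : W4 → ℝ) (hf : ∀ m, Differentiable ℝ (fun p => f (pm m p)))
    (hξ : Differentiable ℝ ξ) (h0 : ∀ z, f z ≠ 0) (v p : W4) :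
    dv v (FX f ξ) p = FX f ξ p * (∑ m, dv v (fun p => f (pm m p)) p / f (pm m p) + dv v ξ p) := by
  have e : FX f ξ = fun p => f (pm 0 p) * f (pm 1 p) * f (pm 2 p) * f (pm 3 p) * Real.exp (ξ p) := by
    funext p
    unfold FX
    rw [Fin.prod_univ_four]
  have H := ((((hf 0 p).hasFDerivAt.mul (hf 1 p).hasFDerivAt).mul (hf 2 p).hasFDerivAt).mul
    (hf 3 p).hasFDerivAt).mul ((hξ p).hasFDerivAt.exp)
  have e2 : FX f ξ = ((((fun p => f (pm 0 p)) * fun p => f (pm 1 p)) * fun p => f (pm 2 p)) *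
      fun p => f (pm 3 p)) * fun x => Real.exp (ξ x) := e
  have H' := H.fderiv
  have h := h0 (pm 0 p)
  have h1 := h0 (pm 1 p)
  have h2 := h0 (pm 2 p)
  have h3 := h0 (pm 3 p)
  unfold dv
  rw [e2, H', Fin.sum_univ_four]
  simp only [ContinuousLinearMap.add_apply, ContinuousLinearMap.smul_apply, smul_eq_mul, Pi.mul_apply]
  field_simp
  ring

lemma erase_prod_le (s : Finset (Fin 4)) (a : Fin 4 → ℝ) (ha : ∀ m, 0 ≤ a m ∧ a m ≤ 1) :
    0 ≤ ∏ m ∈ s, a m ∧ ∏ m ∈ s, a m ≤ 1 ∧ 1 - ∏ m ∈ s, a m ≤ ∑ m ∈ s, (1 - a m) := by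
  classical
  induction s using Finset.induction_on with
  | empty => simp
  | insert b s hb ih =>
    rw [Finset.prod_insert hb, Finset.sum_insert hb]
    obtain ⟨h1, h2, h3⟩ := ih
    obtain ⟨h4, h5⟩ := ha b
    refine ⟨mul_nonneg h4 h1, mul_le_one₀ h5 h1 h2, ?_⟩
    nlinarith

lemma exp_sub (ξ M : ℝ) (h : |ξ| ≤ M) : |Real.exp (2 * ξ) - 1| ≤ 2 * Real.exp (2 * M) * |ξ| := by
  have hM : 0 ≤ M := (abs_nonneg _).trans h
  have h1 : 1 ≤ Real.exp (2 * M) := Real.one_le_exp (by linarith)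
  rcases le_total 0 ξ with h0 | h0
  · rw [abs_of_nonneg h0] at *
    have h2 : 0 ≤ Real.exp (2 * ξ) - 1 := by
      have := Real.one_le_exp (show (0:ℝ) ≤ 2 * ξ by linarith)
      linarith
    rw [abs_of_nonneg h2]
    have h3 : 1 - 2 * ξ ≤ Real.exp (-(2 * ξ)) := by
      have := Real.add_one_le_exp (-(2 * ξ))
      linarith
    have h4 : Real.exp (2 * ξ) * Real.exp (-(2 * ξ)) = 1 := by
      rw [← Real.exp_add]
      simp
    have h5 : Real.exp (2 * ξ) ≤ Real.exp (2 * M) := Real.exp_le_exp.2 (by linarith)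
    have h6 : 0 < Real.exp (2 * ξ) := Real.exp_pos _
    nlinarith [mul_le_mul_of_nonneg_left h3 h6.le, mul_le_mul_of_nonneg_left h5 h0]
  · rw [abs_of_nonpos h0] at *
    have h2 : Real.exp (2 * ξ) - 1 ≤ 0 := by
      have := Real.exp_le_one_iff.2 (show 2 * ξ ≤ 0 by linarith)
      linarith
    rw [abs_of_nonpos h2]
    have h3 : 1 + 2 * ξ ≤ Real.exp (2 * ξ) := by
      have := Real.add_one_le_exp (2 * ξ)
      linarith
    nlinarith

lemma numF (F ξ M : ℝ) (a : Fin 4 → ℝ) (ha : ∀ m, 0 ≤ a m ∧ a m ≤ 1)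
    (hF : F = (∏ m, a m) * Real.exp ξ) (hξ : |ξ| ≤ M) (m : Fin 4) :
    |F ^ 2 - a m ^ 2| ≤ 2 * Real.exp (2 * M) * (∑ m' ∈ Finset.univ.erase m, (1 - a m') + |ξ|) := by
  obtain ⟨h1, h2, h3⟩ := erase_prod_le (Finset.univ.erase m) a ha
  set P := ∏ m' ∈ Finset.univ.erase m, a m' with hP
  set S := ∑ m' ∈ Finset.univ.erase m, (1 - a m') with hS
  have hp : ∏ m', a m' = a m * P := (Finset.mul_prod_erase _ _ (Finset.mem_univ m)).symm
  obtain ⟨h4, h5⟩ := ha m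
  have e1 : F ^ 2 - a m ^ 2 = a m ^ 2 * ((P ^ 2 - 1) * Real.exp (2 * ξ) + (Real.exp (2 * ξ) - 1)) := by
    have : Real.exp (2 * ξ) = Real.exp ξ ^ 2 := by
      rw [← Real.exp_nat_mul]
      norm_num
    rw [hF, hp, this]
    ring
  have hS0 : 0 ≤ S := Finset.sum_nonneg fun i _ => by linarith [(ha i).2]
  have hE : Real.exp (2 * ξ) ≤ Real.exp (2 * M) := Real.exp_le_exp.2 (by linarith [le_abs_self ξ])
  have hE0 : 0 < Real.exp (2 * ξ) := Real.exp_pos _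
  have h6 : |(P ^ 2 - 1) * Real.exp (2 * ξ)| ≤ 2 * S * Real.exp (2 * M) := by
    rw [abs_mul, abs_of_pos hE0]
    have : |P ^ 2 - 1| ≤ 2 * S := by
      rw [abs_le]
      constructor <;> nlinarith
    exact mul_le_mul this hE hE0.le (by linarith)
  have h7 := exp_sub ξ M hξ
  have h8 : a m ^ 2 ≤ 1 := by nlinarith
  rw [e1, abs_mul, abs_of_nonneg (sq_nonneg (a m))]
  have h9 : |(P ^ 2 - 1) * Real.exp (2 * ξ) + (Real.exp (2 * ξ) - 1)| ≤
      2 * S * Real.exp (2 * M) + 2 * Real.exp (2 * M) * |ξ| := (abs_add_le _ _).trans (add_le_add h6 h7)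
  calc a m ^ 2 * |(P ^ 2 - 1) * Real.exp (2 * ξ) + (Real.exp (2 * ξ) - 1)|
      ≤ 1 * (2 * S * Real.exp (2 * M) + 2 * Real.exp (2 * M) * |ξ|) :=
        mul_le_mul h8 h9 (abs_nonneg _) zero_le_one
    _ = 2 * Real.exp (2 * M) * (S + |ξ|) := by ring

/-- the quadratic part for one direction -/
lemma numQ (A : Fin 4 → ℝ) (x K X B D : ℝ) (w : Fin 4 → ℝ) (hK : 0 ≤ K) (hA : ∀ m, |A m| ≤ K * w m)
    (hw0 : ∀ m, 0 ≤ w m) (hw1 : ∀ m, w m ≤ 1) (hD : ∀ m m', m ≠ m' → w m * w m' ≤ D)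
    (hx : |x| ≤ X) (hx' : |x| ≤ B * D) :
    |(∑ m, A m + x) ^ 2 - ∑ m, A m ^ 2| ≤ (12 * K ^ 2 + 8 * K * B + X * B) * D := by
  have hp : ∀ m m', m ≠ m' → |A m * A m'| ≤ K ^ 2 * D := by
    intro m m' h
    rw [abs_mul]
    calc |A m| * |A m'| ≤ (K * w m) * (K * w m') :=
          mul_le_mul (hA m) (hA m') (abs_nonneg _) (mul_nonneg hK (hw0 m))
      _ = K ^ 2 * (w m * w m') := by ring
      _ ≤ K ^ 2 * D := mul_le_mul_of_nonneg_left (hD m m' h) (by positivity)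
  have hBD : 0 ≤ B * D := (abs_nonneg _).trans hx'
  have hq : ∀ m, |x * A m| ≤ K * (B * D) := by
    intro m
    rw [abs_mul]
    calc |x| * |A m| ≤ (B * D) * K :=
          mul_le_mul hx' ((hA m).trans (by nlinarith [hw1 m])) (abs_nonneg _) hBD
      _ = K * (B * D) := by ring
  have hr : |x * x| ≤ X * (B * D) := by
    rw [abs_mul]
    exact mul_le_mul hx hx' (abs_nonneg _) ((abs_nonneg _).trans hx)
  have e : (∑ m, A m + x) ^ 2 - ∑ m, A m ^ 2 =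
      2 * (A 0 * A 1) + 2 * (A 0 * A 2) + 2 * (A 0 * A 3) + 2 * (A 1 * A 2) + 2 * (A 1 * A 3) + 2 * (A 2 * A 3)
      + 2 * (x * A 0) + 2 * (x * A 1) + 2 * (x * A 2) + 2 * (x * A 3) + x * x := by
    simp only [Fin.sum_univ_four]
    ring
  rw [e, abs_le]
  have h01 := abs_le.1 (hp 0 1 (by decide))
  have h02 := abs_le.1 (hp 0 2 (by decide))
  have h03 := abs_le.1 (hp 0 3 (by decide))
  have h12 := abs_le.1 (hp 1 2 (by decide))
  have h13 := abs_le.1 (hp 1 3 (by decide))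
  have h23 := abs_le.1 (hp 2 3 (by decide))
  have g0 := abs_le.1 (hq 0)
  have g1 := abs_le.1 (hq 1)
  have g2 := abs_le.1 (hq 2)
  have g3 := abs_le.1 (hq 3)
  have g4 := abs_le.1 hr
  constructor <;> nlinarith

lemma numS (G b T E ξ C B D : ℝ) (a u w : Fin 4 → ℝ) (m : Fin 4) (hT : 0 ≤ T) (hE : 0 ≤ E) (hC : 0 ≤ C)
    (hb0 : 0 ≤ b) (hb : b ≤ T * w m ^ 2) (hw0 : ∀ m, 0 ≤ w m) (hw1 : ∀ m, w m ≤ 1)
    (hG : |G| ≤ 2 * E * (∑ m' ∈ Finset.univ.erase m, (1 - a m') + |ξ|)) (ha : ∀ m', a m' ≤ 1)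
    (hu : ∀ m', 1 - a m' ≤ C * u m') (hu0 : ∀ m', 0 ≤ u m')
    (hD : ∀ m', m ≠ m' → w m ^ 2 * u m' ≤ D) (hξ : |ξ| ≤ B * D) :
    |G * b| ≤ 2 * E * T * (3 * C + B) * D := by
  have hBD : 0 ≤ B * D := (abs_nonneg _).trans hξ
  have h1 : ∀ m' ∈ Finset.univ.erase m, (1 - a m') * b ≤ C * T * D := by
    intro m' hm'
    have hne : m ≠ m' := (Finset.ne_of_mem_erase hm').symm
    calc (1 - a m') * b ≤ (C * u m') * (T * w m ^ 2) :=
          mul_le_mul (hu m') hb hb0 (mul_nonneg hC (hu0 m'))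
      _ = C * T * (w m ^ 2 * u m') := by ring
      _ ≤ C * T * D := mul_le_mul_of_nonneg_left (hD m' hne) (mul_nonneg hC hT)
  have h2 : (∑ m' ∈ Finset.univ.erase m, (1 - a m')) * b ≤ 3 * (C * T * D) := by
    rw [Finset.sum_mul]
    refine (Finset.sum_le_card_nsmul _ _ _ h1).trans (le_of_eq ?_)
    rw [Finset.card_erase_of_mem (Finset.mem_univ m)]
    simp
  have h3 : |ξ| * b ≤ B * D * T := by
    refine mul_le_mul hξ (hb.trans ?_) hb0 hBD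
    have : w m ^ 2 ≤ 1 := pow_le_one₀ (hw0 m) (hw1 m)
    nlinarith
  rw [abs_mul, abs_of_nonneg hb0]
  calc |G| * b ≤ (2 * E * (∑ m' ∈ Finset.univ.erase m, (1 - a m') + |ξ|)) * b :=
        mul_le_mul_of_nonneg_right hG hb0
    _ = 2 * E * ((∑ m' ∈ Finset.univ.erase m, (1 - a m')) * b + |ξ| * b) := by ring
    _ ≤ 2 * E * (3 * (C * T * D) + B * D * T) :=
        mul_le_mul_of_nonneg_left (add_le_add h2 h3) (by positivity)
    _ = 2 * E * T * (3 * C + B) * D := by ring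

/-! ## the functions of `p` -/

lemma DB_nonneg (p : W4) : 0 ≤ DB p := by
  unfold DB
  positivity

lemma DB_ge (p : W4) (m m' : Fin 4) (h : m ≠ m') :
    ((1 + ‖pm m p‖) ^ 10)⁻¹ * ((1 + ‖pm m' p‖) ^ 4)⁻¹ + ((1 + ‖pm m p‖) ^ 5)⁻¹ * ((1 + ‖pm m' p‖) ^ 5)⁻¹ ≤
      DB p := by
  unfold DB
  have hpos : ∀ m m' : Fin 4, 0 ≤ ((1 + ‖pm m p‖) ^ 10)⁻¹ * ((1 + ‖pm m' p‖) ^ 4)⁻¹ +
      ((1 + ‖pm m p‖) ^ 5)⁻¹ * ((1 + ‖pm m' p‖) ^ 5)⁻¹ := fun m m' => by positivity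
  refine le_trans ?_ (Finset.single_le_sum (f := fun m => ∑ m' ∈ Finset.univ.erase m,
    (((1 + ‖pm m p‖) ^ 10)⁻¹ * ((1 + ‖pm m' p‖) ^ 4)⁻¹ + ((1 + ‖pm m p‖) ^ 5)⁻¹ * ((1 + ‖pm m' p‖) ^ 5)⁻¹))
    (fun i _ => Finset.sum_nonneg fun j _ => hpos i j) (Finset.mem_univ m))
  exact Finset.single_le_sum (f := fun m' => ((1 + ‖pm m p‖) ^ 10)⁻¹ * ((1 + ‖pm m' p‖) ^ 4)⁻¹ +
    ((1 + ‖pm m p‖) ^ 5)⁻¹ * ((1 + ‖pm m' p‖) ^ 5)⁻¹) (fun j _ => hpos m j)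
    (Finset.mem_erase.2 ⟨h.symm, Finset.mem_univ _⟩)

lemma cf_norm (p : W4) (i : Fin 4) : ‖cf p i‖ ≤ ‖p‖ := by
  have h1 : ‖p.1‖ ≤ ‖p‖ := norm_fst_le p
  have h2 : ‖p.2‖ ≤ ‖p‖ := norm_snd_le p
  have h3 : ‖p.2.1‖ ≤ ‖p‖ := (norm_fst_le p.2).trans h2
  have h4 : ‖p.2.2‖ ≤ ‖p‖ := (norm_snd_le p.2).trans h2
  fin_cases i
  · simp [cf]
  · simpa [cf] using h1
  · simpa [cf] using h3
  · simpa [cf] using h4

lemma pm_norm (p : W4) (m : Fin 4) : ‖pm m p‖ ≤ 2 * ‖p‖ := by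
  unfold pm
  rw [Prod.norm_def]
  have h := fun i j => (norm_sub_le (cf p i) (cf p j)).trans (add_le_add (cf_norm p i) (cf_norm p j))
  refine max_le ?_ ?_
  · refine (h _ _).trans (le_of_eq ?_)
    ring
  · refine (h _ _).trans (le_of_eq ?_)
    ring

/-- on bounded sets the dominating function is bounded below -/
lemma DB_low (R : ℝ) (hR : 0 ≤ R) (p : W4) (hp : ‖p‖ ≤ R) :
    ((1 + 2 * R) ^ 10)⁻¹ ≤ DB p := by
  refine le_trans ?_ (DB_ge p 0 1 (by decide))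
  have h0 : 0 < 1 + ‖pm 0 p‖ := by positivity
  have h1 : 0 < 1 + ‖pm 1 p‖ := by positivity
  have g0 : 1 + ‖pm 0 p‖ ≤ 1 + 2 * R := by linarith [pm_norm p 0]
  have g1 : 1 + ‖pm 1 p‖ ≤ 1 + 2 * R := by linarith [pm_norm p 1]
  have k0 : ((1 + 2 * R) ^ 5)⁻¹ ≤ ((1 + ‖pm 0 p‖) ^ 5)⁻¹ :=
    inv_anti₀ (by positivity) (pow_le_pow_left₀ h0.le g0 5)
  have k1 : ((1 + 2 * R) ^ 5)⁻¹ ≤ ((1 + ‖pm 1 p‖) ^ 5)⁻¹ :=
    inv_anti₀ (by positivity) (pow_le_pow_left₀ h1.le g1 5)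
  have k2 : ((1 + 2 * R) ^ 10)⁻¹ = ((1 + 2 * R) ^ 5)⁻¹ * ((1 + 2 * R) ^ 5)⁻¹ := by
    rw [← mul_inv, ← pow_add]
  have k3 : (0:ℝ) < ((1 + 2 * R) ^ 5)⁻¹ := by positivity
  have k4 : (0:ℝ) ≤ ((1 + ‖pm 0 p‖) ^ 10)⁻¹ * ((1 + ‖pm 1 p‖) ^ 4)⁻¹ := by positivity
  rw [k2]
  nlinarith [mul_le_mul k0 k1 k3.le (k3.le.trans k0)]

/-- bounds of the test function by the dominating function -/
lemma test_dom (ξ : W4 → ℝ) (hξ : Continuous ξ) (hc : HasCompactSupport ξ) :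
    ∃ X B : ℝ, 0 ≤ X ∧ 0 ≤ B ∧ ∀ p, |ξ p| ≤ X ∧ |ξ p| ≤ B * DB p := by
  obtain ⟨X, hX⟩ := hc.exists_bound_of_continuous hξ
  have hX0 : 0 ≤ X := (norm_nonneg _).trans (hX 0)
  obtain ⟨R, hR⟩ := hc.isCompact.isBounded.exists_norm_le
  have hR' : ∀ p, ξ p ≠ 0 → ‖p‖ ≤ |R| := fun p hp => (hR p (subset_tsupport _ hp)).trans (le_abs_self _)
  refine ⟨X, X * (1 + 2 * |R|) ^ 10, hX0, by positivity, fun p => ⟨hX p, ?_⟩⟩
  by_cases h : ξ p = 0
  · rw [h, abs_zero]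
    exact mul_nonneg (by positivity) (DB_nonneg p)
  · have h1 := DB_low |R| (abs_nonneg _) p (hR' p h)
    have h2 : (0:ℝ) < (1 + 2 * |R|) ^ 10 := by positivity
    have h3 : 1 ≤ (1 + 2 * |R|) ^ 10 * DB p := by
      have := mul_le_mul_of_nonneg_left h1 h2.le
      rwa [mul_inv_cancel₀ h2.ne'] at this
    calc |ξ p| ≤ X * 1 := by simpa using hX p
      _ ≤ X * ((1 + 2 * |R|) ^ 10 * DB p) := mul_le_mul_of_nonneg_left h3 hX0
      _ = _ := by ring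

/-- bounds of the derivatives of the test function by the dominating function -/
lemma dtest_dom (ξ : W4 → ℝ) (hξ : ContDiff ℝ ∞ ξ) (hc : HasCompactSupport ξ) :
    ∃ X B : ℝ, 0 ≤ X ∧ 0 ≤ B ∧ ∀ m c p, |dv (d4 m c) ξ p| ≤ X ∧ |dv (d4 m c) ξ p| ≤ B * DB p := by
  have h : ∀ m c, ∃ X B : ℝ, 0 ≤ X ∧ 0 ≤ B ∧ ∀ p, |dv (d4 m c) ξ p| ≤ X ∧ |dv (d4 m c) ξ p| ≤ B * DB p := by
    intro m c
    refine test_dom (dv (d4 m c) ξ) ?_ ?_
    · exact ((hξ.fderiv_right (m := ∞) (by simp)).clm_apply contDiff_const).continuous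
    · exact hc.fderiv_apply (𝕜 := ℝ) (d4 m c)
  choose X B hX hB hXB using h
  refine ⟨∑ m, ∑ c, X m c, ∑ m, ∑ c, B m c, Finset.sum_nonneg fun m _ => Finset.sum_nonneg fun c _ => hX m c,
    Finset.sum_nonneg fun m _ => Finset.sum_nonneg fun c _ => hB m c, fun m c p => ?_⟩
  have h1 : X m c ≤ ∑ m, ∑ c, X m c :=
    (Finset.single_le_sum (f := fun c => X m c) (fun c _ => hX m c) (Finset.mem_univ c)).trans
      (Finset.single_le_sum (f := fun m => ∑ c, X m c) (fun m _ => Finset.sum_nonneg fun c _ => hX m c)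
        (Finset.mem_univ m))
  have h2 : B m c ≤ ∑ m, ∑ c, B m c :=
    (Finset.single_le_sum (f := fun c => B m c) (fun c _ => hB m c) (Finset.mem_univ c)).trans
      (Finset.single_le_sum (f := fun m => ∑ c, B m c) (fun m _ => Finset.sum_nonneg fun c _ => hB m c)
        (Finset.mem_univ m))
  exact ⟨(hXB m c p).1.trans h1, (hXB m c p).2.trans (mul_le_mul_of_nonneg_right h2 (DB_nonneg p))⟩

/-- bound of the potential -/
lemma V_dom (V : E → E → ℝ) (hV : Admissible V) : ∃ T : ℝ, 0 ≤ T ∧ ∀ z : E × E,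
    V z.1 z.2 ≤ T * (((1 + ‖z‖) ^ 5)⁻¹) ^ 2 := by
  obtain ⟨C, hC⟩ := hV.bdd
  obtain ⟨R, hR⟩ := hV.supp
  refine ⟨|C| * (1 + |R|) ^ 10, by positivity, fun z => ?_⟩
  by_cases h : R < ‖z.1‖ ∨ R < ‖z.2‖
  · rw [hR _ _ h]
    positivity
  · push Not at h
    have h1 : ‖z‖ ≤ |R| := by
      rw [Prod.norm_def]
      exact (max_le h.1 h.2).trans (le_abs_self _)
    have h2 : (1 + ‖z‖) ^ 10 ≤ (1 + |R|) ^ 10 := pow_le_pow_left₀ (by positivity) (by linarith) 10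
    have h3 : (0:ℝ) < (1 + ‖z‖) ^ 10 := by positivity
    have h4 : (((1 + ‖z‖) ^ 5)⁻¹) ^ 2 = ((1 + ‖z‖) ^ 10)⁻¹ := by
      rw [inv_pow, ← pow_mul]
    have h5 : 1 ≤ (1 + |R|) ^ 10 * ((1 + ‖z‖) ^ 10)⁻¹ := by
      rw [← div_eq_mul_inv, le_div_iff₀ h3]
      linarith
    rw [h4]
    calc V z.1 z.2 ≤ |C| * 1 := by simpa using (hC z.1 z.2).trans (le_abs_self C)
      _ ≤ |C| * ((1 + |R|) ^ 10 * ((1 + ‖z‖) ^ 10)⁻¹) := mul_le_mul_of_nonneg_left h5 (abs_nonneg _)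
      _ = _ := by ring

end DMF_

open DMF_ in
theorem dmf_proof (_h1 : Stmt_LPC) (h2 : Stmt_LRL) (_h3 : Stmt_FNA) : Stmt_DMF := by
  intro V ξ C hV hξ
  obtain ⟨hξs, hξc⟩ := hξ
  obtain ⟨M, B₁, hM0, hB1, hM⟩ := test_dom ξ hξs.continuous hξc
  obtain ⟨X, B₂, hX0, hB2, hX⟩ := dtest_dom ξ hξs hξc
  obtain ⟨T, hT0, hT⟩ := V_dom V hV
  set Q : ℝ := Real.exp (2 * M) with hQ
  set K : ℝ := 2 * Real.sqrt |C| with hK
  have hK0 : 0 ≤ K := by positivity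
  refine ⟨12 * (Q * (12 * K ^ 2 + 8 * K * B₂ + X * B₂) + 4 * (2 * Q * K ^ 2 * (3 * |C| + B₁)))
    + 4 * (2 * Q * T * (3 * |C| + B₁)), ?_⟩
  intro f hf hf1 hf4 hf10 p
  set D := DB p with hD
  have hD0 : 0 ≤ D := DB_nonneg p
  obtain ⟨-, -, hL⟩ := h2
  have hsm : ∀ m, ContDiff ℝ ∞ (fun p => f (pm m p)) := fun m => (hL m f hf).1
  have hgs : ∀ m, gsq4 (fun p => f (pm m p)) p = gsq f (pm m p) := fun m => (hL m f hf).2.1 p
  set a : Fin 4 → ℝ := fun m => f (pm m p) with ha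
  have ha1 : ∀ m, 1 / 2 ≤ a m ∧ a m ≤ 1 := fun m => hf1 _
  have ha0 : ∀ m, 0 ≤ a m ∧ a m ≤ 1 := fun m => ⟨by linarith [(ha1 m).1], (ha1 m).2⟩
  have hane : ∀ m, a m ≠ 0 := fun m => by linarith [(ha1 m).1] |> fun h : 0 < a m => h.ne'
  set F := FX f ξ p with hFdef
  have hF : F = (∏ m, a m) * Real.exp (ξ p) := rfl
  set A : Fin 4 → Fin 4 → Fin 3 → ℝ := fun m j c => dv (d4 j c) (fun p => f (pm m p)) p / a m with hA
  set x : Fin 4 → Fin 3 → ℝ := fun j c => dv (d4 j c) ξ p with hx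
  set w : Fin 4 → ℝ := fun m => ((1 + ‖pm m p‖) ^ 5)⁻¹ with hw
  set u : Fin 4 → ℝ := fun m => ((1 + ‖pm m p‖) ^ 4)⁻¹ with hu
  have hw0 : ∀ m, 0 ≤ w m := fun m => by positivity
  have hu0 : ∀ m, 0 ≤ u m := fun m => by positivity
  have hw1 : ∀ m, w m ≤ 1 := fun m => inv_le_one_of_one_le₀ (one_le_pow₀ (by linarith [norm_nonneg (pm m p)]))
  have hw2 : ∀ m, w m ^ 2 = ((1 + ‖pm m p‖) ^ 10)⁻¹ := fun m => by
    simp only [hw]
    rw [inv_pow, ← pow_mul]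
  have hDw : ∀ m m', m ≠ m' → w m * w m' ≤ D := fun m m' h => by
    refine le_trans ?_ (DB_ge p m m' h)
    have : 0 ≤ ((1 + ‖pm m p‖) ^ 10)⁻¹ * ((1 + ‖pm m' p‖) ^ 4)⁻¹ := by positivity
    simp only [hw]
    linarith
  have hDu : ∀ m m', m ≠ m' → w m ^ 2 * u m' ≤ D := fun m m' h => by
    refine le_trans ?_ (DB_ge p m m' h)
    have : 0 ≤ ((1 + ‖pm m p‖) ^ 5)⁻¹ * ((1 + ‖pm m' p‖) ^ 5)⁻¹ := by positivity
    rw [hw2]
    simp only [hu]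
    linarith
  have hua : ∀ m, 1 - a m ≤ |C| * u m := by
    intro m
    have h := hf4 (pm m p)
    have h0 : 0 < (1 + ‖pm m p‖) ^ 4 := by positivity
    simp only [ha, hu]
    rw [← div_eq_mul_inv, le_div_iff₀ h0]
    linarith [le_abs_self C]
  have hdv : ∀ m j c, |dv (d4 j c) (fun p => f (pm m p)) p| ≤ Real.sqrt |C| * w m := by
    intro m j c
    have h1 : (dv (d4 j c) (fun p => f (pm m p)) p) ^ 2 ≤ gsq f (pm m p) := by
      rw [← hgs m]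
      unfold gsq4
      exact (Finset.single_le_sum (f := fun c => (dv (d4 j c) (fun p => f (pm m p)) p) ^ 2)
        (fun c _ => sq_nonneg _) (Finset.mem_univ c)).trans
        (Finset.single_le_sum (f := fun j => ∑ c, (dv (d4 j c) (fun p => f (pm m p)) p) ^ 2)
        (fun j _ => Finset.sum_nonneg fun c _ => sq_nonneg _) (Finset.mem_univ j))
    have h3 : gsq f (pm m p) ≤ |C| * w m ^ 2 := by
      have h := hf10 (pm m p)
      have h0 : 0 < (1 + ‖pm m p‖) ^ 10 := by positivity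
      rw [hw2, ← div_eq_mul_inv, le_div_iff₀ h0]
      linarith [le_abs_self C]
    refine abs_le_of_sq_le_sq ?_ (mul_nonneg (Real.sqrt_nonneg _) (hw0 m))
    rw [mul_pow, Real.sq_sqrt (abs_nonneg C)]
    exact h1.trans h3
  have hAb : ∀ m j c, |A m j c| ≤ K * w m := by
    intro m j c
    simp only [hA]
    rw [abs_div, div_le_iff₀ (abs_pos.2 (hane m)), abs_of_nonneg (ha0 m).1]
    have h1 := hdv m j c
    have h3 : 0 ≤ Real.sqrt |C| * w m := mul_nonneg (Real.sqrt_nonneg _) (hw0 m)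
    calc |dv (d4 j c) (fun p => f (pm m p)) p| ≤ Real.sqrt |C| * w m := h1
      _ = (2 * (Real.sqrt |C| * w m)) * (1 / 2) := by ring
      _ ≤ (2 * (Real.sqrt |C| * w m)) * a m := mul_le_mul_of_nonneg_left (ha1 m).1 (by linarith)
      _ = K * w m * a m := by rw [hK]; ring
  have hgF : gsq4 (FX f ξ) p = ∑ j, ∑ c, (F * (∑ m, A m j c + x j c)) ^ 2 := by
    unfold gsq4
    refine Finset.sum_congr rfl fun j _ => Finset.sum_congr rfl fun c _ => ?_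
    rw [dvF f ξ (fun m => (hsm m).differentiable (by simp)) (hξs.differentiable (by simp))
      (fun z => by linarith [(hf1 z).1] |> fun h : 0 < f z => h.ne')]
  have hgm : ∀ m, gsq f (pm m p) = ∑ j, ∑ c, (a m * A m j c) ^ 2 := by
    intro m
    rw [← hgs m]
    unfold gsq4
    refine Finset.sum_congr rfl fun j _ => Finset.sum_congr rfl fun c _ => ?_
    simp only [hA]
    rw [mul_div_cancel₀ _ (hane m)]
  have hFQ : F ^ 2 ≤ Q := by
    have h1 := (erase_prod_le Finset.univ a ha0)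
    have h3 : F ≤ Real.exp M := by
      rw [hF]
      calc (∏ m, a m) * Real.exp (ξ p) ≤ 1 * Real.exp M :=
            mul_le_mul h1.2.1 (Real.exp_le_exp.2 ((le_abs_self _).trans (hM p).1)) (Real.exp_pos _).le zero_le_one
        _ = Real.exp M := one_mul _
    have h4 : 0 ≤ F := by
      rw [hF]
      exact mul_nonneg h1.1 (Real.exp_pos _).le
    calc F ^ 2 ≤ Real.exp M ^ 2 := pow_le_pow_left₀ h4 h3 2
      _ = Q := by
        rw [hQ, ← Real.exp_nat_mul]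
        norm_num
  have hQ0 : 0 ≤ Q := (Real.exp_pos _).le
  have hnum : ∀ m, |F ^ 2 - a m ^ 2| ≤ 2 * Q * (∑ m' ∈ Finset.univ.erase m, (1 - a m') + |ξ p|) :=
    fun m => numF F (ξ p) M a ha0 hF (hM p).1 m
  have hpart : ∀ j c, |F ^ 2 * ((∑ m, A m j c + x j c) ^ 2 - ∑ m, A m j c ^ 2) +
      ∑ m, (F ^ 2 - a m ^ 2) * A m j c ^ 2| ≤
      (Q * (12 * K ^ 2 + 8 * K * B₂ + X * B₂) + 4 * (2 * Q * K ^ 2 * (3 * |C| + B₁))) * D := by
    intro j c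
    have h1 := numQ (fun m => A m j c) (x j c) K X B₂ D w hK0 (fun m => hAb m j c) hw0 hw1 hDw
      (hX j c p).1 (hX j c p).2
    have h3 : ∀ m, |(F ^ 2 - a m ^ 2) * A m j c ^ 2| ≤ 2 * Q * K ^ 2 * (3 * |C| + B₁) * D := by
      intro m
      refine numS (F ^ 2 - a m ^ 2) (A m j c ^ 2) (K ^ 2) Q (ξ p) |C| B₁ D a u w m (by positivity) hQ0
        (abs_nonneg _) (sq_nonneg _) ?_ hw0 hw1 (hnum m) (fun m' => (ha0 m').2) hua hu0
        (fun m' h => hDu m m' h) (hM p).2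
      rw [← mul_pow, ← sq_abs]
      exact pow_le_pow_left₀ (abs_nonneg _) (hAb m j c) 2
    have h4 : |∑ m, (F ^ 2 - a m ^ 2) * A m j c ^ 2| ≤ 4 * (2 * Q * K ^ 2 * (3 * |C| + B₁) * D) := by
      refine (Finset.abs_sum_le_sum_abs _ _).trans ((Finset.sum_le_card_nsmul _ _ _ fun m _ => h3 m).trans
        (le_of_eq ?_))
      simp
    refine (abs_add_le _ _).trans ((add_le_add ?_ h4).trans (le_of_eq (show Q * ((12 * K ^ 2 + 8 * K * B₂ +
      X * B₂) * D) + 4 * (2 * Q * K ^ 2 * (3 * |C| + B₁) * D) = _ by ring)))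
    rw [abs_mul, abs_of_nonneg (sq_nonneg F)]
    exact mul_le_mul hFQ h1 (abs_nonneg _) hQ0
  have hVp : ∀ m, |(F ^ 2 - a m ^ 2) * V (pm m p).1 (pm m p).2| ≤ 2 * Q * T * (3 * |C| + B₁) * D := by
    intro m
    exact numS (F ^ 2 - a m ^ 2) (V (pm m p).1 (pm m p).2) T Q (ξ p) |C| B₁ D a u w m hT0 hQ0
      (abs_nonneg _) (hV.nonneg _ _) (hT (pm m p)) hw0 hw1 (hnum m) (fun m' => (ha0 m').2) hua hu0
      (fun m' h => hDu m m' h) (hM p).2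
  have hdec : gamI f V ξ p = (∑ j, ∑ c, (F ^ 2 * ((∑ m, A m j c + x j c) ^ 2 - ∑ m, A m j c ^ 2) +
      ∑ m, (F ^ 2 - a m ^ 2) * A m j c ^ 2)) + ∑ m, (F ^ 2 - a m ^ 2) * V (pm m p).1 (pm m p).2 := by
    unfold gamI
    rw [hgF]
    have h1 : ∑ m, gsq f (pm m p) = ∑ j, ∑ c, ∑ m, (a m * A m j c) ^ 2 := by
      simp only [hgm]
      rw [Finset.sum_comm]
      exact Finset.sum_congr rfl fun j _ => Finset.sum_comm
    rw [h1]
    have h3 : (∑ j, ∑ c, (F * (∑ m, A m j c + x j c)) ^ 2) - ∑ j, ∑ c, ∑ m, (a m * A m j c) ^ 2 =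
        ∑ j, ∑ c, (F ^ 2 * ((∑ m, A m j c + x j c) ^ 2 - ∑ m, A m j c ^ 2) +
          ∑ m, (F ^ 2 - a m ^ 2) * A m j c ^ 2) := by
      rw [← Finset.sum_sub_distrib]
      refine Finset.sum_congr rfl fun j _ => ?_
      rw [← Finset.sum_sub_distrib]
      refine Finset.sum_congr rfl fun c _ => ?_
      simp only [Fin.sum_univ_four]
      ring
    rw [h3]
    congr 1
    refine Finset.sum_congr rfl fun m _ => ?_
    simp only [ha]
    ring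
  rw [hdec]
  refine (abs_add_le _ _).trans ?_
  have e1 : |∑ j, ∑ c, (F ^ 2 * ((∑ m, A m j c + x j c) ^ 2 - ∑ m, A m j c ^ 2) +
      ∑ m, (F ^ 2 - a m ^ 2) * A m j c ^ 2)| ≤
      12 * ((Q * (12 * K ^ 2 + 8 * K * B₂ + X * B₂) + 4 * (2 * Q * K ^ 2 * (3 * |C| + B₁))) * D) := by
    refine (Finset.abs_sum_le_sum_abs _ _).trans ?_
    refine (Finset.sum_le_card_nsmul _ _ (3 * ((Q * (12 * K ^ 2 + 8 * K * B₂ + X * B₂) +
      4 * (2 * Q * K ^ 2 * (3 * |C| + B₁))) * D)) fun j _ => ?_).trans (le_of_eq ?_)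
    · refine (Finset.abs_sum_le_sum_abs _ _).trans ((Finset.sum_le_card_nsmul _ _ _ fun c _ => hpart j c).trans
        (le_of_eq ?_))
      simp
    · simp
      ring
  have e2 : |∑ m, (F ^ 2 - a m ^ 2) * V (pm m p).1 (pm m p).2| ≤ 4 * (2 * Q * T * (3 * |C| + B₁) * D) := by
    refine (Finset.abs_sum_le_sum_abs _ _).trans ((Finset.sum_le_card_nsmul _ _ _ fun m _ => hVp m).trans
      (le_of_eq ?_))
    simp
  refine (add_le_add e1 e2).trans (le_of_eq ?_)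
  ring

end Pool.Agent.TBC
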