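import Pool.Agent.TBC.Stmts

/-!
# Three-body Bose gases (MP_80dc41_mp): derivatives of `US` (module DUK of squad TBC)
-/

set_option autoImplicit false

open MeasureTheory Filter Topology
open scoped ContDiff

namespace Pool.Agent.TBC

open Pool.Agent.TBG Pool.Agent.TBF

namespace DUK_

theorem dv_sum {W ι : Type} [NormedAddCommGroup W] [NormedSpace ℝ W] (s : Finset ι) (F : ι → W → ℝ) (v x : W)
    (h : ∀ j ∈ s, DifferentiableAt ℝ (F j) x) :
    dv v (fun y => ∑ j ∈ s, F j y) x = ∑ j ∈ s, dv v (F j) x := by
  unfold dv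
  rw [fderiv_fun_sum h]
  simp

theorem dv_ite {W : Type} [NormedAddCommGroup W] [NormedSpace ℝ W] (p : Prop) [Decidable p] (F : W → ℝ) (v x : W) :
    dv v (fun y => if p then F y else 0) x = if p then dv v F x else 0 := by
  by_cases h : p
  · simp only [h, if_true]
  · simp only [h, if_false]
    unfold dv
    simp

theorem contDiff_dv {W : Type} [NormedAddCommGroup W] [NormedSpace ℝ W] (v : W) (F : W → ℝ) (h : ContDiff ℝ ∞ F) :
    ContDiff ℝ ∞ (dv v F) := by
  unfold dv
  exact (h.fderiv_right (m := ∞) (by simp)).clm_apply contDiff_const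

/-- restriction to some of the particles -/
noncomputable def T {N k : ℕ} (s : Fin k → Fin N) : (Fin N → E) →L[ℝ] (Fin k → E) :=
  ContinuousLinearMap.pi fun m => ContinuousLinearMap.proj (s m)

theorem T_apply {N k : ℕ} (s : Fin k → Fin N) (X : Fin N → E) : T s X = fun m => X (s m) := rfl

theorem T_dir {N k : ℕ} (s : Fin k → Fin N) (i : Fin N) (c : Fin 3) :
    T s (dir i c) = ∑ m : Fin k, if s m = i then (dir m c : Fin k → E) else 0 := by
  funext m'
  rw [T_apply, Finset.sum_apply]
  unfold dir
  have h : ∀ m ∈ Finset.univ, m ≠ m' →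
      (if s m = i then (Pi.single m (ev c) : Fin k → E) else 0) m' = 0 := by
    intro m _ hm
    by_cases h1 : s m = i
    · rw [if_pos h1]
      exact Pi.single_eq_of_ne (Ne.symm hm) _
    · rw [if_neg h1]; rfl
  rw [Finset.sum_eq_single m' h (fun h => absurd (Finset.mem_univ m') h)]
  show (Pi.single i (ev c) : Fin N → E) (s m') = _
  by_cases h1 : s m' = i
  · rw [if_pos h1, h1]
    simp
  · rw [if_neg h1, Pi.single_eq_of_ne h1]
    rfl

theorem smooth_T {N k : ℕ} (s : Fin k → Fin N) (F : (Fin k → E) → ℝ) (hF : ContDiff ℝ ∞ F) :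
    ContDiff ℝ ∞ (fun X : Fin N → E => F (fun m => X (s m))) :=
  hF.comp (T s).contDiff

theorem dvT {N k : ℕ} (s : Fin k → Fin N) (F : (Fin k → E) → ℝ) (hF : ContDiff ℝ ∞ F) (i : Fin N)
    (c : Fin 3) (X : Fin N → E) :
    dv (dir i c) (fun X : Fin N → E => F (fun m => X (s m))) X =
      ∑ m : Fin k, if s m = i then dv (dir m c) F (fun m => X (s m)) else 0 := by
  have h1 : HasFDerivAt F (fderiv ℝ F (T s X)) (T s X) :=
    (hF.differentiable (by simp) _).hasFDerivAt
  have h2 : HasFDerivAt (fun X : Fin N → E => F (fun m => X (s m)))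
      ((fderiv ℝ F (T s X)).comp (T s)) X := h1.comp X (T s).hasFDerivAt
  unfold dv
  rw [h2.fderiv, ContinuousLinearMap.comp_apply, T_dir, map_sum]
  refine Finset.sum_congr rfl fun m _ => ?_
  by_cases h : s m = i
  · rw [if_pos h, if_pos h]
    rfl
  · rw [if_neg h, if_neg h, map_zero]

theorem dvT2 {N k : ℕ} (s : Fin k → Fin N) (hs : Function.Injective s) (F : (Fin k → E) → ℝ)
    (hF : ContDiff ℝ ∞ F) (c : Fin 3) (X : Fin N → E) :
    ∑ i, dv (dir i c) (dv (dir i c) (fun X : Fin N → E => F (fun m => X (s m)))) X =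
      ∑ m : Fin k, dv (dir m c) (dv (dir m c) F) (fun m => X (s m)) := by
  have h1 : ∀ i : Fin N, dv (dir i c) (dv (dir i c) (fun X : Fin N → E => F (fun m => X (s m)))) X =
      ∑ m : Fin k, ∑ m' : Fin k, if s m = i then (if s m' = i then
        dv (dir m' c) (dv (dir m c) F) (fun m => X (s m)) else 0) else 0 := by
    intro i
    have e1 : dv (dir i c) (fun X : Fin N → E => F (fun m => X (s m))) = fun X =>
        ∑ m : Fin k, if s m = i then dv (dir m c) F (fun m => X (s m)) else 0 := by
      funext X
      exact dvT s F hF i c X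
    rw [e1, dv_sum]
    · refine Finset.sum_congr rfl fun m _ => ?_
      rw [dv_ite, dvT s (dv (dir m c) F) (contDiff_dv _ F hF) i c X]
      by_cases h : s m = i
      · simp only [h, if_true]
      · simp only [h, if_false, Finset.sum_const_zero]
    · intro m _
      by_cases h : s m = i
      · simp only [h, if_true]
        exact ((smooth_T s _ (contDiff_dv _ F hF)).differentiable (by simp)) X
      · simp only [h, if_false]
        exact differentiableAt_const _
  simp only [h1]
  rw [Finset.sum_comm]
  refine Finset.sum_congr rfl fun m _ => ?_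
  rw [Finset.sum_comm]
  rw [Finset.sum_eq_single m]
  · rw [Finset.sum_eq_single (s m)]
    · simp
    · intro i _ hi
      rw [if_neg (Ne.symm hi)]
    · intro h
      exact absurd (Finset.mem_univ _) h
  · intro m' _ hm
    refine Finset.sum_eq_zero fun i _ => ?_
    by_cases h : s m = i
    · have h2 : s m' ≠ i := by
        intro h3
        exact hm (hs (h3.trans h.symm))
      rw [if_pos h, if_neg h2]
    · rw [if_neg h]
  · intro h
    exact absurd (Finset.mem_univ _) h

end DUK_

open DUK_

theorem duk_proof : Stmt_DUK := by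
  intro N u hu
  have hub : ∀ A : Finset (Fin N), ContDiff ℝ ∞ (ub u A) := fun A =>
    smooth_T (fun m => A.orderEmbOfFin rfl m) (u A.card) (hu _)
  have hdub : ∀ (A : Finset (Fin N)) (X : Fin N → E), DifferentiableAt ℝ (ub u A) X := fun A X =>
    (hub A).differentiable (by simp) X
  refine ⟨fun S => ContDiff.sum fun A _ => hub A, ?_, ?_⟩
  · intro X i c
    have e1 : dv (dir i c) (US u (Finset.univ : Finset (Fin N))) X =
        ∑ A ∈ (Finset.univ : Finset (Fin N)).powerset, dv (dir i c) (ub u A) X :=
      dv_sum _ (fun A => ub u A) _ X (fun A _ => hdub A X)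
    rw [e1]
    refine (Finset.abs_sum_le_sum_abs _ _).trans (Finset.sum_le_sum fun A _ => ?_)
    have e2 : dv (dir i c) (ub u A) X = ∑ m : Fin A.card, if A.orderEmbOfFin rfl m = i then
        dv (dir m c) (u A.card) (fun m => X (A.orderEmbOfFin rfl m)) else 0 :=
      dvT (fun m => A.orderEmbOfFin rfl m) (u A.card) (hu _) i c X
    rw [e2]
    by_cases hi : i ∈ A
    · rw [if_pos hi]
      refine (Finset.abs_sum_le_sum_abs _ _).trans ?_
      unfold ub gg
      refine Finset.sum_le_sum fun m _ => ?_
      refine le_trans ?_ (Finset.single_le_sum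
        (f := fun c : Fin 3 => |dv (dir m c) (u A.card) (fun m => X (A.orderEmbOfFin rfl m))|)
        (fun _ _ => abs_nonneg _) (Finset.mem_univ c))
      by_cases h : A.orderEmbOfFin rfl m = i
      · rw [if_pos h]
      · rw [if_neg h, abs_zero]
        exact abs_nonneg _
    · rw [if_neg hi]
      have h0 : ∑ m : Fin A.card, (if A.orderEmbOfFin rfl m = i then
          dv (dir m c) (u A.card) (fun m => X (A.orderEmbOfFin rfl m)) else 0) = 0 := by
        refine Finset.sum_eq_zero fun m _ => ?_
        rw [if_neg]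
        intro h
        exact hi (h ▸ A.orderEmbOfFin_mem rfl m)
      rw [h0, abs_zero]
  · intro X
    have e1 : ∀ (i : Fin N) (c : Fin 3), dv (dir i c) (dv (dir i c) (US u (Finset.univ : Finset (Fin N)))) X =
        ∑ A ∈ (Finset.univ : Finset (Fin N)).powerset, dv (dir i c) (dv (dir i c) (ub u A)) X := by
      intro i c
      have e2 : dv (dir i c) (US u (Finset.univ : Finset (Fin N))) = fun X =>
          ∑ A ∈ (Finset.univ : Finset (Fin N)).powerset, dv (dir i c) (ub u A) X := by
        funext Y
        exact dv_sum _ (fun A => ub u A) _ Y (fun A _ => hdub A Y)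
      rw [e2]
      exact dv_sum _ (fun A => dv (dir i c) (ub u A)) _ X
        (fun A _ => (contDiff_dv _ _ (hub A)).differentiable (by simp) X)
    simp only [e1]
    have e3 : ∀ A : Finset (Fin N), ub (fun k => Lk k (u k)) A X =
        ∑ c : Fin 3, ∑ i, dv (dir i c) (dv (dir i c) (ub u A)) X := by
      intro A
      have h := fun c : Fin 3 => dvT2 (fun m => A.orderEmbOfFin rfl m)
        (A.orderEmbOfFin rfl).injective (u A.card) (hu _) c X
      have h2 : ∑ c : Fin 3, ∑ i, dv (dir i c) (dv (dir i c) (ub u A)) X =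
          ∑ c : Fin 3, ∑ m : Fin A.card, dv (dir m c) (dv (dir m c) (u A.card))
            (fun m => X (A.orderEmbOfFin rfl m)) :=
        Finset.sum_congr rfl fun c _ => h c
      rw [h2, Finset.sum_comm]
      rfl
    simp only [e3]
    calc ∑ i : Fin N, ∑ c : Fin 3, ∑ A ∈ (Finset.univ : Finset (Fin N)).powerset,
          dv (dir i c) (dv (dir i c) (ub u A)) X
        = ∑ c : Fin 3, ∑ i : Fin N, ∑ A ∈ (Finset.univ : Finset (Fin N)).powerset,
          dv (dir i c) (dv (dir i c) (ub u A)) X := Finset.sum_comm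
      _ = ∑ c : Fin 3, ∑ A ∈ (Finset.univ : Finset (Fin N)).powerset, ∑ i : Fin N,
          dv (dir i c) (dv (dir i c) (ub u A)) X :=
        Finset.sum_congr rfl fun c _ => Finset.sum_comm
      _ = _ := Finset.sum_comm

end Pool.Agent.TBC
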