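import Pool.Agent.TBC.Stmts

set_option autoImplicit false

open MeasureTheory Filter Topology
open scoped ContDiff

namespace Pool.Agent.TBC

open Pool.Agent.TBG Pool.Agent.TBF

theorem ebd_proof : Stmt_EBD := by
  intro k g R hg ht h0
  rcases k with _ | k
  · refine ⟨|g 0|, fun y => ?_⟩
    rw [Subsingleton.elim y 0]
  · obtain ⟨C, hC⟩ := (isCompact_closedBall (0 : Fin (k + 1) → E) |R|).exists_bound_of_continuousOn
      hg.continuousOn
    refine ⟨max C 0, fun y => ?_⟩
    by_cases h : ∃ i j, R < ‖y i - y j‖
    · rw [h0 y h, abs_zero]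
      exact le_max_right _ _
    · push Not at h
      have h1 : (fun i => y i + -(y 0)) ∈ Metric.closedBall (0 : Fin (k + 1) → E) |R| := by
        rw [mem_closedBall_zero_iff, pi_norm_le_iff_of_nonneg (abs_nonneg R)]
        intro i
        rw [← sub_eq_add_neg]
        exact (h i 0).trans (le_abs_self R)
      have h2 := hC _ h1
      rw [ht (-(y 0)) y, Real.norm_eq_abs] at h2
      exact h2.trans (le_max_left _ _)

end Pool.Agent.TBC
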