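import Pool.Agent.TBC.Stmts

/-!
Squad TBC, module EIA: upper bound of an expectation with a weight.
-/

set_option autoImplicit false

open MeasureTheory Filter Topology
open scoped ContDiff

namespace Pool.Agent.TBC

open Pool.Agent.TBG Pool.Agent.TBF

namespace EIA_

/-- compact support of the slices -/
theorem slice {m : ℕ} {g : (Fin (m + 1) → E) → ℝ} (hg : Rel m g) :
    Integrable (fun z : Fin m → E => g (Fin.cons (0 : E) z)) := by
  obtain ⟨R, hR⟩ := hg.supp
  have hc : Continuous (fun z : Fin m → E => g (Fin.cons (0 : E) z)) :=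
    hg.cont.comp (continuous_const.finCons continuous_id)
  refine hc.integrable_of_hasCompactSupport ?_
  refine HasCompactSupport.intro (isCompact_closedBall (0 : Fin m → E) |R|) ?_
  intro z hz
  rw [Metric.mem_closedBall, dist_zero_right, not_le] at hz
  have h1 : ∃ i, |R| < ‖z i‖ := by
    by_contra h
    push Not at h
    exact absurd ((pi_norm_le_iff_of_nonneg (abs_nonneg R)).2 h) (not_le.2 hz)
  obtain ⟨i, hi⟩ := h1
  refine hR _ ⟨i.succ, 0, ?_⟩
  rw [Fin.cons_succ, Fin.cons_zero, sub_zero]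
  exact lt_of_le_of_lt (le_abs_self R) hi

theorem trans_cons {m : ℕ} {g : (Fin (m + 1) → E) → ℝ} (hg : Rel m g) (x : E) (z : Fin m → E) :
    g (Fin.cons x z) = g (Fin.cons (0 : E) (z - fun _ => x)) := by
  rw [← hg.trans x (Fin.cons (0 : E) (z - fun _ => x))]
  congr 1
  funext i
  refine Fin.cases ?_ (fun i => ?_) i
  · simp
  · simp

theorem int_slice {m : ℕ} {g : (Fin (m + 1) → E) → ℝ} (hg : Rel m g) (x : E) :
    Integrable (fun z : Fin m → E => g (Fin.cons x z)) ∧
      ∫ z : Fin m → E, g (Fin.cons x z) = RI m g := by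
  have h1 : (fun z : Fin m → E => g (Fin.cons x z)) =
      fun z => (fun z => g (Fin.cons (0 : E) z)) (z - fun _ => x) :=
    funext fun z => trans_cons hg x z
  constructor
  · rw [h1]
    exact (slice hg).comp_sub_right (fun _ => x)
  · rw [h1]
    exact integral_sub_right_eq_self (fun z : Fin m → E => g (Fin.cons (0 : E) z)) (fun _ => x)

end EIA_

open EIA_ in
theorem eia_proof (hCFD : Pool.Agent.TBG.Stmt_CFD) (hEBD : Stmt_EBD) : Stmt_EIA := by
  intro m L χ g w hχ hg hg0 hw0 hwm hwi
  obtain ⟨hprob, _, hcc⟩ := hCFD L χ hχ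
  have hRI : 0 ≤ RI m g := integral_nonneg fun z => hg0 _
  refine ⟨slice hg, hRI, ?_⟩
  obtain ⟨R, hR⟩ := hg.supp
  obtain ⟨C, hC⟩ := hEBD (m + 1) g R hg.cont hg.trans hR
  have hvv : 0 < vv χ := hχ.pos
  have hmp : MeasurePreserving (MeasurableEquiv.piFinSuccAbove (fun _ : Fin (m + 1) => E) 0)
      (PP χ (m + 1)) ((nu χ).prod (PP χ m)) :=
    measurePreserving_piFinSuccAbove (fun _ : Fin (m + 1) => nu χ) 0
  have hPm : IsProbabilityMeasure (PP χ m) := by
    unfold PP
    infer_instance
  have e1 : ∫ y, w (y 0) * g y ∂(PP χ (m + 1)) =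
      ∫ q : E × (Fin m → E), w q.1 * g (Fin.cons q.1 q.2) ∂((nu χ).prod (PP χ m)) := by
    rw [← hmp.integral_comp (MeasurableEquiv.measurableEmbedding _)
      (fun q : E × (Fin m → E) => w q.1 * g (Fin.cons q.1 q.2))]
    refine integral_congr_ae (Eventually.of_forall fun y => ?_)
    have h2 : (Fin.cons ((MeasurableEquiv.piFinSuccAbove (fun _ : Fin (m + 1) => E) 0) y).1
        ((MeasurableEquiv.piFinSuccAbove (fun _ : Fin (m + 1) => E) 0) y).2 : Fin (m + 1) → E) =
        y := by
      funext i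
      refine Fin.cases ?_ (fun i => ?_) i
      · rfl
      · rfl
    show w (y 0) * g y = w (y 0) * g (Fin.cons
      ((MeasurableEquiv.piFinSuccAbove (fun _ : Fin (m + 1) => E) 0) y).1
        ((MeasurableEquiv.piFinSuccAbove (fun _ : Fin (m + 1) => E) 0) y).2)
    rw [h2]
  have hcons : Continuous (fun q : E × (Fin m → E) => g (Fin.cons q.1 q.2)) := by
    refine hg.cont.comp (continuous_pi fun i => ?_)
    refine Fin.cases ?_ (fun i => ?_) i
    · exact continuous_fst
    · exact (continuous_apply i).comp continuous_snd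
  have hint : Integrable (fun q : E × (Fin m → E) => w q.1 * g (Fin.cons q.1 q.2))
      ((nu χ).prod (PP χ m)) := by
    have h1 : Integrable (fun q : E × (Fin m → E) => w q.1 * C) ((nu χ).prod (PP χ m)) :=
      hwi.mul_prod (integrable_const C)
    refine h1.mono' ?_ (Eventually.of_forall fun q => ?_)
    · exact ((hwm.comp measurable_fst).mul hcons.measurable).aestronglyMeasurable
    · rw [Real.norm_eq_abs, abs_mul, abs_of_nonneg (hw0 _)]
      exact mul_le_mul_of_nonneg_left (hC _) (hw0 _)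
  rw [e1, integral_prod _ hint]
  have hCC : ∀ z : Fin m → E, CC χ z ^ 2 ≤ 1 := by
    intro z
    have h1 : 0 ≤ CC χ z := Finset.prod_nonneg fun i _ => hχ.nonneg _
    have h2 : CC χ z ≤ 1 := Finset.prod_le_one (fun i _ => hχ.nonneg _) fun i _ => hχ.le_one _
    nlinarith
  have hin : ∀ x : E, ∫ z, g (Fin.cons x z) ∂(PP χ m) ≤ (vv χ)⁻¹ ^ m * RI m g := by
    intro x
    have h1 := hcc m (fun z => g (Fin.cons x z))
    have h2 : ∫ z : Fin m → E, CC χ z ^ 2 * g (Fin.cons x z) ≤ RI m g := by
      rw [← (int_slice hg x).2]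
      refine integral_mono_of_nonneg (Eventually.of_forall fun z => ?_) (int_slice hg x).1
        (Eventually.of_forall fun z => ?_)
      · exact mul_nonneg (sq_nonneg _) (hg0 _)
      · calc CC χ z ^ 2 * g (Fin.cons x z) ≤ 1 * g (Fin.cons x z) :=
            mul_le_mul_of_nonneg_right (hCC z) (hg0 _)
          _ = g (Fin.cons x z) := one_mul _
    have h3 : ∫ z, g (Fin.cons x z) ∂(PP χ m) =
        (vv χ)⁻¹ ^ m * ∫ z : Fin m → E, CC χ z ^ 2 * g (Fin.cons x z) := by
      rw [h1, ← mul_assoc, ← mul_pow, inv_mul_cancel₀ hvv.ne', one_pow, one_mul]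
    rw [h3]
    exact mul_le_mul_of_nonneg_left h2 (by positivity)
  have hout : ∫ x, ∫ z, w x * g (Fin.cons x z) ∂(PP χ m) ∂(nu χ) ≤
      ∫ x, w x * ((vv χ)⁻¹ ^ m * RI m g) ∂(nu χ) := by
    refine integral_mono_of_nonneg (Eventually.of_forall fun x => ?_) (hwi.mul_const _)
      (Eventually.of_forall fun x => ?_)
    · exact integral_nonneg fun z => mul_nonneg (hw0 _) (hg0 _)
    · show ∫ z, w x * g (Fin.cons x z) ∂(PP χ m) ≤ _
      rw [integral_const_mul]
      exact mul_le_mul_of_nonneg_left (hin x) (hw0 x)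
  refine hout.trans (le_of_eq ?_)
  rw [integral_mul_const]
  ring

end Pool.Agent.TBC
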