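import Pool.Agent.TBC.Stmts

set_option autoImplicit false

open MeasureTheory Filter Topology
open scoped ContDiff

namespace Pool.Agent.TBC

open Pool.Agent.TBG Pool.Agent.TBF

namespace EIB_

lemma cons_add (m : ℕ) (g : (Fin (m + 1) → E) → ℝ)
    (htr : ∀ (a : E) (y : Fin (m + 1) → E), g (fun i => y i + a) = g y) (x : E) (z : Fin m → E) :
    g (Fin.cons x (z + fun _ => x)) = g (Fin.cons (0 : E) z) := by
  rw [← htr x (Fin.cons (0 : E) z)]
  congr 1
  funext i
  refine Fin.cases ?_ (fun j => ?_) i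
  · simp
  · simp

lemma cont_cons (m : ℕ) (x : E) : Continuous (fun z : Fin m → E => (Fin.cons x z : Fin (m + 1) → E)) := by
  refine continuous_pi fun i => ?_
  refine Fin.cases ?_ (fun j => ?_) i
  · simpa using continuous_const
  · simpa using continuous_apply j

lemma supp_le (m : ℕ) (g : (Fin (m + 1) → E) → ℝ) (R : ℝ)
    (hs : ∀ y : Fin (m + 1) → E, (∃ i j, R < ‖y i - y j‖) → g y = 0)
    (z : Fin m → E) (hz : g (Fin.cons (0 : E) z) ≠ 0) (i : Fin m) : ‖z i‖ ≤ R := by
  by_contra h
  push Not at h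
  exact hz (hs _ ⟨i.succ, 0, by simpa using h⟩)

lemma integrable_cons (m : ℕ) (g : (Fin (m + 1) → E) → ℝ) (R : ℝ) (hg : Continuous g) (hR : 0 ≤ R)
    (hs : ∀ y : Fin (m + 1) → E, (∃ i j, R < ‖y i - y j‖) → g y = 0) :
    Integrable (fun z : Fin m → E => g (Fin.cons (0 : E) z)) := by
  apply Continuous.integrable_of_hasCompactSupport
  · exact hg.comp (cont_cons m 0)
  · refine HasCompactSupport.intro (isCompact_closedBall (0 : Fin m → E) R) fun z hz => ?_
    by_contra h
    apply hz
    rw [mem_closedBall_zero_iff, pi_norm_le_iff_of_nonneg hR]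
    exact supp_le m g R hs z h

end EIB_

open EIB_ in
theorem eib_proof (hCFD : Stmt_CFD) (_hEBD : Stmt_EBD) (_hEIA : Stmt_EIA) : Stmt_EIB := by
  intro m L χ g R D hχ hg hs hDm hDf hD hR
  obtain ⟨_, _, hC⟩ := hCFD L χ hχ
  have hv : 0 < vv χ := hχ.pos
  have hχc : Continuous χ := hχ.smooth.continuous
  -- the function on the whole space
  set F : (Fin (m + 1) → E) → ℝ := fun Y => CC χ Y ^ 2 * g Y with hF
  have hCc : Continuous (fun Y : Fin (m + 1) → E => CC χ Y) := by
    unfold CC
    exact continuous_finsetProd _ fun i _ => hχc.comp (continuous_apply i)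
  have hFc : Continuous F := (hCc.pow 2).mul hg.cont
  have hFs : HasCompactSupport F := by
    refine HasCompactSupport.intro (isCompact_univ_pi (fun _ : Fin (m + 1) => hχ.cpt.isCompact)) fun Y hY => ?_
    have : ∃ i, Y i ∉ tsupport χ := by
      by_contra h
      push Not at h
      exact hY (fun i _ => h i)
    obtain ⟨i, hi⟩ := this
    have h0 : χ (Y i) = 0 := image_eq_zero_of_notMem_tsupport hi
    have h1 : CC χ Y = 0 := Finset.prod_eq_zero (Finset.mem_univ i) h0
    simp [hF, h1]
  have hFi : Integrable F := hFc.integrable_of_hasCompactSupport hFs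
  -- splitting off the first particle
  let e := MeasurableEquiv.piFinSuccAbove (fun _ : Fin (m + 1) => E) 0
  have hmp : MeasurePreserving e.symm := (volume_preserving_piFinSuccAbove (fun _ : Fin (m + 1) => E) 0).symm
  have he : ∀ (x : E) (w : Fin m → E), e.symm (x, w) = (Fin.cons x w : Fin (m + 1) → E) := by
    intro x w
    show (Fin.insertNth 0 x w : Fin (m + 1) → E) = _
    exact Fin.insertNth_zero' x w
  have hFe : Integrable (fun p : E × (Fin m → E) => F (e.symm p)) (volume.prod volume) :=
    (hmp.integrable_comp_emb e.symm.measurableEmbedding).2 hFi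
  set J : E → ℝ := fun x => ∫ z : Fin m → E, (∏ i, χ (z i + x)) ^ 2 * g (Fin.cons (0 : E) z) with hJ
  have hin : ∀ x : E, ∫ w : Fin m → E, F (e.symm (x, w)) = χ x ^ 2 * J x := by
    intro x
    rw [← integral_add_right_eq_self (fun w : Fin m → E => F (e.symm (x, w))) (fun _ => x)]
    rw [hJ]
    simp only
    rw [← integral_const_mul]
    refine integral_congr_ae (Eventually.of_forall fun z => ?_)
    simp only [he, hF]
    rw [cons_add m g hg.trans x z]
    unfold CC
    rw [Fin.prod_univ_succ]
    simp only [Fin.cons_zero, Fin.cons_succ, Pi.add_apply]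
    ring
  have hT : ∫ Y, F Y = ∫ x, χ x ^ 2 * J x := by
    rw [← hmp.integral_comp' F, Measure.volume_eq_prod, integral_prod _ hFe]
    exact integral_congr_ae (Eventually.of_forall hin)
  have hTi : Integrable (fun x => χ x ^ 2 * J x) := by
    have := hFe.integral_prod_left
    exact this.congr (Eventually.of_forall hin)
  have hgi := integrable_cons m g R hg.cont hR hs
  have hgi' : Integrable (fun z : Fin m → E => |g (Fin.cons (0 : E) z)|) := hgi.abs
  have hJb : ∀ x, |J x| ≤ RI m (fun y => |g y|) := by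
    intro x
    rw [← Real.norm_eq_abs, hJ]
    refine norm_integral_le_of_norm_le hgi' (Eventually.of_forall fun z => ?_)
    rw [Real.norm_eq_abs, abs_mul]
    have h1 : 0 ≤ ∏ i, χ (z i + x) := Finset.prod_nonneg fun i _ => hχ.nonneg _
    have h2 : ∏ i, χ (z i + x) ≤ 1 := Finset.prod_le_one (fun i _ => hχ.nonneg _) fun i _ => hχ.le_one _
    have h3 : |(∏ i, χ (z i + x)) ^ 2| ≤ 1 := by
      rw [abs_of_nonneg (by positivity)]
      exact pow_le_one₀ h1 h2
    calc |(∏ i, χ (z i + x)) ^ 2| * |g (Fin.cons (0 : E) z)| ≤ 1 * |g (Fin.cons (0 : E) z)| :=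
          mul_le_mul_of_nonneg_right h3 (abs_nonneg _)
      _ = _ := one_mul _
  have hJD : ∀ x ∈ D, J x = RI m g := by
    intro x hx
    rw [hJ]
    unfold RI
    refine integral_congr_ae (Eventually.of_forall fun z => ?_)
    simp only
    by_cases h0 : g (Fin.cons (0 : E) z) = 0
    · rw [h0, mul_zero]
    · have h1 : ∏ i, χ (z i + x) = 1 := by
        refine Finset.prod_eq_one fun i _ => hD x hx _ ?_
        rw [add_sub_cancel_right]
        exact supp_le m g R hs z h0 i
      rw [h1]
      ring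
  have hD1 : ∀ x ∈ D, χ x = 1 := fun x hx => hD x hx x (by simpa using hR)
  have hfin : volume D ≠ ⊤ := hDf.ne
  have hIi : ∀ c : ℝ, Integrable (D.indicator (fun _ : E => c)) := fun c =>
    (integrable_indicator_iff hDm).2 (integrableOn_const hfin)
  have hIv : ∀ c : ℝ, ∫ x, D.indicator (fun _ : E => c) x = (volume D).toReal * c := by
    intro c
    rw [integral_indicator hDm, setIntegral_const]
    simp [Measure.real]
  have hχi : Integrable (fun x => χ x ^ 2) := by
    apply (hχc.pow 2).integrable_of_hasCompactSupport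
    refine HasCompactSupport.intro hχ.cpt.isCompact fun x hx => ?_
    simp [image_eq_zero_of_notMem_tsupport hx]
  set K := RI m (fun y => |g y|) with hK
  have hK0 : 0 ≤ K := by
    rw [hK]
    exact integral_nonneg fun z => abs_nonneg _
  -- the estimate
  have hest : |(∫ Y, F Y) - (volume D).toReal * RI m g| ≤ (vv χ - (volume D).toReal) * K := by
    rw [hT, ← hIv (RI m g), ← integral_sub hTi (hIi _)]
    have h2 : (vv χ - (volume D).toReal) * K = ∫ x, (χ x ^ 2 - D.indicator (fun _ : E => (1 : ℝ)) x) * K := by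
      rw [integral_mul_const, integral_sub hχi (hIi 1), hIv 1, mul_one]
      rfl
    rw [h2, ← Real.norm_eq_abs]
    refine norm_integral_le_of_norm_le ((hχi.sub (hIi 1)).mul_const K) (Eventually.of_forall fun x => ?_)
    rw [Real.norm_eq_abs]
    by_cases hx : x ∈ D
    · rw [Set.indicator_of_mem hx, Set.indicator_of_mem hx, hJD x hx, hD1 x hx]
      simp
    · rw [Set.indicator_of_notMem hx, Set.indicator_of_notMem hx, sub_zero, sub_zero, abs_mul,
        abs_of_nonneg (sq_nonneg (χ x))]
      exact mul_le_mul_of_nonneg_left (hJb x) (sq_nonneg _)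
  have hPP : ∫ y, g y ∂(PP χ (m + 1)) = (vv χ)⁻¹ ^ (m + 1) * ∫ Y, F Y := by
    rw [hF, hC (m + 1) g, ← mul_assoc, ← mul_pow, inv_mul_cancel₀ hv.ne', one_pow, one_mul]
  rw [hPP]
  have h4 : (vv χ)⁻¹ ^ (m + 1) * (∫ Y, F Y) - (vv χ)⁻¹ ^ (m + 1) * (volume D).toReal * RI m g =
      (vv χ)⁻¹ ^ (m + 1) * ((∫ Y, F Y) - (volume D).toReal * RI m g) := by ring
  have h5 : 0 ≤ (vv χ)⁻¹ ^ (m + 1) := by positivity
  rw [h4, abs_mul, abs_of_nonneg h5, mul_assoc]
  exact mul_le_mul_of_nonneg_left hest h5

end Pool.Agent.TBC
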