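import Pool.Agent.TBC.Stmts

set_option autoImplicit false

open MeasureTheory Filter Topology
open scoped ContDiff

namespace Pool.Agent.TBC

open Pool.Agent.TBG Pool.Agent.TBF

namespace ENK_

theorem pot_eq {N : ℕ} (V : E → E → ℝ) (X : Fin N → E) :
    pot V X = ∑ t ∈ trip (Finset.univ : Finset (Fin N)), tr (fun z => V z.1 z.2) X t.1 t.2.1 t.2.2 := by
  unfold pot trip tr
  rw [Finset.sum_filter, Finset.sum_product]
  refine Finset.sum_congr rfl fun i _ => ?_
  rw [Finset.sum_product]

theorem cont_pot {N : ℕ} (V : E → E → ℝ) (hV : Continuous (fun z : E × E => V z.1 z.2)) :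
    Continuous (fun X : Fin N → E => pot V X) := by
  have h1 : (fun X : Fin N → E => pot V X) =
      fun X => ∑ t ∈ trip (Finset.univ : Finset (Fin N)), tr (fun z => V z.1 z.2) X t.1 t.2.1 t.2.2 := by
    funext X
    exact pot_eq V X
  rw [h1]
  refine continuous_finsetSum _ fun t _ => ?_
  have h2 : Continuous (fun X : Fin N → E => ((X t.1 - X t.2.1, X t.1 - X t.2.2) : E × E)) := by
    fun_prop
  exact hV.comp h2

theorem cont_dv {W : Type} [NormedAddCommGroup W] [NormedSpace ℝ W] (v : W) (f : W → ℝ)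
    (hf : ContDiff ℝ ∞ f) : Continuous (dv v f) := by
  unfold dv
  have h1 : Continuous (fderiv ℝ f) := hf.continuous_fderiv (by simp)
  exact h1.clm_apply continuous_const

theorem smooth_dv {W : Type} [NormedAddCommGroup W] [NormedSpace ℝ W] (v : W) (f : W → ℝ)
    (hf : ContDiff ℝ ∞ f) : ContDiff ℝ ∞ (dv v f) := by
  unfold dv
  have h1 : ContDiff ℝ ∞ (fderiv ℝ f) := hf.fderiv_right (by simp)
  exact h1.clm_apply contDiff_const

theorem dv_zero {W : Type} [NormedAddCommGroup W] [NormedSpace ℝ W] (v : W) (f : W → ℝ) (x : W)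
    (hx : x ∉ tsupport f) : dv v f x = 0 := by
  unfold dv
  have h1 : fderiv ℝ f x = 0 := by
    by_contra h
    exact hx (support_fderiv_subset ℝ (Function.mem_support.2 h))
  rw [h1]
  rfl

theorem integ {W : Type} [NormedAddCommGroup W] [NormedSpace ℝ W] [FiniteDimensional ℝ W]
    [MeasurableSpace W] [BorelSpace W] (μ : Measure W) [μ.IsAddHaarMeasure] (C g : W → ℝ)
    (hC : HasCompactSupport C) (hg : Continuous g) (h0 : ∀ x, x ∉ tsupport C → g x = 0) :
    Integrable g μ :=
  hg.integrable_of_hasCompactSupport (HasCompactSupport.intro hC h0)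

end ENK_

open ENK_ in
theorem enk_proof (hIMS : Stmt_IMS) (hDCC : Stmt_DCC) (_hLAM : Stmt_LAM) (hDUK : Stmt_DUK)
    (hPOT : Stmt_POT) : Stmt_ENK := by
  intro N L χ u V hN hχ hu _ hV
  obtain ⟨hC1, hC2, hC3, hC4⟩ := hDCC N L χ hχ hN
  obtain ⟨hU0, -, hU3⟩ := hDUK N u hu
  have hU1 := hU0 Finset.univ
  set C : (Fin N → E) → ℝ := CC χ with hCdef
  set U : (Fin N → E) → ℝ := US u Finset.univ with hUdef
  have hCz : ∀ x, x ∉ tsupport C → C x = 0 := fun x hx => image_eq_zero_of_notMem_tsupport hx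
  have hDCz : ∀ v x, x ∉ tsupport C → dv v C x = 0 := fun v x hx => dv_zero v C x hx
  have hCc : Continuous C := hC1.continuous
  have hUc : Continuous U := hU1.continuous
  have hPsi : PsiK (N := N) χ u = fun X => C X * Real.exp (U X) := by
    funext X
    rfl
  -- the pieces
  set h : Fin N → Fin 3 → (Fin N → E) → ℝ := fun i c X => Real.exp (2 * U X) *
    ((dv (dir i c) C X) ^ 2 + C X * dv (dir i c) C X * dv (dir i c) U X
      - 1 / 2 * C X ^ 2 * dv (dir i c) (dv (dir i c) U) X) with hh
  have hPs : ContDiff ℝ ∞ (fun X => C X * Real.exp (U X)) := hC1.mul hU1.exp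
  have hsupp : ∀ x, x ∉ tsupport C → x ∉ tsupport (fun X => C X * Real.exp (U X)) := by
    intro x hx hx'
    exact hx (closure_mono (Function.support_mul_subset_left _ _) hx')
  have hA : ∀ i c, Integrable (fun X => (dv (dir i c) (fun X => C X * Real.exp (U X)) X) ^ 2)
      (volume : Measure (Fin N → E)) := by
    intro i c
    refine integ volume C _ hC2 ((cont_dv _ _ hPs).pow 2) fun x hx => ?_
    simp only [dv_zero _ _ x (hsupp x hx)]
    norm_num
  have hB : Integrable (fun X => pot V X * (C X * Real.exp (U X)) ^ 2)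
      (volume : Measure (Fin N → E)) := by
    refine integ volume C _ hC2 ((cont_pot V hV).mul (hPs.continuous.pow 2)) fun x hx => ?_
    simp only [hCz x hx]
    ring
  have hH : ∀ i c, Integrable (h i c) (volume : Measure (Fin N → E)) := by
    intro i c
    refine integ volume C _ hC2 ?_ fun x hx => ?_
    · have e1 : Continuous (dv (dir i c) C) := cont_dv _ _ hC1
      have e2 : Continuous (dv (dir i c) U) := cont_dv _ _ hU1
      have e3 : Continuous (dv (dir i c) (dv (dir i c) U)) := cont_dv _ _ (smooth_dv _ _ hU1)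
      simp only [hh]
      fun_prop
    · simp only [hh, hCz x hx, hDCz _ x hx]
      ring
  have e1 : enR V (PsiK (N := N) χ u) = (∑ i, ∑ c, ∫ X, h i c X) +
      ∫ X, pot V X * (C X * Real.exp (U X)) ^ 2 := by
    unfold enR
    rw [hPsi]
    rw [integral_add (integrable_finsetSum _ fun i _ => integrable_finsetSum _ fun c _ => hA i c) hB]
    congr 1
    rw [integral_finsetSum _ fun i _ => integrable_finsetSum _ fun c _ => hA i c]
    refine Finset.sum_congr rfl fun i _ => ?_
    rw [integral_finsetSum _ fun c _ => hA i c]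
    refine Finset.sum_congr rfl fun c _ => ?_
    exact hIMS (Fin N → E) volume C U (dir i c) hC1 hU1 hC2
  have e2 : (∑ i, ∑ c, ∫ X, h i c X) + ∫ X, pot V X * (C X * Real.exp (U X)) ^ 2 =
      ∫ X, ((∑ i, ∑ c, h i c X) + pot V X * (C X * Real.exp (U X)) ^ 2) := by
    rw [integral_add (integrable_finsetSum _ fun i _ => integrable_finsetSum _ fun c _ => hH i c) hB]
    congr 1
    rw [integral_finsetSum _ fun i _ => integrable_finsetSum _ fun c _ => hH i c]
    refine Finset.sum_congr rfl fun i _ => ?_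
    rw [integral_finsetSum _ fun c _ => hH i c]
  rw [e1, e2]
  refine integral_congr_ae (Eventually.of_forall fun X => ?_)
  show (∑ i, ∑ c, h i c X) + pot V X * (C X * Real.exp (U X)) ^ 2 = C X ^ 2 *
    (WW u Finset.univ X * (∑ A ∈ (Finset.univ : Finset (Fin N)).powerset, ub (ee V u) A X
      + ∑ i, ∑ c, (lam χ c (X i) ^ 2 + lam χ c (X i) * dv (dir i c) U X)))
  have hexp : Real.exp (2 * U X) = WW u Finset.univ X := rfl
  have hpt : ∀ i c, h i c X = C X ^ 2 * WW u Finset.univ X *
      (lam χ c (X i) ^ 2 + lam χ c (X i) * dv (dir i c) U X) -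
      1 / 2 * (C X ^ 2 * WW u Finset.univ X) * dv (dir i c) (dv (dir i c) U) X := by
    intro i c
    simp only [hh]
    rw [hexp, hC4 X i c]
    ring
  have hsum : (∑ i, ∑ c, h i c X) = C X ^ 2 * WW u Finset.univ X *
      (∑ i, ∑ c, (lam χ c (X i) ^ 2 + lam χ c (X i) * dv (dir i c) U X)) -
      1 / 2 * (C X ^ 2 * WW u Finset.univ X) * ∑ i, ∑ c, dv (dir i c) (dv (dir i c) U) X := by
    rw [Finset.mul_sum, Finset.mul_sum, ← Finset.sum_sub_distrib]
    refine Finset.sum_congr rfl fun i _ => ?_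
    rw [Finset.mul_sum, Finset.mul_sum, ← Finset.sum_sub_distrib]
    exact Finset.sum_congr rfl fun c _ => hpt i c
  have hee : ∑ A ∈ (Finset.univ : Finset (Fin N)).powerset, ub (ee V u) A X =
      pot V X - 1 / 2 * ∑ i, ∑ c, dv (dir i c) (dv (dir i c) U) X := by
    rw [hU3 X, hPOT N V X, Finset.mul_sum, ← Finset.sum_sub_distrib]
    rfl
  rw [hsum, hee]
  have hsq : (C X * Real.exp (U X)) ^ 2 = C X ^ 2 * WW u Finset.univ X := by
    rw [mul_pow, ← hexp, ← Real.exp_nat_mul]
    norm_num
  rw [hsq]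
  ring

end Pool.Agent.TBC
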