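import Pool.Agent.TBC.Stmts

set_option autoImplicit false

open MeasureTheory Filter Topology
open scoped ContDiff

namespace Pool.Agent.TBC

open Pool.Agent.TBG Pool.Agent.TBF

namespace ENU_

lemma vb_zero (V : E → E → ℝ) (k : ℕ) (hk : k ≠ 3) (y : Fin k → E) : vb V k y = 0 := by
  match k, hk, y with
  | 0, _, _ => rfl
  | 1, _, _ => rfl
  | 2, _, _ => rfl
  | 3, h, _ => exact absurd rfl h
  | (n + 4), _, _ => rfl

lemma dist_three (y : Fin 3 → E) (R : ℝ) (h : ∃ i j, 2 * R < ‖y i - y j‖) :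
    R < ‖((y 0 - y 1, y 0 - y 2) : E × E)‖ := by
  obtain ⟨i, j, hij⟩ := h
  set z : E × E := (y 0 - y 1, y 0 - y 2) with hz
  have h1 : ‖y 0 - y 1‖ ≤ ‖z‖ := norm_fst_le z
  have h2 : ‖y 0 - y 2‖ ≤ ‖z‖ := norm_snd_le z
  have h0 : 0 ≤ ‖z‖ := norm_nonneg z
  have h3 : ‖y 1 - y 2‖ ≤ 2 * ‖z‖ := by
    have : y 1 - y 2 = (y 0 - y 2) - (y 0 - y 1) := by abel
    rw [this]
    calc ‖(y 0 - y 2) - (y 0 - y 1)‖ ≤ ‖y 0 - y 2‖ + ‖y 0 - y 1‖ := norm_sub_le _ _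
      _ ≤ 2 * ‖z‖ := by linarith
  have key : ‖y i - y j‖ ≤ 2 * ‖z‖ := by
    have h1' : ‖y 1 - y 0‖ ≤ ‖z‖ := by rw [norm_sub_rev]; exact h1
    have h2' : ‖y 2 - y 0‖ ≤ ‖z‖ := by rw [norm_sub_rev]; exact h2
    have h3' : ‖y 2 - y 1‖ ≤ 2 * ‖z‖ := by rw [norm_sub_rev]; exact h3
    fin_cases i <;> fin_cases j <;> simp <;> linarith
  linarith

end ENU_

open ENU_ in
theorem enu_proof (hKAF : Pool.Agent.TBG.Stmt_KAF) (_hLPC : Pool.Agent.TBG.Stmt_LPC) (hKIV : Stmt_KIV)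
    (hFMU : Stmt_FMU) (hLRL : Stmt_LRL) : Stmt_ENU := by
  intro f V ξ h M r r' hN hX hH hr
  obtain ⟨hFam, -, -⟩ := hFMU f ξ h M r r' hN.jas hX hH hr
  set u : KF := uu f ξ (4 * M) h with hu
  obtain ⟨-, hinv, -, -, hcont, -, hsupp⟩ := hKIV u V hFam.inv hFam.smooth hN.adm hN.cont
  obtain ⟨-, -, hkk, -, -, -, -, -, hlap⟩ := hKAF f V hN
  -- the logarithm
  have hlog : ContDiff ℝ ∞ (fun z => Real.log (f z)) := by
    have hf := hN.jas.smooth
    refine hf.log fun z => ?_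
    have := hN.jas.half_le z
    linarith
  have h3 : ∀ y : Fin 3 → E, ee V u 3 y = kk f V (y 0 - y 1, y 0 - y 2) := by
    intro y
    have e1 : vb V 3 y = V (y 0 - y 1) (y 0 - y 2) := rfl
    have e2 : u 3 = fun y : Fin 3 → E => (fun z => Real.log (f z)) (y 0 - y 1, y 0 - y 2) := rfl
    have e3 : Lk 3 (u 3) y = 2 * (V (y 0 - y 1) (y 0 - y 2) - kk f V (y 0 - y 1, y 0 - y 2)) := by
      rw [e2, hLRL.1 (fun z => Real.log (f z)) hlog y, hlap]
    unfold ee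
    rw [e1, e3]
    ring
  have h4 : ∀ y : Fin 4 → E, ee V u 4 y = -(1 / 2 * Lap4 ξ (rl y)) := by
    intro y
    have e1 : vb V 4 y = 0 := rfl
    have e2 : u 4 = fun y : Fin 4 → E => ξ (rl y) := rfl
    unfold ee
    rw [e1, e2, hLRL.2.1 ξ hX.smooth y]
    ring
  have h5 : ∀ y : Fin 5 → E, ee V u 5 y =
      -(1 / 2 * Lk 5 (fun y : Fin 5 → E => -(4 * M * ∏ a, ∏ b ∈ Finset.Ioi a, h (y a - y b))) y) := by
    intro y
    have e1 : vb V 5 y = 0 := rfl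
    have e2 : u 5 = fun y : Fin 5 → E => -(4 * M * ∏ a, ∏ b ∈ Finset.Ioi a, h (y a - y b)) := rfl
    unfold ee
    rw [e1, e2]
    ring
  -- the other indices
  have hz : ∀ k, k ≠ 3 → k ≠ 4 → k ≠ 5 → ∀ y, ee V u k y = 0 := by
    intro k k3 k4 k5 y
    have e0 : ∀ y : Fin k → E, u k y = 0 := hFam.zero k k3 k4 k5
    have e1 : u k = fun _ => 0 := funext e0
    have e2 : Lk k (u k) y = 0 := by
      rw [e1]
      unfold Lk dv
      simp
    unfold ee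
    rw [vb_zero V k k3 y, e2]
    ring
  obtain ⟨R0, hR0⟩ : ∃ R0 : ℝ, ∀ z : E × E, R0 < ‖z‖ → kk f V z = 0 := by
    obtain ⟨R0, hR0⟩ := hkk.cpt.isCompact.isBounded.subset_closedBall 0
    refine ⟨R0, fun z hz => ?_⟩
    by_contra hne
    have h1 : z ∈ tsupport (kk f V) := subset_tsupport _ hne
    have h2 := hR0 h1
    rw [mem_closedBall_zero_iff] at h2
    linarith
  refine ⟨⟨hinv, hcont, ?_, ?_, hz⟩, h3, h4, h5⟩
  · intro y
    rw [h3]
    unfold kk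
    exact div_nonneg (hN.kap_nonneg _) (sq_nonneg _)
  · refine ⟨max (2 * R0) (max r r'), ?_⟩
    intro k y hy
    obtain ⟨i, j, hij⟩ := hy
    by_cases k3 : k = 3
    · subst k3
      rw [h3]
      exact hR0 _ (dist_three y R0 ⟨i, j, lt_of_le_of_lt (le_max_left _ _) hij⟩)
    · by_cases k4 : k = 4
      · subst k4
        have hlt : r < ‖y i - y j‖ := lt_of_le_of_lt ((le_max_left _ _).trans (le_max_right _ _)) hij
        have e := (hsupp 4 r hFam.sup4 y ⟨i, j, hlt⟩).2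
        unfold ee
        rw [vb_zero V 4 k3 y, e]
        ring
      · by_cases k5 : k = 5
        · subst k5
          have hlt : r' < ‖y i - y j‖ := lt_of_le_of_lt ((le_max_right _ _).trans (le_max_right _ _)) hij
          have e := (hsupp 5 r' hFam.sup5 y ⟨i, j, hlt⟩).2
          unfold ee
          rw [vb_zero V 5 k3 y, e]
          ring
        · exact hz k k3 k4 k5 y

end Pool.Agent.TBC
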