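import Pool.Agent.TBC.Stmts

/-!
# Three-body Bose gases (MP_80dc41_mp), module EUK: upper bound of the energy by expectations
-/

set_option autoImplicit false

open MeasureTheory Filter Topology
open scoped ContDiff

namespace Pool.Agent.TBC

open Pool.Agent.TBG Pool.Agent.TBF

namespace EUK_

/-- almost surely all the particles are in the support of `χ` -/
theorem ae_mem {N : ℕ} {L : ℝ} {χ : E → ℝ} (_hχ : Cut L χ) (hp : IsProbabilityMeasure (nu χ)) :
    ∀ᵐ X ∂(PP χ N), ∀ i, X i ∈ tsupport χ := by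
  have h1 : ∀ᵐ x ∂(nu χ), x ∈ tsupport χ := by
    have h2 : (nu χ) (tsupport χ)ᶜ = 0 := by
      unfold nu
      rw [withDensity_apply _ (isClosed_tsupport χ).measurableSet.compl]
      rw [setLIntegral_congr_fun (g := fun _ => 0) (isClosed_tsupport χ).measurableSet.compl]
      · simp
      · intro x hx
        have h3 : χ x = 0 := image_eq_zero_of_notMem_tsupport hx
        simp [h3]
    rw [ae_iff]
    exact h2
  rw [ae_all_iff]
  intro i
  unfold PP
  exact (Measure.tendsto_eval_ae_ae (μ := fun _ : Fin N => nu χ) (i := i)).eventually h1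

/-- continuous functions are bounded almost surely -/
theorem ae_bdd {N : ℕ} {L : ℝ} {χ : E → ℝ} (hχ : Cut L χ) (hp : IsProbabilityMeasure (nu χ))
    {g : (Fin N → E) → ℝ} (hg : Continuous g) : ∃ C : ℝ, ∀ᵐ X ∂(PP χ N), ‖g X‖ ≤ C := by
  have hK : IsCompact (Set.pi Set.univ (fun _ : Fin N => tsupport χ)) :=
    isCompact_univ_pi fun _ => hχ.cpt
  obtain ⟨C, hC⟩ := hK.exists_bound_of_continuousOn hg.continuousOn
  refine ⟨C, ?_⟩
  filter_upwards [ae_mem (N := N) hχ hp] with X hX
  exact hC X fun i _ => hX i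

/-- the pointwise bound of the cross terms -/
theorem cross_le {N : ℕ} (T : Finset (Finset (Fin N))) (F : ℝ) (hF : 0 ≤ F)
    (lm : Fin 3 → Fin N → ℝ) (D : Fin N → Fin 3 → ℝ) (G : Finset (Fin N) → ℝ)
    (hD : ∀ i c, |D i c| ≤ ∑ A ∈ T, if i ∈ A then G A else 0) :
    ∑ i, ∑ c, F * (lm c i * D i c) ≤
      ∑ A ∈ T, ∑ i ∈ A, ∑ c : Fin 3, F * (|lm c i| * G A) := by
  have h1 : ∀ i c, F * (lm c i * D i c) ≤
      ∑ A ∈ T, if i ∈ A then F * (|lm c i| * G A) else 0 := by
    intro i c
    have h2 : lm c i * D i c ≤ |lm c i| * |D i c| := by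
      rw [← abs_mul]
      exact le_abs_self _
    have h3 : |lm c i| * |D i c| ≤ |lm c i| * (∑ A ∈ T, if i ∈ A then G A else 0) :=
      mul_le_mul_of_nonneg_left (hD i c) (abs_nonneg _)
    refine (mul_le_mul_of_nonneg_left (h2.trans h3) hF).trans (le_of_eq ?_)
    rw [← mul_assoc, Finset.mul_sum]
    refine Finset.sum_congr rfl fun A _ => ?_
    split_ifs
    · ring
    · rw [mul_zero]
  refine (Finset.sum_le_sum fun i _ => Finset.sum_le_sum fun c _ => h1 i c).trans
    (le_of_eq ?_)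
  calc ∑ i, ∑ c : Fin 3, ∑ A ∈ T, (if i ∈ A then F * (|lm c i| * G A) else 0)
      = ∑ i, ∑ A ∈ T, ∑ c : Fin 3, (if i ∈ A then F * (|lm c i| * G A) else 0) :=
        Finset.sum_congr rfl fun i _ => Finset.sum_comm
    _ = ∑ A ∈ T, ∑ i, ∑ c : Fin 3, (if i ∈ A then F * (|lm c i| * G A) else 0) := Finset.sum_comm
    _ = ∑ A ∈ T, ∑ i ∈ A, ∑ c : Fin 3, F * (|lm c i| * G A) := by
        refine Finset.sum_congr rfl fun A _ => ?_
        rw [← Finset.sum_filter_add_sum_filter_not Finset.univ (fun i => i ∈ A)]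
        have e1 : ∑ i ∈ Finset.univ.filter (fun i => i ∉ A), ∑ c : Fin 3,
            (if i ∈ A then F * (|lm c i| * G A) else 0) = 0 := by
          refine Finset.sum_eq_zero fun i hi => Finset.sum_eq_zero fun c _ => ?_
          rw [if_neg (Finset.mem_filter.1 hi).2]
        rw [e1, add_zero]
        have e2 : Finset.univ.filter (fun i => i ∈ A) = A := by
          ext i
          simp
        rw [e2]
        refine Finset.sum_congr rfl fun i hi => Finset.sum_congr rfl fun c _ => ?_
        rw [if_pos hi]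

end EUK_

open EUK_ in
theorem euk_proof (hTRI : Pool.Agent.TBG.Stmt_TRI) (hCFD : Pool.Agent.TBG.Stmt_CFD)
    (hLAM : Pool.Agent.TBG.Stmt_LAM) (hLAW : Pool.Agent.TBG.Stmt_LAW)
    (hDCC : Pool.Agent.TBG.Stmt_DCC) (hUBV : Stmt_UBV) (hKIV : Stmt_KIV) (hDUK : Stmt_DUK)
    (hENK : Stmt_ENK) : Stmt_EUK := by
  intro N L χ u V hN hχ hinv hsm hV hVc
  obtain ⟨hprob, -, hpi0⟩ := hCFD L χ hχ
  have hpi := hpi0 N
  obtain ⟨hUsm0, hUb, -⟩ := hDUK N u hsm
  have hUsm := hUsm0 Finset.univ
  obtain ⟨hCsm, hCcpt, hCbox, -⟩ := hDCC N L χ hχ hN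
  obtain ⟨-, hUc, hUp⟩ := hUBV u
  obtain ⟨-, hggU, -⟩ := hUBV (gg u)
  obtain ⟨-, heeU, -⟩ := hUBV (ee V u)
  obtain ⟨-, -, -, hggc, heec, hgg0, -⟩ := hKIV u V hinv hsm hV hVc
  obtain ⟨hlaw, -⟩ := hLAW N L χ hχ
  have hμ : IsProbabilityMeasure (PP χ N) := by unfold PP; infer_instance
  have hen := hENK N L χ u V hN hχ hsm hV hVc
  have hZZ : ZW u χ (Finset.univ : Finset (Fin N)) = ∫ X, WW u Finset.univ X ∂(PP χ N) := rfl
  rw [hZZ]
  have hbdd : ∀ g : (Fin N → E) → ℝ, Continuous g → ∃ C : ℝ, ∀ᵐ X ∂(PP χ N), ‖g X‖ ≤ C :=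
    fun g hg => ae_bdd hχ hprob hg
  obtain ⟨μ, hμe⟩ : ∃ μ, μ = PP χ N := ⟨_, rfl⟩
  rw [← hμe] at hμ hlaw hpi hbdd ⊢
  have hFc : Continuous (WW u (Finset.univ : Finset (Fin N))) :=
    (hUc (fun k => (hsm k).continuous) N Finset.univ).2.2
  have hexp : ∀ X : Fin N → E, Real.exp (US u Finset.univ X) ^ 2 = WW u Finset.univ X := by
    intro X
    unfold WW
    rw [← Real.exp_nat_mul]
    norm_num
  have hFpos : ∀ X, 0 < WW u (Finset.univ : Finset (Fin N)) X := fun X => Real.exp_pos _
  obtain ⟨F, hF⟩ : ∃ F : (Fin N → E) → ℝ, F = WW u Finset.univ := ⟨_, rfl⟩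
  rw [← hF] at hFc hexp hen hFpos ⊢
  obtain ⟨CF, hFn⟩ := hbdd F hFc
  have hvv : 0 < vv χ := hχ.pos
  have hFint : Integrable F μ := Integrable.of_bound hFc.aestronglyMeasurable CF hFn
  have hFipos : 0 < ∫ X, F X ∂μ := by
    rw [integral_pos_iff_support_of_nonneg (fun X => (hFpos X).le) hFint]
    have h1 : Function.support F = Set.univ :=
      Set.eq_univ_of_forall fun X => (hFpos X).ne'
    rw [h1, measure_univ]
    exact zero_lt_one
  -- the norm of the trial function
  have hnorm : ∫ X, PsiK (N := N) χ u X ^ 2 = vv χ ^ N * ∫ X, F X ∂μ := by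
    rw [← hpi F]
    refine integral_congr_ae (Eventually.of_forall fun X => ?_)
    show (CC χ X * Real.exp (US u Finset.univ X)) ^ 2 = CC χ X ^ 2 * F X
    rw [mul_pow, hexp X]
  have hsymm : ∀ (σ : Equiv.Perm (Fin N)) (X), PsiK (N := N) χ u (fun i => X (σ i)) =
      PsiK (N := N) χ u X := by
    intro σ X
    unfold PsiK
    have h1 : CC χ (fun i => X (σ i)) = CC χ X := by
      unfold CC
      exact Equiv.prod_comp σ (fun i => χ (X i))
    have h2 : US u Finset.univ (fun i => X (σ i)) = US u Finset.univ X := by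
      have h3 := ((hUp hinv.perm).2 N N σ σ.injective Finset.univ X).2.1
      have h4 : (Finset.univ : Finset (Fin N)).image σ = Finset.univ := by
        ext i
        simp only [Finset.mem_image, Finset.mem_univ, true_and, iff_true]
        exact σ.surjective i
      rw [h4] at h3
      exact h3.symm
    rw [h1, h2]
  have htri := hTRI N L V (PsiK (N := N) χ u) hV (hCsm.mul hUsm.exp) hCcpt.mul_right
    (tsupport_mul_subset_left.trans hCbox) hsymm (by
      rw [hnorm]
      exact mul_pos (pow_pos hvv N) hFipos)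
  rw [hnorm, hen, hpi] at htri
  have hvN : 0 < vv χ ^ N := pow_pos hvv N
  have hmain : E0 V N L * ∫ X, F X ∂μ ≤ ∫ X, (F X *
      (∑ A ∈ (Finset.univ : Finset (Fin N)).powerset, ub (ee V u) A X
        + ∑ i, ∑ c, (lam χ c (X i) ^ 2 + lam χ c (X i) * dv (dir i c) (US u Finset.univ) X))) ∂μ := by
    refine le_of_mul_le_mul_left ?_ hvN
    calc vv χ ^ N * (E0 V N L * ∫ X, F X ∂μ) = E0 V N L * (vv χ ^ N * ∫ X, F X ∂μ) := by ring
      _ ≤ _ := htri
  refine hmain.trans ?_
  -- integrability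
  have hA : ∀ A : Finset (Fin N), Integrable (fun X => F X * ub (ee V u) A X) μ := by
    intro A
    have hc : Continuous (ub (ee V u) A) := (heeU heec N A).1
    obtain ⟨C, hC⟩ := hbdd _ hc
    exact hFint.mul_bdd hc.aestronglyMeasurable hC
  have hB : ∀ (i : Fin N) (c : Fin 3), Integrable (fun X => F X * lam χ c (X i) ^ 2) μ := by
    intro i c
    obtain ⟨-, -, hI2, -⟩ := hLAM L χ c hχ
    rw [← hlaw i] at hI2
    have h1 := hI2.comp_measurable (measurable_pi_apply i)
    exact h1.bdd_mul hFc.aestronglyMeasurable hFn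
  have hl1 : ∀ (i : Fin N) (c : Fin 3), Integrable (fun X : Fin N → E => |lam χ c (X i)|) μ := by
    intro i c
    obtain ⟨-, -, -, hI1, -⟩ := hLAM L χ c hχ
    rw [← hlaw i] at hI1
    exact hI1.comp_measurable (measurable_pi_apply i)
  have hl : ∀ (i : Fin N) (c : Fin 3), Integrable (fun X : Fin N → E => lam χ c (X i)) μ := by
    intro i c
    have hm : Measurable (fun X : Fin N → E => lam χ c (X i)) :=
      (hLAM L χ c hχ).1.comp (measurable_pi_apply i)
    exact (integrable_norm_iff hm.aestronglyMeasurable).1 (hl1 i c)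
  have hD : ∀ (A : Finset (Fin N)) (i : Fin N) (c : Fin 3), Integrable (fun X => F X *
      (|lam χ c (X i)| * ub (gg u) A X)) μ := by
    intro A i c
    have hc : Continuous (ub (gg u) A) := (hggU hggc N A).1
    obtain ⟨C, hC⟩ := hbdd _ hc
    have h1 := (hl1 i c).mul_bdd hc.aestronglyMeasurable hC
    exact h1.bdd_mul hFc.aestronglyMeasurable hFn
  have hdvc : ∀ (i : Fin N) (c : Fin 3),
      Continuous (fun X => dv (dir i c) (US (N := N) u Finset.univ) X) := by
    intro i c
    unfold dv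
    exact (hUsm.continuous_fderiv (by simp)).clm_apply continuous_const
  have hC : ∀ (i : Fin N) (c : Fin 3), Integrable (fun X => F X *
      (lam χ c (X i) * dv (dir i c) (US u Finset.univ) X)) μ := by
    intro i c
    obtain ⟨C, hC⟩ := hbdd _ (hdvc i c)
    have h1 := (hl i c).mul_bdd (hdvc i c).aestronglyMeasurable hC
    exact h1.bdd_mul hFc.aestronglyMeasurable hFn
  -- the integrals of the three sums
  have hAi : Integrable (fun X => ∑ A ∈ (Finset.univ : Finset (Fin N)).powerset,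
      F X * ub (ee V u) A X) μ := integrable_finsetSum _ fun A _ => hA A
  have hBi : Integrable (fun X => ∑ i, ∑ c, F X * lam χ c (X i) ^ 2) μ :=
    integrable_finsetSum _ fun i _ => integrable_finsetSum _ fun c _ => hB i c
  have hCi : Integrable (fun X => ∑ i, ∑ c, F X *
      (lam χ c (X i) * dv (dir i c) (US u Finset.univ) X)) μ :=
    integrable_finsetSum _ fun i _ => integrable_finsetSum _ fun c _ => hC i c
  have hDi : Integrable (fun X => ∑ A ∈ (Finset.univ : Finset (Fin N)).powerset, ∑ i ∈ A,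
      ∑ c : Fin 3, F X * (|lam χ c (X i)| * ub (gg u) A X)) μ :=
    integrable_finsetSum _ fun A _ => integrable_finsetSum _ fun i _ =>
      integrable_finsetSum _ fun c _ => hD A i c
  have hsplit : (fun X => F X *
      (∑ A ∈ (Finset.univ : Finset (Fin N)).powerset, ub (ee V u) A X
        + ∑ i, ∑ c, (lam χ c (X i) ^ 2 + lam χ c (X i) * dv (dir i c) (US u Finset.univ) X))) =
      fun X => (∑ A ∈ (Finset.univ : Finset (Fin N)).powerset,
        F X * ub (ee V u) A X + ∑ i, ∑ c, F X * lam χ c (X i) ^ 2) +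
        ∑ i, ∑ c, F X * (lam χ c (X i) * dv (dir i c) (US u Finset.univ) X) := by
    funext X
    simp only [Finset.mul_sum, mul_add, Finset.sum_add_distrib]
    ring
  have hABi : Integrable (fun X => ∑ A ∈ (Finset.univ : Finset (Fin N)).powerset,
      F X * ub (ee V u) A X + ∑ i, ∑ c, F X * lam χ c (X i) ^ 2) μ := hAi.add hBi
  have hr : ∫ X, ((∑ A ∈ (Finset.univ : Finset (Fin N)).powerset,
        F X * ub (ee V u) A X + ∑ i, ∑ c, F X * lam χ c (X i) ^ 2) +
        ∑ A ∈ (Finset.univ : Finset (Fin N)).powerset, ∑ i ∈ A,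
      ∑ c : Fin 3, F X * (|lam χ c (X i)| * ub (gg u) A X)) ∂μ =
      ∑ A ∈ (Finset.univ : Finset (Fin N)).powerset,
        ∫ X, F X * ub (ee V u) A X ∂μ +
      ∑ i : Fin N, ∑ c : Fin 3, ∫ X, F X * lam χ c (X i) ^ 2 ∂μ +
      ∑ A ∈ (Finset.univ : Finset (Fin N)).powerset, ∑ i ∈ A, ∑ c : Fin 3,
        ∫ X, F X * (|lam χ c (X i)| * ub (gg u) A X) ∂μ := by
    rw [integral_add hABi hDi, integral_add hAi hBi,
      integral_finsetSum _ (fun A _ => hA A),
      integral_finsetSum _ (fun i _ => integrable_finsetSum _ fun c _ => hB i c),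
      integral_finsetSum _ (fun A _ => integrable_finsetSum _ fun i _ =>
        integrable_finsetSum _ fun c _ => hD A i c)]
    congr 1
    · congr 1
      refine Finset.sum_congr rfl fun i _ => ?_
      exact integral_finsetSum _ (fun c _ => hB i c)
    · refine Finset.sum_congr rfl fun A _ => ?_
      rw [integral_finsetSum _ (fun i _ => integrable_finsetSum _ fun c _ => hD A i c)]
      refine Finset.sum_congr rfl fun i _ => ?_
      exact integral_finsetSum _ (fun c _ => hD A i c)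
  rw [hsplit, ← hr]
  refine integral_mono (hABi.add hCi) (hABi.add hDi) fun X => ?_
  have hp := cross_le (Finset.univ : Finset (Fin N)).powerset (F X) (hFpos X).le
    (fun c i => lam χ c (X i)) (fun i c => dv (dir i c) (US u Finset.univ) X)
    (fun A => ub (gg u) A X) (fun i c => hUb X i c)
  exact add_le_add_right hp _

end Pool.Agent.TBC
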