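import Pool.Agent.TBC.Stmts

set_option autoImplicit false

open MeasureTheory Filter Topology
open scoped ContDiff

namespace Pool.Agent.TBC

open Pool.Agent.TBG Pool.Agent.TBF

namespace EXA_

lemma int_bdd {Ω : Type} [MeasurableSpace Ω] {μ : Measure Ω} [IsProbabilityMeasure μ] {f : Ω → ℝ}
    (hf : Measurable f) (C : ℝ) (hC : ∀ X, |f X| ≤ C) : Integrable f μ :=
  Integrable.of_bound hf.aestronglyMeasurable C (Eventually.of_forall hC)

/-- number of subsets -/
lemma card2 {N : ℕ} (S : Finset (Fin N)) : ((S.powersetCard 2).card : ℝ) ≤ (N : ℝ) ^ 2 / 2 := by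
  rw [Finset.card_powersetCard]
  have h1 : S.card.choose 2 ≤ N.choose 2 := Nat.choose_le_choose 2 (by simpa using S.card_le_univ)
  have h2 : (N.choose 2 : ℝ) ≤ (N : ℝ) ^ 2 / 2 := by
    have := Nat.choose_le_pow_div 2 N (α := ℝ)
    simpa using this
  exact (by exact_mod_cast h1 : (S.card.choose 2 : ℝ) ≤ N.choose 2).trans h2

lemma card3 {N : ℕ} (S : Finset (Fin N)) : ((S.powersetCard 3).card : ℝ) ≤ (N : ℝ) ^ 3 / 6 := by
  rw [Finset.card_powersetCard]
  have h1 : S.card.choose 3 ≤ N.choose 3 := Nat.choose_le_choose 3 (by simpa using S.card_le_univ)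
  have h2 : (N.choose 3 : ℝ) ≤ (N : ℝ) ^ 3 / 6 := by
    have := Nat.choose_le_pow_div 3 N (α := ℝ)
    simpa [Nat.factorial] using this
  exact (by exact_mod_cast h1 : (S.card.choose 3 : ℝ) ≤ N.choose 3).trans h2

/-- the abstract estimate -/
lemma abst {Ω : Type} [MeasurableSpace Ω] {μ : Measure Ω} [IsProbabilityMeasure μ]
    {ι ι' : Type} (I : Finset ι) (J : Finset ι')
    (W W' d zk : Ω → ℝ) (a : ι → Ω → ℝ) (b : ι' → Ω → ℝ) (E : ℝ) (hE : 1 ≤ E)
    (iWd : Integrable (fun X => W X * d X) μ) (iWd' : Integrable (fun X => W' X * d X) μ)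
    (hd : ∀ X, |d X| ≤ E * zk X) (hW' : ∀ X, 0 ≤ W' X) (_hzk : ∀ X, 0 ≤ zk X)
    (ha : ∀ i X, 0 ≤ a i X) (hb : ∀ i X, 0 ≤ b i X)
    (h : ∀ X, |W X - W' X| ≤ W' X * (∑ i ∈ I, a i X + E * ∑ j ∈ J, b j X))
    (ia : ∀ i ∈ I, Integrable (fun X => W' X * (zk X * a i X)) μ)
    (ib : ∀ j ∈ J, Integrable (fun X => W' X * (zk X * b j X)) μ) :
    -(∫ X, W X * d X ∂μ) ≤ -(∫ X, W' X * d X ∂μ) + E * ∑ i ∈ I, ∫ X, W' X * (zk X * a i X) ∂μ +
      E ^ 2 * ∑ j ∈ J, ∫ X, W' X * (zk X * b j X) ∂μ := by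
  have h1 : ∀ X, -(W X * d X) ≤ -(W' X * d X) + (E * ∑ i ∈ I, W' X * (zk X * a i X) +
      E ^ 2 * ∑ j ∈ J, W' X * (zk X * b j X)) := by
    intro X
    have h2 : -((W X - W' X) * d X) ≤ |W X - W' X| * |d X| := by
      rw [← abs_mul]
      exact neg_le_abs _
    have h3 : |W X - W' X| * |d X| ≤ (W' X * (∑ i ∈ I, a i X + E * ∑ j ∈ J, b j X)) *
        (E * zk X) := by
      refine mul_le_mul (h X) (hd X) (abs_nonneg _) ?_
      refine mul_nonneg (hW' X) (add_nonneg (Finset.sum_nonneg fun i _ => ha i X) ?_)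
      exact mul_nonneg (by linarith) (Finset.sum_nonneg fun i _ => hb i X)
    have h4 : (W' X * (∑ i ∈ I, a i X + E * ∑ j ∈ J, b j X)) * (E * zk X) =
        E * ∑ i ∈ I, W' X * (zk X * a i X) + E ^ 2 * ∑ j ∈ J, W' X * (zk X * b j X) := by
      have e1 : ∑ i ∈ I, W' X * (zk X * a i X) = W' X * zk X * ∑ i ∈ I, a i X := by
        rw [Finset.mul_sum]
        exact Finset.sum_congr rfl fun i _ => by ring
      have e2 : ∑ j ∈ J, W' X * (zk X * b j X) = W' X * zk X * ∑ j ∈ J, b j X := by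
        rw [Finset.mul_sum]
        exact Finset.sum_congr rfl fun i _ => by ring
      rw [e1, e2]
      ring
    have h5 : -(W X * d X) = -(W' X * d X) + -((W X - W' X) * d X) := by ring
    rw [h5, ← h4]
    linarith
  have ia' : Integrable (fun X => ∑ i ∈ I, W' X * (zk X * a i X)) μ := integrable_finsetSum _ ia
  have ib' : Integrable (fun X => ∑ j ∈ J, W' X * (zk X * b j X)) μ := integrable_finsetSum _ ib
  have i1 : Integrable (fun X => -(W' X * d X)) μ := iWd'.neg
  have i2 : Integrable (fun X => E * ∑ i ∈ I, W' X * (zk X * a i X)) μ := ia'.const_mul E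
  have i3 : Integrable (fun X => E ^ 2 * ∑ j ∈ J, W' X * (zk X * b j X)) μ :=
    ib'.const_mul (E ^ 2)
  have i23 : Integrable (fun X => E * ∑ i ∈ I, W' X * (zk X * a i X) +
      E ^ 2 * ∑ j ∈ J, W' X * (zk X * b j X)) μ := i2.add i3
  have h6 : -(∫ X, W X * d X ∂μ) ≤ ∫ X, (-(W' X * d X) + (E * ∑ i ∈ I, W' X * (zk X * a i X) +
      E ^ 2 * ∑ j ∈ J, W' X * (zk X * b j X))) ∂μ := by
    rw [← integral_neg]
    exact integral_mono iWd.neg (i1.add i23) h1
  refine h6.trans (le_of_eq ?_)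
  rw [integral_add i1 i23, integral_neg, integral_add i2 i3, integral_const_mul,
    integral_const_mul, integral_finsetSum _ ia, integral_finsetSum _ ib, add_assoc]

end EXA_

open EXA_ in
theorem exa_proof (hCFD : Stmt_CFD) (hIND : Stmt_IND) (hUBV : Stmt_UBV) (hWBA : Stmt_WBA)
    (hWBD : Stmt_WBD) (hPWB : Stmt_PWB) (hPWD : Stmt_PWD) (hTRA : Stmt_TRA) (hRTB : Stmt_RTB)
    (hBNF : Stmt_BNF) (hEXP : Stmt_EXP) : Stmt_EXA := by
  intro N L χ u e κ M r r' A α η hPar hEne t l ht hlt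
  classical
  have hcut := hPar.cut
  have hsys := hPar.sys
  have hfam := hsys.fam
  have hnear := hsys.near
  have hM := hfam.M_nonneg
  have : IsProbabilityMeasure (nu χ) := (hCFD L χ hcut).1
  have : IsProbabilityMeasure (PP χ N) := by unfold PP; infer_instance
  obtain ⟨hη, hα, hvv, hZ, hR1, hR2, hR3⟩ := hRTB N L χ u κ M r r' A α η hPar
  obtain ⟨hW1, hW2, hW3, hW4, hW5⟩ := hWBA N u M r r' hfam
  obtain ⟨hB1, hB2, hB3, hB4⟩ := hBNF N u e M r r' κ hfam hnear hEne
  obtain ⟨hD1, hD2⟩ := hWBD N u M r r' κ hfam hnear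
  obtain ⟨hU1, hU2, -⟩ := hUBV u
  have hUc := hU2 (fun k => (hfam.smooth k).continuous)
  set T' : Finset (Fin N) := Finset.univ \ insert l t with hT'
  have hlT' : l ∉ T' := by simp [hT']
  have hT : Finset.univ \ t = insert l T' := by
    ext i
    simp only [hT', Finset.mem_sdiff, Finset.mem_univ, true_and, Finset.mem_insert, not_or]
    constructor
    · intro hi
      by_cases h : i = l
      · exact Or.inl h
      · exact Or.inr ⟨h, hi⟩
    · rintro (h | h)
      · rw [h]; exact hlt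
      · exact h.2
  have hcard : (insert l t).card = 4 := by rw [Finset.card_insert_of_notMem hlt, ht]
  have hexp1 : 1 ≤ Real.exp (2 * M) := Real.one_le_exp (by linarith)
  -- the functions
  set W : (Fin N → E) → ℝ := WW u (insert l T') with hWdef
  set W' : (Fin N → E) → ℝ := WW u T' with hW'def
  set d : (Fin N → E) → ℝ := fun X => ub e t X * (WW u t X - WW u (insert l t) X) with hd
  set k : (Fin N → E) → ℝ := fun X => ub e t X * WW u t X with hk
  set zk : (Fin N → E) → ℝ := fun X => ub e t X * WW u t X * zz u κ t l X with hzk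
  set a : Finset (Fin N) → (Fin N → E) → ℝ := fun p X => a3 u (insert l p) X with ha
  set b : Finset (Fin N) → (Fin N → E) → ℝ := fun s X => ∏ i ∈ s, nr κ X l i with hb
  have hpos : ∀ X, 0 ≤ ub e t X := by
    intro X
    have h3 := hEne.pos3
    have : ∀ (n : ℕ) (hn : n = 3) (y : Fin n → E), 0 ≤ e n y := by
      intro n hn y
      subst hn
      exact h3 y
    exact this t.card ht _
  have hW'pos : ∀ X, 0 ≤ W' X := fun X => (hW1 T' X).1.le
  obtain ⟨hkB, hkD⟩ := hB2 t ht
  obtain ⟨hzB, hzD⟩ := hB3 t l ht hlt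
  obtain ⟨hzm, hzp, Cz, hzC⟩ := hzB
  have hWm : Measurable W := (hUc N (insert l T')).2.2.measurable
  have hW'm : Measurable W' := (hUc N T').2.2.measurable
  have hdm : Measurable d := by
    rw [hd]
    have e1 := (hB1 t).1
    have e2 := (hUc N t).2.2
    have e3 := (hUc N (insert l t)).2.2
    exact (e1.mul (e2.sub e3)).measurable
  have hdz : ∀ X, |d X| ≤ Real.exp (2 * M) * zk X := by
    intro X
    rw [hd, hzk]
    simp only
    rw [abs_mul, abs_of_nonneg (hpos X)]
    have h1 := hPWD N u M r r' κ hfam hnear t l X ht hlt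
    calc ub e t X * |WW u t X - WW u (insert l t) X| ≤
          ub e t X * (Real.exp (2 * M) * (WW u t X * zz u κ t l X)) :=
          mul_le_mul_of_nonneg_left h1 (hpos X)
      _ = _ := by ring
  have hdC : ∀ X, |d X| ≤ Real.exp (2 * M) * Cz := fun X =>
    (hdz X).trans (mul_le_mul_of_nonneg_left (hzC X) (by positivity))
  have hzC0 : 0 ≤ Cz := (hzp (fun _ => 0)).trans (hzC _)
  have ha0 : ∀ p ∈ T'.powersetCard 2, ∀ X, 0 ≤ a p X ∧ a p X ≤ 1 := by
    intro p hp X
    rw [Finset.mem_powersetCard] at hp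
    have hc : (insert l p).card = 3 := by
      rw [Finset.card_insert_of_notMem (fun h => hlT' (hp.1 h)), hp.2]
    exact ⟨(hW4 (insert l p) X hc).1, (hW4 (insert l p) X hc).2.1⟩
  have hb0 : ∀ (s : Finset (Fin N)) X, 0 ≤ b s X ∧ b s X ≤ 1 := by
    intro s X
    rw [hb]
    exact ⟨Finset.prod_nonneg fun i _ => ((hD1 l i).2 X).1,
      Finset.prod_le_one (fun i _ => ((hD1 l i).2 X).1) fun i _ => ((hD1 l i).2 X).2⟩
  have ham : ∀ p, Measurable (a p) := fun p => (hW5 (insert l p)).1.measurable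
  have hbm : ∀ s, Measurable (b s) := fun s =>
    (continuous_finsetProd s fun i _ => (hD1 l i).1).measurable
  -- nonnegative versions of `a`
  set a' : Finset (Fin N) → (Fin N → E) → ℝ := fun p X => |a p X| with ha'
  have hmain := abst (μ := PP χ N) (T'.powersetCard 2) (T'.powersetCard 3) W W' d zk a' b
    (Real.exp (2 * M)) hexp1
    (int_bdd (hWm.mul hdm) (Real.exp (2 * M * (insert l T').card) * (Real.exp (2 * M) * Cz))
      (fun X => by
        rw [abs_mul, abs_of_pos (hW1 (insert l T') X).1]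
        exact mul_le_mul (hW1 (insert l T') X).2 (hdC X) (abs_nonneg _) (by positivity)))
    (int_bdd (hW'm.mul hdm) (Real.exp (2 * M * T'.card) * (Real.exp (2 * M) * Cz))
      (fun X => by
        rw [abs_mul, abs_of_pos (hW1 T' X).1]
        exact mul_le_mul (hW1 T' X).2 (hdC X) (abs_nonneg _) (by positivity)))
    hdz hW'pos hzp (fun p X => abs_nonneg _) (fun s X => (hb0 s X).1)
    (by
      intro X
      obtain ⟨h1, h2⟩ := hPWB N u M r r' κ hfam hnear T' l X hlT'
      have e1 : ∑ p ∈ T'.powersetCard 2, a' p X = ∑ p ∈ T'.powersetCard 2,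
          a3 u (insert l p) X :=
        Finset.sum_congr rfl fun p hp => abs_of_nonneg (ha0 p hp X).1
      rw [e1]
      have s1 : 0 ≤ ∑ p ∈ T'.powersetCard 2, a3 u (insert l p) X :=
        Finset.sum_nonneg fun p hp => (ha0 p hp X).1
      have s2 : 0 ≤ ∑ s ∈ T'.powersetCard 3, b s X := Finset.sum_nonneg fun s _ => (hb0 s X).1
      have hw := hW'pos X
      rw [abs_le]
      constructor
      · have h3 : W' X * ∑ s ∈ T'.powersetCard 3, b s X ≤
            W' X * (Real.exp (2 * M) * ∑ s ∈ T'.powersetCard 3, b s X) :=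
          mul_le_mul_of_nonneg_left (by nlinarith) hw
        have h4 : W' X * (1 - ∑ p ∈ T'.powersetCard 2, a3 u (insert l p) X -
            ∑ s ∈ T'.powersetCard 3, b s X) ≤ W X := h1
        nlinarith
      · have h4 : W X ≤ W' X * (1 + Real.exp (2 * M) * ∑ s ∈ T'.powersetCard 3, b s X) := h2
        have h5 : 0 ≤ W' X * ∑ p ∈ T'.powersetCard 2, a3 u (insert l p) X := mul_nonneg hw s1
        nlinarith)
    (fun p hp => int_bdd (hW'm.mul (hzm.mul (ham p).abs))
      (Real.exp (2 * M * T'.card) * (Cz * 1)) (fun X => by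
        rw [abs_mul, abs_of_pos (hW1 T' X).1, abs_mul]
        refine mul_le_mul (hW1 T' X).2 ?_ (by positivity) (by positivity)
        refine mul_le_mul ?_ ?_ (abs_nonneg _) hzC0
        · rw [abs_of_nonneg (hzp X)]; exact hzC X
        · rw [ha', abs_abs, abs_of_nonneg (ha0 p hp X).1]; exact (ha0 p hp X).2))
    (fun s _ => int_bdd (hW'm.mul (hzm.mul (hbm s)))
      (Real.exp (2 * M * T'.card) * (Cz * 1)) (fun X => by
        rw [abs_mul, abs_of_pos (hW1 T' X).1, abs_mul]
        refine mul_le_mul (hW1 T' X).2 ?_ (by positivity) (by positivity)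
        refine mul_le_mul ?_ ?_ (abs_nonneg _) hzC0
        · rw [abs_of_nonneg (hzp X)]; exact hzC X
        · rw [abs_of_nonneg (hb0 s X).1]; exact (hb0 s X).2))
  -- the first term
  set c : ℝ := ∫ X, ub e t X * WW u t X ∂(PP χ N) with hc
  have hc0 : 0 ≤ c := integral_nonneg fun X => mul_nonneg (hpos X) (hW1 t X).1.le
  have hind : ∫ X, W' X * d X ∂(PP χ N) = ZW u χ T' * ∫ X, d X ∂(PP χ N) := by
    refine hIND N L χ T' (insert l t) W' d hcut ?_ hW'm hdm (hU1 N T').2.2 ?_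
    · rw [hT']; exact Finset.sdiff_disjoint
    · intro X Y hXY
      have hsub : ∀ i ∈ t, X i = Y i := fun i hi => hXY i (Finset.mem_insert_of_mem hi)
      have e1 := (hB1 t).2.1 X Y hsub
      have e2 := (hU1 N t).2.2 X Y hsub
      have e3 := (hU1 N (insert l t)).2.2 X Y hXY
      rw [hd]
      simp only
      rw [e1, e2, e3]
  set F : ℝ := (A / vv χ) * c with hF
  have hF0 : 0 ≤ F := by rw [hF]; exact mul_nonneg (div_nonneg hsys.A_nonneg hvv.le) hc0
  have hEd : |∫ X, d X ∂(PP χ N)| ≤ Real.exp (2 * M) * (6 * F) := by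
    have h1 := hTRA N L χ u κ M r r' A α t t l k hcut hsys (Finset.Subset.refl _) hlt hkB hkD
    have h2 : |∫ X, d X ∂(PP χ N)| ≤ ∫ X, Real.exp (2 * M) * zk X ∂(PP χ N) := by
      have hzi : Integrable (fun X => Real.exp (2 * M) * zk X) (PP χ N) :=
        (int_bdd hzm Cz (fun X => by rw [abs_of_nonneg (hzp X)]; exact hzC X)).const_mul _
      rw [← Real.norm_eq_abs]
      exact norm_integral_le_of_norm_le (f := d) hzi
        (Eventually.of_forall fun X => by rw [Real.norm_eq_abs]; exact hdz X)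
    refine h2.trans ?_
    rw [integral_const_mul]
    refine mul_le_mul_of_nonneg_left ?_ (by positivity)
    have h3 : ∫ X, zk X ∂(PP χ N) ≤ (((t.card.choose 2 : ℕ) : ℝ) + (t.card : ℝ)) * (A / vv χ) *
        c := h1
    rw [ht] at h3
    refine h3.trans (le_of_eq ?_)
    rw [hF]
    have : ((Nat.choose 3 2 : ℕ) : ℝ) = 3 := by norm_num [Nat.choose]
    rw [this]
    push_cast
    ring
  set Z : ℝ := ZW u χ (Finset.univ : Finset (Fin N)) with hZdef
  have hZ' : |ZW u χ T' - Z| ≤ 30 * η * Z := hR2 (insert l t) (by rw [hcard])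
  have hfirst : -(∫ X, W' X * d X ∂(PP χ N)) ≤ Z * (-(∫ X, d X ∂(PP χ N))) +
      Z * (180 * Real.exp (2 * M) * η * F) := by
    rw [hind]
    have h1 : -(ZW u χ T' * ∫ X, d X ∂(PP χ N)) = Z * (-(∫ X, d X ∂(PP χ N))) +
        -((ZW u χ T' - Z) * ∫ X, d X ∂(PP χ N)) := by ring
    rw [h1]
    have h2 : -((ZW u χ T' - Z) * ∫ X, d X ∂(PP χ N)) ≤
        (30 * η * Z) * (Real.exp (2 * M) * (6 * F)) := by
      calc -((ZW u χ T' - Z) * ∫ X, d X ∂(PP χ N)) ≤ |(ZW u χ T' - Z) * ∫ X, d X ∂(PP χ N)| :=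
            neg_le_abs _
        _ = |ZW u χ T' - Z| * |∫ X, d X ∂(PP χ N)| := abs_mul _ _
        _ ≤ _ := mul_le_mul hZ' hEd (abs_nonneg _) (by positivity)
    have h3 : (30 * η * Z) * (Real.exp (2 * M) * (6 * F)) =
        Z * (180 * Real.exp (2 * M) * η * F) := by ring
    linarith
  -- the second and the third term
  have hdisj : ∀ p ⊆ T', Disjoint p (insert l t) := by
    intro p hp
    refine Finset.disjoint_of_subset_left hp ?_
    rw [hT']; exact Finset.sdiff_disjoint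
  set n : ℝ := (N : ℝ) / vv χ with hn
  have hn0 : 0 ≤ n := div_nonneg (Nat.cast_nonneg _) hvv.le
  have hsm := hPar.small
  rw [← hn] at hsm
  have hsm1 : 0 ≤ 2 * n ^ 2 * (Real.exp (4 * M) * α) := by positivity
  have hA0 := hsys.A_nonneg
  have hsm2 : 0 ≤ 2 * n ^ 3 * (Real.exp (8 * M) * A ^ 3) := by positivity
  have hsec : Real.exp (2 * M) * ∑ p ∈ T'.powersetCard 2,
      ∫ X, W' X * (zk X * a' p X) ∂(PP χ N) ≤ Z * (96 * Real.exp (2 * M) * η * F) := by
    have h1 : ∀ p ∈ T'.powersetCard 2, ∫ X, W' X * (zk X * a' p X) ∂(PP χ N) ≤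
        Z * (384 * Real.exp (4 * M) * (A / vv χ) * ((vv χ)⁻¹ ^ 2 * α) * c) := by
      intro p hp
      have hp' := Finset.mem_powersetCard.mp hp
      have h2 := (hEXP N L χ u e κ M r r' A α η hPar hEne t l ht hlt).1 p hp'.2
        (hdisj p hp'.1)
      refine le_trans (le_of_eq ?_) h2
      refine integral_congr_ae (Eventually.of_forall fun X => ?_)
      show W' X * (zk X * |a p X|) = _
      rw [abs_of_nonneg (ha0 p hp X).1]
    have h3 := Finset.sum_le_card_nsmul _ _ _ h1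
    rw [nsmul_eq_mul] at h3
    have h4 : ((T'.powersetCard 2).card : ℝ) *
        (Z * (384 * Real.exp (4 * M) * (A / vv χ) * ((vv χ)⁻¹ ^ 2 * α) * c)) ≤
        ((N : ℝ) ^ 2 / 2) * (Z * (384 * Real.exp (4 * M) * (A / vv χ) * ((vv χ)⁻¹ ^ 2 * α) * c)) := by
      refine mul_le_mul_of_nonneg_right (card2 T') ?_
      have : 0 ≤ A / vv χ := div_nonneg hA0 hvv.le
      positivity
    have h5 : ((N : ℝ) ^ 2 / 2) *
        (Z * (384 * Real.exp (4 * M) * (A / vv χ) * ((vv χ)⁻¹ ^ 2 * α) * c)) =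
        Z * (96 * (2 * n ^ 2 * (Real.exp (4 * M) * α)) * F) := by
      rw [hn, hF]
      field_simp
      ring
    have h6 : Z * (96 * (2 * n ^ 2 * (Real.exp (4 * M) * α)) * F) ≤ Z * (96 * η * F) := by
      refine mul_le_mul_of_nonneg_left ?_ hZ.le
      refine mul_le_mul_of_nonneg_right ?_ hF0
      linarith
    calc _ ≤ Real.exp (2 * M) * (Z * (96 * η * F)) :=
          mul_le_mul_of_nonneg_left (h3.trans (h4.trans (h5.le.trans h6))) (by positivity)
      _ = _ := by ring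
  have hthi : Real.exp (2 * M) ^ 2 * ∑ s ∈ T'.powersetCard 3,
      ∫ X, W' X * (zk X * b s X) ∂(PP χ N) ≤ Z * (64 * Real.exp (2 * M) * η * F) := by
    have h1 : ∀ s ∈ T'.powersetCard 3, ∫ X, W' X * (zk X * b s X) ∂(PP χ N) ≤
        Z * (768 * Real.exp (6 * M) * (A / vv χ) ^ 4 * c) := by
      intro s hs
      have hs' := Finset.mem_powersetCard.mp hs
      exact (hEXP N L χ u e κ M r r' A α η hPar hEne t l ht hlt).2 s hs'.2 (hdisj s hs'.1)
    have h3 := Finset.sum_le_card_nsmul _ _ _ h1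
    rw [nsmul_eq_mul] at h3
    have h4 : ((T'.powersetCard 3).card : ℝ) *
        (Z * (768 * Real.exp (6 * M) * (A / vv χ) ^ 4 * c)) ≤
        ((N : ℝ) ^ 3 / 6) * (Z * (768 * Real.exp (6 * M) * (A / vv χ) ^ 4 * c)) := by
      refine mul_le_mul_of_nonneg_right (card3 T') ?_
      have : 0 ≤ A / vv χ := div_nonneg hA0 hvv.le
      positivity
    have hexp : Real.exp (2 * M) ^ 2 * Real.exp (6 * M) =
        Real.exp (2 * M) * Real.exp (8 * M) := by
      rw [← Real.exp_nat_mul, ← Real.exp_add, ← Real.exp_add]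
      congr 1
      push_cast
      ring
    have h5 : Real.exp (2 * M) ^ 2 * (((N : ℝ) ^ 3 / 6) *
        (Z * (768 * Real.exp (6 * M) * (A / vv χ) ^ 4 * c))) =
        Z * (64 * Real.exp (2 * M) * (2 * n ^ 3 * (Real.exp (8 * M) * A ^ 3)) * F) := by
      have h6 : Real.exp (2 * M) ^ 2 * (((N : ℝ) ^ 3 / 6) *
          (Z * (768 * Real.exp (6 * M) * (A / vv χ) ^ 4 * c))) =
          (Real.exp (2 * M) ^ 2 * Real.exp (6 * M)) * (((N : ℝ) ^ 3 / 6) *
          (Z * (768 * (A / vv χ) ^ 4 * c))) := by ring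
      rw [h6, hexp, hn, hF]
      field_simp
      ring
    have h7 : Z * (64 * Real.exp (2 * M) * (2 * n ^ 3 * (Real.exp (8 * M) * A ^ 3)) * F) ≤
        Z * (64 * Real.exp (2 * M) * η * F) := by
      refine mul_le_mul_of_nonneg_left ?_ hZ.le
      refine mul_le_mul_of_nonneg_right ?_ hF0
      refine mul_le_mul_of_nonneg_left ?_ (by positivity)
      linarith
    exact (mul_le_mul_of_nonneg_left (h3.trans h4) (by positivity)).trans (h5.le.trans h7)
  have hfin : -(∫ X, W X * d X ∂(PP χ N)) ≤ Z * (-(∫ X, d X ∂(PP χ N)) +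
      342 * Real.exp (2 * M) * η * F) := by
    have h1 : 0 ≤ Z * (2 * Real.exp (2 * M) * η * F) := by positivity
    have h2 : Z * (-(∫ X, d X ∂(PP χ N)) + 342 * Real.exp (2 * M) * η * F) =
        Z * (-(∫ X, d X ∂(PP χ N))) + Z * (180 * Real.exp (2 * M) * η * F) +
        Z * (96 * Real.exp (2 * M) * η * F) + Z * (64 * Real.exp (2 * M) * η * F) +
        Z * (2 * Real.exp (2 * M) * η * F) := by ring
    rw [h2]
    linarith
  have hgoal : 342 * Real.exp (2 * M) * η * (A / vv χ) * c = 342 * Real.exp (2 * M) * η * F := by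
    rw [hF]; ring
  rw [hT, hgoal]
  exact hfin

end Pool.Agent.TBC
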