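import Pool.Agent.TBC.Stmts

set_option autoImplicit false

open MeasureTheory Filter Topology
open scoped ContDiff

namespace Pool.Agent.TBC

open Pool.Agent.TBG Pool.Agent.TBF

namespace EXC_

/-- continuous and bounded -/
def CB {N : ℕ} (f : (Fin N → E) → ℝ) : Prop := Continuous f ∧ ∃ C : ℝ, ∀ X, |f X| ≤ C

theorem CB.mul {N : ℕ} {f g : (Fin N → E) → ℝ} (hf : CB f) (hg : CB g) : CB (fun X => f X * g X) := by
  obtain ⟨hf, C, hC⟩ := hf
  obtain ⟨hg, D, hD⟩ := hg
  refine ⟨hf.mul hg, C * D, fun X => ?_⟩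
  rw [abs_mul]
  exact mul_le_mul (hC X) (hD X) (abs_nonneg _) (le_trans (abs_nonneg _) (hC X))

theorem CB.sub {N : ℕ} {f g : (Fin N → E) → ℝ} (hf : CB f) (hg : CB g) : CB (fun X => f X - g X) := by
  obtain ⟨hf, C, hC⟩ := hf
  obtain ⟨hg, D, hD⟩ := hg
  refine ⟨hf.sub hg, C + D, fun X => ?_⟩
  exact (abs_sub _ _).trans (add_le_add (hC X) (hD X))

theorem CB.integrable {N : ℕ} {f : (Fin N → E) → ℝ} (hf : CB f) {μ : Measure (Fin N → E)} [IsFiniteMeasure μ] :
    Integrable f μ := by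
  obtain ⟨hf, C, hC⟩ := hf
  exact Integrable.of_bound hf.aestronglyMeasurable C (Filter.Eventually.of_forall fun X => by
    rw [Real.norm_eq_abs]; exact hC X)

end EXC_

open EXC_

theorem exc_proof (hCFD : Stmt_CFD) (hIND : Stmt_IND) (hUBV : Stmt_UBV) (hWBA : Stmt_WBA) (hWBD : Stmt_WBD)
    (hPWC : Stmt_PWC) (hRTB : Stmt_RTB) (hBNF : Stmt_BNF) (hEXA : Stmt_EXA) (hEXD : Stmt_EXD) : Stmt_EXC := by
  classical
  intro N L χ u e κ M r r' A α η hPar hEne t ht
  have hFam := hPar.sys.fam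
  have hNear := hPar.sys.near
  have hA0 := hPar.sys.A_nonneg
  have hM0 := hFam.M_nonneg
  have : IsProbabilityMeasure (nu χ) := (hCFD L χ hPar.cut).1
  have hP : IsProbabilityMeasure (PP χ N) := by unfold PP; infer_instance
  obtain ⟨hη0, hα0, hvv, hZ0, hR1, hR2, hR3⟩ := hRTB N L χ u κ M r r' A α η hPar
  obtain ⟨hub, hb1, hb2, hb3⟩ := hBNF N u e M r r' κ hFam hNear hEne
  have hWcont : ∀ S : Finset (Fin N), Continuous (WW u S) := fun S =>
    ((hUBV u).2.1 (fun k => (hFam.smooth k).continuous) N S).2.2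
  have hWdep : ∀ S : Finset (Fin N), Dep S (WW u S) := fun S => ((hUBV u).1 N S).2.2
  have hWCB : ∀ S : Finset (Fin N), CB (WW u S) := fun S => by
    refine ⟨hWcont S, Real.exp (2 * M * S.card), fun X => ?_⟩
    obtain ⟨h1, h2⟩ := (hWBA N u M r r' hFam).1 S X
    rw [abs_of_pos h1]; exact h2
  have heCB : CB (ub e t) := ⟨(hub t).1, (hub t).2.2⟩
  have hzCB : ∀ l : Fin N, l ∉ t → CB (zz u κ t l) := fun l hl => by
    obtain ⟨h1, h2, ⟨C, h3⟩, h4⟩ := (hWBD N u M r r' κ hFam hNear).2 t l hl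
    exact ⟨h1, C, fun X => by rw [abs_of_nonneg (h2 X)]; exact h3 X⟩
  have he0 : ∀ X : Fin N → E, 0 ≤ ub e t X := by
    intro X
    unfold ub
    have key : ∀ (k : ℕ) (y : Fin k → E), k = 3 → 0 ≤ e k y := by
      intro k y hk
      subst hk
      exact hEne.pos3 y
    exact key _ _ ht
  set T : Finset (Fin N) := Finset.univ \ t with hTdef
  have hdisj : Disjoint t T := Finset.disjoint_sdiff
  have hunion : t ∪ T = Finset.univ := by
    rw [hTdef]; exact Finset.union_sdiff_of_subset (Finset.subset_univ _)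
  have hTmem : ∀ l ∈ T, l ∉ t := fun l hl => (Finset.mem_sdiff.mp hl).2
  set Z : ℝ := ZW u χ (Finset.univ : Finset (Fin N)) with hZdef
  set c : ℝ := ∫ X, ub e t X * WW u t X ∂(PP χ N) with hcdef
  have hc0 : 0 ≤ c := by
    rw [hcdef]
    refine integral_nonneg fun X => ?_
    exact mul_nonneg (he0 X) ((hWBA N u M r r' hFam).1 t X).1.le
  -- pointwise bound
  have hpt : ∀ X : Fin N → E, WW u Finset.univ X * ub e t X ≤
      WW u T X * (ub e t X * WW u t X) - ∑ l ∈ T, WW u T X * (ub e t X * (WW u t X - WW u (insert l t) X)) +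
      2 * Real.exp (6 * M) * ∑ l ∈ T, ∑ l' ∈ T.erase l,
        WW u T X * (ub e t X * WW u t X * (zz u κ t l X * zz u κ t l' X)) := by
    intro X
    have h1 := hPWC N u M r r' κ hFam hNear t T X hdisj ht
    rw [hunion] at h1
    have h2 := mul_le_mul_of_nonneg_right h1 (he0 X)
    refine h2.trans (le_of_eq ?_)
    rw [← Finset.mul_sum, ← Finset.mul_sum]
    have h3 : ∑ l ∈ T, ∑ l' ∈ T.erase l,
        WW u T X * (ub e t X * WW u t X * (zz u κ t l X * zz u κ t l' X)) =
        WW u T X * (ub e t X * WW u t X) * ∑ l ∈ T, ∑ l' ∈ T.erase l, (zz u κ t l X * zz u κ t l' X) := by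
      rw [Finset.mul_sum]
      refine Finset.sum_congr rfl fun l _ => ?_
      rw [Finset.mul_sum]
      refine Finset.sum_congr rfl fun l' _ => ?_
      ring
    rw [h3]
    ring
  have hi0 : Integrable (fun X => WW u Finset.univ X * ub e t X) (PP χ N) := ((hWCB _).mul heCB).integrable
  have hi1 : Integrable (fun X => WW u T X * (ub e t X * WW u t X)) (PP χ N) :=
    ((hWCB _).mul (heCB.mul (hWCB _))).integrable
  have hi2 : ∀ l ∈ T, Integrable (fun X => WW u T X * (ub e t X * (WW u t X - WW u (insert l t) X))) (PP χ N) :=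
    fun l _ => ((hWCB _).mul (heCB.mul ((hWCB _).sub (hWCB _)))).integrable
  have hi3 : ∀ l ∈ T, ∀ l' ∈ T.erase l,
      Integrable (fun X => WW u T X * (ub e t X * WW u t X * (zz u κ t l X * zz u κ t l' X))) (PP χ N) :=
    fun l hl l' hl' => ((hWCB _).mul ((heCB.mul (hWCB _)).mul ((hzCB l (hTmem l hl)).mul
      (hzCB l' (hTmem l' (Finset.mem_of_mem_erase hl')))))).integrable
  have hi2s : Integrable (fun X => ∑ l ∈ T, WW u T X * (ub e t X * (WW u t X - WW u (insert l t) X))) (PP χ N) :=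
    integrable_finsetSum _ hi2
  have hi3s : Integrable (fun X => ∑ l ∈ T, ∑ l' ∈ T.erase l,
        WW u T X * (ub e t X * WW u t X * (zz u κ t l X * zz u κ t l' X))) (PP χ N) :=
    integrable_finsetSum _ fun l hl => integrable_finsetSum _ (hi3 l hl)
  have hint : ∫ X, WW u Finset.univ X * ub e t X ∂(PP χ N) ≤
      (∫ X, WW u T X * (ub e t X * WW u t X) ∂(PP χ N)) -
      ∑ l ∈ T, (∫ X, WW u T X * (ub e t X * (WW u t X - WW u (insert l t) X)) ∂(PP χ N)) +
      2 * Real.exp (6 * M) * ∑ l ∈ T, ∑ l' ∈ T.erase l,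
        ∫ X, WW u T X * (ub e t X * WW u t X * (zz u κ t l X * zz u κ t l' X)) ∂(PP χ N) := by
    refine (integral_mono hi0 ((hi1.sub hi2s).add (hi3s.const_mul _)) hpt).trans (le_of_eq ?_)
    have e1 : ∫ X, ((fun X => WW u T X * (ub e t X * WW u t X)) - fun X => ∑ l ∈ T,
          WW u T X * (ub e t X * (WW u t X - WW u (insert l t) X))) X +
        2 * Real.exp (6 * M) * ∑ l ∈ T, ∑ l' ∈ T.erase l,
          WW u T X * (ub e t X * WW u t X * (zz u κ t l X * zz u κ t l' X)) ∂(PP χ N) = _ :=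
      integral_add (hi1.sub hi2s) (hi3s.const_mul _)
    refine Eq.trans e1 ?_
    rw [integral_sub' hi1 hi2s, integral_const_mul, integral_finsetSum _ hi2,
      integral_finsetSum _ fun l hl => integrable_finsetSum _ (hi3 l hl)]
    congr 2
    refine Finset.sum_congr rfl fun l hl => ?_
    exact integral_finsetSum _ (hi3 l hl)
  -- first term
  have hterm1 : ∫ X, WW u T X * (ub e t X * WW u t X) ∂(PP χ N) ≤ Z * ((1 + 14 * η) * c) := by
    have hmeas1 : Measurable (WW u T) := (hWcont T).measurable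
    have hmeas2 : Measurable (fun X => ub e t X * WW u t X) := (heCB.mul (hWCB t)).1.measurable
    have h1 := hIND N L χ T t (WW u T) (fun X => ub e t X * WW u t X) hPar.cut hdisj.symm hmeas1 hmeas2
      (hWdep T) (hb1 t ht).2
    rw [h1]
    have h2 : ∫ X, WW u T X ∂(PP χ N) ≤ (1 + 14 * η) * Z := hR3 t ht
    calc (∫ X, WW u T X ∂(PP χ N)) * c ≤ ((1 + 14 * η) * Z) * c := mul_le_mul_of_nonneg_right h2 hc0
      _ = Z * ((1 + 14 * η) * c) := by ring
  have hAv : 0 ≤ A / vv χ := div_nonneg hA0 hvv.le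
  have hTcard : (T.card : ℝ) ≤ N := by
    have h1 : T.card ≤ (Finset.univ : Finset (Fin N)).card := Finset.card_le_card (Finset.subset_univ _)
    rw [Finset.card_univ, Fintype.card_fin] at h1
    exact_mod_cast h1
  -- second term
  have hterm2 : -(∑ l ∈ T, (∫ X, WW u T X * (ub e t X * (WW u t X - WW u (insert l t) X)) ∂(PP χ N))) ≤
      Z * (-(∑ l ∈ T, ∫ X, ub e t X * (WW u t X - WW u (insert l t) X) ∂(PP χ N)) +
        342 * Real.exp (2 * M) * η * (N * (A / vv χ)) * c) := by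
    rw [← Finset.sum_neg_distrib]
    have h1 : ∑ l ∈ T, -(∫ X, WW u T X * (ub e t X * (WW u t X - WW u (insert l t) X)) ∂(PP χ N)) ≤
        ∑ l ∈ T, Z * (-(∫ X, ub e t X * (WW u t X - WW u (insert l t) X) ∂(PP χ N))
          + 342 * Real.exp (2 * M) * η * (A / vv χ) * c) :=
      Finset.sum_le_sum fun l hl => hEXA N L χ u e κ M r r' A α η hPar hEne t l ht (hTmem l hl)
    refine h1.trans ?_
    rw [← Finset.mul_sum, Finset.sum_add_distrib, Finset.sum_neg_distrib, Finset.sum_const, nsmul_eq_mul]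
    refine mul_le_mul_of_nonneg_left ?_ hZ0.le
    have h2 : (T.card : ℝ) * (342 * Real.exp (2 * M) * η * (A / vv χ) * c) ≤
        (N : ℝ) * (342 * Real.exp (2 * M) * η * (A / vv χ) * c) :=
      mul_le_mul_of_nonneg_right hTcard (by positivity)
    linarith
  -- third term
  have hterm3 : ∑ l ∈ T, ∑ l' ∈ T.erase l,
      ∫ X, WW u T X * (ub e t X * WW u t X * (zz u κ t l X * zz u κ t l' X)) ∂(PP χ N) ≤
      Z * (1152 * Real.exp (4 * M) * (N * (A / vv χ)) ^ 2 * c) := by
    have h1 : ∑ l ∈ T, ∑ l' ∈ T.erase l,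
        ∫ X, WW u T X * (ub e t X * WW u t X * (zz u κ t l X * zz u κ t l' X)) ∂(PP χ N) ≤
        ∑ l ∈ T, ∑ l' ∈ T.erase l, Z * (1152 * Real.exp (4 * M) * (A / vv χ) ^ 2 * c) := by
      refine Finset.sum_le_sum fun l hl => Finset.sum_le_sum fun l' hl' => ?_
      exact hEXD N L χ u e κ M r r' A α η hPar hEne t l l' ht (hTmem l hl)
        (hTmem l' (Finset.mem_of_mem_erase hl')) (Finset.ne_of_mem_erase hl').symm
    refine h1.trans ?_
    have hB : 0 ≤ Z * (1152 * Real.exp (4 * M) * (A / vv χ) ^ 2 * c) :=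
      mul_nonneg hZ0.le (by positivity)
    have h2 : ∀ l ∈ T, ∑ l' ∈ T.erase l, Z * (1152 * Real.exp (4 * M) * (A / vv χ) ^ 2 * c) ≤
        (N : ℝ) * (Z * (1152 * Real.exp (4 * M) * (A / vv χ) ^ 2 * c)) := by
      intro l _
      rw [Finset.sum_const, nsmul_eq_mul]
      refine mul_le_mul_of_nonneg_right ?_ hB
      refine le_trans ?_ hTcard
      exact_mod_cast Finset.card_le_card (Finset.erase_subset _ _)
    refine (Finset.sum_le_sum h2).trans ?_
    rw [Finset.sum_const, nsmul_eq_mul]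
    calc (T.card : ℝ) * ((N : ℝ) * (Z * (1152 * Real.exp (4 * M) * (A / vv χ) ^ 2 * c))) ≤
        (N : ℝ) * ((N : ℝ) * (Z * (1152 * Real.exp (4 * M) * (A / vv χ) ^ 2 * c))) :=
          mul_le_mul_of_nonneg_right hTcard (mul_nonneg (Nat.cast_nonneg _) hB)
      _ = _ := by ring
  -- constants
  have hn : (N : ℝ) / vv χ * A = N * (A / vv χ) := by ring
  rw [hn]
  set n : ℝ := (N : ℝ) * (A / vv χ) with hndef
  have hn0 : 0 ≤ n := mul_nonneg (Nat.cast_nonneg _) hAv
  have he2 : 342 * Real.exp (2 * M) ≤ KM M := by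
    unfold KM
    have : Real.exp (2 * M) ≤ Real.exp (14 * M) := Real.exp_le_exp.mpr (by linarith)
    nlinarith [Real.exp_pos (2 * M)]
  have he3 : 2 * Real.exp (6 * M) * (1152 * Real.exp (4 * M)) ≤ KM M := by
    unfold KM
    have h1 : Real.exp (6 * M) * Real.exp (4 * M) = Real.exp (10 * M) := by
      rw [← Real.exp_add]; ring_nf
    have h2 : Real.exp (10 * M) ≤ Real.exp (14 * M) := Real.exp_le_exp.mpr (by linarith)
    nlinarith [Real.exp_pos (10 * M)]
  have hk1 : 342 * Real.exp (2 * M) * η * n * c ≤ KM M * (η * n) * c := by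
    have : 0 ≤ η * n * c := mul_nonneg (mul_nonneg hη0 hn0) hc0
    calc 342 * Real.exp (2 * M) * η * n * c = 342 * Real.exp (2 * M) * (η * n * c) := by ring
      _ ≤ KM M * (η * n * c) := mul_le_mul_of_nonneg_right he2 this
      _ = _ := by ring
  have hk2 : 2 * Real.exp (6 * M) * (1152 * Real.exp (4 * M) * n ^ 2 * c) ≤ KM M * n ^ 2 * c := by
    have : 0 ≤ n ^ 2 * c := mul_nonneg (sq_nonneg _) hc0
    calc 2 * Real.exp (6 * M) * (1152 * Real.exp (4 * M) * n ^ 2 * c) =
        2 * Real.exp (6 * M) * (1152 * Real.exp (4 * M)) * (n ^ 2 * c) := by ring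
      _ ≤ KM M * (n ^ 2 * c) := mul_le_mul_of_nonneg_right he3 this
      _ = _ := by ring
  have hE6 : 0 ≤ 2 * Real.exp (6 * M) := by positivity
  have hterm3' := mul_le_mul_of_nonneg_left hterm3 hE6
  set S2 : ℝ := ∑ l ∈ T, ∫ X, ub e t X * (WW u t X - WW u (insert l t) X) ∂(PP χ N) with hS2
  have hk1' := mul_le_mul_of_nonneg_left hk1 hZ0.le
  have hk2' := mul_le_mul_of_nonneg_left hk2 hZ0.le
  have hfin : Z * ((1 + 14 * η) * c) + Z * (-S2 + 342 * Real.exp (2 * M) * η * n * c) +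
      2 * Real.exp (6 * M) * (Z * (1152 * Real.exp (4 * M) * n ^ 2 * c)) ≤
      Z * ((1 + 14 * η + KM M * (η * n + n ^ 2)) * c - S2) := by
    have e1 : 2 * Real.exp (6 * M) * (Z * (1152 * Real.exp (4 * M) * n ^ 2 * c)) =
      Z * (2 * Real.exp (6 * M) * (1152 * Real.exp (4 * M) * n ^ 2 * c)) := by ring
    rw [e1]
    have e2 : Z * ((1 + 14 * η + KM M * (η * n + n ^ 2)) * c - S2) = Z * ((1 + 14 * η) * c) +
        Z * (KM M * (η * n) * c) + Z * (KM M * n ^ 2 * c) - Z * S2 := by ring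
    rw [e2]
    have e3 : Z * (-S2 + 342 * Real.exp (2 * M) * η * n * c) =
        -(Z * S2) + Z * (342 * Real.exp (2 * M) * η * n * c) := by ring
    rw [e3]
    linarith
  refine le_trans ?_ hfin
  linarith [hint, hterm1, hterm2, hterm3']

end Pool.Agent.TBC
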