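import Pool.Agent.TBC.Stmts

/-!
# Three-body Bose gases (MP_80dc41_mp), sharp upper bound, module EXD: two particles next to a triple
-/

set_option autoImplicit false

open MeasureTheory Filter Topology
open scoped ContDiff

namespace Pool.Agent.TBC

open Pool.Agent.TBG Pool.Agent.TBF

theorem exd_proof (hCFD : Pool.Agent.TBG.Stmt_CFD) (_hUBV : Stmt_UBV) (_hWBA : Stmt_WBA) (hWBD : Stmt_WBD)
    (hDEC : Stmt_DEC) (hTRA : Stmt_TRA) (hRTB : Stmt_RTB) (hBNF : Stmt_BNF) : Stmt_EXD := by
  intro N L χ u e κ M r r' A α η hpar hE t l l' ht hl hl' hll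
  have hχ := hpar.cut
  have hsys := hpar.sys
  have hfam := hsys.fam
  have hnear := hsys.near
  have hA0 := hsys.A_nonneg
  have hp : IsProbabilityMeasure (nu χ) := (hCFD L χ hχ).1
  have hP : IsProbabilityMeasure (PP χ N) := by unfold PP; infer_instance
  obtain ⟨-, hDz⟩ := hWBD N u M r r' κ hfam hnear
  obtain ⟨-, -, hvv, hZp, hRb, -, -⟩ := hRTB N L χ u κ M r r' A α η hpar
  obtain ⟨-, hB3, hB4, -⟩ := hBNF N u e M r r' κ hfam hnear hE
  have hAv : 0 ≤ A / vv χ := div_nonneg hA0 hvv.le
  obtain ⟨hb3, hd3⟩ := hB3 t ht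
  obtain ⟨hb4, hd4⟩ := hB4 t l ht hl
  obtain ⟨hzc, hz0, ⟨Cz, hzC⟩, hzD⟩ := hDz t l' hl'
  obtain ⟨hm4, hn4, C4, hC4⟩ := hb4
  have h1 := hTRA N L χ u κ M r r' A α t t l (fun X => ub e t X * WW u t X) hχ hsys (Finset.Subset.refl t) hl
    hb3 hd3
  have hl'i : l' ∉ insert l t := by
    rw [Finset.mem_insert]
    rintro (h | h)
    · exact hll h.symm
    · exact hl' h
  have h2 := hTRA N L χ u κ M r r' A α (insert l t) t l' (fun X => ub e t X * WW u t X * zz u κ t l X) hχ hsys
    (Finset.subset_insert l t) hl'i ⟨hm4, hn4, C4, hC4⟩ hd4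
  have hc6 : (((t.card.choose 2 : ℕ) : ℝ) + (t.card : ℝ)) = 6 := by
    rw [ht]
    norm_num [Nat.choose]
  rw [hc6] at h1 h2
  set g : (Fin N → E) → ℝ := fun X => ub e t X * WW u t X * zz u κ t l X * zz u κ t l' X with hg
  have hgm : Measurable g := hm4.mul hzc.measurable
  have hg0 : ∀ X, 0 ≤ g X := fun X => mul_nonneg (hn4 X) (hz0 X)
  have hgi : Integrable g (PP χ N) := by
    refine (integrable_const (C4 * Cz)).mono' hgm.aestronglyMeasurable (ae_of_all _ fun X => ?_)
    rw [Real.norm_eq_abs, abs_of_nonneg (hg0 X)]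
    exact mul_le_mul (hC4 X) (hzC X) (hz0 X) ((hn4 X).trans (hC4 X))
  have hgD : Dep (insert l' (insert l t)) g := by
    intro X Y h
    have e1 := hd4 X Y fun i hi => h i (Finset.mem_insert_of_mem hi)
    have e2 := hzD X Y fun i hi => h i (by
      rcases Finset.mem_insert.1 hi with h' | h'
      · rw [h']
        exact Finset.mem_insert_self _ _
      · exact Finset.mem_insert_of_mem (Finset.mem_insert_of_mem h'))
    show ub e t X * WW u t X * zz u κ t l X * zz u κ t l' X = ub e t Y * WW u t Y * zz u κ t l Y * zz u κ t l' Y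
    rw [e2]
    exact congrArg (fun x => x * zz u κ t l' Y) e1
  have hPc : ({l, l'} : Finset (Fin N)).card = 2 := Finset.card_pair hll
  have h3 := hDEC N L χ u M r r' (Finset.univ \ t) {l, l'} (insert l' (insert l t)) g hχ hfam (by
      intro x hx
      rw [Finset.mem_sdiff]
      refine ⟨Finset.mem_univ x, ?_⟩
      rcases Finset.mem_insert.1 hx with h | h
      · rw [h]
        exact hl
      · rw [Finset.mem_singleton.1 h]
        exact hl') (by
      rw [Finset.disjoint_left]
      intro x hx hx'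
      rw [Finset.mem_sdiff, Finset.mem_sdiff] at hx
      rcases Finset.mem_insert.1 hx' with h | h
      · exact hx.2 (Finset.mem_insert_of_mem (Finset.mem_singleton.2 h))
      · rcases Finset.mem_insert.1 h with h | h
        · exact hx.2 (Finset.mem_insert.2 (Or.inl h))
        · exact hx.1.2 h) hgm hg0 hgi hgD
  have hset : (Finset.univ \ t) \ {l, l'} = Finset.univ \ insert l' (insert l t) := by
    ext x
    simp only [Finset.mem_sdiff, Finset.mem_univ, true_and, Finset.mem_insert, Finset.mem_singleton]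
    tauto
  have hc5 : (insert l' (insert l t)).card = 5 := by
    rw [Finset.card_insert_of_notMem hl'i, Finset.card_insert_of_notMem hl, ht]
  have h4 := (hRb (insert l' (insert l t))).2
  rw [hc5] at h4
  rw [hset, hPc] at h3
  have h5 : (2 : ℝ) * M * ((2 : ℕ) : ℝ) = 4 * M := by push_cast; ring
  rw [h5] at h3
  have hI0 : 0 ≤ ∫ X, ub e t X * WW u t X ∂(PP χ N) := integral_nonneg hb3.2.1
  calc ∫ X, WW u (Finset.univ \ t) X * (ub e t X * WW u t X * (zz u κ t l X * zz u κ t l' X)) ∂(PP χ N)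
      = ∫ X, WW u (Finset.univ \ t) X * g X ∂(PP χ N) :=
        integral_congr_ae (ae_of_all _ fun X => by
          show WW u (Finset.univ \ t) X * (ub e t X * WW u t X * (zz u κ t l X * zz u κ t l' X)) =
            WW u (Finset.univ \ t) X * (ub e t X * WW u t X * zz u κ t l X * zz u κ t l' X)
          ring)
    _ ≤ Real.exp (4 * M) * ZW u χ (Finset.univ \ insert l' (insert l t)) * ∫ X, g X ∂(PP χ N) := h3
    _ ≤ Real.exp (4 * M) * (2 ^ 5 * ZW u χ (Finset.univ : Finset (Fin N))) *
        (6 * (A / vv χ) * (6 * (A / vv χ) * ∫ X, ub e t X * WW u t X ∂(PP χ N))) := by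
        refine mul_le_mul (mul_le_mul_of_nonneg_left h4 (Real.exp_pos _).le) ?_ (integral_nonneg hg0) ?_
        · exact h2.trans (mul_le_mul_of_nonneg_left h1 (by positivity))
        · have := hZp
          positivity
    _ = ZW u χ (Finset.univ : Finset (Fin N)) * (1152 * Real.exp (4 * M) * (A / vv χ) ^ 2 *
        ∫ X, ub e t X * WW u t X ∂(PP χ N)) := by ring

end Pool.Agent.TBC
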