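import Pool.Agent.TBC.Stmts

/-!
# Squad TBC, module EXF: the other terms of the expectation of the energy
-/

set_option autoImplicit false

open MeasureTheory Filter Topology
open scoped ContDiff

namespace Pool.Agent.TBC

open Pool.Agent.TBG Pool.Agent.TBF

namespace EXF_

lemma KM_ge (M : ℝ) (hM : 0 ≤ M) (k : ℕ) (hk : k ≤ 5) :
    Real.exp (2 * M * k) * 2 ^ k ≤ KM M := by
  have hk' : (k : ℝ) ≤ 5 := by exact_mod_cast hk
  have h1 : Real.exp (2 * M * k) ≤ Real.exp (14 * M) := by
    apply Real.exp_le_exp.2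
    nlinarith
  have h2 : (2 : ℝ) ^ k ≤ 2 ^ 5 := pow_le_pow_right₀ (by norm_num) hk
  have h3 : 0 < Real.exp (14 * M) := Real.exp_pos _
  unfold KM
  calc Real.exp (2 * M * k) * 2 ^ k ≤ Real.exp (14 * M) * 2 ^ 5 :=
        mul_le_mul h1 h2 (by positivity) h3.le
    _ ≤ 3000 * Real.exp (14 * M) := by nlinarith

/-- decoupling of at most five particles -/
lemma core (hDEC : Stmt_DEC) (hRTB : Stmt_RTB) (N : ℕ) (L : ℝ) (χ : E → ℝ) (u : KF) (κ : E → ℝ)
    (M r r' A α η : ℝ) (hP : Par N L χ u κ M r r' A α η) (B : Finset (Fin N)) (hB : B.card ≤ 5)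
    (g : (Fin N → E) → ℝ) (hg : Measurable g) (h0 : ∀ X, 0 ≤ g X) (hi : Integrable g (PP χ N))
    (hd : Dep B g) :
    ∫ X, WW u Finset.univ X * g X ∂(PP χ N) ≤
      ZW u χ (Finset.univ : Finset (Fin N)) * (KM M * ∫ X, g X ∂(PP χ N)) := by
  have hF := hP.sys.fam
  have h1 := hDEC N L χ u M r r' Finset.univ B B g hP.cut hF (Finset.subset_univ _)
    Finset.sdiff_disjoint hg h0 hi hd
  obtain ⟨-, -, -, hZ, hR, -, -⟩ := hRTB N L χ u κ M r r' A α η hP
  have h2 := (hR B).2
  have hI : 0 ≤ ∫ X, g X ∂(PP χ N) := integral_nonneg h0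
  refine h1.trans ?_
  calc Real.exp (2 * M * B.card) * ZW u χ (Finset.univ \ B) * ∫ X, g X ∂(PP χ N)
      ≤ Real.exp (2 * M * B.card) * (2 ^ B.card * ZW u χ (Finset.univ : Finset (Fin N))) *
        ∫ X, g X ∂(PP χ N) := by
        apply mul_le_mul_of_nonneg_right _ hI
        exact mul_le_mul_of_nonneg_left h2 (Real.exp_pos _).le
    _ = ZW u χ (Finset.univ : Finset (Fin N)) *
        ((Real.exp (2 * M * B.card) * 2 ^ B.card) * ∫ X, g X ∂(PP χ N)) := by ring
    _ ≤ _ := by
        apply mul_le_mul_of_nonneg_left _ hZ.le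
        exact mul_le_mul_of_nonneg_right (KM_ge M hF.M_nonneg _ hB) hI

lemma adm0 : Admissible (fun _ _ => (0 : ℝ)) where
  meas := measurable_const
  nonneg := fun _ _ => le_rfl
  bdd := ⟨0, fun _ _ => le_rfl⟩
  supp := ⟨0, fun _ _ _ => rfl⟩
  symm := fun _ _ => rfl
  tri := fun _ _ _ => ⟨rfl, rfl⟩

/-- the gradients are bounded -/
lemma gg_bdd (hKIV : Stmt_KIV) (hEBD : Stmt_EBD) (u : KF) (M r r' : ℝ) (hF : Fam u M r r')
    (k : ℕ) : ∃ C : ℝ, ∀ y, |gg u k y| ≤ C := by
  obtain ⟨hinv, -, -, hcont, -, -, hsup⟩ := hKIV u (fun _ _ => 0) hF.inv hF.smooth adm0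
    continuous_const
  have key : ∀ R : ℝ, (∀ y : Fin k → E, (∃ i j, R < ‖y i - y j‖) → u k y = 0) →
      ∃ C : ℝ, ∀ y, |gg u k y| ≤ C := by
    intro R hR
    exact hEBD k (gg u k) R (hcont k) (fun a y => hinv.trans k a y)
      (fun y hy => (hsup k R hR y hy).1)
  by_cases h3 : k = 3
  · subst h3
    obtain ⟨R, hR⟩ := hF.sup3
    exact key R hR
  by_cases h4 : k = 4
  · subst h4
    exact key r hF.sup4
  by_cases h5 : k = 5
  · subst h5
    exact key r' hF.sup5
  exact key 0 (fun y _ => hF.zero k h3 h4 h5 y)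

end EXF_

open EXF_ in
theorem exf_proof (hCFD : Stmt_CFD) (hLAM : Stmt_LAM) (hLAW : Stmt_LAW) (hUBV : Stmt_UBV)
    (hKIV : Stmt_KIV) (hWBA : Stmt_WBA) (hDEC : Stmt_DEC) (hRTB : Stmt_RTB) (hEBD : Stmt_EBD)
    (hBNF : Stmt_BNF) : Stmt_EXF := by
  intro N L χ u e κ M r r' A α η hP hE
  have hF := hP.sys.fam
  haveI : IsProbabilityMeasure (nu χ) := (hCFD L χ hP.cut).1
  haveI : IsProbabilityMeasure (PP χ N) := by unfold PP; infer_instance
  have hucont : ∀ k, Continuous (u k) := fun k => (hF.smooth k).continuous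
  refine ⟨?_, ?_, ?_⟩
  · -- five particles
    intro c hc
    obtain ⟨hb1, -, -, hb4⟩ := hBNF N u e M r r' κ hF hP.sys.near hE
    obtain ⟨hcont, -, C, hC⟩ := hb1 c
    obtain ⟨⟨hm, hn, -⟩, hdep⟩ := hb4 c
    have hint : Integrable (fun X => |ub e c X|) (PP χ N) := by
      refine Integrable.of_bound hm.aestronglyMeasurable C (Eventually.of_forall fun X => ?_)
      rw [Real.norm_eq_abs, abs_abs]
      exact hC X
    have hWc : Continuous (WW u (Finset.univ : Finset (Fin N))) :=
      ((hUBV u).2.1 hucont N Finset.univ).2.2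
    have hWb := (hWBA N u M r r' hF).1 (Finset.univ : Finset (Fin N))
    refine le_trans ?_ (core hDEC hRTB N L χ u κ M r r' A α η hP c hc.le _ hm hn hint hdep)
    have hb : ∀ X : Fin N → E, ‖WW u Finset.univ X * ub e c X‖ ≤
        Real.exp (2 * M * (Finset.univ : Finset (Fin N)).card) * C := by
      intro X
      rw [norm_mul, Real.norm_eq_abs, Real.norm_eq_abs, abs_of_pos (hWb X).1]
      exact mul_le_mul (hWb X).2 (hC X) (abs_nonneg _) (Real.exp_pos _).le
    have hb' : ∀ X : Fin N → E, ‖WW u Finset.univ X * |ub e c X|‖ ≤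
        Real.exp (2 * M * (Finset.univ : Finset (Fin N)).card) * C := by
      intro X
      rw [norm_mul, Real.norm_eq_abs, Real.norm_eq_abs, abs_abs, abs_of_pos (hWb X).1]
      exact mul_le_mul (hWb X).2 (hC X) (abs_nonneg _) (Real.exp_pos _).le
    apply integral_mono
    · exact Integrable.of_bound (hWc.mul hcont).measurable.aestronglyMeasurable _
        (Eventually.of_forall hb)
    · exact Integrable.of_bound (hWc.mul hcont.abs).measurable.aestronglyMeasurable _
        (Eventually.of_forall hb')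
    · intro X
      exact mul_le_mul_of_nonneg_left (le_abs_self _) (hWb X).1.le
  · -- one particle
    intro i c
    obtain ⟨hlm, -, hl2, -, -, -⟩ := hLAM L χ c hP.cut
    have hmap := (hLAW N L χ hP.cut).1 i
    have hmi : Measurable (fun X : Fin N → E => X i) := measurable_pi_apply i
    have hint : Integrable (fun X : Fin N → E => lam χ c (X i) ^ 2) (PP χ N) := by
      have h1 : Integrable (fun x => lam χ c x ^ 2) (Measure.map (fun X : Fin N → E => X i)
          (PP χ N)) := by rw [hmap]; exact hl2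
      exact h1.comp_measurable hmi
    have hval : ∫ X : Fin N → E, lam χ c (X i) ^ 2 ∂(PP χ N) = ∫ x, lam χ c x ^ 2 ∂(nu χ) := by
      rw [← hmap, integral_map hmi.aemeasurable
        ((hlm.pow_const 2).aestronglyMeasurable)]
    rw [← hval]
    refine core hDEC hRTB N L χ u κ M r r' A α η hP {i} (by simp) _
      ((hlm.comp hmi).pow_const 2) (fun X => sq_nonneg _) hint ?_
    intro X Y h
    have h1 := h i (Finset.mem_singleton_self i)
    show lam χ c (X i) ^ 2 = lam χ c (Y i) ^ 2
    rw [h1]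
  · -- the gradients
    intro A' i c hi hcard
    obtain ⟨hlm, -, -, hl1, -, -⟩ := hLAM L χ c hP.cut
    obtain ⟨-, -, -, hgc, -, hgn, -⟩ := hKIV u (fun _ _ => 0) hF.inv hF.smooth adm0
      continuous_const
    have hmap := (hLAW N L χ hP.cut).1 i
    have hmi : Measurable (fun X : Fin N → E => X i) := measurable_pi_apply i
    have hint1 : Integrable (fun X : Fin N → E => |lam χ c (X i)|) (PP χ N) := by
      have h1 : Integrable (fun x => |lam χ c x|) (Measure.map (fun X : Fin N → E => X i)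
          (PP χ N)) := by rw [hmap]; exact hl1
      exact h1.comp_measurable hmi
    have hubc : Continuous (ub (gg u) A') := ((hUBV (gg u)).2.1 hgc N A').1
    obtain ⟨C, hC⟩ := gg_bdd hKIV hEBD u M r r' hF A'.card
    have hint : Integrable (fun X : Fin N → E => |lam χ c (X i)| * ub (gg u) A' X) (PP χ N) := by
      refine hint1.mul_bdd (c := C) hubc.measurable.aestronglyMeasurable
        (Eventually.of_forall fun X => ?_)
      exact hC _
    have hma : Measurable (fun X : Fin N → E => |lam χ c (X i)|) := by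
      have := (hlm.comp hmi).norm
      exact this
    refine core hDEC hRTB N L χ u κ M r r' A α η hP A' hcard _
      (hma.mul hubc.measurable) (fun X => mul_nonneg (abs_nonneg _) (hgn _ _)) hint ?_
    intro X Y h
    have h1 := h i hi
    have h2 := ((hUBV (gg u)).1 N A').1 X Y h
    show |lam χ c (X i)| * ub (gg u) A' X = |lam χ c (Y i)| * ub (gg u) A' Y
    rw [h1, h2]

end Pool.Agent.TBC
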