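import Pool.Agent.TBC.Stmts

/-!
# Three-body Bose gases (MP_80dc41_mp), sharp upper bound, module EXP: three or four more particles next to a triple
-/

set_option autoImplicit false

open MeasureTheory Filter Topology
open scoped ContDiff

namespace Pool.Agent.TBC

open Pool.Agent.TBG Pool.Agent.TBF

theorem exp_proof (hCFD : Pool.Agent.TBG.Stmt_CFD) (_hUBV : Stmt_UBV) (hWBA : Stmt_WBA) (hWBD : Stmt_WBD)
    (hDEC : Stmt_DEC) (hTRA : Stmt_TRA) (hTRB : Stmt_TRB) (hTRC : Stmt_TRC) (hRTB : Stmt_RTB)
    (hBNF : Stmt_BNF) : Stmt_EXP := by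
  intro N L χ u e κ M r r' A α η hpar hE t l ht hl
  have hχ := hpar.cut
  have hsys := hpar.sys
  have hfam := hsys.fam
  have hnear := hsys.near
  have hA0 := hsys.A_nonneg
  have hp : IsProbabilityMeasure (nu χ) := (hCFD L χ hχ).1
  have hP : IsProbabilityMeasure (PP χ N) := by unfold PP; infer_instance
  obtain ⟨-, -, -, hW4, hW5⟩ := hWBA N u M r r' hfam
  obtain ⟨hD1, -⟩ := hWBD N u M r r' κ hfam hnear
  obtain ⟨-, hα0, hvv, hZp, hRb, -, -⟩ := hRTB N L χ u κ M r r' A α η hpar
  obtain ⟨-, hB3, hB4, -⟩ := hBNF N u e M r r' κ hfam hnear hE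
  have hAv : 0 ≤ A / vv χ := div_nonneg hA0 hvv.le
  have hvi : 0 ≤ (vv χ)⁻¹ := inv_nonneg.2 hvv.le
  obtain ⟨hb3, hd3⟩ := hB3 t ht
  obtain ⟨hb4, hd4⟩ := hB4 t l ht hl
  have h1 := hTRA N L χ u κ M r r' A α t t l (fun X => ub e t X * WW u t X) hχ hsys (Finset.Subset.refl t) hl
    hb3 hd3
  have hc6 : (((t.card.choose 2 : ℕ) : ℝ) + (t.card : ℝ)) = 6 := by
    rw [ht]
    norm_num [Nat.choose]
  rw [hc6] at h1
  have hI0 : 0 ≤ ∫ X, ub e t X * WW u t X ∂(PP χ N) := integral_nonneg hb3.2.1
  have hlit : (insert l t).card = 4 := by rw [Finset.card_insert_of_notMem hl, ht]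
  -- decoupling of `p`
  have key : ∀ (p : Finset (Fin N)) (a : (Fin N → E) → ℝ), Disjoint p (insert l t) → Measurable a →
      (∀ X, 0 ≤ a X ∧ a X ≤ 1) → Dep (insert l p) a →
      ∫ X, WW u (Finset.univ \ insert l t) X * (ub e t X * WW u t X * zz u κ t l X * a X) ∂(PP χ N) ≤
        Real.exp (2 * M * p.card) * (2 ^ (4 + p.card) * ZW u χ (Finset.univ : Finset (Fin N))) *
          ∫ X, ub e t X * WW u t X * zz u κ t l X * a X ∂(PP χ N) := by
    intro p a hd ham ha01 haD
    obtain ⟨hm4, hn4, C4, hC4⟩ := hb4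
    have hg0 : ∀ X, 0 ≤ ub e t X * WW u t X * zz u κ t l X * a X := fun X => mul_nonneg (hn4 X) (ha01 X).1
    have h3 := hDEC N L χ u M r r' (Finset.univ \ insert l t) p (insert l t ∪ p)
      (fun X => ub e t X * WW u t X * zz u κ t l X * a X) hχ hfam (by
        intro x hx
        rw [Finset.mem_sdiff]
        exact ⟨Finset.mem_univ x, fun h => (Finset.disjoint_left.1 hd) hx h⟩) (by
        rw [Finset.disjoint_left]
        intro x hx hx'
        rw [Finset.mem_sdiff, Finset.mem_sdiff] at hx
        rcases Finset.mem_union.1 hx' with h | h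
        · exact hx.1.2 h
        · exact hx.2 h) (hm4.mul ham) hg0 (by
        refine (integrable_const C4).mono' (hm4.mul ham).aestronglyMeasurable (ae_of_all _ fun X => ?_)
        rw [Real.norm_eq_abs, abs_of_nonneg (hg0 X)]
        have h5 := mul_le_mul_of_nonneg_left (ha01 X).2 (hn4 X)
        rw [mul_one] at h5
        exact h5.trans (hC4 X)) (by
        intro X Y h
        have e1 := hd4 X Y fun i hi => h i (Finset.mem_union_left _ hi)
        have e2 := haD X Y fun i hi => h i (by
          rcases Finset.mem_insert.1 hi with h' | h'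
          · rw [h']
            exact Finset.mem_union_left _ (Finset.mem_insert_self _ _)
          · exact Finset.mem_union_right _ h')
        show ub e t X * WW u t X * zz u κ t l X * a X = ub e t Y * WW u t Y * zz u κ t l Y * a Y
        rw [e2]
        exact congrArg (fun x => x * a Y) e1)
    have hset : (Finset.univ \ insert l t) \ p = Finset.univ \ (insert l t ∪ p) := by
      ext x
      simp only [Finset.mem_sdiff, Finset.mem_univ, true_and, Finset.mem_union]
      tauto
    have hc : (insert l t ∪ p).card = 4 + p.card := by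
      rw [Finset.card_union_of_disjoint hd.symm, hlit]
    have h4 := (hRb (insert l t ∪ p)).2
    rw [hc] at h4
    rw [hset] at h3
    exact h3.trans (mul_le_mul_of_nonneg_right (mul_le_mul_of_nonneg_left h4 (Real.exp_pos _).le)
      (integral_nonneg hg0))
  have hZ0 := hZp.le
  constructor
  · intro p hpc hd
    have hlp : l ∉ p := fun h => (Finset.disjoint_left.1 hd) h (Finset.mem_insert_self l t)
    have hc3 : (insert l p).card = 3 := by rw [Finset.card_insert_of_notMem hlp, hpc]
    have h2 := key p (a3 u (insert l p)) hd (hW5 _).1.measurable (fun X =>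
      ⟨(hW4 _ X hc3).1, (hW4 _ X hc3).2.1⟩) (hW5 _).2
    have h3 := hTRB N L χ u κ M r r' A α (insert l t) p l (fun X => ub e t X * WW u t X * zz u κ t l X) hχ hsys
      (Finset.mem_insert_self l t) hd hpc hb4 hd4
    have h5 : (2 : ℝ) * M * ((2 : ℕ) : ℝ) = 4 * M := by push_cast; ring
    rw [hpc, h5] at h2
    have h6 := h3.trans (mul_le_mul_of_nonneg_left h1 (mul_nonneg (pow_nonneg hvi 2) hα0))
    refine h2.trans ((mul_le_mul_of_nonneg_left h6 (by positivity)).trans (le_of_eq ?_))
    ring
  · intro s hsc hd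
    have h2 := key s (fun X => ∏ a ∈ s, nr κ X l a) hd
      (continuous_finset_prod s fun a _ => (hD1 l a).1).measurable
      (fun X => ⟨Finset.prod_nonneg fun a _ => ((hD1 l a).2 X).1,
        Finset.prod_le_one (fun a _ => ((hD1 l a).2 X).1) (fun a _ => ((hD1 l a).2 X).2)⟩)
      (fun X Y h => Finset.prod_congr rfl fun a ha => by
        unfold nr
        rw [h l (Finset.mem_insert_self l s), h a (Finset.mem_insert_of_mem ha)])
    have h3 := hTRC N L χ u κ M r r' A α (insert l t) s l (fun X => ub e t X * WW u t X * zz u κ t l X) hχ hsys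
      (Finset.mem_insert_self l t) hd hsc hb4 hd4
    have h5 : (2 : ℝ) * M * ((3 : ℕ) : ℝ) = 6 * M := by push_cast; ring
    rw [hsc, h5] at h2
    have h6 := h3.trans (mul_le_mul_of_nonneg_left h1 (pow_nonneg hAv 3))
    refine h2.trans ((mul_le_mul_of_nonneg_left h6 (by positivity)).trans (le_of_eq ?_))
    ring

end Pool.Agent.TBC
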