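import Pool.Agent.TBC.Stmts

/-!
Squad TBC, module EXQ: the energy of four particles.
-/

set_option autoImplicit false

open MeasureTheory Filter Topology
open scoped ContDiff

namespace Pool.Agent.TBC

open Pool.Agent.TBG Pool.Agent.TBF

namespace EXQ_

variable {N : ℕ}

/-- continuous and bounded -/
def Cb (F : (Fin N → E) → ℝ) : Prop := Continuous F ∧ ∃ C : ℝ, ∀ X, |F X| ≤ C

lemma Cb.mul {F G : (Fin N → E) → ℝ} (hF : Cb F) (hG : Cb G) : Cb (fun X => F X * G X) := by
  obtain ⟨hF1, C, hC⟩ := hF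
  obtain ⟨hG1, D, hD⟩ := hG
  refine ⟨hF1.mul hG1, C * D, fun X => ?_⟩
  rw [abs_mul]
  exact mul_le_mul (hC X) (hD X) (abs_nonneg _) ((abs_nonneg _).trans (hC X))

lemma Cb.abs {F : (Fin N → E) → ℝ} (hF : Cb F) : Cb (fun X => |F X|) := by
  obtain ⟨hF1, C, hC⟩ := hF
  refine ⟨hF1.abs, C, fun X => ?_⟩
  rw [abs_abs]
  exact hC X

lemma Cb.integrable {F : (Fin N → E) → ℝ} (hF : Cb F) {μ : Measure (Fin N → E)}
    [IsProbabilityMeasure μ] : Integrable F μ := by
  obtain ⟨hF1, C, hC⟩ := hF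
  refine Integrable.mono' (integrable_const C) hF1.aestronglyMeasurable ?_
  exact Eventually.of_forall fun X => by
    rw [Real.norm_eq_abs]
    exact hC X

end EXQ_

open EXQ_ in
/-- the energy of four particles -/
theorem exq_proof (hCFD : Stmt_CFD) (hIND : Stmt_IND) (hUBV : Stmt_UBV) (hWBA : Stmt_WBA)
    (hWBD : Stmt_WBD) (hPWE : Stmt_PWE) (hRTB : Stmt_RTB) (hBNF : Stmt_BNF)
    (hEXR : Stmt_EXR) : Stmt_EXQ := by
  intro N L χ u e κ M r r' A α η hpar hene q hq
  have hcut := hpar.cut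
  have hsys := hpar.sys
  have hfam := hsys.fam
  have hnear := hsys.near
  have hM := hfam.M_nonneg
  have hA := hsys.A_nonneg
  obtain ⟨hη, hα, hvv, hZ, hR1, hR2, hR3⟩ := hRTB N L χ u κ M r r' A α η hpar
  haveI hnu : IsProbabilityMeasure (nu χ) := (hCFD L χ hcut).1
  haveI hPP : IsProbabilityMeasure (PP χ N) := by
    unfold PP
    infer_instance
  obtain ⟨hw1, hw2, hw3, hw4, hw5⟩ := hWBA N u M r r' hfam
  obtain ⟨hd1, hd2⟩ := hWBD N u M r r' κ hfam hnear
  obtain ⟨hb1, -, -, -⟩ := hBNF N u e M r r' κ hfam hnear hene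
  obtain ⟨hx1, hx2⟩ := hEXR N L χ u e κ M r r' A α η hpar hene q hq
  set T : Finset (Fin N) := Finset.univ \ q with hT
  set Z : ℝ := ZW u χ (Finset.univ : Finset (Fin N)) with hZd
  have hdis : Disjoint q T := Finset.disjoint_sdiff
  have hun : q ∪ T = Finset.univ := by
    rw [hT, Finset.union_sdiff_of_subset (Finset.subset_univ q)]
  -- continuity and boundedness
  have hcont := ((hUBV u).2.1 (fun k => (hfam.smooth k).continuous) N)
  have hdep := (hUBV u).1 N
  have cW : ∀ S : Finset (Fin N), Cb (WW u S) := by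
    intro S
    refine ⟨(hcont S).2.2, Real.exp (2 * M * S.card), fun X => ?_⟩
    rw [abs_of_pos (hw1 S X).1]
    exact (hw1 S X).2
  have ce : Cb (ub e q) := ⟨(hb1 q).1, (hb1 q).2.2⟩
  have cz : ∀ l ∈ T, Cb (zz u κ q l) := by
    intro l hl
    have hlq : l ∉ q := by
      rw [hT, Finset.mem_sdiff] at hl
      exact hl.2
    obtain ⟨h1, h2, ⟨C, hC⟩, h4⟩ := hd2 q l hlq
    refine ⟨h1, C, fun X => ?_⟩
    rw [abs_of_nonneg (h2 X)]
    exact hC X
  have hcard : ∀ a ∈ q, ∀ p ∈ T.powersetCard 2, (insert a p).card = 3 := by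
    intro a ha p hp
    rw [Finset.mem_powersetCard] at hp
    have h1 : a ∉ p := fun h => by
      have h2 := hp.1 h
      rw [hT, Finset.mem_sdiff] at h2
      exact h2.2 ha
    rw [Finset.card_insert_of_notMem h1, hp.2]
  have ca : ∀ a ∈ q, ∀ p ∈ T.powersetCard 2, Cb (a3 u (insert a p)) := by
    intro a ha p hp
    refine ⟨(hw5 (insert a p)).1, 1, fun X => ?_⟩
    have h3 := hw4 (insert a p) X (hcard a ha p hp)
    rw [abs_of_nonneg h3.1]
    exact h3.2.1
  -- pointwise bound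
  have hpt : ∀ X : Fin N → E, WW u Finset.univ X * ub e q X ≤
      WW u T X * (ub e q X * WW u q X) + Real.exp (8 * M) *
        ((∑ l ∈ T, WW u T X * (|ub e q X| * zz u κ q l X)) +
          ∑ a ∈ q, ∑ p ∈ T.powersetCard 2, WW u T X * (|ub e q X| * a3 u (insert a p) X)) := by
    intro X
    have h1 := hPWE N u M r r' κ hfam hnear q T X hdis hq
    rw [hun] at h1
    have h2 : (WW u Finset.univ X - WW u q X * WW u T X) * ub e q X ≤
        |WW u Finset.univ X - WW u q X * WW u T X| * |ub e q X| := by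
      rw [← abs_mul]
      exact le_abs_self _
    have h3 := mul_le_mul_of_nonneg_right h1 (abs_nonneg (ub e q X))
    have h4 : Real.exp (8 * M) * (WW u T X *
        (∑ l ∈ T, zz u κ q l X + ∑ a ∈ q, ∑ p ∈ T.powersetCard 2, a3 u (insert a p) X)) *
        |ub e q X| = Real.exp (8 * M) *
        ((∑ l ∈ T, WW u T X * (|ub e q X| * zz u κ q l X)) +
          ∑ a ∈ q, ∑ p ∈ T.powersetCard 2, WW u T X * (|ub e q X| * a3 u (insert a p) X)) := by
      simp only [← Finset.mul_sum]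
      ring
    rw [h4] at h3
    linarith
  -- integrability
  have i0 : Integrable (fun X => WW u Finset.univ X * ub e q X) (PP χ N) :=
    ((cW _).mul ce).integrable
  have i1 : Integrable (fun X => WW u T X * (ub e q X * WW u q X)) (PP χ N) :=
    ((cW T).mul (ce.mul (cW q))).integrable
  have i2 : ∀ l ∈ T, Integrable (fun X => WW u T X * (|ub e q X| * zz u κ q l X)) (PP χ N) :=
    fun l hl => ((cW T).mul (ce.abs.mul (cz l hl))).integrable
  have i3 : ∀ a ∈ q, ∀ p ∈ T.powersetCard 2,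
      Integrable (fun X => WW u T X * (|ub e q X| * a3 u (insert a p) X)) (PP χ N) :=
    fun a ha p hp => ((cW T).mul (ce.abs.mul (ca a ha p hp))).integrable
  have i4 : Integrable (fun X => ∑ l ∈ T, WW u T X * (|ub e q X| * zz u κ q l X)) (PP χ N) :=
    integrable_finset_sum _ i2
  have i5 : Integrable (fun X => ∑ a ∈ q, ∑ p ∈ T.powersetCard 2,
      WW u T X * (|ub e q X| * a3 u (insert a p) X)) (PP χ N) :=
    integrable_finset_sum _ fun a ha => integrable_finset_sum _ (i3 a ha)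
  set c : ℝ := ∫ X, ub e q X * WW u q X ∂(PP χ N) with hc
  set d : ℝ := ∫ X, |ub e q X| ∂(PP χ N) with hd
  have hd0 : 0 ≤ d := integral_nonneg fun X => abs_nonneg _
  -- the integral of the bound
  have hint : ∫ X, WW u Finset.univ X * ub e q X ∂(PP χ N) ≤
      (∫ X, WW u T X * (ub e q X * WW u q X) ∂(PP χ N)) + Real.exp (8 * M) *
        ((∑ l ∈ T, ∫ X, WW u T X * (|ub e q X| * zz u κ q l X) ∂(PP χ N)) +
          ∑ a ∈ q, ∑ p ∈ T.powersetCard 2,
            ∫ X, WW u T X * (|ub e q X| * a3 u (insert a p) X) ∂(PP χ N)) := by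
    have h1 := integral_mono i0 (i1.add ((i4.add i5).const_mul (Real.exp (8 * M)))) hpt
    refine h1.trans (le_of_eq ?_)
    have e1 : ∫ X, (∑ l ∈ T, WW u T X * (|ub e q X| * zz u κ q l X)) ∂(PP χ N) =
        ∑ l ∈ T, ∫ X, WW u T X * (|ub e q X| * zz u κ q l X) ∂(PP χ N) :=
      integral_finset_sum _ i2
    have e2 : ∫ X, (∑ a ∈ q, ∑ p ∈ T.powersetCard 2,
        WW u T X * (|ub e q X| * a3 u (insert a p) X)) ∂(PP χ N) =
        ∑ a ∈ q, ∑ p ∈ T.powersetCard 2,
          ∫ X, WW u T X * (|ub e q X| * a3 u (insert a p) X) ∂(PP χ N) := by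
      rw [integral_finset_sum _ fun a ha => integrable_finset_sum _ (i3 a ha)]
      exact Finset.sum_congr rfl fun a ha => integral_finset_sum _ (i3 a ha)
    rw [← e1, ← e2, ← integral_add i4 i5, ← integral_const_mul]
    exact integral_add i1 ((i4.add i5).const_mul _)
  -- the main term
  have hmain : ∫ X, WW u T X * (ub e q X * WW u q X) ∂(PP χ N) = ZW u χ T * c := by
    refine hIND N L χ T q (WW u T) (fun X => ub e q X * WW u q X) hcut hdis.symm
      (cW T).1.measurable (ce.mul (cW q)).1.measurable (hdep T).2.2 ?_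
    intro X Y hXY
    rw [(hb1 q).2.1 X Y hXY, (hdep q).2.2 X Y hXY]
  have hZT := hR2 q (by rw [hq])
  have hcabs : |c| ≤ Real.exp (8 * M) * d := by
    have h1 : |c| ≤ ∫ X, |ub e q X * WW u q X| ∂(PP χ N) := abs_integral_le_integral_abs
    refine h1.trans ?_
    rw [hd, ← integral_const_mul]
    refine integral_mono (ce.mul (cW q)).abs.integrable (ce.abs.integrable.const_mul _) ?_
    intro X
    simp only []
    rw [abs_mul, abs_of_pos (hw1 q X).1, mul_comm]
    refine mul_le_mul_of_nonneg_right ?_ (abs_nonneg _)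
    have h2 := (hw1 q X).2
    rw [hq] at h2
    have h3 : 2 * M * ((4 : ℕ) : ℝ) = 8 * M := by
      push_cast
      ring
    rwa [h3] at h2
  have hm2 : ZW u χ T * c ≤ Z * c + 30 * η * Z * (Real.exp (8 * M) * d) := by
    have h1 : (ZW u χ T - Z) * c ≤ |ZW u χ T - Z| * |c| := by
      rw [← abs_mul]
      exact le_abs_self _
    have h2 : |ZW u χ T - Z| * |c| ≤ 30 * η * Z * (Real.exp (8 * M) * d) :=
      mul_le_mul hZT hcabs (abs_nonneg _) (by positivity)
    linarith
  -- the error terms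
  have hNr : (0 : ℝ) ≤ N := Nat.cast_nonneg N
  have he1 : ∑ l ∈ T, ∫ X, WW u T X * (|ub e q X| * zz u κ q l X) ∂(PP χ N) ≤
      N * (Z * (320 * Real.exp (2 * M) * (A / vv χ) * d)) := by
    have h1 : ∑ l ∈ T, ∫ X, WW u T X * (|ub e q X| * zz u κ q l X) ∂(PP χ N) ≤
        ∑ _l ∈ T, Z * (320 * Real.exp (2 * M) * (A / vv χ) * d) := by
      refine Finset.sum_le_sum fun l hl => ?_
      have hlq : l ∉ q := by
        rw [hT, Finset.mem_sdiff] at hl
        exact hl.2
      exact hx1 l hlq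
    refine h1.trans ?_
    rw [Finset.sum_const, nsmul_eq_mul]
    refine mul_le_mul_of_nonneg_right ?_ (by positivity)
    have h2 : T.card ≤ N := (Finset.card_le_univ T).trans (by rw [Fintype.card_fin])
    exact_mod_cast h2
  have he2 : ∑ a ∈ q, ∑ p ∈ T.powersetCard 2,
      ∫ X, WW u T X * (|ub e q X| * a3 u (insert a p) X) ∂(PP χ N) ≤
      4 * ((N : ℝ) ^ 2 / 2 * (Z * (64 * Real.exp (4 * M) * ((vv χ)⁻¹ ^ 2 * α) * d))) := by
    have h1 : ∑ a ∈ q, ∑ p ∈ T.powersetCard 2,
        ∫ X, WW u T X * (|ub e q X| * a3 u (insert a p) X) ∂(PP χ N) ≤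
        ∑ _a ∈ q, ((N : ℝ) ^ 2 / 2 * (Z * (64 * Real.exp (4 * M) * ((vv χ)⁻¹ ^ 2 * α) * d))) := by
      refine Finset.sum_le_sum fun a ha => ?_
      have h2 : ∑ p ∈ T.powersetCard 2,
          ∫ X, WW u T X * (|ub e q X| * a3 u (insert a p) X) ∂(PP χ N) ≤
          ∑ _p ∈ T.powersetCard 2, Z * (64 * Real.exp (4 * M) * ((vv χ)⁻¹ ^ 2 * α) * d) := by
        refine Finset.sum_le_sum fun p hp => ?_
        rw [Finset.mem_powersetCard] at hp
        exact hx2 a p ha hp.2 (hdis.mono_right hp.1).symm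
      refine h2.trans ?_
      rw [Finset.sum_const, nsmul_eq_mul, Finset.card_powersetCard]
      refine mul_le_mul_of_nonneg_right ?_ (by positivity)
      have h3 : T.card ≤ N := (Finset.card_le_univ T).trans (by rw [Fintype.card_fin])
      have h4 : ((T.card.choose 2 : ℕ) : ℝ) ≤ ((N.choose 2 : ℕ) : ℝ) := by
        exact_mod_cast Nat.choose_le_choose 2 h3
      refine h4.trans ?_
      rw [Nat.cast_choose_two]
      nlinarith
    refine h1.trans (le_of_eq ?_)
    rw [Finset.sum_const, hq, nsmul_eq_mul]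
    norm_num
  -- the smallness
  have hsm : 2 * ((N : ℝ) / vv χ) ^ 2 * (Real.exp (4 * M) * α) ≤ η := by
    have h1 := hpar.small
    have h2 : 0 ≤ 2 * ((N : ℝ) / vv χ) ^ 3 * (Real.exp (8 * M) * A ^ 3) := by positivity
    linarith
  have he2' : 4 * ((N : ℝ) ^ 2 / 2 * (Z * (64 * Real.exp (4 * M) * ((vv χ)⁻¹ ^ 2 * α) * d))) ≤
      64 * η * Z * d := by
    have h1 : 4 * ((N : ℝ) ^ 2 / 2 * (Z * (64 * Real.exp (4 * M) * ((vv χ)⁻¹ ^ 2 * α) * d))) =
        64 * (2 * ((N : ℝ) / vv χ) ^ 2 * (Real.exp (4 * M) * α)) * (Z * d) := by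
      rw [div_pow, inv_pow]
      field_simp
      ring
    rw [h1]
    have h2 : 0 ≤ Z * d := mul_nonneg hZ.le hd0
    nlinarith
  -- conclusion
  have hx8 : Real.exp (8 * M) ≤ Real.exp (14 * M) := Real.exp_le_exp.2 (by linarith)
  have hx10 : Real.exp (8 * M) * Real.exp (2 * M) ≤ Real.exp (14 * M) := by
    rw [← Real.exp_add]
    exact Real.exp_le_exp.2 (by linarith)
  have hfin : 30 * η * Z * (Real.exp (8 * M) * d) + Real.exp (8 * M) *
      (N * (Z * (320 * Real.exp (2 * M) * (A / vv χ) * d)) + 64 * η * Z * d) ≤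
      Z * (KM M * (η + N / vv χ * A) * d) := by
    have h1 : 30 * η * Z * (Real.exp (8 * M) * d) + Real.exp (8 * M) *
        (N * (Z * (320 * Real.exp (2 * M) * (A / vv χ) * d)) + 64 * η * Z * d) =
        94 * Real.exp (8 * M) * (η * (Z * d)) +
          320 * (Real.exp (8 * M) * Real.exp (2 * M)) * (N / vv χ * A * (Z * d)) := by
      field_simp
      ring
    have h2 : Z * (KM M * (η + N / vv χ * A) * d) =
        3000 * Real.exp (14 * M) * (η * (Z * d)) +
          3000 * Real.exp (14 * M) * (N / vv χ * A * (Z * d)) := by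
      unfold KM
      ring
    rw [h1, h2]
    have h3 : 0 ≤ η * (Z * d) := by positivity
    have h4 : 0 ≤ N / vv χ * A * (Z * d) := by positivity
    have hp := Real.exp_pos (14 * M)
    refine add_le_add (mul_le_mul_of_nonneg_right ?_ h3) (mul_le_mul_of_nonneg_right ?_ h4)
    · linarith
    · linarith
  have hexp := Real.exp_pos (8 * M)
  have hsum : Real.exp (8 * M) *
        ((∑ l ∈ T, ∫ X, WW u T X * (|ub e q X| * zz u κ q l X) ∂(PP χ N)) +
          ∑ a ∈ q, ∑ p ∈ T.powersetCard 2,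
            ∫ X, WW u T X * (|ub e q X| * a3 u (insert a p) X) ∂(PP χ N)) ≤
      Real.exp (8 * M) *
        (N * (Z * (320 * Real.exp (2 * M) * (A / vv χ) * d)) + 64 * η * Z * d) :=
    mul_le_mul_of_nonneg_left (add_le_add he1 (he2.trans he2')) hexp.le
  rw [hmain] at hint
  calc ∫ X, WW u Finset.univ X * ub e q X ∂(PP χ N) ≤ _ := hint
    _ ≤ (Z * c + 30 * η * Z * (Real.exp (8 * M) * d)) + Real.exp (8 * M) *
        (N * (Z * (320 * Real.exp (2 * M) * (A / vv χ) * d)) + 64 * η * Z * d) :=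
        add_le_add hm2 hsum
    _ ≤ Z * (c + KM M * (η + N / vv χ * A) * d) := by
        rw [mul_add]
        linarith

end Pool.Agent.TBC
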