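import Pool.Agent.TBC.Stmts

/-!
# Squad TBC, module EXR: one or two more particles next to four particles
-/

set_option autoImplicit false

open MeasureTheory Filter Topology
open scoped ContDiff

namespace Pool.Agent.TBC

open Pool.Agent.TBG Pool.Agent.TBF

namespace EXR_

theorem intg {N : ℕ} {χ : E → ℝ} (hp : IsProbabilityMeasure (nu χ)) {H : (Fin N → E) → ℝ} (h : Bnn H) :
    Integrable H (PP χ N) := by
  haveI := hp
  obtain ⟨hm, h0, C, hC⟩ := h
  haveI : IsProbabilityMeasure (PP χ N) := by unfold PP; infer_instance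
  refine Integrable.of_bound hm.aestronglyMeasurable C (Filter.Eventually.of_forall fun X => ?_)
  rw [Real.norm_eq_abs, abs_of_nonneg (h0 X)]
  exact hC X

theorem bmul {N : ℕ} {H G : (Fin N → E) → ℝ} (h : Bnn H) (g : Bnn G) : Bnn (fun X => H X * G X) := by
  obtain ⟨hm, h0, C, hC⟩ := h
  obtain ⟨gm, g0, C', gC⟩ := g
  refine ⟨hm.mul gm, fun X => mul_nonneg (h0 X) (g0 X), C * C', fun X => ?_⟩
  exact mul_le_mul (hC X) (gC X) (g0 X) ((h0 X).trans (hC X))

theorem dep_mono {N : ℕ} {S T : Finset (Fin N)} {H : (Fin N → E) → ℝ} (h : Dep S H) (hST : S ⊆ T) : Dep T H :=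
  fun X Y hXY => h X Y (fun i hi => hXY i (hST hi))

theorem dep_mul {N : ℕ} {S : Finset (Fin N)} {H G : (Fin N → E) → ℝ} (h : Dep S H) (g : Dep S G) :
    Dep S (fun X => H X * G X) := fun X Y hXY => by
  show H X * G X = H Y * G Y
  rw [h X Y hXY, g X Y hXY]

theorem comb {x a b c J K : ℝ} (ha : 0 ≤ a) (hJ : 0 ≤ J) (hc : 0 ≤ c) (h1 : x ≤ a * b * J) (h2 : b ≤ c)
    (h3 : J ≤ K) : x ≤ a * c * K :=
  h1.trans (mul_le_mul (mul_le_mul_of_nonneg_left h2 ha) h3 hJ (mul_nonneg ha hc))

end EXR_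

open EXR_ in
theorem exr_proof (hCFD : Stmt_CFD) (_hUBV : Stmt_UBV) (hWBA : Stmt_WBA) (hWBD : Stmt_WBD) (hDEC : Stmt_DEC)
    (hTRA : Stmt_TRA) (hTRB : Stmt_TRB) (hRTB : Stmt_RTB) (hBNF : Stmt_BNF) : Stmt_EXR := by
  intro N L χ u e κ M r r' A α η hPar hE q hq
  have hF := hPar.sys.fam
  have hcut := hPar.cut
  have hpr := (hCFD L χ hcut).1
  obtain ⟨hη, hα, hvv, hZ, hR, hR2, hR3⟩ := hRTB N L χ u κ M r r' A α η hPar
  obtain ⟨hB1, hB2, hB3, hB4⟩ := hBNF N u e M r r' κ hF hPar.sys.near hE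
  obtain ⟨hw1, hw2, hw3, hw4, hw5⟩ := hWBA N u M r r' hF
  obtain ⟨hd1, hd2⟩ := hWBD N u M r r' κ hF hPar.sys.near
  have hH := (hB4 q).1
  have hHd := (hB4 q).2
  constructor
  · intro l hl
    obtain ⟨zc, z0, zC, zd⟩ := hd2 q l hl
    have hz : Bnn (zz u κ q l) := ⟨zc.measurable, z0, zC⟩
    have hg : Bnn (fun X => |ub e q X| * zz u κ q l X) := bmul hH hz
    have hgd : Dep (insert l q) (fun X => |ub e q X| * zz u κ q l X) :=
      dep_mul (dep_mono hHd (Finset.subset_insert _ _)) zd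
    have hP : ({l} : Finset (Fin N)) ⊆ Finset.univ \ q := by
      rw [Finset.singleton_subset_iff, Finset.mem_sdiff]
      exact ⟨Finset.mem_univ _, hl⟩
    have hTP : (Finset.univ \ q) \ {l} = Finset.univ \ insert l q := by
      ext i
      simp only [Finset.mem_sdiff, Finset.mem_univ, true_and, Finset.mem_singleton, Finset.mem_insert]
      tauto
    have hdj : Disjoint ((Finset.univ \ q) \ {l}) (insert l q) := by
      rw [hTP]
      exact Finset.sdiff_disjoint
    have h1 := hDEC N L χ u M r r' (Finset.univ \ q) {l} (insert l q) _ hcut hF hP hdj hg.1 hg.2.1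
      (intg hpr hg) hgd
    rw [hTP, Finset.card_singleton] at h1
    have h2 := (hR (insert l q)).2
    rw [Finset.card_insert_of_notMem hl, hq] at h2
    have h3 := hTRA N L χ u κ M r r' A α q q l _ hcut hPar.sys (Finset.Subset.refl q) hl hH hHd
    rw [hq] at h3
    have hg0 : 0 ≤ ∫ X, |ub e q X| * zz u κ q l X ∂(PP χ N) := integral_nonneg hg.2.1
    have h4 := comb (Real.exp_pos _).le hg0 (by positivity) h1 h2 h3
    refine h4.trans (le_of_eq ?_)
    have hch : Nat.choose 4 2 = 6 := by decide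
    rw [hch]
    push_cast
    rw [show 2 * M * (1 : ℝ) = 2 * M by ring]
    ring
  · intro a p ha hp hdis
    have hap : a ∉ p := fun h => (Finset.disjoint_left.mp hdis h) ha
    have hc3 : (insert a p).card = 3 := by rw [Finset.card_insert_of_notMem hap, hp]
    have ha3 : Bnn (a3 u (insert a p)) :=
      ⟨(hw5 (insert a p)).1.measurable, fun X => (hw4 _ X hc3).1, 1, fun X => (hw4 _ X hc3).2.1⟩
    have hg : Bnn (fun X => |ub e q X| * a3 u (insert a p) X) := bmul hH ha3
    have hgd : Dep (q ∪ p) (fun X => |ub e q X| * a3 u (insert a p) X) := by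
      refine dep_mul (dep_mono hHd Finset.subset_union_left) (dep_mono (hw5 (insert a p)).2 ?_)
      intro i hi
      rcases Finset.mem_insert.mp hi with h | h
      · exact Finset.mem_union_left _ (h ▸ ha)
      · exact Finset.mem_union_right _ h
    have hP : p ⊆ Finset.univ \ q := fun i hi =>
      Finset.mem_sdiff.mpr ⟨Finset.mem_univ _, Finset.disjoint_left.mp hdis hi⟩
    have hTP : (Finset.univ \ q) \ p = Finset.univ \ (q ∪ p) := by
      ext i
      simp only [Finset.mem_sdiff, Finset.mem_univ, true_and, Finset.mem_union]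
      tauto
    have hdj : Disjoint ((Finset.univ \ q) \ p) (q ∪ p) := by
      rw [hTP]
      exact Finset.sdiff_disjoint
    have h1 := hDEC N L χ u M r r' (Finset.univ \ q) p (q ∪ p) _ hcut hF hP hdj hg.1 hg.2.1
      (intg hpr hg) hgd
    rw [hTP, hp] at h1
    have h2 := (hR (q ∪ p)).2
    rw [Finset.card_union_of_disjoint hdis.symm, hq, hp] at h2
    have h3 := hTRB N L χ u κ M r r' A α q p a _ hcut hPar.sys ha hdis hp hH hHd
    have hg0 : 0 ≤ ∫ X, |ub e q X| * a3 u (insert a p) X ∂(PP χ N) := integral_nonneg hg.2.1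
    have h4 := comb (Real.exp_pos _).le hg0 (by positivity) h1 h2 h3
    refine h4.trans (le_of_eq ?_)
    push_cast
    rw [show 2 * M * (2 : ℝ) = 4 * M by ring]
    ring

end Pool.Agent.TBC
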