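import Pool.Agent.TBC.Stmts
import Mathlib.GroupTheory.Perm.Sign
import Mathlib.GroupTheory.Perm.Fin

set_option autoImplicit false

open MeasureTheory Filter Topology
open scoped ContDiff

namespace Pool.Agent.TBC

open Pool.Agent.TBG Pool.Agent.TBF

namespace FMU_

/-- products over pairs of a symmetric function are invariant under permutations -/
theorem prod_pairs {n : ℕ} (σ : Equiv.Perm (Fin n)) (H : Fin n → Fin n → ℝ) (hH : ∀ i j, H i j = H j i) :
    ∏ a, ∏ b ∈ Finset.Ioi a, H (σ a) (σ b) = ∏ a, ∏ b ∈ Finset.Ioi a, H a b := by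
  classical
  let s : Fin n → Fin n → ℝ := fun i j => if i < j then 1 else if i = j then 0 else -1
  have hs : ∀ i j, s i j = -s j i := by
    intro i j
    simp only [s]
    rcases lt_trichotomy i j with h | h | h
    · simp [h, h.not_gt, h.ne']
    · simp [h]
    · simp [h, h.not_gt, h.ne']
  have h1 := Equiv.Perm.prod_Ioi_comp_eq_sign_mul_prod σ (f := s) hs
  have h2 := Equiv.Perm.prod_Ioi_comp_eq_sign_mul_prod σ (f := fun i j => s i j * H i j)
    (fun i j => by
      show s i j * H i j = -(s j i * H j i)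
      rw [hs i j, hH i j]; ring)
  have h3 : ∏ i : Fin n, ∏ j ∈ Finset.Ioi i, s i j = 1 := by
    refine Finset.prod_eq_one fun i _ => Finset.prod_eq_one fun j hj => ?_
    simp [s, Finset.mem_Ioi.mp hj]
  simp only [Finset.prod_mul_distrib] at h2
  rw [h1, h3] at h2
  have h4 : ((Equiv.Perm.sign σ : ℤ) : ℝ) ≠ 0 := by
    rcases Int.units_eq_one_or (Equiv.Perm.sign σ) with h | h <;> rw [h] <;> norm_num
  have h5 : ((Equiv.Perm.sign σ : ℤ) : ℝ) * ∏ a, ∏ b ∈ Finset.Ioi a, H (σ a) (σ b) =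
      ((Equiv.Perm.sign σ : ℤ) : ℝ) * ∏ a, ∏ b ∈ Finset.Ioi a, H a b := by
    simpa using h2
  exact mul_left_cancel₀ h4 h5

theorem cf_rl (y : Fin 4 → E) : cf (rl y) = fun i => y i - y 0 := by
  funext i
  fin_cases i <;> simp [cf, rl]

theorem rl_sub (y : Fin 4 → E) (a : E) : rl (fun i => y i - a) = rl y := by
  simp [rl]

theorem rl_add (y : Fin 4 → E) (a : E) : rl (fun i => y i + a) = rl y := by
  simp [rl]

theorem Pm_rl (σ : Equiv.Perm (Fin 4)) (y : Fin 4 → E) : Pm σ (rl y) = rl (fun i => y (σ i)) := by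
  unfold Pm
  rw [cf_rl]
  exact rl_sub (fun i => y (σ i)) (y 0)

theorem perm3 (F : E → E → E → ℝ) (h1 : ∀ a b c, F a b c = F a c b) (h2 : ∀ a b c, F a b c = F b a c)
    (σ : Equiv.Perm (Fin 3)) (y : Fin 3 → E) : F (y (σ 0)) (y (σ 1)) (y (σ 2)) = F (y 0) (y 1) (y 2) := by
  have e01 : σ 0 ≠ σ 1 := fun h => by simpa using σ.injective h
  have e02 : σ 0 ≠ σ 2 := fun h => by simpa using σ.injective h
  have e12 : σ 1 ≠ σ 2 := fun h => by simpa using σ.injective h
  generalize σ 0 = a at *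
  generalize σ 1 = b at *
  generalize σ 2 = c at *
  fin_cases a <;> fin_cases b <;> fin_cases c <;>
    first
    | exact absurd rfl e01
    | exact absurd rfl e02
    | exact absurd rfl e12
    | skip
  · rfl
  · exact h1 _ _ _
  · exact h2 _ _ _
  · show F (y 1) (y 2) (y 0) = _
    rw [h1, h2]
  · show F (y 2) (y 0) (y 1) = _
    rw [h2, h1]
  · show F (y 2) (y 1) (y 0) = _
    rw [h1, h2, h1]

end FMU_

open FMU_

theorem fmu_proof (_h : Stmt_LPC) : Stmt_FMU := by
  intro f ξ h M r r' hf hξ hh hrr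
  have hfpos : ∀ z, 0 < f z := fun z => lt_of_lt_of_le (by norm_num) (hf.half_le z)
  have hM0 : 0 ≤ M := le_trans (abs_nonneg _) (hξ.bdd 0)
  have hga : ∀ z, ga (uu f ξ (4 * M) h) z = aa f z := by
    intro z
    unfold ga aa
    have e : uu f ξ (4 * M) h 3 ![0, -z.1, -z.2] = Real.log (f z) := by
      show Real.log (f ((0 : E) - (-z.1), (0 : E) - (-z.2))) = _
      simp
    rw [e, mul_comm, Real.exp_mul, Real.exp_log (hfpos z)]
    norm_cast
  refine ⟨?_, hga, fun x => ?_⟩
  swap
  · unfold AA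
    simp only [hga]
  have hperm : ∀ (k : ℕ) (σ : Equiv.Perm (Fin k)) (y : Fin k → E),
      uu f ξ (4 * M) h k (fun i => y (σ i)) = uu f ξ (4 * M) h k y := by
    intro k σ y
    match k, σ, y with
    | 0, _, _ => rfl
    | 1, _, _ => rfl
    | 2, _, _ => rfl
    | 3, σ, y =>
      exact perm3 (fun a b c => Real.log (f (a - b, a - c))) (fun a b c => by
        show Real.log (f (a - b, a - c)) = Real.log (f (a - c, a - b))
        rw [hf.sy1]) (fun a b c => by
        show Real.log (f (a - b, a - c)) = Real.log (f (b - a, b - c))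
        rw [hf.sy2]
        congr 3 <;> abel) σ y
    | 4, σ, y =>
      show ξ (rl (fun i => y (σ i))) = ξ (rl y)
      rw [← Pm_rl]; exact hξ.sym σ _
    | 5, σ, y =>
      show -(4 * M * ∏ a, ∏ b ∈ Finset.Ioi a, h (y (σ a) - y (σ b))) =
        -(4 * M * ∏ a, ∏ b ∈ Finset.Ioi a, h (y a - y b))
      rw [prod_pairs σ (fun a b => h (y a - y b)) (fun i j => by
        show h (y i - y j) = h (y j - y i)
        rw [← hh.even]; congr 1; abel)]
    | n + 6, _, _ => rfl
  have htrans : ∀ (k : ℕ) (a : E) (y : Fin k → E),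
      uu f ξ (4 * M) h k (fun i => y i + a) = uu f ξ (4 * M) h k y := by
    intro k a y
    match k, y with
    | 0, _ => rfl
    | 1, _ => rfl
    | 2, _ => rfl
    | 3, y =>
      show Real.log (f (y 0 + a - (y 1 + a), y 0 + a - (y 2 + a))) = Real.log (f (y 0 - y 1, y 0 - y 2))
      simp only [add_sub_add_right_eq_sub]
    | 4, y =>
      show ξ (rl (fun i => y i + a)) = ξ (rl y)
      rw [rl_add]
    | 5, y =>
      show -(4 * M * ∏ a', ∏ b ∈ Finset.Ioi a', h (y a' + a - (y b + a))) =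
        -(4 * M * ∏ a, ∏ b ∈ Finset.Ioi a, h (y a - y b))
      simp only [add_sub_add_right_eq_sub]
    | n + 6, _ => rfl
  have hsmooth : ∀ k, ContDiff ℝ ∞ (uu f ξ (4 * M) h k) := by
    intro k
    match k with
    | 0 => exact contDiff_const
    | 1 => exact contDiff_const
    | 2 => exact contDiff_const
    | 3 =>
      show ContDiff ℝ ∞ (fun y : Fin 3 → E => Real.log (f (y 0 - y 1, y 0 - y 2)))
      refine ContDiff.log ?_ (fun y => (hfpos _).ne')
      refine hf.smooth.comp ?_
      fun_prop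
    | 4 =>
      show ContDiff ℝ ∞ (fun y : Fin 4 → E => ξ (rl y))
      refine hξ.smooth.comp ?_
      unfold rl
      fun_prop
    | 5 =>
      show ContDiff ℝ ∞ (fun y : Fin 5 → E => -(4 * M * ∏ a, ∏ b ∈ Finset.Ioi a, h (y a - y b)))
      refine (contDiff_const.mul (contDiff_prod fun a _ => contDiff_prod fun b _ => ?_)).neg
      refine hh.smooth.comp ?_
      fun_prop
    | n + 6 => exact contDiff_const
  refine
    { inv := ⟨hperm, htrans⟩
      smooth := hsmooth
      M_nonneg := hM0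
      le3 := ?_
      ge3 := ?_
      sup3 := ?_
      abs4 := fun y => hξ.bdd (rl y)
      sup4 := fun y hy => hξ.range y hy
      le5 := ?_
      val5 := ?_
      sup5 := ?_
      zero := ?_
      r_nonneg := hξ.r_nonneg
      r_le := hrr }
  · intro y
    exact Real.log_nonpos (hfpos _).le (hf.le_one _)
  · intro y
    show -1 ≤ Real.log (f (y 0 - y 1, y 0 - y 2))
    have h1 : Real.log (1 / 2) ≤ Real.log (f (y 0 - y 1, y 0 - y 2)) := Real.log_le_log (by norm_num) (hf.half_le _)
    have h2 : Real.log (1 / 2) = -Real.log 2 := by rw [one_div, Real.log_inv]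
    have h3 := Real.log_two_lt_d9
    linarith
  · obtain ⟨R, hR⟩ := hf.supp
    refine ⟨2 * |R|, fun y hy => ?_⟩
    obtain ⟨i, j, hij⟩ := hy
    show Real.log (f (y 0 - y 1, y 0 - y 2)) = 0
    have key : ∀ i : Fin 3, ‖y 0 - y i‖ ≤ ‖(y 0 - y 1, y 0 - y 2)‖ := by
      intro i
      fin_cases i
      · show ‖y 0 - y 0‖ ≤ _
        rw [sub_self, norm_zero]; exact norm_nonneg _
      · exact norm_fst_le (y 0 - y 1, y 0 - y 2)
      · exact norm_snd_le (y 0 - y 1, y 0 - y 2)
    have h1 : ‖y i - y j‖ ≤ ‖y 0 - y j‖ + ‖y 0 - y i‖ := by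
      have : y i - y j = (y 0 - y j) - (y 0 - y i) := by abel
      rw [this]; exact norm_sub_le _ _
    have h2 : R < ‖(y 0 - y 1, y 0 - y 2)‖ := by
      have := key i
      have := key j
      have := le_abs_self R
      linarith
    rw [hR _ h2, Real.log_one]
  · intro y
    show -(4 * M * ∏ a, ∏ b ∈ Finset.Ioi a, h (y a - y b)) ≤ 0
    have : 0 ≤ ∏ a, ∏ b ∈ Finset.Ioi a, h (y a - y b) :=
      Finset.prod_nonneg fun a _ => Finset.prod_nonneg fun b _ => hh.nonneg _
    have := mul_nonneg (mul_nonneg (by norm_num : (0:ℝ) ≤ 4) hM0) this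
    linarith
  · intro y hy
    show -(4 * M * ∏ a, ∏ b ∈ Finset.Ioi a, h (y a - y b)) = -(4 * M)
    have : ∏ a, ∏ b ∈ Finset.Ioi a, h (y a - y b) = 1 :=
      Finset.prod_eq_one fun a _ => Finset.prod_eq_one fun b _ => hh.one _ (hy a b)
    rw [this, mul_one]
  · intro y hy
    obtain ⟨i, j, hij⟩ := hy
    show -(4 * M * ∏ a, ∏ b ∈ Finset.Ioi a, h (y a - y b)) = 0
    have hne : i ≠ j := by
      rintro rfl
      rw [sub_self, norm_zero] at hij
      exact absurd (lt_of_le_of_lt (hξ.r_nonneg.trans hrr) hij) (lt_irrefl _)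
    have : ∏ a, ∏ b ∈ Finset.Ioi a, h (y a - y b) = 0 := by
      rcases lt_or_gt_of_ne hne with hlt | hlt
      · exact Finset.prod_eq_zero (Finset.mem_univ i)
          (Finset.prod_eq_zero (Finset.mem_Ioi.mpr hlt) (hh.zero _ hij))
      · refine Finset.prod_eq_zero (Finset.mem_univ j)
          (Finset.prod_eq_zero (Finset.mem_Ioi.mpr hlt) (hh.zero _ ?_))
        rw [norm_sub_rev]; exact hij
    rw [this, mul_zero, neg_zero]
  · intro k h3 h4 h5 y
    match k, y, h3, h4, h5 with
    | 0, _, _, _, _ => rfl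
    | 1, _, _, _, _ => rfl
    | 2, _, _, _, _ => rfl
    | 3, _, h3, _, _ => exact absurd rfl h3
    | 4, _, _, h4, _ => exact absurd rfl h4
    | 5, _, _, _, h5 => exact absurd rfl h5
    | n + 6, _, _, _, _ => rfl

end Pool.Agent.TBC
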