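import Pool.Agent.TBC.Stmts

/-!
# Three-body Bose gases (MP_80dc41_mp), module FNA: the four-body energy as a divergence
-/

set_option autoImplicit false

open MeasureTheory Filter Topology
open scoped ContDiff

namespace Pool.Agent.TBC

open Pool.Agent.TBG Pool.Agent.TBF

namespace FNA_

variable {W : Type} [NormedAddCommGroup W] [NormedSpace ℝ W]

theorem dv_smooth {φ : W → ℝ} (hφ : ContDiff ℝ ∞ φ) (v : W) : ContDiff ℝ ∞ (dv v φ) :=
  (hφ.fderiv_right (m := ∞) (by simp)).clm_apply contDiff_const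

theorem dat {φ : W → ℝ} (hφ : ContDiff ℝ ∞ φ) (x : W) : HasFDerivAt φ (fderiv ℝ φ x) x :=
  ((hφ.differentiable (by simp)) x).hasFDerivAt

theorem dv_exp {φ : W → ℝ} (hφ : ContDiff ℝ ∞ φ) (v x : W) :
    dv v (fun z => Real.exp (φ z)) x = Real.exp (φ x) * dv v φ x := by
  unfold dv
  rw [(dat hφ x).exp.fderiv]
  simp

theorem dv_add {φ ψ : W → ℝ} (hφ : ContDiff ℝ ∞ φ) (hψ : ContDiff ℝ ∞ ψ) (v : W) :
    dv v (fun z => φ z + ψ z) = fun z => dv v φ z + dv v ψ z := by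
  funext x
  unfold dv
  rw [((dat hφ x).fun_add (dat hψ x)).fderiv]
  simp

theorem dv_sub {φ ψ : W → ℝ} (hφ : ContDiff ℝ ∞ φ) (hψ : ContDiff ℝ ∞ ψ) (v : W) :
    dv v (fun z => φ z - ψ z) = fun z => dv v φ z - dv v ψ z := by
  funext x
  unfold dv
  rw [((dat hφ x).fun_sub (dat hψ x)).fderiv]
  simp

theorem dv_mul {φ ψ : W → ℝ} (hφ : ContDiff ℝ ∞ φ) (hψ : ContDiff ℝ ∞ ψ) (v x : W) :
    dv v (fun z => φ z * ψ z) x = φ x * dv v ψ x + dv v φ x * ψ x := by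
  unfold dv
  rw [((dat hφ x).fun_mul (dat hψ x)).fderiv]
  simp
  ring

theorem dv_sum {ι : Type} (s : Finset ι) {φ : ι → W → ℝ} (hφ : ∀ i, ContDiff ℝ ∞ (φ i)) (v : W) :
    dv v (fun z => ∑ i ∈ s, φ i z) = fun z => ∑ i ∈ s, dv v (φ i) z := by
  funext x
  unfold dv
  rw [(HasFDerivAt.fun_sum (u := s) fun i _ => dat (hφ i) x).fderiv]
  simp

theorem dv_cmul {φ : W → ℝ} (hφ : ContDiff ℝ ∞ φ) (c : ℝ) (v : W) :
    dv v (fun z => c * φ z) = fun z => c * dv v φ z := by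
  funext x
  unfold dv
  rw [((dat hφ x).const_mul c).fderiv]
  simp

theorem dv2_exp {φ : W → ℝ} (hφ : ContDiff ℝ ∞ φ) (v x : W) :
    dv v (dv v (fun z => Real.exp (φ z))) x =
      Real.exp (φ x) * ((dv v φ x) ^ 2 + dv v (dv v φ) x) := by
  have h1 : dv v (fun z => Real.exp (φ z)) = fun z => Real.exp (φ z) * dv v φ z :=
    funext fun z => dv_exp hφ v z
  rw [h1, dv_mul hφ.exp (dv_smooth hφ v), dv_exp hφ]
  ring

/-! ### `Lap4` -/

theorem lap_sub {φ ψ : W4 → ℝ} (hφ : ContDiff ℝ ∞ φ) (hψ : ContDiff ℝ ∞ ψ) (p : W4) :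
    Lap4 (fun z => φ z - ψ z) p = Lap4 φ p - Lap4 ψ p := by
  unfold Lap4
  rw [← Finset.sum_sub_distrib]
  refine Finset.sum_congr rfl fun m _ => ?_
  rw [← Finset.sum_sub_distrib]
  refine Finset.sum_congr rfl fun c _ => ?_
  rw [dv_sub hφ hψ, dv_sub (dv_smooth hφ _) (dv_smooth hψ _)]

theorem lap_add {φ ψ : W4 → ℝ} (hφ : ContDiff ℝ ∞ φ) (hψ : ContDiff ℝ ∞ ψ) (p : W4) :
    Lap4 (fun z => φ z + ψ z) p = Lap4 φ p + Lap4 ψ p := by
  unfold Lap4
  rw [← Finset.sum_add_distrib]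
  refine Finset.sum_congr rfl fun m _ => ?_
  rw [← Finset.sum_add_distrib]
  refine Finset.sum_congr rfl fun c _ => ?_
  rw [dv_add hφ hψ, dv_add (dv_smooth hφ _) (dv_smooth hψ _)]

theorem lap_const (c : ℝ) (p : W4) : Lap4 (fun _ => c) p = 0 := by
  unfold Lap4
  refine Finset.sum_eq_zero fun m _ => Finset.sum_eq_zero fun c' _ => ?_
  have h1 : dv (d4 m c') (fun _ : W4 => c) = fun _ => 0 := by
    funext x
    unfold dv
    simp
  rw [h1]
  unfold dv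
  simp

theorem lap_sum {ι : Type} (s : Finset ι) {φ : ι → W4 → ℝ} (hφ : ∀ i, ContDiff ℝ ∞ (φ i)) (p : W4) :
    Lap4 (fun z => ∑ i ∈ s, φ i z) p = ∑ i ∈ s, Lap4 (φ i) p := by
  unfold Lap4
  have h1 : ∀ v : W4, dv v (dv v (fun z => ∑ i ∈ s, φ i z)) p =
      ∑ i ∈ s, dv v (dv v (φ i)) p := by
    intro v
    rw [dv_sum s hφ, dv_sum s (fun i => dv_smooth (hφ i) v)]
  simp only [h1]
  calc ∑ m : Fin 4, ∑ c : Fin 3, ∑ i ∈ s, dv (d4 m c) (dv (d4 m c) (φ i)) p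
      = ∑ m : Fin 4, ∑ i ∈ s, ∑ c : Fin 3, dv (d4 m c) (dv (d4 m c) (φ i)) p :=
        Finset.sum_congr rfl fun m _ => Finset.sum_comm
    _ = ∑ i ∈ s, ∑ m : Fin 4, ∑ c : Fin 3, dv (d4 m c) (dv (d4 m c) (φ i)) p := Finset.sum_comm

theorem lap_exp {φ : W4 → ℝ} (hφ : ContDiff ℝ ∞ φ) (p : W4) :
    Lap4 (fun z => Real.exp (φ z)) p = Real.exp (φ p) * (gsq4 φ p + Lap4 φ p) := by
  unfold Lap4 gsq4
  simp only [dv2_exp hφ]
  rw [← Finset.sum_add_distrib, Finset.mul_sum]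
  refine Finset.sum_congr rfl fun m _ => ?_
  rw [← Finset.sum_add_distrib, Finset.mul_sum]

theorem gsq_exp {φ : W4 → ℝ} (hφ : ContDiff ℝ ∞ φ) (p : W4) :
    gsq4 (fun z => Real.exp (φ z)) p = Real.exp (φ p) ^ 2 * gsq4 φ p := by
  unfold gsq4
  simp only [dv_exp hφ, mul_pow, Finset.mul_sum]

theorem lap_two {φ : W4 → ℝ} (hφ : ContDiff ℝ ∞ φ) (p : W4) :
    Lap4 (fun z => 2 * φ z) p = 2 * Lap4 φ p := by
  unfold Lap4
  rw [Finset.mul_sum]
  refine Finset.sum_congr rfl fun m _ => ?_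
  rw [Finset.mul_sum]
  refine Finset.sum_congr rfl fun c _ => ?_
  rw [dv_cmul hφ, dv_cmul (dv_smooth hφ _)]

theorem gsq_two {φ : W4 → ℝ} (hφ : ContDiff ℝ ∞ φ) (p : W4) :
    gsq4 (fun z => 2 * φ z) p = 4 * gsq4 φ p := by
  unfold gsq4
  rw [Finset.mul_sum]
  refine Finset.sum_congr rfl fun m _ => ?_
  rw [Finset.mul_sum]
  refine Finset.sum_congr rfl fun c _ => ?_
  rw [dv_cmul hφ]
  ring

end FNA_

open FNA_ in
theorem fna_proof (hLPC : Pool.Agent.TBG.Stmt_LPC) (hLRL : Stmt_LRL) : Stmt_FNA := by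
  intro f V ξ p hf hf2 hξ
  obtain ⟨-, -, hpm⟩ := hLRL
  have hfpos : ∀ z, 0 < f z := fun z => lt_of_lt_of_le (by norm_num) (hf2 z)
  -- the logarithm of `f`
  have hlogT : ContDiffOn ℝ ∞ Real.log (Set.Ioi 0) := fun x hx =>
    (Real.contDiffAt_log.2 (ne_of_gt hx)).contDiffWithinAt
  have hlog := fun z => hLPC Real.log f (Set.Ioi 0) isOpen_Ioi hlogT hf (fun z => hfpos z) z
  have hlogs : ContDiff ℝ ∞ (fun z => Real.log (f z)) := (hlog 0).1
  have hlogL : ∀ z, Lap (fun z => Real.log (f z)) z = Lap f z / f z - gsq f z / f z ^ 2 := by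
    intro z
    rw [(hlog z).2.2.2]
    have h1 : deriv Real.log = fun x => x⁻¹ := by
      funext x
      exact Real.deriv_log x
    have h2 : deriv (deriv Real.log) (f z) = -(f z ^ 2)⁻¹ := by
      rw [h1]
      exact deriv_inv
    rw [h2, Real.deriv_log]
    field_simp
    ring
  -- the square of `f`
  have hsqT : ContDiffOn ℝ ∞ (fun x : ℝ => x ^ 2) Set.univ := (contDiff_id.pow 2).contDiffOn
  have hsq := fun z => hLPC (fun x => x ^ 2) f Set.univ isOpen_univ hsqT hf (fun z => Set.mem_univ _) z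
  have hsqs : ContDiff ℝ ∞ (fun z => f z ^ 2) := (hsq 0).1
  have hsqL : ∀ z, Lap (fun z => f z ^ 2) z = 2 * f z * Lap f z + 2 * gsq f z := by
    intro z
    have h0 := (hsq z).2.2.2
    have h1 : deriv (fun x : ℝ => x ^ 2) = fun x => 2 * x := by
      funext x
      simp
    have h2 : deriv (deriv (fun x : ℝ => x ^ 2)) (f z) = 2 := by
      rw [h1]
      simpa using (((hasDerivAt_id (f z)).const_mul 2).deriv)
    rw [h2] at h0
    simp only [h1] at h0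
    exact h0
  have hkk : ∀ z, kk f V z = V z.1 z.2 - 1 / 2 * Lap (fun z => Real.log (f z)) z := by
    intro z
    have h0 := (hfpos z).ne'
    rw [hlogL z]
    unfold kk kap
    field_simp
    ring
  -- the logarithm of `F`
  have hm1 : ∀ m, ContDiff ℝ ∞ (fun p => Real.log (f (pm m p))) := fun m => (hpm m _ hlogs).1
  have hm2 : ∀ m, ContDiff ℝ ∞ (fun p => f (pm m p) ^ 2) := fun m => (hpm m _ hsqs).1
  have hm3 : ∀ m, ContDiff ℝ ∞ (fun p => f (pm m p)) := fun m => (hpm m _ hf).1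
  have hξs : ContDiff ℝ ∞ ξ := hξ.1
  obtain ⟨Λ, hΛ⟩ : ∃ Λ : W4 → ℝ, Λ = fun p => (∑ m, Real.log (f (pm m p))) + ξ p := ⟨_, rfl⟩
  have hsum : ContDiff ℝ ∞ (fun p : W4 => ∑ m, Real.log (f (pm m p))) :=
    ContDiff.sum fun m _ => hm1 m
  have hΛs : ContDiff ℝ ∞ Λ := by
    rw [hΛ]
    exact hsum.add hξs
  have hF : FX f ξ = fun p => Real.exp (Λ p) := by
    funext q
    rw [hΛ]
    unfold FX
    show _ = Real.exp ((∑ m, Real.log (f (pm m q))) + ξ q)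
    rw [Real.exp_add, Real.exp_sum]
    congr 1
    refine Finset.prod_congr rfl fun m _ => ?_
    rw [Real.exp_log (hfpos _)]
  have hFs : ContDiff ℝ ∞ (FX f ξ) := by
    rw [hF]
    exact hΛs.exp
  have hF2 : ∀ q, FX f ξ q ^ 2 = Real.exp (2 * Λ q) := by
    intro q
    rw [hF]
    show Real.exp (Λ q) ^ 2 = _
    rw [← Real.exp_nat_mul]
    norm_num
  have hsum2 : ContDiff ℝ ∞ (fun p : W4 => ∑ m, f (pm m p) ^ 2) := ContDiff.sum fun m _ => hm2 m
  have hHs : ContDiff ℝ ∞ (HX f ξ) := by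
    unfold HX
    exact ((hFs.pow 2).sub hsum2).add contDiff_const
  refine ⟨hFs, hHs, ?_⟩
  have hLΛ : Lap4 Λ p = (∑ m, Lap (fun z => Real.log (f z)) (pm m p)) + Lap4 ξ p := by
    rw [hΛ, lap_add hsum hξs, lap_sum Finset.univ hm1]
    congr 1
    exact Finset.sum_congr rfl fun m _ => (hpm m _ hlogs).2.2 p
  have hgF : gsq4 (FX f ξ) p = FX f ξ p ^ 2 * gsq4 Λ p := by
    rw [hF, gsq_exp hΛs]
  have hLH : Lap4 (HX f ξ) p = FX f ξ p ^ 2 * (4 * gsq4 Λ p + 2 * Lap4 Λ p) -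
      ∑ m, (2 * f (pm m p) * Lap f (pm m p) + 2 * gsq f (pm m p)) := by
    have h1 : HX f ξ = fun q => (Real.exp (2 * Λ q) - ∑ m, f (pm m q) ^ 2) + 3 := by
      funext q
      unfold HX
      rw [hF2]
    have h2 : ContDiff ℝ ∞ (fun q => 2 * Λ q) := contDiff_const.mul hΛs
    rw [h1, lap_add (h2.exp.sub hsum2) contDiff_const, lap_const, add_zero, lap_sub h2.exp hsum2,
      lap_exp h2, lap_two hΛs, gsq_two hΛs, lap_sum Finset.univ hm2, hF2]
    congr 1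
    refine Finset.sum_congr rfl fun m _ => ?_
    rw [← hsqL (pm m p)]
    exact (hpm m _ hsqs).2.2 p
  unfold gamI
  rw [hgF, hLH]
  have h3 : ∀ m, kk f V (pm m p) * (FX f ξ p ^ 2 - f (pm m p) ^ 2) =
      V (pm m p).1 (pm m p).2 * (FX f ξ p ^ 2 - f (pm m p) ^ 2) -
      1 / 2 * FX f ξ p ^ 2 * Lap (fun z => Real.log (f z)) (pm m p) +
      1 / 4 * (2 * f (pm m p) * Lap f (pm m p) + 2 * gsq f (pm m p)) - gsq f (pm m p) := by
    intro m
    have h0 := (hfpos (pm m p)).ne'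
    rw [hkk, hlogL (pm m p)]
    field_simp
    ring
  simp only [h3]
  rw [Finset.sum_sub_distrib, Finset.sum_add_distrib, Finset.sum_sub_distrib, ← Finset.mul_sum,
    ← Finset.mul_sum, hLΛ]
  ring

end Pool.Agent.TBC
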