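import Pool.Agent.TBC.Stmts

/-!
Squad TBC, module FNB: the function `HX` has compact support, and its Laplacian has integral zero.
-/

set_option autoImplicit false

open MeasureTheory Filter Topology
open scoped ContDiff

namespace Pool.Agent.TBC

open Pool.Agent.TBG Pool.Agent.TBF

namespace FNB_

theorem pm0 (p : W4) : pm 0 p = (p.2.1 - p.1, p.2.2 - p.1) := by
  unfold pm cf
  ext1
  · show -p.1 - -p.2.1 = p.2.1 - p.1
    abel
  · show -p.1 - -p.2.2 = p.2.2 - p.1
    abel

theorem pm1 (p : W4) : pm 1 p = (p.2.1, p.2.2) := by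
  unfold pm cf
  ext1
  · show (0 : E) - -p.2.1 = p.2.1
    abel
  · show (0 : E) - -p.2.2 = p.2.2
    abel

theorem pm2 (p : W4) : pm 2 p = (p.1, p.2.2) := by
  unfold pm cf
  ext1
  · show (0 : E) - -p.1 = p.1
    abel
  · show (0 : E) - -p.2.2 = p.2.2
    abel

theorem pm3 (p : W4) : pm 3 p = (p.1, p.2.1) := by
  unfold pm cf
  ext1
  · show (0 : E) - -p.1 = p.1
    abel
  · show (0 : E) - -p.2.1 = p.2.1
    abel

theorem nrm {p : W4} {R : ℝ} (h1 : ‖p.1‖ ≤ 2 * R) (h2 : ‖p.2.1‖ ≤ 2 * R) (h3 : ‖p.2.2‖ ≤ 2 * R) :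
    ‖p‖ ≤ 2 * R := by
  rw [Prod.norm_def, Prod.norm_def]
  exact max_le h1 (max_le h2 h3)

theorem two {p : W4} {R : ℝ} (m m' : Fin 4) (hm : m < m') (h : ‖pm m p‖ ≤ R)
    (h' : ‖pm m' p‖ ≤ R) : ‖p‖ ≤ 2 * R := by
  have hR : 0 ≤ R := (norm_nonneg _).trans h
  have key : ∀ a b : E, ‖a - b‖ ≤ R → ‖a‖ ≤ R → ‖b‖ ≤ 2 * R := by
    intro a b h1 h2
    have h3 : b = a - (a - b) := by abel
    rw [h3]
    exact (norm_sub_le _ _).trans (by linarith)
  fin_cases m <;> fin_cases m' <;> first
    | exact absurd hm (by decide)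
    | simp only [Fin.zero_eta, Fin.mk_one,
        Fin.reduceFinMk, pm0, pm1, pm2, pm3, Prod.norm_def, max_le_iff] at h h'
  · exact nrm (key _ _ h.1 h'.1) (by linarith [h'.1]) (by linarith [h'.2])
  · refine nrm (by linarith [h'.1]) ?_ (by linarith [h'.2])
    refine key p.1 p.2.1 ?_ h'.1
    rw [norm_sub_rev]
    exact h.1
  · refine nrm (by linarith [h'.1]) (by linarith [h'.2]) ?_
    refine key p.1 p.2.2 ?_ h'.1
    rw [norm_sub_rev]
    exact h.2
  · exact nrm (by linarith [h'.1]) (by linarith [h.1]) (by linarith [h.2])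
  · exact nrm (by linarith [h'.1]) (by linarith [h.1]) (by linarith [h.2])
  · exact nrm (by linarith [h.1]) (by linarith [h'.2]) (by linarith [h.2])

theorem alg (g : Fin 4 → ℝ) (h : ∀ m m' : Fin 4, m < m' → g m = 1 ∨ g m' = 1) :
    (∏ m, g m) ^ 2 - ∑ m, g m ^ 2 + 3 = 0 := by
  rw [Fin.prod_univ_four, Fin.sum_univ_four]
  have h01 := h 0 1 (by decide)
  have h02 := h 0 2 (by decide)
  have h03 := h 0 3 (by decide)
  have h12 := h 1 2 (by decide)
  have h13 := h 1 3 (by decide)
  have h23 := h 2 3 (by decide)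
  rcases h01 with h01 | h01 <;> rcases h02 with h02 | h02 <;> rcases h03 with h03 | h03 <;>
    rcases h12 with h12 | h12 <;> rcases h13 with h13 | h13 <;> rcases h23 with h23 | h23 <;>
    simp only [h01, h02, h03, h12, h13, h23] <;> ring

theorem dv_smooth {v : W4} {F : W4 → ℝ} (hF : ContDiff ℝ ∞ F) : ContDiff ℝ ∞ (dv v F) := by
  unfold dv
  exact (hF.fderiv_right (m := ∞) (by simp)).clm_apply contDiff_const

theorem dv_supp {v : W4} {F : W4 → ℝ} (hF : HasCompactSupport F) : HasCompactSupport (dv v F) := by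
  unfold dv
  exact hF.fderiv_apply ℝ v

theorem haar2 : (volume : Measure (E × E)).IsAddHaarMeasure :=
  Measure.prod.instIsAddHaarMeasure (volume : Measure E) (volume : Measure E)

theorem haar3 : (volume : Measure W4).IsAddHaarMeasure := by
  have := haar2
  have s2 : SFinite (volume : Measure (E × E)) :=
    inferInstanceAs (SFinite ((volume : Measure E).prod (volume : Measure E)))
  exact Measure.prod.instIsAddHaarMeasure (volume : Measure E) (volume : Measure (E × E))

end FNB_

open FNB_ in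
theorem fnb_proof (hIBP : Pool.Agent.TBG.Stmt_IBP) (_hLRL : Stmt_LRL) (hFNA : Stmt_FNA) :
    Stmt_FNB := by
  intro f ξ hf hξ
  have hsm : ContDiff ℝ ∞ (HX f ξ) :=
    (hFNA f (fun _ _ => 0) ξ 0 hf.smooth hf.half_le hξ).2.1
  obtain ⟨R, hR⟩ := hf.supp
  obtain ⟨Rx, hRx⟩ := hξ.2.isBounded.subset_closedBall (0 : W4)
  have hcs : HasCompactSupport (HX f ξ) := by
    refine HasCompactSupport.intro (isCompact_closedBall (0 : W4) (max (2 * R) Rx)) fun p hp => ?_
    rw [mem_closedBall_zero_iff, not_le, max_lt_iff] at hp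
    have h1 : ξ p = 0 := by
      refine image_eq_zero_of_notMem_tsupport fun h => ?_
      have := hRx h
      rw [mem_closedBall_zero_iff] at this
      linarith [hp.2]
    have h2 : ∀ m m' : Fin 4, m < m' → f (pm m p) = 1 ∨ f (pm m' p) = 1 := by
      intro m m' hm
      by_contra hcon
      push Not at hcon
      have e1 : ‖pm m p‖ ≤ R := by
        by_contra h
        exact hcon.1 (hR _ (not_le.1 h))
      have e2 : ‖pm m' p‖ ≤ R := by
        by_contra h
        exact hcon.2 (hR _ (not_le.1 h))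
      linarith [two m m' hm e1 e2, hp.1]
    unfold HX FX
    rw [h1, Real.exp_zero, mul_one]
    exact alg (fun m => f (pm m p)) h2
  have hi : ∀ m c, Integrable (fun p => dv (d4 m c) (dv (d4 m c) (HX f ξ)) p) := by
    intro m c
    exact (dv_smooth (dv_smooth hsm)).continuous.integrable_of_hasCompactSupport
      (dv_supp (dv_supp hcs))
  have i3 := haar3
  refine ⟨hcs, ?_, ?_⟩
  · unfold Lap4
    rw [integral_finsetSum _ fun m _ => integrable_finsetSum _ fun c _ => hi m c]
    refine Finset.sum_eq_zero fun m _ => ?_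
    rw [integral_finsetSum _ fun c _ => hi m c]
    refine Finset.sum_eq_zero fun c _ => ?_
    exact (hIBP W4 volume (dv (d4 m c) (HX f ξ)) (dv (d4 m c) (HX f ξ)) (d4 m c)
      ((dv_smooth hsm).of_le (by simp)) ((dv_smooth hsm).of_le (by simp)) (dv_supp hcs)).1
  · unfold Lap4
    exact integrable_finsetSum _ fun m _ => integrable_finsetSum _ fun c _ => hi m c

end Pool.Agent.TBC
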