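import Pool.Agent.TBC.Stmts

/-!
Squad TBC, module GAC: the three-body kernel in relative coordinates.
-/

set_option autoImplicit false

open MeasureTheory Filter Topology
open scoped ContDiff

namespace Pool.Agent.TBC

open Pool.Agent.TBG Pool.Agent.TBF

namespace GAC_

/-- the three particles -/
def tp (z : E × E) : Fin 3 → E := ![0, -z.1, -z.2]

lemma tp_cont : Continuous tp := by
  refine continuous_pi fun i => ?_
  fin_cases i
  · exact continuous_const
  · exact continuous_fst.neg
  · exact continuous_snd.neg

lemma tp_swap (x y : E) : tp (y, x) = fun i => tp (x, y) (Equiv.swap 1 2 i) := by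
  funext i
  fin_cases i
  · show (0 : E) = tp (x, y) (Equiv.swap 1 2 0)
    rw [Equiv.swap_apply_of_ne_of_ne (by decide) (by decide)]
    rfl
  · show -y = tp (x, y) (Equiv.swap 1 2 1)
    rw [Equiv.swap_apply_left]
    rfl
  · show -x = tp (x, y) (Equiv.swap 1 2 2)
    rw [Equiv.swap_apply_right]
    rfl

end GAC_

open GAC_ in
/-- the three-body kernel in relative coordinates -/
theorem gac_proof (hUBV : Stmt_UBV) : Stmt_GAC := by
  intro u M r r' hfam
  have hga : ∀ z, ga u z = 1 - Real.exp (2 * u 3 (tp z)) := fun z => rfl
  refine ⟨⟨?_, ?_, ?_⟩, ?_, ?_, ?_⟩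
  · have h1 : ga u = fun z => 1 - Real.exp (2 * u 3 (tp z)) := rfl
    rw [h1]
    have h2 : Continuous fun z => u 3 (tp z) := (hfam.smooth 3).continuous.comp tp_cont
    exact continuous_const.sub (Real.continuous_exp.comp (continuous_const.mul h2))
  · obtain ⟨R, hR⟩ := hfam.sup3
    refine HasCompactSupport.intro (isCompact_closedBall (0 : E × E) R) ?_
    intro z hz
    rw [mem_closedBall_zero_iff, not_le, Prod.norm_def, lt_max_iff] at hz
    have h0 : u 3 (tp z) = 0 := by
      apply hR
      rcases hz with hz | hz
      · refine ⟨0, 1, ?_⟩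
        show R < ‖(0 : E) - -z.1‖
        rwa [zero_sub, neg_neg]
      · refine ⟨0, 2, ?_⟩
        show R < ‖(0 : E) - -z.2‖
        rwa [zero_sub, neg_neg]
    rw [hga, h0, mul_zero, Real.exp_zero, sub_self]
  · intro z
    rw [hga]
    have h1 := hfam.le3 (tp z)
    have h2 : Real.exp (2 * u 3 (tp z)) ≤ 1 := Real.exp_le_one_iff.2 (by linarith)
    linarith
  · intro z
    rw [hga]
    have h2 := Real.exp_pos (2 * u 3 (tp z))
    linarith
  · intro x y
    rw [hga, hga, tp_swap x y, hfam.inv.perm 3 (Equiv.swap 1 2) (tp (x, y))]
  · intro N X i j k hn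
    have hij : i ≠ j ∧ i ≠ k ∧ j ≠ k := by
      simp only [List.nodup_cons, List.mem_cons, List.not_mem_nil, or_false, not_or,
        List.nodup_nil, and_true, not_false_eq_true] at hn
      exact ⟨hn.1.1, hn.1.2, hn.2⟩
    obtain ⟨h1, h2, h3⟩ := hij
    have hinj : Function.Injective (![i, j, k] : Fin 3 → Fin N) := by
      intro a b hab
      fin_cases a <;> fin_cases b <;>
        first
        | rfl
        | exact absurd hab (by simpa using h1)
        | exact absurd hab (by simpa using h2)
        | exact absurd hab (by simpa using h3)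
        | exact absurd hab (by simpa using h1.symm)
        | exact absurd hab (by simpa using h2.symm)
        | exact absurd hab (by simpa using h3.symm)
    have him : (Finset.univ.image (![i, j, k] : Fin 3 → Fin N)) = {i, j, k} := by
      ext a
      simp only [Finset.mem_image, Finset.mem_univ, true_and, Finset.mem_insert,
        Finset.mem_singleton]
      constructor
      · rintro ⟨b, rfl⟩
        fin_cases b
        · exact Or.inl rfl
        · exact Or.inr (Or.inl rfl)
        · exact Or.inr (Or.inr rfl)
      · rintro (rfl | rfl | rfl)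
        · exact ⟨0, rfl⟩
        · exact ⟨1, rfl⟩
        · exact ⟨2, rfl⟩
    have h4 := ((hUBV u).2.2 (fun k σ y => hfam.inv.perm k σ y)).1 N 3 _ hinj X
    rw [him] at h4
    unfold a3
    rw [h4, hga]
    have h5 := hfam.inv.trans 3 (-X i) (fun m => X ((![i, j, k] : Fin 3 → Fin N) m))
    have h6 : (fun m => X ((![i, j, k] : Fin 3 → Fin N) m) + -X i) =
        tp (X i - X j, X i - X k) := by
      funext m
      fin_cases m
      · show X i + -X i = 0
        exact add_neg_cancel _
      · show X j + -X i = -(X i - X j)
        abel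
      · show X k + -X i = -(X i - X k)
        abel
    rw [h6] at h5
    rw [h5]

end Pool.Agent.TBC
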