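import Pool.Agent.TBC.Stmts

/-!
# Three-body Bose gases, sharp upper bound: module GSF (the sharp upper bound)
-/

set_option autoImplicit false

open MeasureTheory Filter Topology
open scoped ContDiff

namespace Pool.Agent.TBC

open Pool.Agent.TBG Pool.Agent.TBF

namespace GSF_

theorem arith (ρ b I W e₁ η A K Γ J4 J5 B' : ℝ) (hρ : 0 < ρ) (hη : 0 ≤ η) (hA : 0 ≤ A) (hK : 0 ≤ K)
    (hI : I ≤ b + 2 * (e₁ * ρ) * W) (hI1 : I ≤ b + 1)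
    (hU : 1 / 6 * (2 * e₁ * W + (14 * (η / ρ) + K * (η * A + ρ * A ^ 2)) * (b + 1)) + 1 / 24 * Γ
      + K * (η + ρ * A) * J4 + K * ρ * J5 < 1 / 24 * B') :
    ρ ^ 3 / 6 * (1 + 14 * η + K * (η * (ρ * A) + (ρ * A) ^ 2)) * I + ρ ^ 4 / 24 * Γ
      + K * (ρ ^ 4 * (η + ρ * A)) * J4 + K * ρ ^ 5 * J5 < 1 / 6 * ρ ^ 3 * b + 1 / 24 * ρ ^ 4 * B' := by
  have hE : 0 ≤ 14 * η + K * (η * (ρ * A) + (ρ * A) ^ 2) := by positivity
  have h1 : (1 + 14 * η + K * (η * (ρ * A) + (ρ * A) ^ 2)) * I ≤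
      b + 2 * (e₁ * ρ) * W + (14 * η + K * (η * (ρ * A) + (ρ * A) ^ 2)) * (b + 1) := by
    have := mul_le_mul_of_nonneg_left hI1 hE
    nlinarith
  have h2 : (14 * η + K * (η * (ρ * A) + (ρ * A) ^ 2)) = ρ * (14 * (η / ρ) + K * (η * A + ρ * A ^ 2)) := by
    field_simp
  rw [h2] at h1
  have h3 : ρ ^ 3 / 6 * (1 + 14 * η + K * (η * (ρ * A) + (ρ * A) ^ 2)) * I ≤
      ρ ^ 3 / 6 * (b + 2 * (e₁ * ρ) * W + ρ * (14 * (η / ρ) + K * (η * A + ρ * A ^ 2)) * (b + 1)) := by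
    rw [mul_assoc]
    have h0 : (0 : ℝ) ≤ ρ ^ 3 / 6 := by positivity
    refine mul_le_mul_of_nonneg_left ?_ h0
    rw [show 1 + 14 * η + K * (η * (ρ * A) + (ρ * A) ^ 2) = 1 + (14 * η + K * (η * (ρ * A) + (ρ * A) ^ 2)) by ring, h2]
    have h1' := h1
    rw [show 1 + 14 * η + K * (η * (ρ * A) + (ρ * A) ^ 2) = 1 + (14 * η + K * (η * (ρ * A) + (ρ * A) ^ 2)) by ring, h2] at h1'
    exact h1'
  have h4 := mul_lt_mul_of_pos_left hU (show (0 : ℝ) < ρ ^ 4 by positivity)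
  nlinarith [h3, h4]

end GSF_

open GSF_ in
theorem gsf_proof (hFDJ : Stmt_FDJ) (hADM : Stmt_ADM) (hKPO : Stmt_KPO) (hKIN : Stmt_KIN) (hDIN : Stmt_DIN)
    (hABD : Stmt_ABD) (_hKAF : Stmt_KAF) (hMBK : Stmt_MBK) (hNUC : Stmt_NUC) (hXDE : Stmt_XDE) (hFMU : Stmt_FMU)
    (hENU : Stmt_ENU) (hVRI : Stmt_VRI) (hLMF : Stmt_LMF) : Stmt_GSF := by
  intro φ ξ B' hφ hξ hsym hB'
  obtain ⟨hadm, hcont, -, -, hw0, -, -⟩ := hADM φ hφ
  obtain ⟨M, r, hX⟩ := hXDE ξ hξ hsym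
  obtain ⟨r', h, hrr, hh⟩ := hNUC.1 r hX.r_nonneg
  obtain ⟨κ, hκ⟩ := hNUC.2 r' (hX.r_nonneg.trans hrr)
  obtain ⟨A₀, hA₀⟩ := hABD φ hφ
  set A : ℝ := max (max A₀ 0) (∫ x, κ x) with hA
  have hA0 : 0 ≤ A := (le_max_right _ _).trans (le_max_left _ _)
  set b : ℝ := ∫ z, ww φ z with hb
  set W : ℝ := ∫ z : E × E, VV φ z.1 z.2 with hW
  have hb0 : 0 ≤ b := integral_nonneg hw0
  have hW0 : 0 ≤ W := integral_nonneg (fun z => hadm.nonneg z.1 z.2)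
  have hNBH : ∀ δ, 0 < δ → NBH (fd δ φ) (VV φ) := fun δ hδ =>
    ⟨(hFDJ φ δ hφ hδ).1, hadm, hcont, fun z => le_trans (by have := hw0 z; positivity) ((hKPO φ δ hφ hδ).2.2 z)⟩
  set G : ℝ := gam4 φ (fun p => PF φ p * Real.exp (ξ p)) with hG
  set K : ℝ := KM M with hK
  have hK0 : 0 ≤ K := by rw [hK]; unfold KM; positivity
  set J4 : ℝ := RI 3 (fun y => |(-(1 / 2 * Lap4 ξ (rl y)))|) with hJ4
  set J5 : ℝ := RI 4 (fun y => |(-(1 / 2 * Lk 5 (fun y : Fin 5 → E => -(4 * M * ∏ a, ∏ b ∈ Finset.Ioi a, h (y a - y b))) y))|)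
    with hJ5
  -- the choice of e₁
  set e₁ : ℝ := (B' - G) / (16 * (W + 1)) with he₁
  have he₁0 : 0 < e₁ := by
    rw [he₁]
    have : 0 < B' - G := by linarith
    positivity
  have he₁W : 1 / 6 * (2 * e₁ * W) + 1 / 24 * G < 1 / 24 * B' := by
    have h1 : e₁ * (16 * (W + 1)) = B' - G := by
      rw [he₁, div_mul_cancel₀]; positivity
    nlinarith [he₁0, hW0, mul_nonneg he₁0.le hW0]
  -- the functions of ρ
  set α : ℝ → ℝ := fun ρ => ∫ z, aa (fd (e₁ * ρ) φ) z with hα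
  set η : ℝ → ℝ := fun ρ => 3 * ρ ^ 2 * (Real.exp (4 * M) * α ρ) + 3 * ρ ^ 3 * (Real.exp (8 * M) * A ^ 3) + ρ ^ 3 with hη
  have tδ : Tendsto (fun ρ : ℝ => e₁ * ρ) (𝓝[>] 0) (𝓝[>] 0) := by
    refine tendsto_nhdsWithin_iff.2 ⟨?_, ?_⟩
    · have : Tendsto (fun ρ : ℝ => e₁ * ρ) (𝓝 0) (𝓝 (e₁ * 0)) := tendsto_id.const_mul _
      rw [mul_zero] at this
      exact this.mono_left nhdsWithin_le_nhds
    · filter_upwards [self_mem_nhdsWithin] with ρ hρ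
      exact mul_pos he₁0 hρ
  have tρ : Tendsto (fun ρ : ℝ => ρ) (𝓝[>] 0) (𝓝 0) := tendsto_id.mono_left nhdsWithin_le_nhds
  have tα : Tendsto (fun ρ : ℝ => ρ * α ρ) (𝓝[>] 0) (𝓝 0) := by
    have h1 := (hDIN φ hφ).comp tδ
    have h2 : Tendsto (fun ρ : ℝ => e₁⁻¹ * (e₁ * ρ * ∫ z, aa (fd (e₁ * ρ) φ) z)) (𝓝[>] 0) (𝓝 (e₁⁻¹ * 0)) :=
      h1.const_mul _
    rw [mul_zero] at h2
    refine h2.congr fun ρ => ?_
    simp only [hα]
    field_simp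
  have tη : Tendsto (fun ρ : ℝ => η ρ / ρ) (𝓝[>] 0) (𝓝 0) := by
    have h1 : Tendsto (fun ρ : ℝ => 3 * Real.exp (4 * M) * (ρ * α ρ) + 3 * ρ ^ 2 * (Real.exp (8 * M) * A ^ 3) + ρ ^ 2)
        (𝓝[>] 0) (𝓝 (3 * Real.exp (4 * M) * 0 + 3 * 0 ^ 2 * (Real.exp (8 * M) * A ^ 3) + 0 ^ 2)) :=
      ((tα.const_mul _).add (((tρ.pow 2).const_mul 3).mul_const _)).add (tρ.pow 2)
    have h0 : 3 * Real.exp (4 * M) * 0 + 3 * 0 ^ 2 * (Real.exp (8 * M) * A ^ 3) + (0 : ℝ) ^ 2 = 0 := by ring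
    rw [h0] at h1
    refine h1.congr' ?_
    filter_upwards [self_mem_nhdsWithin] with ρ hρ
    have hρ' : ρ ≠ 0 := ne_of_gt hρ
    simp only [hη]
    field_simp
  have tη0 : Tendsto η (𝓝[>] 0) (𝓝 0) := by
    have h1 := tη.mul tρ
    rw [mul_zero] at h1
    refine h1.congr' ?_
    filter_upwards [self_mem_nhdsWithin] with ρ hρ
    exact div_mul_cancel₀ _ (ne_of_gt hρ)
  have tΓ : Tendsto (fun ρ : ℝ => ∫ p, gamI (fd (e₁ * ρ) φ) (VV φ) ξ p) (𝓝[>] 0) (𝓝 G) := (hLMF φ ξ hφ hξ).comp tδ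
  have tU : Tendsto (fun ρ : ℝ => 1 / 6 * (2 * e₁ * W + (14 * (η ρ / ρ) + K * (η ρ * A + ρ * A ^ 2)) * (b + 1))
      + 1 / 24 * (∫ p, gamI (fd (e₁ * ρ) φ) (VV φ) ξ p) + K * (η ρ + ρ * A) * J4 + K * ρ * J5) (𝓝[>] 0)
      (𝓝 (1 / 6 * (2 * e₁ * W + (14 * 0 + K * (0 * A + 0 * A ^ 2)) * (b + 1)) + 1 / 24 * G
        + K * (0 + 0 * A) * J4 + K * 0 * J5)) := by
    refine (((?_ : Tendsto _ _ _).add (tΓ.const_mul _)).add (?_ : Tendsto _ _ _)).add (?_ : Tendsto _ _ _)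
    · refine Tendsto.const_mul _ (Tendsto.const_add _ (Tendsto.mul_const _ ?_))
      exact (tη.const_mul _).add (Tendsto.const_mul _ ((tη0.mul_const _).add (tρ.mul_const _)))
    · exact (Tendsto.const_mul _ (tη0.add (tρ.mul_const _))).mul_const _
    · exact (tρ.const_mul _).mul_const _
  have e0 : 1 / 6 * (2 * e₁ * W + (14 * 0 + K * (0 * A + 0 * A ^ 2)) * (b + 1)) + 1 / 24 * G
        + K * (0 + 0 * A) * J4 + K * 0 * J5 < 1 / 24 * B' := by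
    have : 1 / 6 * (2 * e₁ * W + (14 * 0 + K * (0 * A + 0 * A ^ 2)) * (b + 1)) + 1 / 24 * G
        + K * (0 + 0 * A) * J4 + K * 0 * J5 = 1 / 6 * (2 * e₁ * W) + 1 / 24 * G := by ring
    rw [this]; exact he₁W
  have E1 := tU.eventually_lt_const e0
  have E2 := tη0.eventually_lt_const (show (0 : ℝ) < 1 / 2 by norm_num)
  have E3 : ∀ᶠ ρ in 𝓝[>] (0 : ℝ), 2 * (e₁ * ρ) * W < 1 := by
    have h1 : Tendsto (fun ρ : ℝ => 2 * (e₁ * ρ) * W) (𝓝[>] 0) (𝓝 (2 * (e₁ * 0) * W)) :=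
      ((tρ.const_mul _).const_mul _).mul_const _
    refine h1.eventually_lt_const ?_
    simp
  have E := (E1.and (E2.and E3))
  rw [eventually_nhdsWithin_iff, Metric.eventually_nhds_iff] at E
  obtain ⟨ρ₀, hρ₀, E⟩ := E
  refine ⟨ρ₀, hρ₀, fun ρ hρ hρ' => ?_⟩
  obtain ⟨F1, F2, F3⟩ := E (y := ρ) (by rw [Real.dist_eq, sub_zero, abs_of_pos hρ]; exact hρ') hρ
  set δ : ℝ := e₁ * ρ with hδ
  have hδ0 : 0 < δ := mul_pos he₁0 hρ
  have hN := hNBH δ hδ0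
  obtain ⟨m1, m2, m3⟩ := hFMU (fd δ φ) ξ h M r r' hN.jas hX hh hrr
  obtain ⟨n1, n3, n4, n5⟩ := hENU (fd δ φ) (VV φ) ξ h M r r' hN hX hh hrr
  obtain ⟨v1, v2⟩ := hVRI (fd δ φ) (VV φ) ξ h M r r' hN hX hh hrr
  set u : KF := uu (fd δ φ) ξ (4 * M) h with hu
  have hα' : ∫ z, ga u z = α ρ := by
    simp only [hα]
    exact integral_congr_ae (Eventually.of_forall m2)
  have hSys : Sys u κ M r r' A (α ρ) :=
    { fam := m1
      near := hκ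
      A_nonneg := hA0
      kerA := fun x => by
        rw [m3 x]
        exact (hA₀ δ hδ0 x).trans ((le_max_left _ _).trans (le_max_left _ _))
      kerk := le_max_right _ _
      kera := hα'.le }
  have hα0 : 0 ≤ α ρ := by
    simp only [hα]
    refine integral_nonneg fun z => ?_
    have h1 := hN.jas.le_one z
    have h2 := hN.jas.half_le z
    simp only [aa, Pi.zero_apply]
    nlinarith
  have hη0 : 0 ≤ η ρ := by simp only [hη]; positivity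
  have hlt : 2 * ρ ^ 2 * (Real.exp (4 * M) * α ρ) + 2 * ρ ^ 3 * (Real.exp (8 * M) * A ^ 3) < η ρ := by
    simp only [hη]
    have h1 : 0 ≤ ρ ^ 2 * (Real.exp (4 * M) * α ρ) := by positivity
    have h2 : 0 ≤ ρ ^ 3 * (Real.exp (8 * M) * A ^ 3) := by positivity
    have h3 : 0 < ρ ^ 3 := by positivity
    linarith
  have hI : ∫ z, kap (fd δ φ) (VV φ) z ≤ b + 2 * δ * W := (hKIN φ δ hφ hδ0).2
  refine hMBK u κ (VV φ) M r r' A (α ρ) (η ρ) ρ _ hSys hadm hcont n1 hρ hlt F2.le ?_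
  have e4 : RI 3 (fun y => |ee (VV φ) u 4 y|) = J4 := by
    rw [hJ4]
    congr 1
    funext y
    rw [n4 y]
  have e5 : RI 4 (fun y => |ee (VV φ) u 5 y|) = J5 := by
    rw [hJ5]
    congr 1
    funext y
    rw [n5 y]
  rw [e4, e5, v1, v2]
  exact arith ρ b _ W e₁ (η ρ) A K _ J4 J5 B' hρ hη0 hA0 hK0 hI (by linarith) F1

end Pool.Agent.TBC
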