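import Pool.Agent.TBC.Stmts

set_option autoImplicit false

open MeasureTheory Filter Topology
open scoped ContDiff

namespace Pool.Agent.TBC

open Pool.Agent.TBG Pool.Agent.TBF

namespace INF_

lemma cf_add (p q : W4) (i : Fin 4) : cf (p + q) i = cf p i + cf q i := by
  fin_cases i <;> simp [cf, add_comm]

lemma cf_smul (c : ℝ) (p : W4) (i : Fin 4) : cf (c • p) i = c • cf p i := by
  fin_cases i <;> simp [cf]

lemma cf_rl (X : Fin 4 → E) (i : Fin 4) : cf (rl X) i = X i - X 0 := by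
  fin_cases i <;> simp [cf, rl]

lemma rl_cf (p : W4) : rl (cf p) = p := by
  simp [cf, rl]

lemma Pm_Pm (σ τ : Equiv.Perm (Fin 4)) (p : W4) : Pm σ (Pm τ p) = Pm (τ * σ) p := by
  simp only [Pm, cf_rl]
  simp [rl]

lemma Pm_one (p : W4) : Pm 1 p = p := by
  simp [Pm, rl_cf]

/-- the permutations as linear equivalences -/
noncomputable def Pl (σ : Equiv.Perm (Fin 4)) : W4 ≃ₗ[ℝ] W4 where
  toFun := Pm σ
  map_add' p q := by simp [Pm, rl, cf_add]; constructor <;> [skip; constructor] <;> abel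
  map_smul' c p := by simp [Pm, rl, cf_smul, smul_sub]
  invFun := Pm σ⁻¹
  left_inv p := by rw [Pm_Pm]; simp [Pm_one]
  right_inv p := by rw [Pm_Pm]; simp [Pm_one]

lemma integrable_Pm {F : W4 → ℝ} (h : Integrable F) (σ : Equiv.Perm (Fin 4)) :
    Integrable (fun p => F (Pm σ p)) := by
  haveI i1 : (volume : Measure (E × E)).IsAddHaarMeasure :=
    Measure.prod.instIsAddHaarMeasure volume volume
  haveI i2 : (volume : Measure W4).IsAddHaarMeasure :=
    Measure.prod.instIsAddHaarMeasure (volume : Measure E) (volume : Measure (E × E))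
  have hdet : LinearMap.det (Pl σ : W4 →ₗ[ℝ] W4) ≠ 0 := (LinearEquiv.isUnit_det' (Pl σ)).ne_zero
  have h1 := Measure.map_linearMap_addHaar_eq_smul_addHaar (volume : Measure W4) hdet
  have h2 : Integrable F (Measure.map (Pl σ : W4 →ₗ[ℝ] W4) volume) := by
    rw [h1]; exact h.smul_measure ENNReal.ofReal_ne_top
  have hm : AEMeasurable (Pl σ : W4 →ₗ[ℝ] W4) (volume : Measure W4) :=
    (LinearMap.continuous_of_finiteDimensional (Pl σ : W4 →ₗ[ℝ] W4)).aemeasurable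
  exact h2.comp_aemeasurable hm

lemma exists_perm : ∀ m m' : Fin 4, m ≠ m' → ∃ σ : Equiv.Perm (Fin 4), σ 2 = m' ∧ σ 3 = m := by
  decide

/-- distances are bounded by the triple -/
lemma dist_le (m i j : Fin 4) (hi : i ≠ m) (hj : j ≠ m) (p : W4) :
    ‖cf p i - cf p j‖ ≤ 2 * ‖pm m p‖ := by
  obtain ⟨a, rfl⟩ := Fin.exists_succAbove_eq hi
  obtain ⟨b, rfl⟩ := Fin.exists_succAbove_eq hj
  have h1 : ‖cf p (m.succAbove 0) - cf p (m.succAbove 1)‖ ≤ ‖pm m p‖ := norm_fst_le (pm m p)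
  have h2 : ‖cf p (m.succAbove 0) - cf p (m.succAbove 2)‖ ≤ ‖pm m p‖ := norm_snd_le (pm m p)
  have h3 : ‖cf p (m.succAbove 1) - cf p (m.succAbove 2)‖ ≤ 2 * ‖pm m p‖ := by
    have : cf p (m.succAbove 1) - cf p (m.succAbove 2) =
      (cf p (m.succAbove 0) - cf p (m.succAbove 2)) -
        (cf p (m.succAbove 0) - cf p (m.succAbove 1)) := by abel
    rw [this]
    exact (norm_sub_le _ _).trans (by linarith)
  have h0 : 0 ≤ ‖pm m p‖ := norm_nonneg _
  have h1' : ‖cf p (m.succAbove 1) - cf p (m.succAbove 0)‖ ≤ ‖pm m p‖ := by rwa [norm_sub_rev]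
  have h2' : ‖cf p (m.succAbove 2) - cf p (m.succAbove 0)‖ ≤ ‖pm m p‖ := by rwa [norm_sub_rev]
  have h3' : ‖cf p (m.succAbove 2) - cf p (m.succAbove 1)‖ ≤ 2 * ‖pm m p‖ := by rwa [norm_sub_rev]
  fin_cases a <;> fin_cases b <;> first | (simp only [sub_self, norm_zero]; linarith) | skip
  all_goals simp only [Fin.zero_eta, Fin.isValue, Fin.mk_one, Fin.reduceFinMk]; linarith

lemma cont_cf (i : Fin 4) : Continuous (fun p : W4 => cf p i) := by
  fin_cases i
  · exact continuous_const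
  · exact continuous_fst.neg
  · exact (continuous_fst.comp continuous_snd).neg
  · exact (continuous_snd.comp continuous_snd).neg

lemma cont_pm (m : Fin 4) : Continuous (pm m) := by
  unfold pm
  exact ((cont_cf _).sub (cont_cf _)).prodMk ((cont_cf _).sub (cont_cf _))

lemma fin3 : Module.finrank ℝ E = 3 := by simp

/-- product of three integrable powers -/
lemma int3 (a b c : ℝ) (ha : 3 < a) (hb : 3 < b) (hc : 3 < c) :
    Integrable (fun q : W4 => (1 + ‖q.1‖) ^ (-a) * ((1 + ‖q.2.1‖) ^ (-b) * (1 + ‖q.2.2‖) ^ (-c))) := by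
  have h : ∀ r : ℝ, 3 < r → Integrable (fun x : E => (1 + ‖x‖) ^ (-r)) := fun r hr =>
    integrable_one_add_norm (by rw [fin3]; exact_mod_cast hr)
  exact (h a ha).mul_prod ((h b hb).mul_prod (h c hc))

/-- one factor -/
lemma fac (s t : ℝ) (hs : 0 ≤ s) (ht : 0 ≤ t) (h : s ≤ 2 * t) (a : ℝ) (ha : 0 ≤ a) :
    (1 + t) ^ (-a) ≤ 2 ^ a * (1 + s) ^ (-a) := by
  have h1 : (1 + s) ≤ 2 * (1 + t) := by linarith
  have h2 : (1 + s) ^ a ≤ 2 ^ a * (1 + t) ^ a := by
    rw [← Real.mul_rpow (by norm_num) (by linarith)]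
    exact Real.rpow_le_rpow (by linarith) h1 ha
  have h3 : 0 < (1 + s) ^ a := Real.rpow_pos_of_pos (by linarith) _
  have h4 : 0 < (1 + t) ^ a := Real.rpow_pos_of_pos (by linarith) _
  rw [Real.rpow_neg (by linarith), Real.rpow_neg (by linarith), inv_eq_one_div,
    div_le_iff₀ h4, mul_assoc, inv_mul_eq_div, mul_div_assoc', le_div_iff₀ h3, one_mul]
  exact h2

/-- two factors from a power -/
lemma fac2 (s s' t : ℝ) (hs : 0 ≤ s) (hs' : 0 ≤ s') (ht : 0 ≤ t) (h : s ≤ 2 * t) (h' : s' ≤ 2 * t)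
    (n : ℕ) (a b : ℝ) (ha : 0 ≤ a) (hb : 0 ≤ b) (hab : a + b ≤ n) :
    ((1 + t) ^ n)⁻¹ ≤ 2 ^ (a + b) * ((1 + s) ^ (-a) * (1 + s') ^ (-b)) := by
  have h1 : ((1 + t) ^ n)⁻¹ ≤ (1 + t) ^ (-a) * (1 + t) ^ (-b) := by
    rw [← Real.rpow_add (by linarith), ← Real.rpow_natCast, ← Real.rpow_neg (by linarith)]
    exact Real.rpow_le_rpow_of_exponent_le (by linarith) (by linarith)
  refine h1.trans ((mul_le_mul (fac s t hs ht h a ha) (fac s' t hs' ht h' b hb)
    (Real.rpow_nonneg (by linarith) _) (mul_nonneg (by positivity)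
      (Real.rpow_nonneg (by linarith) _))).trans (le_of_eq ?_))
  rw [Real.rpow_add (by norm_num)]; ring

end INF_

open INF_ in
theorem inf_proof : Stmt_INF := by
  intro m m' hm
  obtain ⟨σ, h2, h3⟩ := exists_perm m m' hm
  have hn : ∀ i j : Fin 4, i ≠ j → σ i ≠ σ j := fun i j h => σ.injective.ne h
  have h0m : σ 0 ≠ m := by rw [← h3]; exact hn _ _ (by decide)
  have h1m : σ 1 ≠ m := by rw [← h3]; exact hn _ _ (by decide)
  have h2m : σ 2 ≠ m := by rw [← h3]; exact hn _ _ (by decide)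
  have h0m' : σ 0 ≠ m' := by rw [← h2]; exact hn _ _ (by decide)
  have h1m' : σ 1 ≠ m' := by rw [← h2]; exact hn _ _ (by decide)
  have h3m' : σ 3 ≠ m' := by rw [← h2]; exact hn _ _ (by decide)
  have e1 : ∀ p, (Pm σ p).1 = cf p (σ 0) - cf p (σ 1) := fun p => rfl
  have e2 : ∀ p, (Pm σ p).2.1 = cf p (σ 0) - cf p (σ 2) := fun p => rfl
  have e3 : ∀ p, (Pm σ p).2.2 = cf p (σ 0) - cf p (σ 3) := fun p => rfl
  have cN : ∀ (k : Fin 4) (n : ℕ), Continuous (fun p : W4 => ((1 + ‖pm k p‖) ^ n)⁻¹) := by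
    intro k n
    refine Continuous.inv₀ ((continuous_const.add (cont_pm k).norm).pow n) fun p => ?_
    have := norm_nonneg (pm k p)
    positivity
  have b1 : ∀ p, ‖(Pm σ p).1‖ ≤ 2 * ‖pm m p‖ := fun p => by
    rw [e1]; exact dist_le m _ _ h0m h1m p
  have b2 : ∀ p, ‖(Pm σ p).2.1‖ ≤ 2 * ‖pm m p‖ := fun p => by
    rw [e2]; exact dist_le m _ _ h0m h2m p
  have b1' : ∀ p, ‖(Pm σ p).1‖ ≤ 2 * ‖pm m' p‖ := fun p => by
    rw [e1]; exact dist_le m' _ _ h0m' h1m' p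
  have b3 : ∀ p, ‖(Pm σ p).2.2‖ ≤ 2 * ‖pm m' p‖ := fun p => by
    rw [e3]; exact dist_le m' _ _ h0m' h3m' p
  constructor
  · have hG := (integrable_Pm (int3 4 4 4 (by norm_num) (by norm_num) (by norm_num)) σ).const_mul
      ((2 : ℝ) ^ ((4 : ℝ) + 4) * 2 ^ ((0 : ℝ) + 4))
    refine hG.mono' ((cN m 10).mul (cN m' 4)).aestronglyMeasurable (Eventually.of_forall fun p => ?_)
    have f1 := fac2 _ _ _ (norm_nonneg _) (norm_nonneg _) (norm_nonneg _) (b1 p) (b2 p) 10 4 4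
      (by norm_num) (by norm_num) (by norm_num)
    have f2 := fac2 _ _ _ (norm_nonneg _) (norm_nonneg _) (norm_nonneg _) (b1' p) (b3 p) 4 0 4
      (by norm_num) (by norm_num) (by norm_num)
    rw [Real.norm_of_nonneg (by positivity)]
    refine (mul_le_mul f1 f2 (by positivity) (by positivity)).trans (le_of_eq ?_)
    rw [neg_zero, Real.rpow_zero]; ring
  · have hG := (integrable_Pm (int3 (7 / 2) (13 / 4) (13 / 4) (by norm_num) (by norm_num)
      (by norm_num)) σ).const_mul ((2 : ℝ) ^ ((7 / 4 : ℝ) + 13 / 4) * 2 ^ ((7 / 4 : ℝ) + 13 / 4))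
    refine hG.mono' ((cN m 5).mul (cN m' 5)).aestronglyMeasurable (Eventually.of_forall fun p => ?_)
    have f1 := fac2 _ _ _ (norm_nonneg _) (norm_nonneg _) (norm_nonneg _) (b1 p) (b2 p) 5
      (7 / 4) (13 / 4) (by norm_num) (by norm_num) (by norm_num)
    have f2 := fac2 _ _ _ (norm_nonneg _) (norm_nonneg _) (norm_nonneg _) (b1' p) (b3 p) 5
      (7 / 4) (13 / 4) (by norm_num) (by norm_num) (by norm_num)
    rw [Real.norm_of_nonneg (by positivity)]
    refine (mul_le_mul f1 f2 (by positivity) (by positivity)).trans (le_of_eq ?_)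
    have h5 : (1 + ‖(Pm σ p).1‖) ^ (-(7 / 2) : ℝ) =
        (1 + ‖(Pm σ p).1‖) ^ (-(7 / 4) : ℝ) * (1 + ‖(Pm σ p).1‖) ^ (-(7 / 4) : ℝ) := by
      rw [← Real.rpow_add (by positivity)]; norm_num
    rw [h5]; ring

end Pool.Agent.TBC
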