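import Pool.Agent.TBC.Stmts

set_option autoImplicit false

open MeasureTheory Filter Topology
open scoped ContDiff

namespace Pool.Agent.TBC

open Pool.Agent.TBG Pool.Agent.TBF

namespace KIV_

/-- the permutation of the particles as a continuous linear map -/
noncomputable def pl {k : ℕ} (σ : Equiv.Perm (Fin k)) : (Fin k → E) →L[ℝ] (Fin k → E) :=
  ContinuousLinearMap.pi fun i => ContinuousLinearMap.proj (σ i)

theorem dvp {k : ℕ} (σ : Equiv.Perm (Fin k)) (g : (Fin k → E) → ℝ) (hg : Differentiable ℝ g)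
    (v y : Fin k → E) :
    dv v (fun y => g (fun i => y (σ i))) y = dv (fun i => v (σ i)) g (fun i => y (σ i)) := by
  unfold dv
  have h : HasFDerivAt (fun y : Fin k → E => g (pl σ y)) ((fderiv ℝ g (pl σ y)).comp (pl σ)) y :=
    (hg (pl σ y)).hasFDerivAt.comp y (pl σ).hasFDerivAt
  exact congrArg (fun L : (Fin k → E) →L[ℝ] ℝ => L v) h.fderiv

theorem dvt {k : ℕ} (a : E) (g : (Fin k → E) → ℝ) (v y : Fin k → E) :
    dv v (fun y => g (fun i => y i + a)) y = dv v g (fun i => y i + a) := by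
  unfold dv
  exact congrArg (fun L : (Fin k → E) →L[ℝ] ℝ => L v)
    (fderiv_comp_add_right (𝕜 := ℝ) (f := g) (x := y) (fun _ => a : Fin k → E))

theorem dirp {k : ℕ} (σ : Equiv.Perm (Fin k)) (m : Fin k) (c : Fin 3) :
    (fun i => dir m c (σ i)) = dir (σ.symm m) c := by
  funext i
  unfold dir
  by_cases h : σ i = m
  · have h' : i = σ.symm m := by rw [← h, Equiv.symm_apply_apply]
    rw [h, ← h', Pi.single_eq_same, Pi.single_eq_same]
  · have h' : i ≠ σ.symm m := by
      intro h2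
      apply h
      rw [h2, Equiv.apply_symm_apply]
    rw [Pi.single_eq_of_ne h, Pi.single_eq_of_ne h']

theorem dsm {k : ℕ} (g : (Fin k → E) → ℝ) (hg : ContDiff ℝ ∞ g) (v : Fin k → E) :
    ContDiff ℝ ∞ (dv v g) := by
  have h1 : ContDiff ℝ ∞ (fderiv ℝ g) := hg.fderiv_right (by simp)
  exact h1.clm_apply contDiff_const

theorem dif {k : ℕ} (g : (Fin k → E) → ℝ) (hg : ContDiff ℝ ∞ g) : Differentiable ℝ g :=
  hg.differentiable (by simp)

theorem d1p {k : ℕ} (g : (Fin k → E) → ℝ) (hg : ContDiff ℝ ∞ g) (σ : Equiv.Perm (Fin k))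
    (hp : ∀ y : Fin k → E, g (fun i => y (σ i)) = g y) (v y : Fin k → E) :
    dv (fun i => v (σ i)) g (fun i => y (σ i)) = dv v g y := by
  rw [← dvp σ g (dif g hg)]
  have h : (fun y : Fin k → E => g (fun i => y (σ i))) = g := funext hp
  rw [h]

theorem d2p {k : ℕ} (g : (Fin k → E) → ℝ) (hg : ContDiff ℝ ∞ g) (σ : Equiv.Perm (Fin k))
    (hp : ∀ y : Fin k → E, g (fun i => y (σ i)) = g y) (v v' y : Fin k → E) :
    dv (fun i => v (σ i)) (dv (fun i => v' (σ i)) g) (fun i => y (σ i)) = dv v (dv v' g) y := by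
  rw [← dvp σ (dv (fun i => v' (σ i)) g) (dif _ (dsm g hg _))]
  have h : (fun y : Fin k → E => dv (fun i => v' (σ i)) g (fun i => y (σ i))) = dv v' g :=
    funext fun y => d1p g hg σ hp v' y
  rw [h]

theorem d1t {k : ℕ} (g : (Fin k → E) → ℝ) (a : E)
    (hp : ∀ y : Fin k → E, g (fun i => y i + a) = g y) (v y : Fin k → E) :
    dv v g (fun i => y i + a) = dv v g y := by
  rw [← dvt a g]
  have h : (fun y : Fin k → E => g (fun i => y i + a)) = g := funext hp
  rw [h]

theorem d2t {k : ℕ} (g : (Fin k → E) → ℝ) (a : E)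
    (hp : ∀ y : Fin k → E, g (fun i => y i + a) = g y) (v v' y : Fin k → E) :
    dv v (dv v' g) (fun i => y i + a) = dv v (dv v' g) y :=
  d1t (dv v' g) a (fun y => d1t g a hp v' y) v y

theorem kgg (u : KF) (hu : KInv u) (hs : ∀ k, ContDiff ℝ ∞ (u k)) : KInv (gg u) := by
  refine ⟨?_, ?_⟩
  · intro k σ y
    unfold gg
    rw [← Equiv.sum_comp σ.symm
      (fun m => ∑ c : Fin 3, |dv (dir m c) (u k) (fun i => y (σ i))|)]
    refine Finset.sum_congr rfl fun m _ => Finset.sum_congr rfl fun c _ => ?_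
    rw [← dirp σ m c, d1p (u k) (hs k) σ (fun y => hu.perm k σ y)]
  · intro k a y
    unfold gg
    refine Finset.sum_congr rfl fun m _ => Finset.sum_congr rfl fun c _ => ?_
    rw [d1t (u k) a (fun y => hu.trans k a y)]

theorem kLk (u : KF) (hu : KInv u) (hs : ∀ k, ContDiff ℝ ∞ (u k)) :
    KInv (fun k => Lk k (u k)) := by
  refine ⟨?_, ?_⟩
  · intro k σ y
    change Lk k (u k) (fun i => y (σ i)) = Lk k (u k) y
    unfold Lk
    rw [← Equiv.sum_comp σ.symm
      (fun m => ∑ c : Fin 3, dv (dir m c) (dv (dir m c) (u k)) (fun i => y (σ i)))]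
    refine Finset.sum_congr rfl fun m _ => Finset.sum_congr rfl fun c _ => ?_
    rw [← dirp σ m c, d2p (u k) (hs k) σ (fun y => hu.perm k σ y)]
  · intro k a y
    change Lk k (u k) (fun i => y i + a) = Lk k (u k) y
    unfold Lk
    refine Finset.sum_congr rfl fun m _ => Finset.sum_congr rfl fun c _ => ?_
    rw [d2t (u k) a (fun y => hu.trans k a y)]

theorem vb_ne (V : E → E → ℝ) (k : ℕ) (hk : k ≠ 3) (y : Fin k → E) : vb V k y = 0 := by
  unfold vb
  split
  · exact absurd rfl hk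
  · rfl

theorem six : ∀ a b c : Fin 3, a ≠ b → a ≠ c → b ≠ c →
    (a = 0 ∧ b = 1 ∧ c = 2) ∨ (a = 0 ∧ b = 2 ∧ c = 1) ∨ (a = 1 ∧ b = 0 ∧ c = 2) ∨
    (a = 1 ∧ b = 2 ∧ c = 0) ∨ (a = 2 ∧ b = 0 ∧ c = 1) ∨ (a = 2 ∧ b = 1 ∧ c = 0) := by
  decide

theorem kvb (V : E → E → ℝ) (hV : Admissible V) : KInv (vb V) := by
  refine ⟨?_, ?_⟩
  · intro k σ y
    by_cases hk : k = 3
    · subst hk
      have s : ∀ a b c : E, V (a - b) (a - c) = V (a - c) (a - b) := fun a b c => hV.symm _ _
      have t : ∀ a b c : E, V (a - b) (a - c) = V (b - a) (b - c) := fun a b c => (hV.tri a b c).1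
      change V (y (σ 0) - y (σ 1)) (y (σ 0) - y (σ 2)) = V (y 0 - y 1) (y 0 - y 2)
      have h01 : σ 0 ≠ σ 1 := fun h => absurd (σ.injective h) (by decide)
      have h02 : σ 0 ≠ σ 2 := fun h => absurd (σ.injective h) (by decide)
      have h12 : σ 1 ≠ σ 2 := fun h => absurd (σ.injective h) (by decide)
      rcases six _ _ _ h01 h02 h12 with h | h | h | h | h | h <;> obtain ⟨h1, h2, h3⟩ := h <;>
        rw [h1, h2, h3]
      · exact s _ _ _
      · exact t _ _ _
      · rw [s, t]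
      · rw [t, s]
      · rw [s, t, s]
    · rw [vb_ne V k hk, vb_ne V k hk]
  · intro k a y
    by_cases hk : k = 3
    · subst hk
      change V (y 0 + a - (y 1 + a)) (y 0 + a - (y 2 + a)) = V (y 0 - y 1) (y 0 - y 2)
      rw [add_sub_add_right_eq_sub, add_sub_add_right_eq_sub]
    · rw [vb_ne V k hk, vb_ne V k hk]

theorem kee (u : KF) (V : E → E → ℝ) (hu : KInv u) (hs : ∀ k, ContDiff ℝ ∞ (u k))
    (hV : Admissible V) : KInv (ee V u) := by
  have h1 := kvb V hV
  have h2 := kLk u hu hs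
  refine ⟨?_, ?_⟩
  · intro k σ y
    have h3 := h1.perm k σ y
    have h4 : Lk k (u k) (fun i => y (σ i)) = Lk k (u k) y := h2.perm k σ y
    unfold ee
    rw [h3, h4]
  · intro k a y
    have h3 := h1.trans k a y
    have h4 : Lk k (u k) (fun i => y i + a) = Lk k (u k) y := h2.trans k a y
    unfold ee
    rw [h3, h4]

theorem cvb (V : E → E → ℝ) (hc : Continuous (fun z : E × E => V z.1 z.2)) (k : ℕ) :
    Continuous (vb V k) := by
  by_cases hk : k = 3
  · subst hk
    have h : Continuous (fun y : Fin 3 → E => (y 0 - y 1, y 0 - y 2)) := by fun_prop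
    exact hc.comp h
  · have h : vb V k = fun _ => 0 := funext fun y => vb_ne V k hk y
    rw [h]
    exact continuous_const

theorem zer {k : ℕ} (S : Set (Fin k → E)) (hS : IsOpen S) (f : (Fin k → E) → ℝ)
    (hf : ∀ y ∈ S, f y = 0) (v : Fin k → E) : ∀ y ∈ S, dv v f y = 0 := by
  intro y hy
  have h : f =ᶠ[𝓝 y] fun _ => (0 : ℝ) := by
    filter_upwards [hS.mem_nhds hy] with z hz
    exact hf z hz
  unfold dv
  rw [h.fderiv_eq, fderiv_fun_const]
  rfl

theorem opn (k : ℕ) (R : ℝ) : IsOpen {y : Fin k → E | ∃ i j, R < ‖y i - y j‖} := by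
  have h : {y : Fin k → E | ∃ i j, R < ‖y i - y j‖} =
      ⋃ i, ⋃ j, {y : Fin k → E | R < ‖y i - y j‖} := by
    ext y
    simp
  rw [h]
  refine isOpen_iUnion fun i => isOpen_iUnion fun j => ?_
  exact isOpen_lt continuous_const (by fun_prop)

end KIV_

theorem kiv_proof : Stmt_KIV := by
  intro u V hu hs hV hc
  refine ⟨KIV_.kgg u hu hs, KIV_.kee u V hu hs hV, KIV_.kvb V hV, ?_, ?_, ?_, ?_⟩
  · intro k
    unfold gg
    refine continuous_finsetSum _ fun m _ => continuous_finsetSum _ fun c _ => ?_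
    exact (KIV_.dsm (u k) (hs k) _).continuous.abs
  · intro k
    have h1 := KIV_.cvb V hc k
    have h2 : Continuous (Lk k (u k)) := by
      unfold Lk
      refine continuous_finsetSum _ fun m _ => continuous_finsetSum _ fun c _ => ?_
      exact (KIV_.dsm _ (KIV_.dsm (u k) (hs k) _) _).continuous
    exact h1.sub (continuous_const.mul h2)
  · intro k y
    unfold gg
    exact Finset.sum_nonneg fun m _ => Finset.sum_nonneg fun c _ => abs_nonneg _
  · intro k R h0 y hy
    have h1 := fun v => KIV_.zer _ (KIV_.opn k R) (u k) (fun y hy => h0 y hy) v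
    have h2 := fun v => KIV_.zer _ (KIV_.opn k R) (dv v (u k)) (h1 v) v
    refine ⟨?_, ?_⟩
    · unfold gg
      refine Finset.sum_eq_zero fun m _ => Finset.sum_eq_zero fun c _ => ?_
      rw [h1 _ y hy, abs_zero]
    · unfold Lk
      exact Finset.sum_eq_zero fun m _ => Finset.sum_eq_zero fun c _ => h2 _ y hy

end Pool.Agent.TBC
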