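import Pool.Agent.TBC.Stmts

set_option autoImplicit false

open MeasureTheory Filter Topology
open scoped ContDiff

namespace Pool.Agent.TBC

open Pool.Agent.TBG Pool.Agent.TBF

namespace LMF_

lemma gsq_nonneg (f : E × E → ℝ) (z : E × E) : 0 ≤ gsq f z := by
  unfold gsq
  positivity

lemma gsq_one_sub (φ : E × E → ℝ) (z : E × E) : gsq (fun z => 1 - φ z) z = gsq φ z := by
  unfold gsq dv
  simp only [fderiv_const_sub]
  simp

lemma cont_cf (i : Fin 4) : Continuous (fun p : W4 => cf p i) := by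
  fin_cases i <;> simp [cf] <;> fun_prop

lemma cont_pm (m : Fin 4) : Continuous (fun p : W4 => pm m p) := by
  unfold pm
  exact ((cont_cf _).sub (cont_cf _)).prodMk ((cont_cf _).sub (cont_cf _))

lemma cont_dv {W : Type} [NormedAddCommGroup W] [NormedSpace ℝ W] (v : W) (f : W → ℝ) (hf : ContDiff ℝ ∞ f) :
    Continuous (dv v f) := by
  have h1 : Continuous (fderiv ℝ f) := hf.continuous_fderiv (by simp)
  exact h1.clm_apply continuous_const

lemma cont_gsq4 (F : W4 → ℝ) (hF : ContDiff ℝ ∞ F) : Continuous (gsq4 F) := by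
  unfold gsq4
  refine continuous_finsetSum _ fun m _ => continuous_finsetSum _ fun c _ => ?_
  exact (cont_dv _ F hF).pow 2

lemma cont_gamI (hLRL : Stmt_LRL) (hFNA : Stmt_FNA) (f : E × E → ℝ) (V : E → E → ℝ) (ξ : W4 → ℝ)
    (hf : ContDiff ℝ ∞ f) (hf2 : ∀ z, 1 / 2 ≤ f z) (hξ : TF ξ) (hV : Continuous (fun z : E × E => V z.1 z.2)) :
    Continuous (gamI f V ξ) := by
  have hFX : ContDiff ℝ ∞ (FX f ξ) := (hFNA f V ξ 0 hf hf2 hξ).1
  unfold gamI
  refine ((cont_gsq4 _ hFX).sub ?_).add ?_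
  · refine continuous_finsetSum _ fun m _ => ?_
    obtain ⟨h1, h2, -⟩ := hLRL.2.2 m f hf
    have h3 : (fun p : W4 => gsq f (pm m p)) = gsq4 (fun p => f (pm m p)) := by
      funext p
      exact (h2 p).symm
    rw [h3]
    exact cont_gsq4 _ h1
  · refine continuous_finsetSum _ fun m _ => ?_
    refine (hV.comp (cont_pm m)).mul ?_
    exact (hFX.continuous.pow 2).sub ((hf.continuous.comp (cont_pm m)).pow 2)

lemma integrable_DB (hINF : Stmt_INF) : Integrable DB := by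
  unfold DB
  refine integrable_finsetSum _ fun m _ => integrable_finsetSum _ fun m' hm' => ?_
  have hne : m ≠ m' := by
    intro h
    simp [h] at hm'
  exact (hINF m m' hne).1.add (hINF m m' hne).2

end LMF_

open LMF_ in
theorem lmf_proof (hTDL : Pool.Agent.TBG.Stmt_TDL) (hFDJ : Pool.Agent.TBG.Stmt_FDJ) (hADM : Pool.Agent.TBG.Stmt_ADM)
    (hLPC : Pool.Agent.TBG.Stmt_LPC) (hLRL : Stmt_LRL) (hFNA : Stmt_FNA) (hINF : Stmt_INF) (hDMF : Stmt_DMF)
    (hPCF : Stmt_PCF) : Stmt_LMF := by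
  intro φ ξ hφ hξ
  obtain ⟨hA1, hA2, -⟩ := hADM φ hφ
  obtain ⟨C1, hC1⟩ := hφ.upp
  obtain ⟨C2, hC2⟩ := hφ.grad
  obtain ⟨C', hC'⟩ := hDMF (VV φ) ξ (max C1 C2) hA1 hξ
  -- the gradient of `fd`
  have hg : ∀ δ : ℝ, 0 < δ → ∀ z, gsq (fd δ φ) z ≤ gsq φ z := by
    intro δ hδ z
    obtain ⟨hT1, hT2, -⟩ := hTDL.1 δ hδ
    have hcd : ContDiff ℝ ∞ (fun u : ℝ => 1 - Td δ u) := contDiff_const.sub hT1
    have h := (hLPC (fun u : ℝ => 1 - Td δ u) φ Set.univ isOpen_univ hcd.contDiffOn hφ.smooth (fun _ => Set.mem_univ _) z).2.2.1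
    have h2 : (fun z => (fun u : ℝ => 1 - Td δ u) (φ z)) = fd δ φ := by
      funext z
      rfl
    rw [h2] at h
    rw [h]
    have h3 : deriv (fun u : ℝ => 1 - Td δ u) (φ z) = - Real.smoothTransition (φ z / δ - 1) := by
      rw [deriv_const_sub, hT2]
    rw [h3]
    have h4 : (- Real.smoothTransition (φ z / δ - 1)) ^ 2 ≤ 1 := by
      have := Real.smoothTransition.nonneg (φ z / δ - 1)
      have := Real.smoothTransition.le_one (φ z / δ - 1)
      nlinarith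
    have h5 := LMF_.gsq_nonneg φ z
    nlinarith
  have hdom : ∀ δ : ℝ, 0 < δ → ∀ p, |gamI (fd δ φ) (VV φ) ξ p| ≤ C' * DB p := by
    intro δ hδ
    obtain ⟨hJ, hJ2⟩ := hFDJ φ δ hφ hδ
    refine hC' (fd δ φ) hJ.smooth (fun z => ⟨hJ.half_le z, hJ.le_one z⟩) ?_ ?_
    · intro z
      have h1 := (hJ2 z).2.1
      have h2 : 1 - fd δ φ z ≤ φ z := by linarith
      have h3 : (0 : ℝ) ≤ (1 + ‖z‖) ^ 4 := by positivity
      calc (1 + ‖z‖) ^ 4 * (1 - fd δ φ z) ≤ (1 + ‖z‖) ^ 4 * φ z := mul_le_mul_of_nonneg_left h2 h3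
        _ ≤ C1 := hC1 z
        _ ≤ max C1 C2 := le_max_left _ _
    · intro z
      have h3 : (0 : ℝ) ≤ (1 + ‖z‖) ^ 10 := by positivity
      calc (1 + ‖z‖) ^ 10 * gsq (fd δ φ) z ≤ (1 + ‖z‖) ^ 10 * gsq φ z :=
            mul_le_mul_of_nonneg_left (hg δ hδ z) h3
        _ ≤ C2 := hC2 z
        _ ≤ max C1 C2 := le_max_right _ _
  have hlim : gam4 φ (fun p => PF φ p * Real.exp (ξ p)) = ∫ p, gamI (fun z => 1 - φ z) (VV φ) ξ p := by
    unfold gam4 gamI
    congr 1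
    funext p
    simp only [LMF_.gsq_one_sub]
    rfl
  rw [hlim]
  refine tendsto_integral_filter_of_dominated_convergence (fun p => C' * DB p) ?_ ?_ ?_ ?_
  · filter_upwards [self_mem_nhdsWithin] with δ hδ
    obtain ⟨hJ, -⟩ := hFDJ φ δ hφ hδ
    exact (cont_gamI hLRL hFNA (fd δ φ) (VV φ) ξ hJ.smooth hJ.half_le hξ hA2).aestronglyMeasurable
  · filter_upwards [self_mem_nhdsWithin] with δ hδ
    filter_upwards with p
    rw [Real.norm_eq_abs]
    exact hdom δ hδ p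
  · exact (integrable_DB hINF).const_mul C'
  · filter_upwards with p
    exact hPCF φ ξ p hφ hξ

end Pool.Agent.TBC
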