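import Pool.Agent.TBC.Stmts

set_option autoImplicit false

open MeasureTheory Filter Topology
open scoped ContDiff

namespace Pool.Agent.TBC

open Pool.Agent.TBG Pool.Agent.TBF

namespace LRL_

variable {X Y : Type} [NormedAddCommGroup X] [NormedSpace ℝ X] [NormedAddCommGroup Y] [NormedSpace ℝ Y]

theorem dvc (A : X →L[ℝ] Y) (g : Y → ℝ) (hg : Differentiable ℝ g) (v : X) :
    dv v (fun x => g (A x)) = fun x => dv (A v) g (A x) := by
  funext x
  unfold dv
  have h : HasFDerivAt (fun x : X => g (A x)) ((fderiv ℝ g (A x)).comp A) x :=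
    (hg (A x)).hasFDerivAt.comp x A.hasFDerivAt
  exact congrArg (fun L : X →L[ℝ] ℝ => L v) h.fderiv

theorem dvs (g : Y → ℝ) (hg : ContDiff ℝ ∞ g) (v : Y) : ContDiff ℝ ∞ (dv v g) := by
  have h1 : ContDiff ℝ ∞ (fderiv ℝ g) := hg.fderiv_right (m := ∞) (by simp)
  exact h1.clm_apply contDiff_const

theorem dvd (g : Y → ℝ) (hg : ContDiff ℝ ∞ g) : Differentiable ℝ g :=
  hg.differentiable (by simp)

theorem dvc2 (A : X →L[ℝ] Y) (g : Y → ℝ) (hg : ContDiff ℝ ∞ g) (v : X) (x : X) :
    dv v (dv v (fun x => g (A x))) x = dv (A v) (dv (A v) g) (A x) := by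
  rw [dvc A g (dvd g hg) v, dvc A (dv (A v) g) (dvd _ (dvs g hg (A v))) v]

theorem dv0 (g : Y → ℝ) : dv (0 : Y) g = fun _ => 0 := by
  funext x
  unfold dv
  simp

/-- relative coordinates of three particles -/
noncomputable def r3 : (Fin 3 → E) →L[ℝ] E × E :=
  LinearMap.toContinuousLinearMap
    { toFun := fun y => (y 0 - y 1, y 0 - y 2)
      map_add' := by
        intro x y
        ext1 <;> simp only [Pi.add_apply, Prod.fst_add, Prod.snd_add] <;> abel
      map_smul' := by
        intro r x
        ext1 <;> simp only [Pi.smul_apply, Prod.smul_fst, Prod.smul_snd, smul_sub, RingHom.id_apply] }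

theorem r3_apply (y : Fin 3 → E) : r3 y = (y 0 - y 1, y 0 - y 2) := by
  unfold r3
  rw [LinearMap.coe_toContinuousLinearMap']
  rfl

theorem r3_dir (m c : Fin 3) : r3 (dir m c) = dr m c := by
  rw [r3_apply]
  unfold dir dr
  fin_cases m <;> simp [Pi.single_apply]

/-- relative coordinates of four particles -/
noncomputable def r4 : (Fin 4 → E) →L[ℝ] W4 :=
  LinearMap.toContinuousLinearMap
    { toFun := rl
      map_add' := by
        intro x y
        unfold rl
        ext1
        · simp only [Pi.add_apply, Prod.fst_add]; abel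
        · ext1 <;> simp only [Pi.add_apply, Prod.fst_add, Prod.snd_add] <;> abel
      map_smul' := by
        intro r x
        unfold rl
        ext1
        · simp only [Pi.smul_apply, Prod.smul_fst, smul_sub, RingHom.id_apply]
        · ext1 <;> simp only [Pi.smul_apply, Prod.smul_fst, Prod.smul_snd, smul_sub, RingHom.id_apply] }

theorem r4_apply (y : Fin 4 → E) : r4 y = rl y := by
  unfold r4
  rw [LinearMap.coe_toContinuousLinearMap']
  rfl

theorem cf_add (p q : W4) : cf (p + q) = cf p + cf q := by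
  funext i
  unfold cf
  fin_cases i
  · simp
  · simp; abel
  · simp; abel
  · simp; abel

theorem cf_smul (r : ℝ) (p : W4) : cf (r • p) = r • cf p := by
  funext i
  unfold cf
  fin_cases i <;> simp

/-- the triple as a linear map -/
noncomputable def pmL (m : Fin 4) : W4 →L[ℝ] E × E :=
  LinearMap.toContinuousLinearMap
    { toFun := pm m
      map_add' := by
        intro x y
        unfold pm
        rw [cf_add]
        ext1 <;> simp only [Pi.add_apply, Prod.fst_add, Prod.snd_add] <;> abel
      map_smul' := by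
        intro r x
        unfold pm
        rw [cf_smul]
        ext1 <;> simp only [Pi.smul_apply, Prod.smul_fst, Prod.smul_snd, smul_sub, RingHom.id_apply] }

theorem pmL_apply (m : Fin 4) (p : W4) : pmL m p = pm m p := by
  unfold pmL
  rw [LinearMap.coe_toContinuousLinearMap']
  rfl

theorem cf_rl (X : Fin 4 → E) (i j : Fin 4) : cf (rl X) i - cf (rl X) j = X i - X j := by
  have h : ∀ i : Fin 4, cf (rl X) i = X i - X 0 := by
    intro i
    unfold cf rl
    fin_cases i <;> simp
  rw [h, h]
  abel

theorem pmL_d4 (m k : Fin 4) (c : Fin 3) :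
    pmL m (d4 k c) = (Pi.single (M := fun _ => E) k (ev c) (m.succAbove 0) - Pi.single (M := fun _ => E) k (ev c) (m.succAbove 1),
      Pi.single (M := fun _ => E) k (ev c) (m.succAbove 0) - Pi.single (M := fun _ => E) k (ev c) (m.succAbove 2)) := by
  rw [pmL_apply]
  unfold pm d4
  rw [cf_rl, cf_rl]

theorem pmL_self (m : Fin 4) (c : Fin 3) : pmL m (d4 m c) = 0 := by
  rw [pmL_d4]
  have h : ∀ i : Fin 3, (Pi.single (M := fun _ => E) m (ev c)) (m.succAbove i) = 0 := fun i =>
    Pi.single_eq_of_ne (Fin.succAbove_ne m i) _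
  rw [h, h, h]
  simp

theorem pmL_succ (m : Fin 4) (i c : Fin 3) : pmL m (d4 (m.succAbove i) c) = dr i c := by
  rw [pmL_d4]
  have h : ∀ j : Fin 3, (Pi.single (M := fun _ => E) (m.succAbove i) (ev c)) (m.succAbove j) =
      if j = i then ev c else 0 := by
    intro j
    rw [Pi.single_apply]
    simp [Fin.succAbove_right_inj]
  rw [h, h, h]
  unfold dr
  fin_cases i <;> simp

end LRL_

open LRL_ in
theorem lrl_proof : Stmt_LRL := by
  refine ⟨?_, ?_, ?_⟩
  · intro g hg y
    unfold Lk Lap
    refine Finset.sum_congr rfl fun m _ => Finset.sum_congr rfl fun c _ => ?_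
    have he : (fun y : Fin 3 → E => g (y 0 - y 1, y 0 - y 2)) = fun y => g (r3 y) := by
      funext y
      rw [r3_apply]
    rw [he, dvc2 r3 g hg (dir m c) y, r3_dir, r3_apply]
  · intro ξ hξ y
    unfold Lk Lap4
    refine Finset.sum_congr rfl fun m _ => Finset.sum_congr rfl fun c _ => ?_
    have he : (fun y : Fin 4 → E => ξ (rl y)) = fun y => ξ (r4 y) := by
      funext y
      rw [r4_apply]
    rw [he, dvc2 r4 ξ hξ (dir m c) y, r4_apply, r4_apply]
    rfl
  · intro m g hg
    have he : (fun p => g (pm m p)) = fun p => g (pmL m p) := by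
      funext p
      rw [pmL_apply]
    refine ⟨?_, ?_, ?_⟩
    · rw [he]
      exact hg.comp (pmL m).contDiff
    · intro p
      rw [he]
      unfold gsq4 gsq
      rw [Fin.sum_univ_succAbove _ m]
      have h0 : ∑ c, dv (d4 m c) (fun p => g (pmL m p)) p ^ 2 = 0 := by
        refine Finset.sum_eq_zero fun c _ => ?_
        rw [dvc (pmL m) g (dvd g hg) (d4 m c), pmL_self, dv0]
        simp
      rw [h0, zero_add]
      refine Finset.sum_congr rfl fun i _ => Finset.sum_congr rfl fun c _ => ?_
      rw [dvc (pmL m) g (dvd g hg) (d4 (m.succAbove i) c), pmL_succ]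
      beta_reduce
      rw [pmL_apply]
    · intro p
      rw [he]
      unfold Lap4 Lap
      rw [Fin.sum_univ_succAbove _ m]
      have h0 : ∑ c, dv (d4 m c) (dv (d4 m c) (fun p => g (pmL m p))) p = 0 := by
        refine Finset.sum_eq_zero fun c _ => ?_
        rw [dvc2 (pmL m) g hg (d4 m c), pmL_self, dv0]
      rw [h0, zero_add]
      refine Finset.sum_congr rfl fun i _ => Finset.sum_congr rfl fun c _ => ?_
      rw [dvc2 (pmL m) g hg (d4 (m.succAbove i) c), pmL_succ, pmL_apply]

end Pool.Agent.TBC
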