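import Pool.Agent.TBC.Stmts

set_option autoImplicit false

open MeasureTheory Filter Topology
open scoped ContDiff

namespace Pool.Agent.TBC

open Pool.Agent.TBG Pool.Agent.TBF

theorem lwk_proof (hCFD : Stmt_CFD) : Stmt_LWK := by
  intro N k L χ s hχ hs
  have hp : IsProbabilityMeasure (nu χ) := (hCFD L χ hχ).1
  have hm : Measurable (fun (X : Fin N → E) (i : Fin k) => X (s i)) :=
    measurable_pi_lambda _ fun i => measurable_pi_apply _
  unfold PP
  refine (Measure.pi_eq fun t ht => ?_).symm
  rw [Measure.map_apply hm (MeasurableSet.univ_pi ht)]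
  have hT : (fun (X : Fin N → E) (i : Fin k) => X (s i)) ⁻¹' (Set.pi Set.univ t) =
      Set.pi Set.univ (fun j : Fin N => {x : E | ∀ i, s i = j → x ∈ t i}) := by
    ext X
    constructor
    · intro h j _ i hij
      rw [← hij]
      exact h i (Set.mem_univ i)
    · intro h i _
      exact h (s i) (Set.mem_univ _) i rfl
  rw [hT, Measure.pi_pi]
  have h1 : ∀ i, {x : E | ∀ i', s i' = s i → x ∈ t i'} = t i := by
    intro i
    ext x
    constructor
    · intro h
      exact h i rfl
    · intro h i' hi'
      rw [hs hi']
      exact h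
  have h2 : ∀ j, j ∉ Finset.univ.image s → {x : E | ∀ i, s i = j → x ∈ t i} = Set.univ := by
    intro j hj
    ext x
    constructor
    · intro _
      exact Set.mem_univ x
    · intro _ i hi
      exact absurd (hi ▸ Finset.mem_image_of_mem s (Finset.mem_univ i)) hj
  rw [← Finset.prod_subset (Finset.subset_univ (Finset.univ.image s))
    (fun j _ hj => by rw [h2 j hj]; exact hp.measure_univ), Finset.prod_image (fun i _ j _ h => hs h)]
  exact Finset.prod_congr rfl fun i _ => by rw [h1 i]

end Pool.Agent.TBC
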