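import Pool.Agent.TBC.Stmts

/-!
# Three-body Bose gases, sharp upper bound: module MBK (the many-body theorem)
-/

set_option autoImplicit false

open MeasureTheory Filter Topology
open scoped ContDiff

namespace Pool.Agent.TBC

open Pool.Agent.TBG Pool.Agent.TBF

namespace MBK_

theorem phik_cont (ρ η A M I Γ Γ' J4 J5 : ℝ) :
    ContinuousAt (fun q : ℝ × ℝ => PhiK ρ η A M I Γ Γ' J4 J5 q.1 q.2) (0, 1) := by
  unfold PhiK
  fun_prop (disch := norm_num)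

theorem phik_val (ρ η A M I Γ Γ' J4 J5 : ℝ) :
    PhiK ρ η A M I Γ Γ' J4 J5 0 1 = ρ ^ 3 / 6 * (1 + 14 * η + KM M * (η * (ρ * A) + (ρ * A) ^ 2)) * I
      + ρ ^ 4 / 24 * Γ + KM M * (ρ ^ 4 * (η + ρ * A)) * J4 + KM M * ρ ^ 5 * J5 := by
  unfold PhiK
  norm_num

theorem cond_cont (ρ a b : ℝ) :
    ContinuousAt (fun q : ℝ × ℝ => 2 * (ρ / q.2) ^ 2 * a + 2 * (ρ / q.2) ^ 3 * b) (0, 1) := by
  fun_prop (disch := norm_num)

end MBK_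

open MBK_ in
theorem mbk_proof (hCUT : Stmt_CUT) (_hEIA : Stmt_EIA) (_hREL : Stmt_REL) (hNLK : Stmt_NLK) : Stmt_MBK := by
  intro u κ V M r r' A α η ρ B' hS hV hVc hE hρ hη1 hη2 hB
  set I := RI 2 (K3 u (ee V u)) with hI
  set Γ := RI 3 (G4 u (ee V u)) with hΓ
  set Γ' := RI 3 (fun y => |G4 u (ee V u) y|) with hΓ'
  set J4 := RI 3 (fun y => |ee V u 4 y|) with hJ4
  set J5 := RI 4 (fun y => |ee V u 5 y|) with hJ5
  have h1 : (fun q : ℝ × ℝ => PhiK ρ η A M I Γ Γ' J4 J5 q.1 q.2) (0, 1) < B' := by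
    show PhiK ρ η A M I Γ Γ' J4 J5 0 1 < B'
    rw [phik_val]; exact hB
  have h2 : (fun q : ℝ × ℝ => 2 * (ρ / q.2) ^ 2 * (Real.exp (4 * M) * α)
      + 2 * (ρ / q.2) ^ 3 * (Real.exp (8 * M) * A ^ 3)) (0, 1) < η := by
    simpa using hη1
  have e1 := (phik_cont ρ η A M I Γ Γ' J4 J5).tendsto.eventually_lt_const h1
  have e2 := (cond_cont ρ (Real.exp (4 * M) * α) (Real.exp (8 * M) * A ^ 3)).tendsto.eventually_lt_const h2
  have e3 := e1.and e2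
  rw [Metric.eventually_nhds_iff] at e3
  obtain ⟨d, hd, e3⟩ := e3
  -- choice of ε
  have t1 : Tendsto (fun ε : ℝ => (1 - ε) ^ 3) (𝓝[>] 0) (𝓝 1) := by
    have hc : ContinuousAt (fun ε : ℝ => (1 - ε) ^ 3) 0 := by fun_prop
    have := hc.tendsto.mono_left (nhdsWithin_le_nhds (s := Set.Ioi (0 : ℝ)))
    simpa using this
  have f1 : ∀ᶠ ε in 𝓝[>] (0 : ℝ), 1 - d < (1 - ε) ^ 3 := t1.eventually_const_lt (by linarith)
  have f2 : ∀ᶠ ε in 𝓝[>] (0 : ℝ), ε ∈ Set.Ioo (0 : ℝ) 1 := Ioo_mem_nhdsGT one_pos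
  have f3 : ∀ᶠ ε in 𝓝[>] (0 : ℝ), ε ∈ Set.Ioo (0 : ℝ) d := Ioo_mem_nhdsGT hd
  obtain ⟨ε, g1, g2, g3⟩ := (f1.and (f2.and f3)).exists
  obtain ⟨χ, hχ, hχ1, hv1, hv2⟩ := hCUT ε g2.1 g2.2
  have hdist : dist ((ε, vv χ) : ℝ × ℝ) (0, 1) < d := by
    rw [Prod.dist_eq]
    refine max_lt ?_ ?_
    · rw [Real.dist_eq, sub_zero, abs_of_pos g2.1]
      exact g3.2
    · rw [Real.dist_eq, abs_lt]
      constructor <;> linarith
  obtain ⟨h3, h4⟩ := e3 hdist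
  exact hNLK u κ V M r r' A α η ρ ε B' χ hS hV hVc hE hρ g2.1 g2.2 hχ hχ1 h4 hη2 h3

end Pool.Agent.TBC
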