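import Pool.Agent.TBC.Stmts

/-!
# Squad TBC, module NBK: the bound for finite `N` by expectations
-/

set_option autoImplicit false

open MeasureTheory Filter Topology
open scoped ContDiff

namespace Pool.Agent.TBC

open Pool.Agent.TBG Pool.Agent.TBF

namespace NBK_

/-- a sum over all subsets of a function which vanishes unless the cardinality is 3, 4 or 5 -/
lemma sum345 {N : ℕ} (hN : 5 ≤ N) (F : Finset (Fin N) → ℝ)
    (h : ∀ A : Finset (Fin N), A.card ≠ 3 → A.card ≠ 4 → A.card ≠ 5 → F A = 0) :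
    ∑ A ∈ (Finset.univ : Finset (Fin N)).powerset, F A =
      ∑ A ∈ (Finset.univ : Finset (Fin N)).powersetCard 3, F A +
      ∑ A ∈ (Finset.univ : Finset (Fin N)).powersetCard 4, F A +
      ∑ A ∈ (Finset.univ : Finset (Fin N)).powersetCard 5, F A := by
  rw [Finset.sum_powerset]
  have hsub : ({3, 4, 5} : Finset ℕ) ⊆ Finset.range ((Finset.univ : Finset (Fin N)).card + 1) := by
    intro j hj
    rw [Finset.card_univ, Fintype.card_fin]
    simp only [Finset.mem_insert, Finset.mem_singleton] at hj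
    rw [Finset.mem_range]
    omega
  rw [← Finset.sum_subset hsub]
  · rw [Finset.sum_insert (by decide), Finset.sum_insert (by decide), Finset.sum_singleton,
      ← add_assoc]
  · intro j _ hj
    refine Finset.sum_eq_zero (fun A hA => ?_)
    have hc := (Finset.mem_powersetCard.mp hA).2
    simp only [Finset.mem_insert, Finset.mem_singleton, not_or] at hj
    exact h A (by rw [hc]; exact hj.1) (by rw [hc]; exact hj.2.1) (by rw [hc]; exact hj.2.2)

lemma ch3 (N : ℕ) : ((N.choose 3 : ℕ) : ℝ) = (N : ℝ) * (N - 1) * (N - 2) / 6 := by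
  induction N with
  | zero => simp
  | succ n ih =>
    have h : (n + 1).choose 3 = n.choose 2 + n.choose 3 := Nat.choose_succ_succ' n 2
    rw [h]
    push_cast
    rw [ih, Nat.cast_choose_two]
    ring

lemma ch4 (N : ℕ) : ((N.choose 4 : ℕ) : ℝ) = (N : ℝ) * (N - 1) * (N - 2) * (N - 3) / 24 := by
  induction N with
  | zero => simp
  | succ n ih =>
    have h : (n + 1).choose 4 = n.choose 3 + n.choose 4 := Nat.choose_succ_succ' n 3
    rw [h]
    push_cast
    rw [ih, ch3]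
    ring

lemma chle (N k : ℕ) : ((N.choose k : ℕ) : ℝ) ≤ (N : ℝ) ^ k := by
  have h : N.choose k ≤ N ^ k := Nat.choose_le_pow _ _
  exact_mod_cast h

lemma card_pc (N k : ℕ) :
    (((Finset.univ : Finset (Fin N)).powersetCard k).card : ℝ) = ((N.choose k : ℕ) : ℝ) := by
  rw [Finset.card_powersetCard, Finset.card_univ, Fintype.card_fin]

lemma gg_zero {u : KF} {M r r' : ℝ} (h : Fam u M r r') (k : ℕ) (h3 : k ≠ 3) (h4 : k ≠ 4)
    (h5 : k ≠ 5) (y : Fin k → E) : gg u k y = 0 := by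
  have hu : u k = fun _ => (0 : ℝ) := funext (h.zero k h3 h4 h5)
  unfold gg
  refine Finset.sum_eq_zero (fun m _ => Finset.sum_eq_zero (fun c _ => ?_))
  rw [hu]
  unfold dv
  simp

lemma bdd_int (hCFD : Stmt_CFD) {N : ℕ} {L : ℝ} {χ : E → ℝ} (hχ : Cut L χ)
    (g : (Fin N → E) → ℝ) (hg : Continuous g) (C : ℝ) (hC : ∀ X, |g X| ≤ C) :
    Integrable g (PP χ N) := by
  haveI hp : IsProbabilityMeasure (nu χ) := (hCFD L χ hχ).1
  haveI hpp : IsProbabilityMeasure (PP χ N) := by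
    unfold PP
    infer_instance
  refine Integrable.mono' (integrable_const C) hg.aestronglyMeasurable ?_
  exact Filter.Eventually.of_forall (fun X => by rw [Real.norm_eq_abs]; exact hC X)

/-- products of an energy and a weight are integrable -/
lemma int_mul (hCFD : Stmt_CFD) (hUBV : Stmt_UBV) (hWBA : Stmt_WBA) (hBNF : Stmt_BNF)
    {N : ℕ} {L : ℝ} {χ : E → ℝ} {u e : KF} {κ : E → ℝ} {M r r' : ℝ} (hχ : Cut L χ)
    (hfam : Fam u M r r') (hnear : Near κ r') (hE : Ene e) (P Q : Finset (Fin N)) :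
    Integrable (fun X => ub e P X * WW u Q X) (PP χ N) := by
  obtain ⟨hc, _, C, hC⟩ := (hBNF N u e M r r' κ hfam hnear hE).1 P
  have hw := (hWBA N u M r r' hfam).1 Q
  have hcw : Continuous (WW u Q) :=
    ((hUBV u).2.1 (fun k => (hfam.smooth k).continuous) N Q).2.2
  refine bdd_int hCFD hχ _ (hc.mul hcw) (C * Real.exp (2 * M * Q.card)) (fun X => ?_)
  rw [abs_mul, abs_of_pos (hw X).1]
  exact mul_le_mul (hC X) (hw X).2 (hw X).1.le ((abs_nonneg _).trans (hC X))

lemma int_GG (hCFD : Stmt_CFD) (hUBV : Stmt_UBV) (hWBA : Stmt_WBA) (hBNF : Stmt_BNF)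
    {N : ℕ} {L : ℝ} {χ : E → ℝ} {u e : KF} {κ : E → ℝ} {M r r' : ℝ} (hχ : Cut L χ)
    (hfam : Fam u M r r') (hnear : Near κ r') (hE : Ene e) (q : Finset (Fin N)) :
    ∫ X, GG u e q X ∂(PP χ N) = ∫ X, ub e q X * WW u q X ∂(PP χ N) -
      ∑ l ∈ q, ∫ X, ub e (q.erase l) X * (WW u (q.erase l) X - WW u q X) ∂(PP χ N) := by
  have hI := int_mul hCFD hUBV hWBA hBNF (N := N) (χ := χ) hχ hfam hnear hE
  have hI2 : ∀ l ∈ q, Integrable
      (fun X => ub e (q.erase l) X * (WW u (q.erase l) X - WW u q X)) (PP χ N) := by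
    intro l _
    have h := (hI (q.erase l) (q.erase l)).sub (hI (q.erase l) q)
    refine h.congr (Filter.Eventually.of_forall (fun X => ?_))
    simp only [Pi.sub_apply]
    ring
  unfold GG
  rw [integral_sub (hI q q) (integrable_finsetSum _ hI2), integral_finsetSum _ hI2]

end NBK_

open NBK_ in
theorem nbk_proof (hCFD : Stmt_CFD) (hLAM : Stmt_LAM) (_hLAW : Stmt_LAW) (hUBV : Stmt_UBV)
    (hKIV : Stmt_KIV) (hWBA : Stmt_WBA) (hEUK : Stmt_EUK) (hRTB : Stmt_RTB) (hBNF : Stmt_BNF)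
    (hEXC : Stmt_EXC) (hEXQ : Stmt_EXQ) (hEXF : Stmt_EXF) (hSUM : Stmt_SUM) (hEVA : Stmt_EVA) :
    Stmt_NBK := by
  intro N L χ u κ V M r r' A α η hN hPar hV hVc hE
  obtain ⟨hη0, hα0, hv, hZ, _⟩ := hRTB N L χ u κ M r r' A α η hPar
  have hfam := hPar.sys.fam
  have hnear := hPar.sys.near
  have hχ := hPar.cut
  obtain ⟨hgi, _, _, hgc, _, hg0, _⟩ := hKIV u V hfam.inv hfam.smooth hV hVc
  have heuk := hEUK N L χ u V (by omega) hχ hfam.inv hfam.smooth hV hVc
  obtain ⟨hE3, hE4, hEabs, hEw⟩ := hEVA N L χ u (ee V u) M r r' hχ hfam hE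
  have hexc := hEXC N L χ u (ee V u) κ M r r' A α η hPar hE
  have hexq := hEXQ N L χ u (ee V u) κ M r r' A α η hPar hE
  obtain ⟨hexf1, hexf2, hexf3⟩ := hEXF N L χ u (ee V u) κ M r r' A α η hPar hE
  have hKM : 0 ≤ KM M := by
    unfold KM
    positivity
  have hA0 : 0 ≤ A := hPar.sys.A_nonneg
  have hN0 : (0 : ℝ) ≤ N := Nat.cast_nonneg N
  have hd0 : 0 ≤ η + N / vv χ * A :=
    add_nonneg hη0 (mul_nonneg (div_nonneg hN0 hv.le) hA0)
  set Z := ZW u χ (Finset.univ : Finset (Fin N)) with hZdef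
  set d := η + N / vv χ * A with hd
  set c3 := 1 + 14 * η + KM M * (η * (N / vv χ * A) + (N / vv χ * A) ^ 2) with hc3
  set I3 := ∫ y : Fin 3 → E, ee V u 3 y * Real.exp (2 * u 3 y) ∂(PP χ 3) with hI3
  set J4 := ∫ y : Fin 4 → E, GG u (ee V u) Finset.univ y ∂(PP χ 4) with hJ4
  set I4 := ∫ y : Fin 4 → E, |ee V u 4 y| ∂(PP χ 4) with hI4
  set I5 := ∫ y : Fin 5 → E, |ee V u 5 y| ∂(PP χ 5) with hI5
  have hI40 : 0 ≤ I4 := integral_nonneg (fun y => abs_nonneg _)
  have hI50 : 0 ≤ I5 := integral_nonneg (fun y => abs_nonneg _)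
  -- the energies
  have hS1 : ∑ B ∈ (Finset.univ : Finset (Fin N)).powerset,
      ∫ X, WW u Finset.univ X * ub (ee V u) B X ∂(PP χ N) ≤
      Z * ((N : ℝ) * (N - 1) * (N - 2) / 6 * (c3 * I3)
        + (N : ℝ) * (N - 1) * (N - 2) * (N - 3) / 24 * J4 + KM M * (N ^ 4 * d) * I4
        + KM M * N ^ 5 * I5) := by
    have h0 : ∀ B : Finset (Fin N), B.card ≠ 3 → B.card ≠ 4 → B.card ≠ 5 →
        ∫ X, WW u Finset.univ X * ub (ee V u) B X ∂(PP χ N) = 0 := by
      intro B h3 h4 h5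
      have h : ∀ X : Fin N → E, ub (ee V u) B X = 0 := by
        intro X
        unfold ub
        exact hE.zero B.card h3 h4 h5 _
      simp [h]
    rw [sum345 hN _ h0]
    have a3 : ∑ t ∈ (Finset.univ : Finset (Fin N)).powersetCard 3,
        ∫ X, WW u Finset.univ X * ub (ee V u) t X ∂(PP χ N) ≤
        Z * (((N.choose 3 : ℕ) : ℝ) * (c3 * I3) -
          ∑ t ∈ (Finset.univ : Finset (Fin N)).powersetCard 3, ∑ l ∈ Finset.univ \ t,
            ∫ X, ub (ee V u) t X * (WW u t X - WW u (insert l t) X) ∂(PP χ N)) := by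
      rw [← card_pc, ← nsmul_eq_mul, ← Finset.sum_const, ← Finset.sum_sub_distrib, Finset.mul_sum]
      refine Finset.sum_le_sum (fun t ht => ?_)
      have hc := (Finset.mem_powersetCard.mp ht).2
      have h := hexc t hc
      rw [hE3 t hc] at h
      exact h
    have a4 : ∑ q ∈ (Finset.univ : Finset (Fin N)).powersetCard 4,
        ∫ X, WW u Finset.univ X * ub (ee V u) q X ∂(PP χ N) ≤
        Z * ((∑ q ∈ (Finset.univ : Finset (Fin N)).powersetCard 4,
          ∫ X, ub (ee V u) q X * WW u q X ∂(PP χ N)) +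
          ((N.choose 4 : ℕ) : ℝ) * (KM M * d * I4)) := by
      rw [← card_pc, ← nsmul_eq_mul, ← Finset.sum_const, ← Finset.sum_add_distrib, Finset.mul_sum]
      refine Finset.sum_le_sum (fun q hq => ?_)
      have hc := (Finset.mem_powersetCard.mp hq).2
      have h := hexq q hc
      rw [hEabs 4 q hc] at h
      exact h
    have a5 : ∑ q ∈ (Finset.univ : Finset (Fin N)).powersetCard 5,
        ∫ X, WW u Finset.univ X * ub (ee V u) q X ∂(PP χ N) ≤
        Z * (((N.choose 5 : ℕ) : ℝ) * (KM M * I5)) := by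
      rw [← card_pc, ← nsmul_eq_mul, ← Finset.sum_const, Finset.mul_sum]
      refine Finset.sum_le_sum (fun q hq => ?_)
      have hc := (Finset.mem_powersetCard.mp hq).2
      have h := hexf1 q hc
      rw [hEabs 5 q hc] at h
      exact h
    have hJ : (∑ q ∈ (Finset.univ : Finset (Fin N)).powersetCard 4,
          ∫ X, ub (ee V u) q X * WW u q X ∂(PP χ N)) -
        ∑ t ∈ (Finset.univ : Finset (Fin N)).powersetCard 3, ∑ l ∈ Finset.univ \ t,
            ∫ X, ub (ee V u) t X * (WW u t X - WW u (insert l t) X) ∂(PP χ N) =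
        ((N.choose 4 : ℕ) : ℝ) * J4 := by
      rw [hSUM N (fun t l => ∫ X, ub (ee V u) t X * (WW u t X - WW u (insert l t) X) ∂(PP χ N)),
        ← Finset.sum_sub_distrib, ← card_pc, ← nsmul_eq_mul, ← Finset.sum_const]
      refine Finset.sum_congr rfl (fun q hq => ?_)
      have hc := (Finset.mem_powersetCard.mp hq).2
      rw [← hE4 q hc, int_GG hCFD hUBV hWBA hBNF hχ hfam hnear hE q]
      refine congrArg₂ (fun a b : ℝ => a - b) rfl (Finset.sum_congr rfl (fun l hl => ?_))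
      simp only [Finset.insert_erase hl]
    have b4 : ((N.choose 4 : ℕ) : ℝ) * (KM M * d * I4) ≤ (N : ℝ) ^ 4 * (KM M * d * I4) :=
      mul_le_mul_of_nonneg_right (chle N 4) (mul_nonneg (mul_nonneg hKM hd0) hI40)
    have b5 : ((N.choose 5 : ℕ) : ℝ) * (KM M * I5) ≤ (N : ℝ) ^ 5 * (KM M * I5) :=
      mul_le_mul_of_nonneg_right (chle N 5) (mul_nonneg hKM hI50)
    calc _ ≤ Z * (((N.choose 3 : ℕ) : ℝ) * (c3 * I3) -
          ∑ t ∈ (Finset.univ : Finset (Fin N)).powersetCard 3, ∑ l ∈ Finset.univ \ t,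
            ∫ X, ub (ee V u) t X * (WW u t X - WW u (insert l t) X) ∂(PP χ N)) +
        Z * ((∑ q ∈ (Finset.univ : Finset (Fin N)).powersetCard 4,
          ∫ X, ub (ee V u) q X * WW u q X ∂(PP χ N)) +
          ((N.choose 4 : ℕ) : ℝ) * (KM M * d * I4)) +
        Z * (((N.choose 5 : ℕ) : ℝ) * (KM M * I5)) := add_le_add (add_le_add a3 a4) a5
      _ = Z * (((N.choose 3 : ℕ) : ℝ) * (c3 * I3) + ((N.choose 4 : ℕ) : ℝ) * J4 +
          ((N.choose 4 : ℕ) : ℝ) * (KM M * d * I4) + ((N.choose 5 : ℕ) : ℝ) * (KM M * I5)) := by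
          rw [← hJ]
          ring
      _ ≤ Z * (((N.choose 3 : ℕ) : ℝ) * (c3 * I3) + ((N.choose 4 : ℕ) : ℝ) * J4 +
          (N : ℝ) ^ 4 * (KM M * d * I4) + (N : ℝ) ^ 5 * (KM M * I5)) :=
          mul_le_mul_of_nonneg_left (by linarith) hZ.le
      _ = _ := by
          rw [ch3, ch4]
          ring
  -- the localisation
  have hS2 : ∑ i : Fin N, ∑ c : Fin 3, ∫ X, WW u Finset.univ X * lam χ c (X i) ^ 2 ∂(PP χ N) ≤
      Z * (KM M * N * (∑ c : Fin 3, ∫ x, lam χ c x ^ 2 ∂(nu χ))) := by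
    have h : ∀ i : Fin N, ∑ c : Fin 3,
        ∫ X, WW u Finset.univ X * lam χ c (X i) ^ 2 ∂(PP χ N) ≤
        Z * (KM M * (∑ c : Fin 3, ∫ x, lam χ c x ^ 2 ∂(nu χ))) := by
      intro i
      rw [Finset.mul_sum, Finset.mul_sum]
      exact Finset.sum_le_sum (fun c _ => hexf2 i c)
    calc ∑ i : Fin N, ∑ c : Fin 3, ∫ X, WW u Finset.univ X * lam χ c (X i) ^ 2 ∂(PP χ N)
        ≤ ∑ _i : Fin N, Z * (KM M * (∑ c : Fin 3, ∫ x, lam χ c x ^ 2 ∂(nu χ))) :=
          Finset.sum_le_sum (fun i _ => h i)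
      _ = _ := by
          rw [Finset.sum_const, Finset.card_univ, Fintype.card_fin, nsmul_eq_mul]
          ring
  -- the mixed terms
  have hS3 : ∑ B ∈ (Finset.univ : Finset (Fin N)).powerset, ∑ i ∈ B, ∑ c : Fin 3,
      ∫ X, WW u Finset.univ X * (|lam χ c (X i)| * ub (gg u) B X) ∂(PP χ N) ≤
      Z * (KM M * ∑ c : Fin 3, (3 * N ^ 3 * (∫ y : Fin 3 → E, |lam χ c (y 0)| * gg u 3 y ∂(PP χ 3))
      + 4 * N ^ 4 * (∫ y : Fin 4 → E, |lam χ c (y 0)| * gg u 4 y ∂(PP χ 4))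
      + 5 * N ^ 5 * (∫ y : Fin 5 → E, |lam χ c (y 0)| * gg u 5 y ∂(PP χ 5)))) := by
    have h0 : ∀ B : Finset (Fin N), B.card ≠ 3 → B.card ≠ 4 → B.card ≠ 5 →
        ∑ i ∈ B, ∑ c : Fin 3,
          ∫ X, WW u Finset.univ X * (|lam χ c (X i)| * ub (gg u) B X) ∂(PP χ N) = 0 := by
      intro B h3 h4 h5
      have h : ∀ X : Fin N → E, ub (gg u) B X = 0 := by
        intro X
        unfold ub
        exact gg_zero hfam B.card h3 h4 h5 _
      simp [h]
    have hJ0 : ∀ (m : ℕ) (c : Fin 3),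
        0 ≤ ∫ y : Fin (m + 1) → E, |lam χ c (y 0)| * gg u (m + 1) y ∂(PP χ (m + 1)) :=
      fun m c => integral_nonneg (fun y => mul_nonneg (abs_nonneg _) (hg0 _ _))
    have hk : ∀ m : ℕ, m + 1 ≤ 5 → ∑ B ∈ (Finset.univ : Finset (Fin N)).powersetCard (m + 1),
        ∑ i ∈ B, ∑ c : Fin 3,
          ∫ X, WW u Finset.univ X * (|lam χ c (X i)| * ub (gg u) B X) ∂(PP χ N) ≤
        Z * (KM M * ∑ c : Fin 3, (((m + 1 : ℕ) : ℝ) * (N : ℝ) ^ (m + 1) *
          ∫ y : Fin (m + 1) → E, |lam χ c (y 0)| * gg u (m + 1) y ∂(PP χ (m + 1)))) := by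
      intro m hm
      set G := ∑ c : Fin 3, ∫ y : Fin (m + 1) → E,
        |lam χ c (y 0)| * gg u (m + 1) y ∂(PP χ (m + 1)) with hG
      have hG0 : 0 ≤ G := Finset.sum_nonneg (fun c _ => hJ0 m c)
      have h1 : ∀ B ∈ (Finset.univ : Finset (Fin N)).powersetCard (m + 1),
          ∑ i ∈ B, ∑ c : Fin 3,
          ∫ X, WW u Finset.univ X * (|lam χ c (X i)| * ub (gg u) B X) ∂(PP χ N) ≤
          ((m + 1 : ℕ) : ℝ) * (Z * (KM M * G)) := by
        intro B hB
        have hc := (Finset.mem_powersetCard.mp hB).2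
        have h2 : ∀ i ∈ B, ∑ c : Fin 3,
            ∫ X, WW u Finset.univ X * (|lam χ c (X i)| * ub (gg u) B X) ∂(PP χ N) ≤
            Z * (KM M * G) := by
          intro i hi
          rw [hG, Finset.mul_sum, Finset.mul_sum]
          refine Finset.sum_le_sum (fun c _ => ?_)
          have h3 := hexf3 B i c hi (by rw [hc]; exact hm)
          have hms : Measurable (fun x => |lam χ c x|) :=
            (hLAM L χ c hχ).1.abs
          have h4 := hEw m B i (fun x => |lam χ c x|) (gg u) hc hi hms hgi.perm hgc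
          rw [h4] at h3
          exact h3
        calc _ ≤ ∑ _i ∈ B, Z * (KM M * G) := Finset.sum_le_sum h2
          _ = _ := by rw [Finset.sum_const, hc, nsmul_eq_mul]
      calc _ ≤ ∑ B ∈ (Finset.univ : Finset (Fin N)).powersetCard (m + 1),
            ((m + 1 : ℕ) : ℝ) * (Z * (KM M * G)) := Finset.sum_le_sum h1
        _ = ((N.choose (m + 1) : ℕ) : ℝ) * (((m + 1 : ℕ) : ℝ) * (Z * (KM M * G))) := by
            rw [Finset.sum_const, nsmul_eq_mul, card_pc]
        _ ≤ (N : ℝ) ^ (m + 1) * (((m + 1 : ℕ) : ℝ) * (Z * (KM M * G))) := by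
            refine mul_le_mul_of_nonneg_right (chle N (m + 1)) ?_
            exact mul_nonneg (Nat.cast_nonneg _) (mul_nonneg hZ.le (mul_nonneg hKM hG0))
        _ = _ := by
            rw [← Finset.mul_sum, ← hG]
            ring
    rw [sum345 hN _ h0]
    have k3 := hk 2 (by norm_num)
    have k4 := hk 3 (by norm_num)
    have k5 := hk 4 (by norm_num)
    refine (add_le_add (add_le_add k3 k4) k5).trans (le_of_eq ?_)
    rw [← mul_add, ← mul_add, ← mul_add, ← mul_add, ← Finset.sum_add_distrib,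
      ← Finset.sum_add_distrib]
    norm_num
  have hfin := heuk.trans (add_le_add (add_le_add hS1 hS2) hS3)
  rw [← mul_add, ← mul_add, mul_comm] at hfin
  have h := le_of_mul_le_mul_left hfin hZ
  refine h.trans (le_of_eq ?_)
  ring

end Pool.Agent.TBC
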