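import Pool.Agent.TBC.Stmts

/-!
Squad TBC, module NBR: the bound for finite `N` by relative integrals.
-/

set_option autoImplicit false

open MeasureTheory Filter Topology
open scoped ContDiff

namespace Pool.Agent.TBC

open Pool.Agent.TBG Pool.Agent.TBF

theorem nbr_proof (hCFD : Pool.Agent.TBG.Stmt_CFD) (hLAM : Pool.Agent.TBG.Stmt_LAM)
    (hKIV : Stmt_KIV) (hRTB : Stmt_RTB) (hNBK : Stmt_NBK) (hEIA : Stmt_EIA) (hEIB : Stmt_EIB)
    (hREL : Stmt_REL) : Stmt_NBR := by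
  intro N L χ u κ V M r r' A α η R D hN hPar hV hVc hE hGR hR hDm hDv hD
  have hcut := hPar.cut
  have hfam := hPar.sys.fam
  obtain ⟨hη, hα, hvv, -⟩ := hRTB N L χ u κ M r r' A α η hPar
  have hA : 0 ≤ A := hPar.sys.A_nonneg
  have hN5 : (5 : ℝ) ≤ N := by exact_mod_cast hN
  have hN0 : (0 : ℝ) < N := by linarith
  have hKM : 0 ≤ KM M := by
    unfold KM
    positivity
  have hprob : IsProbabilityMeasure (nu χ) := (hCFD L χ hcut).1
  obtain ⟨r1, r2, r3, r4, r5, r6, r7, -⟩ := hREL u V M r r' hfam hV hVc hE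
  have hgg : ∀ k y, 0 ≤ gg u k y :=
    (hKIV u V hfam.inv hfam.smooth hV hVc).2.2.2.2.2.1
  have hw1 : ∀ (m : ℕ) (g : (Fin (m + 1) → E) → ℝ), Rel m g → (∀ y, 0 ≤ g y) →
      0 ≤ RI m g ∧ ∫ y, g y ∂(PP χ (m + 1)) ≤ (vv χ)⁻¹ ^ m * RI m g := by
    intro m g hg hg0
    have h := hEIA m L χ g (fun _ => 1) hcut hg hg0 (fun _ => zero_le_one) measurable_const
      (integrable_const 1)
    refine ⟨h.2.1, ?_⟩
    have h2 := h.2.2
    simpa using h2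
  have hw2 : ∀ (m : ℕ) (g : (Fin (m + 1) → E) → ℝ), Rel m g → (∀ y, 0 ≤ g y) → ∀ c : Fin 3,
      ∫ y, |lam χ c (y 0)| * g y ∂(PP χ (m + 1)) ≤
        (vv χ)⁻¹ ^ (m + 1) * (∫ x, χ x * |dv (ev c) χ x|) * RI m g := by
    intro m g hg hg0 c
    obtain ⟨l1, -, -, l4, -, l6⟩ := hLAM L χ c hcut
    have h := hEIA m L χ g (fun x => |lam χ c x|) hcut hg hg0 (fun _ => abs_nonneg _)
      (continuous_abs.measurable.comp l1) l4
    refine h.2.2.trans ?_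
    refine mul_le_mul_of_nonneg_right ?_ h.2.1
    rw [pow_succ, mul_assoc]
    exact mul_le_mul_of_nonneg_left l6 (by positivity)
  have k3 := hw1 2 (K3 u (ee V u)) r1 (fun y => mul_nonneg (hE.pos3 y) (Real.exp_pos _).le)
  have k4 := hw1 3 (fun y => |ee V u 4 y|) r3 (fun y => abs_nonneg _)
  have k5 := hw1 4 (fun y => |ee V u 5 y|) r4 (fun y => abs_nonneg _)
  have hG := hEIB 3 L χ (G4 u (ee V u)) R D hcut r2 hGR hDm hDv hD hR
  have hG' := (abs_le.1 hG).2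
  have g3 := hw2 2 (gg u 3) r5 (hgg 3)
  have g4 := hw2 3 (gg u 4) r6 (hgg 4)
  have g5 := hw2 4 (gg u 5) r7 (hgg 5)
  have hl : ∀ c : Fin 3, ∫ x, lam χ c x ^ 2 ∂(nu χ) ≤ (vv χ)⁻¹ * ∫ x, (dv (ev c) χ x) ^ 2 :=
    fun c => (hLAM L χ c hcut).2.2.2.2.1
  refine (hNBK N L χ u κ V M r r' A α η hN hPar hV hVc hE).trans ?_
  have hc1 : 0 ≤ 1 + 14 * η + KM M * (η * (N / vv χ * A) + (N / vv χ * A) ^ 2) := by
    positivity
  refine add_le_add (add_le_add (add_le_add (add_le_add (add_le_add ?_ ?_) ?_) ?_) ?_) ?_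
  · -- triples
    have e1 : (N : ℝ) * (N - 1) * (N - 2) / 6 ≤ (N : ℝ) ^ 3 / 6 := by
      nlinarith
    have e2 : 0 ≤ (N : ℝ) * (N - 1) * (N - 2) / 6 := by
      have : 0 ≤ (N : ℝ) - 1 := by linarith
      have : 0 ≤ (N : ℝ) - 2 := by linarith
      positivity
    have e3 : (∫ y : Fin 3 → E, ee V u 3 y * Real.exp (2 * u 3 y) ∂(PP χ 3)) ≤
        (vv χ)⁻¹ ^ 2 * RI 2 (K3 u (ee V u)) := k3.2
    have e4 : 0 ≤ (vv χ)⁻¹ ^ 2 * RI 2 (K3 u (ee V u)) :=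
      mul_nonneg (by positivity) k3.1
    calc (N : ℝ) * (N - 1) * (N - 2) / 6 *
          ((1 + 14 * η + KM M * (η * (N / vv χ * A) + (N / vv χ * A) ^ 2)) *
          ∫ y : Fin 3 → E, ee V u 3 y * Real.exp (2 * u 3 y) ∂(PP χ 3)) ≤
        (N : ℝ) * (N - 1) * (N - 2) / 6 *
          ((1 + 14 * η + KM M * (η * (N / vv χ * A) + (N / vv χ * A) ^ 2)) *
          ((vv χ)⁻¹ ^ 2 * RI 2 (K3 u (ee V u)))) :=
          mul_le_mul_of_nonneg_left (mul_le_mul_of_nonneg_left e3 hc1) e2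
      _ ≤ (N : ℝ) ^ 3 / 6 *
          ((1 + 14 * η + KM M * (η * (N / vv χ * A) + (N / vv χ * A) ^ 2)) *
          ((vv χ)⁻¹ ^ 2 * RI 2 (K3 u (ee V u)))) :=
          mul_le_mul_of_nonneg_right e1 (mul_nonneg hc1 e4)
      _ = _ := by ring
  · -- four particles
    have e2 : 0 ≤ (N : ℝ) * (N - 1) * (N - 2) * (N - 3) / 24 := by
      have : 0 ≤ (N : ℝ) - 1 := by linarith
      have : 0 ≤ (N : ℝ) - 2 := by linarith
      have : 0 ≤ (N : ℝ) - 3 := by linarith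
      positivity
    refine mul_le_mul_of_nonneg_left ?_ e2
    have e3 : (∫ y : Fin 4 → E, GG u (ee V u) Finset.univ y ∂(PP χ 4)) =
        ∫ y, G4 u (ee V u) y ∂(PP χ (3 + 1)) := rfl
    rw [e3]
    have e4 : (vv χ)⁻¹ ^ (3 + 1) = (vv χ)⁻¹ ^ 4 := rfl
    rw [e4] at hG'
    linarith
  · -- the error of four particles
    refine mul_le_mul_of_nonneg_left k4.2 ?_
    positivity
  · refine mul_le_mul_of_nonneg_left k5.2 ?_
    positivity
  · refine mul_le_mul_of_nonneg_left ?_ (by positivity)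
    rw [Finset.mul_sum]
    exact Finset.sum_le_sum fun c _ => hl c
  · refine mul_le_mul_of_nonneg_left ?_ hKM
    rw [Finset.sum_mul]
    refine Finset.sum_le_sum fun c _ => ?_
    have f3 := mul_le_mul_of_nonneg_left (g3 c) (by positivity : (0 : ℝ) ≤ 3 * N ^ 3)
    have f4 := mul_le_mul_of_nonneg_left (g4 c) (by positivity : (0 : ℝ) ≤ 4 * N ^ 4)
    have f5 := mul_le_mul_of_nonneg_left (g5 c) (by positivity : (0 : ℝ) ≤ 5 * N ^ 5)
    calc _ ≤ 3 * (N : ℝ) ^ 3 * ((vv χ)⁻¹ ^ (2 + 1) * (∫ x, χ x * |dv (ev c) χ x|) *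
            RI 2 (gg u 3)) +
          4 * (N : ℝ) ^ 4 * ((vv χ)⁻¹ ^ (3 + 1) * (∫ x, χ x * |dv (ev c) χ x|) * RI 3 (gg u 4)) +
          5 * (N : ℝ) ^ 5 * ((vv χ)⁻¹ ^ (4 + 1) * (∫ x, χ x * |dv (ev c) χ x|) * RI 4 (gg u 5)) :=
          add_le_add (add_le_add f3 f4) f5
      _ = _ := by ring

end Pool.Agent.TBC
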