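import Pool.Agent.TBC.Stmts

/-!
# Squad TBC (MP_80dc41_mp), module NLK: the limit for a fixed cutoff
-/

set_option autoImplicit false

open MeasureTheory Filter Topology
open scoped ContDiff

namespace Pool.Agent.TBC

open Pool.Agent.TBG Pool.Agent.TBF

namespace NLK_

/-- the bound divided by the volume, as a polynomial in `s = N / L³` and `q = 1 / L` -/
noncomputable def PsiL (η A M I Γ Γ' J4 J5 ε v R J H g3 g4 g5 : ℝ) (s q : ℝ) : ℝ :=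
  s ^ 3 / 6 * (1 + 14 * η + KM M * (η * (s * v⁻¹ * A) + (s * v⁻¹ * A) ^ 2)) * (v⁻¹ ^ 2 * I)
    + s * (s - q ^ 3) * (s - 2 * q ^ 3) * (s - 3 * q ^ 3) / 24 *
      (v⁻¹ ^ 4 * ((1 - ε - 2 * R * q) ^ 3 * Γ + (v - (1 - ε - 2 * R * q) ^ 3) * Γ'))
    + KM M * (s ^ 4 * (η + s * v⁻¹ * A)) * (v⁻¹ ^ 3 * J4) + KM M * s ^ 5 * (v⁻¹ ^ 4 * J5)
    + KM M * s * (v⁻¹ * (q ^ 2 * J))
    + KM M * (q * H * (3 * s ^ 3 * (v⁻¹ ^ 3 * g3) + 4 * s ^ 4 * (v⁻¹ ^ 4 * g4) +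
      5 * s ^ 5 * (v⁻¹ ^ 5 * g5)))

theorem psiL_cont (η A M I Γ Γ' J4 J5 ε v R J H g3 g4 g5 : ℝ) :
    Continuous (fun x : ℝ × ℝ => PsiL η A M I Γ Γ' J4 J5 ε v R J H g3 g4 g5 x.1 x.2) := by
  unfold PsiL
  fun_prop

theorem psiL_zero (ρ η A M I Γ Γ' J4 J5 ε v R J H g3 g4 g5 : ℝ) :
    PsiL η A M I Γ Γ' J4 J5 ε v R J H g3 g4 g5 ρ 0 = PhiK ρ η A M I Γ Γ' J4 J5 ε v := by
  unfold PsiL PhiK
  ring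

theorem alg (N q v : ℝ) (η A M I Γ Γ' J4 J5 ε R J H g3 g4 g5 : ℝ) (hq : q ≠ 0) (hv : v ≠ 0) :
    (N ^ 3 / 6 * (1 + 14 * η + KM M * (η * (N / (q⁻¹ ^ 3 * v) * A) +
          (N / (q⁻¹ ^ 3 * v) * A) ^ 2)) * ((q⁻¹ ^ 3 * v)⁻¹ ^ 2 * I)
      + N * (N - 1) * (N - 2) * (N - 3) / 24 * ((q⁻¹ ^ 3 * v)⁻¹ ^ 4 *
        ((2 * (q⁻¹ * (1 - ε) / 2 - R)) ^ 3 * Γ
          + (q⁻¹ ^ 3 * v - (2 * (q⁻¹ * (1 - ε) / 2 - R)) ^ 3) * Γ'))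
      + KM M * (N ^ 4 * (η + N / (q⁻¹ ^ 3 * v) * A)) * ((q⁻¹ ^ 3 * v)⁻¹ ^ 3 * J4)
      + KM M * N ^ 5 * ((q⁻¹ ^ 3 * v)⁻¹ ^ 4 * J5)
      + KM M * N * ((q⁻¹ ^ 3 * v)⁻¹ * (q⁻¹ * J))
      + KM M * ((q⁻¹ ^ 2 * H) * (3 * N ^ 3 * ((q⁻¹ ^ 3 * v)⁻¹ ^ 3 * g3)
        + 4 * N ^ 4 * ((q⁻¹ ^ 3 * v)⁻¹ ^ 4 * g4) + 5 * N ^ 5 * ((q⁻¹ ^ 3 * v)⁻¹ ^ 5 * g5)))) * q ^ 3 =
    PsiL η A M I Γ Γ' J4 J5 ε v R J H g3 g4 g5 (N * q ^ 3) q := by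
  have h0 : (q⁻¹ ^ 3 * v)⁻¹ = q ^ 3 * v⁻¹ := by
    field_simp
  have h1 : N / (q⁻¹ ^ 3 * v) = N * q ^ 3 * v⁻¹ := by
    rw [div_eq_mul_inv, h0]
    ring
  have h2 : q * (2 * (q⁻¹ * (1 - ε) / 2 - R)) = 1 - ε - 2 * R * q := by
    field_simp
  have h3 : q ^ 3 * (2 * (q⁻¹ * (1 - ε) / 2 - R)) ^ 3 = (1 - ε - 2 * R * q) ^ 3 := by
    rw [← h2]
    ring
  have h4 : q ^ 3 * (q⁻¹ ^ 3 * v) = v := by
    field_simp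
  have h5 : q ^ 3 * q⁻¹ = q ^ 2 := by
    field_simp
  have h6 : q ^ 3 * q⁻¹ ^ 2 = q := by
    field_simp
  rw [h1, h0]
  unfold PsiL
  rw [← h3]
  have h7 : v - q ^ 3 * (2 * (q⁻¹ * (1 - ε) / 2 - R)) ^ 3 =
      q ^ 3 * (q⁻¹ ^ 3 * v - (2 * (q⁻¹ * (1 - ε) / 2 - R)) ^ 3) := by
    linear_combination -h4
  rw [h7]
  generalize (2 * (q⁻¹ * (1 - ε) / 2 - R)) ^ 3 = V at *
  generalize (q⁻¹ ^ 3 * v - V) = V'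
  have h8 : KM M * N * (q ^ 3 * v⁻¹ * (q⁻¹ * J)) * q ^ 3 =
      KM M * N * q ^ 3 * (v⁻¹ * (q ^ 2 * J)) := by
    rw [← h5]
    ring
  have h9 : KM M * ((q⁻¹ ^ 2 * H) * (3 * N ^ 3 * ((q ^ 3 * v⁻¹) ^ 3 * g3)
        + 4 * N ^ 4 * ((q ^ 3 * v⁻¹) ^ 4 * g4) + 5 * N ^ 5 * ((q ^ 3 * v⁻¹) ^ 5 * g5))) * q ^ 3 =
      KM M * (q * H * (3 * (N * q ^ 3) ^ 3 * (v⁻¹ ^ 3 * g3) + 4 * (N * q ^ 3) ^ 4 * (v⁻¹ ^ 4 * g4) +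
      5 * (N * q ^ 3) ^ 5 * (v⁻¹ ^ 5 * g5))) := by
    have h10 : KM M * ((q⁻¹ ^ 2 * H) * (3 * N ^ 3 * ((q ^ 3 * v⁻¹) ^ 3 * g3)
        + 4 * N ^ 4 * ((q ^ 3 * v⁻¹) ^ 4 * g4) + 5 * N ^ 5 * ((q ^ 3 * v⁻¹) ^ 5 * g5))) * q ^ 3 =
      KM M * ((q ^ 3 * q⁻¹ ^ 2) * H * (3 * (N * q ^ 3) ^ 3 * (v⁻¹ ^ 3 * g3) +
        4 * (N * q ^ 3) ^ 4 * (v⁻¹ ^ 4 * g4) + 5 * (N * q ^ 3) ^ 5 * (v⁻¹ ^ 5 * g5))) := by
      ring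
    rw [h10, h6]
  rw [add_mul, add_mul, h9, add_mul, h8]
  ring

theorem coord_le (x : E) (c : Fin 3) : |x c| ≤ ‖x‖ := by
  have h := EuclideanSpace.norm_eq x
  have h1 : ‖x c‖ ^ 2 ≤ ∑ i, ‖x i‖ ^ 2 :=
    Finset.single_le_sum (f := fun i => ‖x i‖ ^ 2) (fun i _ => sq_nonneg _) (Finset.mem_univ c)
  rw [h, ← Real.norm_eq_abs]
  exact Real.le_sqrt_of_sq_le h1

theorem dom (χ : E → ℝ) (L ε R : ℝ) (hL : 0 < L)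
    (hone : ∀ x : E, (∀ c, |x c| ≤ (1 - ε) / 2) → χ x = 1) :
    ∀ x ∈ {x : E | ∀ c, |x c| ≤ L * (1 - ε) / 2 - R}, ∀ y, ‖y - x‖ ≤ R → χ (L⁻¹ • y) = 1 := by
  intro x hx y hy
  apply hone
  intro c
  have h1 : |x c| ≤ L * (1 - ε) / 2 - R := hx c
  have h2 : |(y - x) c| ≤ R := (coord_le _ c).trans hy
  have h3 : |y c| ≤ L * (1 - ε) / 2 := by
    have h4 : y c = x c + (y - x) c := by
      simp
    rw [h4]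
    calc |x c + (y - x) c| ≤ |x c| + |(y - x) c| := abs_add_le _ _
      _ ≤ L * (1 - ε) / 2 := by linarith
  have h5 : (L⁻¹ • y) c = L⁻¹ * y c := by
    simp
  rw [h5, abs_mul, abs_of_pos (inv_pos.mpr hL)]
  calc L⁻¹ * |y c| ≤ L⁻¹ * (L * (1 - ε) / 2) := mul_le_mul_of_nonneg_left h3 (inv_pos.mpr hL).le
    _ = (1 - ε) / 2 := by field_simp

end NLK_

open NLK_ in
theorem nlk_proof (hSCU : Stmt_SCU) (hVCU : Stmt_VCU) (hTHE : Stmt_THE) (_hKIV : Stmt_KIV)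
    (_hEIA : Stmt_EIA) (hREL : Stmt_REL) (hNBR : Stmt_NBR) : Stmt_NLK := by
  intro u κ V M r r' A α η ρ ε B' χ hS hV hVc hE hρ hε0 hε1 hcut hone hcond hhalf hPhi
  obtain ⟨_, hrel, _, _, _, _, _, _⟩ := hREL u V M r r' hS.fam hV hVc hE
  obtain ⟨_, hT1, hT2, hT3, hT4⟩ := hTHE ρ hρ
  obtain ⟨R, hR0, hR⟩ : ∃ R : ℝ, 0 ≤ R ∧
      ∀ y : Fin 4 → E, (∃ i j, R < ‖y i - y j‖) → G4 u (ee V u) y = 0 := by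
    obtain ⟨R0, h0⟩ := hrel.supp
    refine ⟨max R0 0, le_max_right _ _, ?_⟩
    rintro y ⟨i, j, hij⟩
    exact h0 y ⟨i, j, lt_of_le_of_lt (le_max_left _ _) hij⟩
  have hε' : 0 < 1 - ε := by linarith
  have hv : 0 < vv χ := hcut.pos
  have hq : Tendsto (fun p : ℕ × ℝ => p.2⁻¹) (thermo ρ) (𝓝 0) := tendsto_inv_atTop_zero.comp hT2
  have hPsi := ((psiL_cont η A M (RI 2 (K3 u (ee V u))) (RI 3 (G4 u (ee V u)))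
    (RI 3 (fun y => |G4 u (ee V u) y|)) (RI 3 (fun y => |ee V u 4 y|))
    (RI 4 (fun y => |ee V u 5 y|)) ε (vv χ) R (∑ c, ∫ x, (dv (ev c) χ x) ^ 2)
    (∑ c, ∫ x, χ x * |dv (ev c) χ x|) (RI 2 (gg u 3)) (RI 3 (gg u 4))
    (RI 4 (gg u 5))).tendsto (ρ, 0)).comp (hT3.prodMk_nhds hq)
  have hlt : PsiL η A M (RI 2 (K3 u (ee V u))) (RI 3 (G4 u (ee V u)))
    (RI 3 (fun y => |G4 u (ee V u) y|)) (RI 3 (fun y => |ee V u 4 y|))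
    (RI 4 (fun y => |ee V u 5 y|)) ε (vv χ) R (∑ c, ∫ x, (dv (ev c) χ x) ^ 2)
    (∑ c, ∫ x, χ x * |dv (ev c) χ x|) (RI 2 (gg u 3)) (RI 3 (gg u 4))
    (RI 4 (gg u 5)) ρ 0 < B' := by
    rw [psiL_zero]
    exact hPhi
  have E1 := hPsi.eventually_lt_const hlt
  have E2 := hT1.eventually_ge_atTop 5
  have E3 := hT2.eventually_ge_atTop (2 * R / (1 - ε))
  have E4 : ∀ᶠ p : ℕ × ℝ in thermo ρ,
      2 * ((p.1 : ℝ) / p.2 ^ 3 / vv χ) ^ 2 * (Real.exp (4 * M) * α) +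
        2 * ((p.1 : ℝ) / p.2 ^ 3 / vv χ) ^ 3 * (Real.exp (8 * M) * A ^ 3) ≤ η := by
    have hc : Continuous (fun s : ℝ => 2 * (s / vv χ) ^ 2 * (Real.exp (4 * M) * α) +
        2 * (s / vv χ) ^ 3 * (Real.exp (8 * M) * A ^ 3)) := by fun_prop
    have ht := (hc.tendsto ρ).comp hT3
    have hev := ht.eventually_lt_const hcond
    filter_upwards [hev] with p hp
    exact le_of_lt hp
  filter_upwards [E1, E2, E3, E4, hT4] with p h1 h2 h3 h4 h5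
  obtain ⟨N, L⟩ := p
  simp only [Function.comp] at h1 h2 h3 h4 h5 ⊢
  obtain ⟨hcL, hvL, hJ, hH⟩ := hSCU L χ h5 hcut
  have hr : 0 ≤ L * (1 - ε) / 2 - R := by
    have := (div_le_iff₀ hε').mp h3
    linarith
  obtain ⟨hDm, hDv⟩ := hVCU _ hr
  have hN5 : 5 ≤ N := by exact_mod_cast h2
  have hL3 : 0 < L ^ 3 := by positivity
  have hL0 : L ≠ 0 := h5.ne'
  have hPar : Par N L (fun x => χ (L⁻¹ • x)) u κ M r r' A α η := by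
    refine ⟨hcL, hS, ?_, hhalf⟩
    rw [hvL]
    have h6 : (N : ℝ) / (L ^ 3 * vv χ) = (N : ℝ) / L ^ 3 / vv χ := by
      rw [div_div]
    rw [h6]
    exact h4
  have hbd := hNBR N L (fun x => χ (L⁻¹ • x)) u κ V M r r' A α η R
    {x : E | ∀ c, |x c| ≤ L * (1 - ε) / 2 - R} hN5 hPar hV hVc hE hR hR0 hDm
    (by rw [hDv]; exact ENNReal.ofReal_lt_top) (dom χ L ε R h5 hone)
  have hDr : (volume {x : E | ∀ c, |x c| ≤ L * (1 - ε) / 2 - R}).toReal =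
      (2 * (L * (1 - ε) / 2 - R)) ^ 3 := by
    rw [hDv, ENNReal.toReal_ofReal (by positivity)]
  have hJs : ∑ c, ∫ x, (dv (ev c) (fun x => χ (L⁻¹ • x)) x) ^ 2 = L * ∑ c, ∫ x, (dv (ev c) χ x) ^ 2 := by
    rw [Finset.mul_sum]
    exact Finset.sum_congr rfl fun c _ => hJ c
  have hHs : ∑ c, ∫ x, χ (L⁻¹ • x) * |dv (ev c) (fun x => χ (L⁻¹ • x)) x| =
      L ^ 2 * ∑ c, ∫ x, χ x * |dv (ev c) χ x| := by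
    rw [Finset.mul_sum]
    exact Finset.sum_congr rfl fun c _ => hH c
  rw [hvL, hDr, hJs, hHs] at hbd
  have halg := alg (N : ℝ) L⁻¹ (vv χ) η A M (RI 2 (K3 u (ee V u))) (RI 3 (G4 u (ee V u)))
    (RI 3 (fun y => |G4 u (ee V u) y|)) (RI 3 (fun y => |ee V u 4 y|))
    (RI 4 (fun y => |ee V u 5 y|)) ε R (∑ c, ∫ x, (dv (ev c) χ x) ^ 2)
    (∑ c, ∫ x, χ x * |dv (ev c) χ x|) (RI 2 (gg u 3)) (RI 3 (gg u 4))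
    (RI 4 (gg u 5)) (inv_ne_zero hL0) hv.ne'
  rw [inv_inv] at halg
  have hNq : (N : ℝ) / L ^ 3 = (N : ℝ) * L⁻¹ ^ 3 := by
    rw [inv_pow, div_eq_mul_inv]
  have hEq : E0 V N L / L ^ 3 = E0 V N L * L⁻¹ ^ 3 := by
    rw [inv_pow, div_eq_mul_inv]
  rw [hNq, ← halg] at h1
  rw [hEq]
  refine le_trans (mul_le_mul_of_nonneg_right hbd (by positivity)) ?_
  exact h1.le

end Pool.Agent.TBC
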