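import Pool.Agent.TBC.Stmts

set_option autoImplicit false

open MeasureTheory Filter Topology
open scoped ContDiff

namespace Pool.Agent.TBC

open Pool.Agent.TBG Pool.Agent.TBF

theorem nuc_proof : Stmt_NUC := by
  refine ⟨fun r hr => ?_, fun r' hr' => ?_⟩
  · let f : ContDiffBump (0 : E) := ⟨2 * r + 1, 2 * r + 2, by linarith, by linarith⟩
    refine ⟨2 * r + 2, fun x => f x, by linarith, ⟨f.contDiff, fun x => f.neg x, fun x => f.nonneg, fun x => f.le_one,
      fun x hx => ?_, fun x hx => ?_⟩⟩
    · refine f.one_of_mem_closedBall ?_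
      rw [mem_closedBall_zero_iff]
      change ‖x‖ ≤ 2 * r + 1
      linarith
    · refine f.zero_of_le_dist ?_
      rw [dist_zero_right]
      change 2 * r + 2 ≤ ‖x‖
      exact hx.le
  · let f : ContDiffBump (0 : E) := ⟨r' + 1, r' + 2, by linarith, by linarith⟩
    refine ⟨fun x => f x, ⟨f.continuous, f.hasCompactSupport, fun x => f.neg x, fun x => f.nonneg, fun x => f.le_one,
      fun x hx => ?_⟩⟩
    refine f.one_of_mem_closedBall ?_
    rw [mem_closedBall_zero_iff]
    change ‖x‖ ≤ r' + 1
    linarith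

end Pool.Agent.TBC
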