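import Pool.Agent.TBC.Stmts

set_option autoImplicit false

open MeasureTheory Filter Topology
open scoped ContDiff

namespace Pool.Agent.TBC

open Pool.Agent.TBG Pool.Agent.TBF

namespace PCF_

lemma cf_add (p q : W4) (i : Fin 4) : cf (p + q) i = cf p i + cf q i := by
  fin_cases i <;> simp [cf, add_comm]

lemma cf_smul (c : ℝ) (p : W4) (i : Fin 4) : cf (c • p) i = c • cf p i := by
  fin_cases i <;> simp [cf]

/-- `pm m` as a linear map -/
noncomputable def pmL (m : Fin 4) : W4 →L[ℝ] E × E := LinearMap.toContinuousLinearMap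
  { toFun := pm m
    map_add' := fun p q => by
      simp only [pm, cf_add, Prod.mk_add_mk]
      congr 1 <;> abel
    map_smul' := fun c p => by simp [pm, cf_smul, smul_sub] }

lemma pmL_apply (m : Fin 4) (p : W4) : pmL m p = pm m p := rfl

lemma pm_deriv (m : Fin 4) (p : W4) : HasFDerivAt (pm m) (pmL m) p := (pmL m).hasFDerivAt

/-- the product formula -/
lemma dvFX (f : E × E → ℝ) (ξ : W4 → ℝ) (hf : Differentiable ℝ f) (hξ : Differentiable ℝ ξ)
    (v p : W4) : dv v (FX f ξ) p = Real.exp (ξ p) *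
      ((∑ m, (∏ j ∈ Finset.univ.erase m, f (pm j p)) * dv (pm m v) f (pm m p)) +
        (∏ m, f (pm m p)) * dv v ξ p) := by
  have h1 : ∀ m, HasFDerivAt (fun p => f (pm m p)) ((fderiv ℝ f (pm m p)).comp (pmL m)) p :=
    fun m => (hf (pm m p)).hasFDerivAt.comp p (pm_deriv m p)
  have h2 : HasFDerivAt (fun p => ∏ m : Fin 4, f (pm m p))
      (∑ m : Fin 4, (∏ j ∈ Finset.univ.erase m, f (pm j p)) •
        (fderiv ℝ f (pm m p)).comp (pmL m)) p :=
    HasFDerivAt.finsetProd (u := Finset.univ) (fun m _ => h1 m)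
  have h3 := (hξ p).hasFDerivAt.exp
  have h4 := h2.mul h3
  have h5 : fderiv ℝ (FX f ξ) p = _ := h4.fderiv
  unfold dv
  rw [h5]
  simp only [add_apply, smul_apply, sum_apply, ContinuousLinearMap.comp_apply,
    pmL_apply, smul_eq_mul]
  ring

end PCF_

open PCF_ in
theorem pcf_proof (hTDL : Pool.Agent.TBG.Stmt_TDL) (hFDJ : Pool.Agent.TBG.Stmt_FDJ)
    (_hADM : Pool.Agent.TBG.Stmt_ADM) (hLPC : Pool.Agent.TBG.Stmt_LPC) (_hLRL : Stmt_LRL)
    (_hFNA : Stmt_FNA) : Stmt_PCF := by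
  intro φ ξ p hφ hξ
  have hpos : ∀ z, 0 < φ z := by
    intro z
    obtain ⟨c, hc, h⟩ := hφ.low
    have h1 := lt_of_lt_of_le hc (h z)
    exact (pos_iff_pos_of_mul_pos h1).1 (by positivity)
  have hφd : Differentiable ℝ φ := hφ.smooth.differentiable (by simp)
  have hξd : Differentiable ℝ ξ := hξ.1.differentiable (by simp)
  have hfd : ∀ δ > 0, Differentiable ℝ (fd δ φ) := fun δ hδ =>
    (hFDJ φ δ hφ hδ).1.smooth.differentiable (by simp)
  -- values
  have hval : ∀ z, Tendsto (fun δ : ℝ => fd δ φ z) (𝓝[>] 0) (𝓝 (1 - φ z)) := by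
    intro z
    refine tendsto_of_tendsto_of_tendsto_of_le_of_le' (g := fun _ => 1 - φ z)
      (h := fun δ : ℝ => 1 - φ z + 2 * δ) tendsto_const_nhds ?_ ?_ ?_
    · have h1 : Tendsto (fun δ : ℝ => 1 - φ z + 2 * δ) (𝓝 0) (𝓝 (1 - φ z + 2 * 0)) :=
        (continuous_const.add (continuous_const.mul continuous_id)).tendsto _
      rw [mul_zero, add_zero] at h1
      exact h1.mono_left nhdsWithin_le_nhds
    · filter_upwards [self_mem_nhdsWithin] with δ hδ using ((hFDJ φ δ hφ hδ).2 z).2.1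
    · filter_upwards [self_mem_nhdsWithin] with δ hδ using ((hFDJ φ δ hφ hδ).2 z).2.2
  -- derivatives
  have hder : ∀ w z, ∀ᶠ δ : ℝ in 𝓝[>] 0, dv w (fd δ φ) z = dv w (fun z => 1 - φ z) z := by
    intro w z
    have h1 : ∀ᶠ δ : ℝ in 𝓝[>] 0, δ < φ z / 2 :=
      nhdsWithin_le_nhds (Iio_mem_nhds (by have := hpos z; positivity))
    filter_upwards [self_mem_nhdsWithin, h1] with δ hδ hδ2
    have hδ' : (0 : ℝ) < δ := hδ
    obtain ⟨t1, t2, -⟩ := hTDL.1 δ hδ
    have h2 := (hLPC (Td δ) φ Set.univ isOpen_univ t1.contDiffOn hφ.smooth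
      (fun z => Set.mem_univ _) z).2.1 w
    have h3 : deriv (Td δ) (φ z) = 1 := by
      rw [t2]
      apply Real.smoothTransition.one_of_one_le
      rw [le_sub_iff_add_le, le_div_iff₀ hδ']
      linarith
    rw [h3, one_mul] at h2
    have h4 : DifferentiableAt ℝ (fun z => Td δ (φ z)) z :=
      (((t1.comp hφ.smooth).differentiable (by simp)) z)
    unfold dv at h2 ⊢
    have h5 : fderiv ℝ (fd δ φ) z = - fderiv ℝ (fun z => Td δ (φ z)) z := by
      have : fd δ φ = fun z => 1 - Td δ (φ z) := rfl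
      rw [this, fderiv_const_sub]
    rw [h5, fderiv_const_sub]
    simp only [neg_apply]
    rw [h2]
  have hder' : ∀ w z, Tendsto (fun δ : ℝ => dv w (fd δ φ) z) (𝓝[>] 0)
      (𝓝 (dv w (fun z => 1 - φ z) z)) := fun w z =>
    tendsto_const_nhds.congr' ((hder w z).mono fun δ h => h.symm)
  have hgsq : ∀ z, Tendsto (fun δ : ℝ => gsq (fd δ φ) z) (𝓝[>] 0)
      (𝓝 (gsq (fun z => 1 - φ z) z)) := by
    intro z
    unfold gsq
    exact tendsto_finsetSum _ fun m _ => tendsto_finsetSum _ fun c _ => (hder' _ _).pow 2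
  have hFX : Tendsto (fun δ : ℝ => FX (fd δ φ) ξ p) (𝓝[>] 0) (𝓝 (FX (fun z => 1 - φ z) ξ p)) := by
    unfold FX
    exact (tendsto_finsetProd _ fun m _ => hval _).mul_const _
  have hdFX : ∀ v, Tendsto (fun δ : ℝ => dv v (FX (fd δ φ) ξ) p) (𝓝[>] 0)
      (𝓝 (dv v (FX (fun z => 1 - φ z) ξ) p)) := by
    intro v
    rw [dvFX (fun z => 1 - φ z) ξ ((differentiable_const 1).sub hφd) hξd v p]
    have h1 : Tendsto (fun δ : ℝ => Real.exp (ξ p) *
      ((∑ m, (∏ j ∈ Finset.univ.erase m, fd δ φ (pm j p)) * dv (pm m v) (fd δ φ) (pm m p)) +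
        (∏ m, fd δ φ (pm m p)) * dv v ξ p)) (𝓝[>] 0) (𝓝 (Real.exp (ξ p) *
      ((∑ m, (∏ j ∈ Finset.univ.erase m, (1 - φ (pm j p))) *
        dv (pm m v) (fun z => 1 - φ z) (pm m p)) +
        (∏ m, (1 - φ (pm m p))) * dv v ξ p))) := by
      refine Tendsto.const_mul _ (Tendsto.add ?_ ?_)
      · exact tendsto_finsetSum _ fun m _ =>
          (tendsto_finsetProd _ fun j _ => hval _).mul (hder' _ _)
      · exact (tendsto_finsetProd _ fun m _ => hval _).mul_const _
    refine h1.congr' ?_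
    filter_upwards [self_mem_nhdsWithin] with δ hδ
    rw [dvFX (fd δ φ) ξ (hfd δ hδ) hξd v p]
  unfold gamI
  refine Tendsto.add (Tendsto.sub ?_ ?_) ?_
  · unfold gsq4
    exact tendsto_finsetSum _ fun m _ => tendsto_finsetSum _ fun c _ => (hdFX _).pow 2
  · exact tendsto_finsetSum _ fun m _ => hgsq _
  · exact tendsto_finsetSum _ fun m _ => Tendsto.const_mul _ ((hFX.pow 2).sub ((hval _).pow 2))

end Pool.Agent.TBC
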