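import Pool.Agent.TBC.Stmts

set_option autoImplicit false

open MeasureTheory Filter Topology
open scoped ContDiff

namespace Pool.Agent.TBC

open Pool.Agent.TBG Pool.Agent.TBF

namespace POT_

theorem ub_eq {N : ℕ} (u : KF) (A : Finset (Fin N)) (X : Fin N → E) (k : ℕ) (h : A.card = k) :
    ub u A X = u k (fun i => X (A.orderEmbOfFin h i)) := by
  subst h; rfl

theorem vb_ne (V : E → E → ℝ) (k : ℕ) (hk : k ≠ 3) (y : Fin k → E) : vb V k y = 0 := by
  match k, y with
  | 0, _ => rfl
  | 1, _ => rfl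
  | 2, _ => rfl
  | 3, _ => exact absurd rfl hk
  | (n + 4), _ => rfl

theorem card3 {N : ℕ} {i j k : Fin N} (h1 : i < j) (h2 : j < k) : ({i, j, k} : Finset (Fin N)).card = 3 := by
  rw [Finset.card_eq_three]
  exact ⟨i, j, k, h1.ne, (h1.trans h2).ne, h2.ne, rfl⟩

theorem emb3 {N : ℕ} {i j k : Fin N} (h1 : i < j) (h2 : j < k) (h : ({i, j, k} : Finset (Fin N)).card = 3) :
    (![i, j, k] : Fin 3 → Fin N) = ({i, j, k} : Finset (Fin N)).orderEmbOfFin h := by
  refine Finset.orderEmbOfFin_unique h ?_ ?_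
  · intro x
    fin_cases x <;> simp
  · intro a b hab
    fin_cases a <;> fin_cases b <;> simp at hab ⊢
    · exact h1
    · exact h1.trans h2
    · exact h2

theorem ub3 {N : ℕ} (V : E → E → ℝ) (X : Fin N → E) {i j k : Fin N} (h1 : i < j) (h2 : j < k) :
    ub (vb V) ({i, j, k} : Finset (Fin N)) X = V (X i - X j) (X i - X k) := by
  rw [ub_eq (vb V) _ X 3 (card3 h1 h2), ← emb3 h1 h2]
  rfl

end POT_

open POT_ in
theorem pot_proof : Stmt_POT := by
  intro N V X
  have h1 : pot V X = ∑ t ∈ trip (Finset.univ : Finset (Fin N)),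
      V (X t.1 - X t.2.1) (X t.1 - X t.2.2) := by
    unfold pot trip
    rw [Finset.sum_filter, Finset.sum_product]
    refine Finset.sum_congr rfl fun i _ => ?_
    rw [Finset.sum_product]
  have h2 : ∑ A ∈ (Finset.univ : Finset (Fin N)).powerset, ub (vb V) A X =
      ∑ A ∈ (Finset.univ : Finset (Fin N)).powersetCard 3, ub (vb V) A X := by
    symm
    refine Finset.sum_subset ?_ ?_
    · intro A hA
      rw [Finset.mem_powersetCard] at hA
      exact Finset.mem_powerset.2 hA.1
    · intro A hA hA'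
      rw [Finset.mem_powersetCard] at hA'
      have : A.card ≠ 3 := fun h => hA' ⟨Finset.subset_univ A, h⟩
      unfold ub
      exact vb_ne V _ this _
  rw [h1, h2]
  refine Finset.sum_bij (fun t _ => ({t.1, t.2.1, t.2.2} : Finset (Fin N))) ?_ ?_ ?_ ?_
  · intro t ht
    unfold trip at ht
    rw [Finset.mem_filter] at ht
    rw [Finset.mem_powersetCard]
    exact ⟨Finset.subset_univ _, card3 ht.2.1 ht.2.2⟩
  · intro t ht t' ht' he
    unfold trip at ht ht'
    rw [Finset.mem_filter] at ht ht'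
    obtain ⟨-, h3, h4⟩ := ht
    obtain ⟨-, h5, h6⟩ := ht'
    obtain ⟨a, b, c⟩ := t
    obtain ⟨a', b', c'⟩ := t'
    dsimp only at he h3 h4 h5 h6
    have h7 := emb3 h3 h4 (card3 h3 h4)
    have h8 := emb3 h5 h6 (card3 h5 h6)
    have h9 : (![a, b, c] : Fin 3 → Fin N) = ![a', b', c'] := by
      rw [h7, h8]
      have key : ∀ (A B : Finset (Fin N)) (hA : A.card = 3) (hB : B.card = 3), A = B →
          (A.orderEmbOfFin hA : Fin 3 → Fin N) = B.orderEmbOfFin hB := by
        intro A B hA hB hAB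
        subst hAB
        rfl
      exact key _ _ _ _ he
    have e0 := congrFun h9 0
    have e1 := congrFun h9 1
    have e2 := congrFun h9 2
    simp at e0 e1 e2
    rw [e0, e1, e2]
  · intro A hA
    rw [Finset.mem_powersetCard] at hA
    have h3 := hA.2
    have m01 : A.orderEmbOfFin h3 0 < A.orderEmbOfFin h3 1 := (A.orderEmbOfFin h3).strictMono (by decide)
    have m12 : A.orderEmbOfFin h3 1 < A.orderEmbOfFin h3 2 := (A.orderEmbOfFin h3).strictMono (by decide)
    refine ⟨(A.orderEmbOfFin h3 0, A.orderEmbOfFin h3 1, A.orderEmbOfFin h3 2), ?_, ?_⟩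
    · unfold trip
      rw [Finset.mem_filter]
      exact ⟨by simp, m01, m12⟩
    · dsimp only
      refine Finset.eq_of_subset_of_card_le ?_ ?_
      · intro x hx
        simp only [Finset.mem_insert, Finset.mem_singleton] at hx
        rcases hx with rfl | rfl | rfl <;> exact Finset.orderEmbOfFin_mem A h3 _
      · rw [h3, card3 m01 m12]
  · intro t ht
    unfold trip at ht
    rw [Finset.mem_filter] at ht
    exact (ub3 V X ht.2.1 ht.2.2).symm

end Pool.Agent.TBC
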