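import Pool.Agent.TBC.Stmts

set_option autoImplicit false

open MeasureTheory Filter Topology
open scoped ContDiff

namespace Pool.Agent.TBC

open Pool.Agent.TBG Pool.Agent.TBF

namespace PWA_

theorem ub_eq {N : ℕ} (u : KF) {A : Finset (Fin N)} {k : ℕ} (h : A.card = k) (X : Fin N → E) :
    ub u A X = u k (fun i => X (A.orderEmbOfFin h i)) := by
  subst h
  rfl

theorem exists_emb {N : ℕ} {A : Finset (Fin N)} {k : ℕ} (h : A.card = k) {a : Fin N} (ha : a ∈ A) :
    ∃ i : Fin k, A.orderEmbOfFin h i = a := by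
  have h1 : a ∈ Set.range (A.orderEmbOfFin h) := by
    rw [Finset.range_orderEmbOfFin]
    exact ha
  exact h1

theorem ub_three {N : ℕ} {u : KF} {M r r' : ℝ} (hF : Fam u M r r') {A : Finset (Fin N)} (h : A.card = 3)
    (X : Fin N → E) : ub u A X ≤ 0 := by
  rw [ub_eq u h]
  exact hF.le3 _

theorem ub_zero {N : ℕ} {u : KF} {M r r' : ℝ} (hF : Fam u M r r') {A : Finset (Fin N)} (h3 : A.card ≠ 3)
    (h4 : A.card ≠ 4) (h5 : A.card ≠ 5) (X : Fin N → E) : ub u A X = 0 := by
  unfold ub
  exact hF.zero _ h3 h4 h5 _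

theorem ub_four_le {N : ℕ} {u : KF} {M r r' : ℝ} (hF : Fam u M r r') {A : Finset (Fin N)} (h : A.card = 4)
    (X : Fin N → E) : ub u A X ≤ M := by
  rw [ub_eq u h]
  exact (abs_le.mp (hF.abs4 _)).2

theorem ub_four_zero {N : ℕ} {u : KF} {M r r' : ℝ} (hF : Fam u M r r') {A : Finset (Fin N)} (h : A.card = 4)
    (X : Fin N → E) {a b : Fin N} (ha : a ∈ A) (hb : b ∈ A) (hab : r < ‖X a - X b‖) : ub u A X = 0 := by
  rw [ub_eq u h]
  obtain ⟨i, hi⟩ := exists_emb h ha
  obtain ⟨j, hj⟩ := exists_emb h hb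
  refine hF.sup4 _ ⟨i, j, ?_⟩
  simp only [hi, hj]
  exact hab

theorem ub_five_le {N : ℕ} {u : KF} {M r r' : ℝ} (hF : Fam u M r r') {A : Finset (Fin N)} (h : A.card = 5)
    (X : Fin N → E) : ub u A X ≤ 0 := by
  rw [ub_eq u h]
  exact hF.le5 _

theorem ub_five_val {N : ℕ} {u : KF} {M r r' : ℝ} (hF : Fam u M r r') {A : Finset (Fin N)} (h : A.card = 5)
    (X : Fin N → E) (hd : ∀ a ∈ A, ∀ b ∈ A, ‖X a - X b‖ ≤ 2 * r) : ub u A X = -(4 * M) := by
  rw [ub_eq u h]
  refine hF.val5 _ ?_
  intro i j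
  exact hd _ (Finset.orderEmbOfFin_mem A h i) _ (Finset.orderEmbOfFin_mem A h j)

theorem choose_bound (m : ℕ) : ((m.choose 3 : ℕ) : ℝ) - 4 * ((m.choose 4 : ℕ) : ℝ) ≤ 1 := by
  rcases le_or_gt m 3 with hm | hm
  · interval_cases m <;> norm_num [Nat.choose]
  · have h1 : m.choose 4 * 4 = m.choose 3 * (m - 3) := Nat.choose_succ_right_eq m 3
    have h2 : m.choose 3 ≤ m.choose 4 * 4 := by
      rw [h1]
      exact Nat.le_mul_of_pos_right _ (by omega)
    have h3 : ((m.choose 3 : ℕ) : ℝ) ≤ ((m.choose 4 : ℕ) : ℝ) * 4 := by exact_mod_cast h2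
    linarith

theorem main {N : ℕ} {u : KF} {M r r' : ℝ} (hF : Fam u M r r') (S : Finset (Fin N)) (l : Fin N)
    (X : Fin N → E) (hl : l ∉ S) :
    US u (insert l S) X ≤ US u S X + M + ∑ p ∈ S.powersetCard 2, ub u (insert l p) X := by
  classical
  set P : Finset (Fin N) := S.filter (fun p => ‖X l - X p‖ ≤ r) with hP
  have hcard : ∀ B ∈ S.powerset, (insert l B).card = B.card + 1 := by
    intro B hB
    exact Finset.card_insert_of_notMem (fun h => hl (Finset.mem_powerset.mp hB h))
  have h1 : US u (insert l S) X = US u S X + ∑ B ∈ S.powerset, ub u (insert l B) X := by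
    unfold US
    exact Finset.sum_powerset_insert hl _
  have h2 : ∑ B ∈ S.powerset, ub u (insert l B) X ≤
      ∑ B ∈ S.powerset, ((if B.card = 2 then ub u (insert l B) X else 0) +
        ((if B.card = 3 ∧ B ⊆ P then M else 0) + (if B.card = 4 ∧ B ⊆ P then -(4 * M) else 0))) := by
    refine Finset.sum_le_sum ?_
    intro B hB
    have hc := hcard B hB
    have hBS := Finset.mem_powerset.mp hB
    by_cases c2 : B.card = 2
    · simp [c2]
    by_cases c3 : B.card = 3
    · have hk : (insert l B).card = 4 := by omega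
      by_cases hBP : B ⊆ P
      · simp only [c2, c3, hBP]
        simpa using ub_four_le hF hk X
      · obtain ⟨p, hpB, hpP⟩ := Finset.not_subset.mp hBP
        have hp : r < ‖X l - X p‖ := by
          by_contra hcon
          exact hpP (Finset.mem_filter.mpr ⟨hBS hpB, not_lt.mp hcon⟩)
        have := ub_four_zero hF hk X (Finset.mem_insert_self l B) (Finset.mem_insert_of_mem hpB) hp
        simp [c3, hBP, this]
    by_cases c4 : B.card = 4
    · have hk : (insert l B).card = 5 := by omega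
      by_cases hBP : B ⊆ P
      · have hn : ∀ a ∈ insert l B, ‖X l - X a‖ ≤ r := by
          intro a ha
          rcases Finset.mem_insert.mp ha with h | h
          · rw [h, sub_self, norm_zero]
            exact hF.r_nonneg
          · exact (Finset.mem_filter.mp (hBP h)).2
        have := ub_five_val hF hk X (fun a ha b hb => by
          have e : X a - X b = (X l - X b) - (X l - X a) := by abel
          rw [e]
          refine (norm_sub_le _ _).trans ?_
          have := hn a ha
          have := hn b hb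
          linarith)
        simp [c4, hBP, this]
      · simp [c4, hBP, ub_five_le hF hk X]
    · have : ub u (insert l B) X = 0 := ub_zero hF (by omega) (by omega) (by omega) X
      simp [c2, c3, c4, this]
  have h3 : ∑ B ∈ S.powerset, (if B.card = 2 then ub u (insert l B) X else 0) =
      ∑ p ∈ S.powersetCard 2, ub u (insert l p) X := by
    rw [← Finset.sum_filter, Finset.powersetCard_eq_filter]
  have hPS : P ⊆ S := Finset.filter_subset _ _
  have hfil : ∀ k : ℕ, S.powerset.filter (fun B => B.card = k ∧ B ⊆ P) = P.powersetCard k := by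
    intro k
    ext B
    simp only [Finset.mem_filter, Finset.mem_powerset, Finset.mem_powersetCard]
    constructor
    · rintro ⟨_, h1, h2⟩
      exact ⟨h2, h1⟩
    · rintro ⟨h1, h2⟩
      exact ⟨h1.trans hPS, h2, h1⟩
  have h4 : ∑ B ∈ S.powerset, (if B.card = 3 ∧ B ⊆ P then M else 0) = ((P.card.choose 3 : ℕ) : ℝ) * M := by
    rw [← Finset.sum_filter, hfil, Finset.sum_const, Finset.card_powersetCard, nsmul_eq_mul]
  have h5 : ∑ B ∈ S.powerset, (if B.card = 4 ∧ B ⊆ P then -(4 * M) else 0) =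
      ((P.card.choose 4 : ℕ) : ℝ) * -(4 * M) := by
    rw [← Finset.sum_filter, hfil, Finset.sum_const, Finset.card_powersetCard, nsmul_eq_mul]
  rw [Finset.sum_add_distrib, Finset.sum_add_distrib, h3, h4, h5] at h2
  have h6 := choose_bound P.card
  have h7 : M * (((P.card.choose 3 : ℕ) : ℝ) - 4 * ((P.card.choose 4 : ℕ) : ℝ)) ≤ M * 1 :=
    mul_le_mul_of_nonneg_left h6 hF.M_nonneg
  rw [h1]
  nlinarith [h2, h7]

theorem nonpos {N : ℕ} {u : KF} {M r r' : ℝ} (hF : Fam u M r r') (S : Finset (Fin N)) (l : Fin N)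
    (X : Fin N → E) (hl : l ∉ S) : ∑ p ∈ S.powersetCard 2, ub u (insert l p) X ≤ 0 := by
  refine Finset.sum_nonpos ?_
  intro p hp
  have hp' := Finset.mem_powersetCard.mp hp
  have hk : (insert l p).card = 3 := by
    rw [Finset.card_insert_of_notMem (fun h => hl (hp'.1 h)), hp'.2]
  exact ub_three hF hk X

end PWA_

theorem pwa_proof (_h : Stmt_UBV) : Stmt_PWA := by
  intro N u M r r' hF S l X hl
  refine ⟨PWA_.main hF S l X hl, ?_⟩
  have h1 := PWA_.main hF S l X hl
  have h2 := PWA_.nonpos hF S l X hl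
  unfold WW
  rw [← Real.exp_add]
  exact Real.exp_le_exp.mpr (by linarith)

end Pool.Agent.TBC
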