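import Pool.Agent.TBC.Stmts

set_option autoImplicit false

open MeasureTheory Filter Topology
open scoped ContDiff

namespace Pool.Agent.TBC

open Pool.Agent.TBG Pool.Agent.TBF

namespace PWB_

variable {N : ℕ}

/-- a nonzero interaction of a set of cardinality different from 3 forces nearness -/
theorem near {u : KF} {M r r' : ℝ} (hF : Fam u M r r') {A : Finset (Fin N)}
    (X : Fin N → E) (h3 : A.card ≠ 3) (hne : ub u A X ≠ 0) {l a : Fin N} (hl : l ∈ A) (ha : a ∈ A) :
    ‖X l - X a‖ ≤ r' := by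
  classical
  obtain ⟨i, hi⟩ : ∃ i : Fin A.card, A.orderEmbOfFin rfl i = l := by
    have : l ∈ Set.range (A.orderEmbOfFin rfl) := by rw [Finset.range_orderEmbOfFin]; exact hl
    exact this
  obtain ⟨j, hj⟩ : ∃ i : Fin A.card, A.orderEmbOfFin rfl i = a := by
    have : a ∈ Set.range (A.orderEmbOfFin rfl) := by rw [Finset.range_orderEmbOfFin]; exact ha
    exact this
  by_contra hc
  rw [not_le] at hc
  apply hne
  have hw : ∃ i j : Fin A.card, r' < ‖X (A.orderEmbOfFin rfl i) - X (A.orderEmbOfFin rfl j)‖ :=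
    ⟨i, j, by rw [hi, hj]; exact hc⟩
  unfold ub
  generalize (A.orderEmbOfFin rfl : Fin A.card ↪o Fin N) = s at hw ⊢
  revert s
  generalize A.card = k at h3 ⊢
  intro s hw
  by_cases h4 : k = 4
  · subst h4
    obtain ⟨i, j, h⟩ := hw
    exact hF.sup4 _ ⟨i, j, lt_of_le_of_lt hF.r_le h⟩
  · by_cases h5 : k = 5
    · subst h5
      obtain ⟨i, j, h⟩ := hw
      exact hF.sup5 _ ⟨i, j, h⟩
    · exact hF.zero k h3 h4 h5 _

theorem zero' {u : KF} {M r r' : ℝ} (hF : Fam u M r r') {A : Finset (Fin N)}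
    (X : Fin N → E) (h3 : A.card ≠ 3) (h4 : A.card ≠ 4) (h5 : A.card ≠ 5) : ub u A X = 0 := by
  unfold ub
  exact hF.zero _ h3 h4 h5 _

end PWB_

open PWB_ in
theorem pwb_proof (hWPI : Stmt_WPI) (_hUBV : Stmt_UBV) (hPWA : Stmt_PWA) (hWBA : Stmt_WBA) (_hWBD : Stmt_WBD) :
    Stmt_PWB := by
  classical
  intro N u M r r' κ hF hN S l X hl
  obtain ⟨hb1, hb2, hb3, hb4, hb5⟩ := hWBA N u M r r' hF
  have hM := hF.M_nonneg
  have hWS := (hb1 S X).1
  have hWI := (hb1 (insert l S) X).1
  have hn0 : ∀ l a, 0 ≤ nr κ X l a := fun l a => hN.nonneg _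
  have hcard : ∀ p ∈ S.powersetCard 2, (insert l p).card = 3 := by
    intro p hp
    rw [Finset.mem_powersetCard] at hp
    rw [Finset.card_insert_of_notMem fun h => hl (hp.1 h), hp.2]
  have ha0 : ∀ p ∈ S.powersetCard 2, 0 ≤ a3 u (insert l p) X := fun p hp => (hb4 _ X (hcard p hp)).1
  have hs2 : 0 ≤ ∑ p ∈ S.powersetCard 2, a3 u (insert l p) X := Finset.sum_nonneg ha0
  have hpr : ∀ t : Finset (Fin N), 0 ≤ ∏ a ∈ t, nr κ X l a := fun t => Finset.prod_nonneg fun a _ => hn0 l a
  have hs3 : 0 ≤ ∑ t ∈ S.powersetCard 3, ∏ a ∈ t, nr κ X l a := Finset.sum_nonneg fun t _ => hpr t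
  have he : 0 < Real.exp (2 * M) := Real.exp_pos _
  by_cases hcase : ∃ B ∈ S.powerset, B.card ≠ 2 ∧ ub u (insert l B) X ≠ 0
  · obtain ⟨B, hB, hB2, hB0⟩ := hcase
    have hBS := Finset.mem_powerset.1 hB
    have hlB : l ∉ B := fun h => hl (hBS h)
    have hcB : (insert l B).card = B.card + 1 := Finset.card_insert_of_notMem hlB
    have hc3 : (insert l B).card ≠ 3 := by rw [hcB]; omega
    have hcc : 3 ≤ B.card := by
      by_contra hc
      apply hB0
      exact zero' hF X hc3 (by rw [hcB]; omega) (by rw [hcB]; omega)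
    obtain ⟨t, htB, ht3⟩ := Finset.exists_subset_card_eq hcc
    have hone : ∏ a ∈ t, nr κ X l a = 1 := by
      refine Finset.prod_eq_one fun a ha => ?_
      refine hN.one _ ?_
      exact near hF X hc3 hB0 (Finset.mem_insert_self _ _) (Finset.mem_insert_of_mem (htB ha))
    have h1 : 1 ≤ ∑ t ∈ S.powersetCard 3, ∏ a ∈ t, nr κ X l a := by
      rw [← hone]
      exact Finset.single_le_sum (f := fun t => ∏ a ∈ t, nr κ X l a) (fun t _ => hpr t)
        (Finset.mem_powersetCard.2 ⟨htB.trans hBS, ht3⟩)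
    constructor
    · refine le_trans ?_ hWI.le
      exact mul_nonpos_of_nonneg_of_nonpos hWS.le (by linarith)
    · refine ((hPWA N u M r r' hF S l X hl).2).trans ?_
      have : Real.exp (2 * M) * 1 ≤ Real.exp (2 * M) * ∑ t ∈ S.powersetCard 3, ∏ a ∈ t, nr κ X l a :=
        mul_le_mul_of_nonneg_left h1 he.le
      nlinarith
  · push Not at hcase
    have hUS : US u (insert l S) X = US u S X + ∑ p ∈ S.powersetCard 2, ub u (insert l p) X := by
      unfold US
      rw [Finset.sum_powerset_insert hl]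
      congr 1
      have hps : S.powersetCard 2 ⊆ S.powerset := fun p hp =>
        Finset.mem_powerset.2 (Finset.mem_powersetCard.1 hp).1
      symm
      refine Finset.sum_subset hps fun B hB hB' => ?_
      refine hcase B hB fun h2 => hB' ?_
      exact Finset.mem_powersetCard.2 ⟨Finset.mem_powerset.1 hB, h2⟩
    let g : Finset (Fin N) → ℝ := fun A => if (insert l A).card = 3 then a3 u (insert l A) X else 0
    have hg : ∀ A, 0 ≤ g A ∧ g A ≤ 1 := by
      intro A
      simp only [g]
      split_ifs with h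
      · exact ⟨(hb4 _ X h).1, (hb4 _ X h).2.1⟩
      · exact ⟨le_refl 0, zero_le_one⟩
    have hgg : ∀ p ∈ S.powersetCard 2, g p = a3 u (insert l p) X := fun p hp => by
      simp only [g, if_pos (hcard p hp)]
    have hprod : WW u (insert l S) X = WW u S X * ∏ A ∈ S.powersetCard 2, (1 - g A) := by
      have h1 : ∏ A ∈ S.powersetCard 2, (1 - g A) = Real.exp (2 * ∑ A ∈ S.powersetCard 2, ub u (insert l A) X) := by
        rw [Finset.mul_sum, Real.exp_sum]
        refine Finset.prod_congr rfl fun A hA => ?_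
        rw [hgg A hA, a3]
        ring
      rw [h1]
      unfold WW
      rw [← Real.exp_add, hUS]
      congr 1
      ring
    have hW := (hWPI (Finset (Fin N)) (S.powersetCard 2) g hg).1
    rw [Finset.sum_congr rfl hgg] at hW
    have hle1 : ∏ A ∈ S.powersetCard 2, (1 - g A) ≤ 1 := Finset.prod_le_one (fun A _ => by linarith [(hg A).2])
      (fun A _ => by linarith [(hg A).1])
    rw [hprod]
    constructor
    · exact mul_le_mul_of_nonneg_left (by linarith) hWS.le
    · refine mul_le_mul_of_nonneg_left (hle1.trans ?_) hWS.le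
      have := mul_nonneg he.le hs3
      linarith

end Pool.Agent.TBC
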