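import Pool.Agent.TBC.Stmts

/-!
# Three-body Bose gases, sharp upper bound, module PWC: a triple in the gas
-/

set_option autoImplicit false

open MeasureTheory Filter Topology
open scoped ContDiff

namespace Pool.Agent.TBC

open Pool.Agent.TBG Pool.Agent.TBF

namespace PWC_

variable {N : ℕ}

/-- a nonzero interaction of a set of cardinality different from 3 forces nearness -/
theorem near {u : KF} {M r r' : ℝ} (hF : Fam u M r r') {A : Finset (Fin N)}
    (X : Fin N → E) (h3 : A.card ≠ 3) (hne : ub u A X ≠ 0) {l a : Fin N} (hl : l ∈ A) (ha : a ∈ A) :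
    ‖X l - X a‖ ≤ r' := by
  classical
  obtain ⟨i, hi⟩ : ∃ i : Fin A.card, A.orderEmbOfFin rfl i = l := by
    have : l ∈ Set.range (A.orderEmbOfFin rfl) := by rw [Finset.range_orderEmbOfFin]; exact hl
    exact this
  obtain ⟨j, hj⟩ : ∃ i : Fin A.card, A.orderEmbOfFin rfl i = a := by
    have : a ∈ Set.range (A.orderEmbOfFin rfl) := by rw [Finset.range_orderEmbOfFin]; exact ha
    exact this
  by_contra hc
  rw [not_le] at hc
  apply hne
  have hw : ∃ i j : Fin A.card, r' < ‖X (A.orderEmbOfFin rfl i) - X (A.orderEmbOfFin rfl j)‖ :=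
    ⟨i, j, by rw [hi, hj]; exact hc⟩
  unfold ub
  generalize (A.orderEmbOfFin rfl : Fin A.card ↪o Fin N) = s at hw ⊢
  revert s
  generalize A.card = k at h3 ⊢
  intro s hw
  by_cases h4 : k = 4
  · subst h4
    obtain ⟨i, j, h⟩ := hw
    exact hF.sup4 _ ⟨i, j, lt_of_le_of_lt hF.r_le h⟩
  · by_cases h5 : k = 5
    · subst h5
      obtain ⟨i, j, h⟩ := hw
      exact hF.sup5 _ ⟨i, j, h⟩
    · exact hF.zero k h3 h4 h5 _

theorem zero' {u : KF} {M r r' : ℝ} (hF : Fam u M r r') {A : Finset (Fin N)}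
    (X : Fin N → E) (h3 : A.card ≠ 3) (h4 : A.card ≠ 4) (h5 : A.card ≠ 5) : ub u A X = 0 := by
  unfold ub
  exact hF.zero _ h3 h4 h5 _

/-- only sets of four particles have positive values -/
theorem nonpos {u : KF} {M r r' : ℝ} (hF : Fam u M r r') {A : Finset (Fin N)}
    (X : Fin N → E) (h4 : A.card = 4 → ub u A X = 0) : ub u A X ≤ 0 := by
  have gen : ∀ (k : ℕ) (y : Fin k → E), k ≠ 4 → u k y ≤ 0 := by
    intro k y hk
    by_cases h3 : k = 3
    · subst h3
      exact hF.le3 y
    · by_cases h5 : k = 5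
      · subst h5
        exact hF.le5 y
      · exact (hF.zero k h3 hk h5 y).le
  by_cases h : A.card = 4
  · exact (h4 h).le
  · unfold ub
    exact gen _ _ h

theorem ubM {u : KF} {M r r' : ℝ} (hF : Fam u M r r') {A : Finset (Fin N)}
    (X : Fin N → E) : ub u A X ≤ M := by
  have gen : ∀ (k : ℕ) (y : Fin k → E), u k y ≤ M := by
    intro k y
    have hM := hF.M_nonneg
    by_cases h3 : k = 3
    · subst h3
      exact (hF.le3 y).trans hM
    · by_cases h5 : k = 5
      · subst h5
        exact (hF.le5 y).trans hM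
      · by_cases h4 : k = 4
        · subst h4
          exact (abs_le.1 (hF.abs4 y)).2
        · rw [hF.zero k h3 h4 h5 y]
          exact hM
  unfold ub
  exact gen _ _

theorem us_ins (u : KF) (S : Finset (Fin N)) (l : Fin N) (X : Fin N → E) (hl : l ∉ S) :
    US u (insert l S) X = US u S X + ∑ B ∈ S.powerset, ub u (insert l B) X := by
  unfold US
  rw [Finset.sum_powerset_insert hl]

theorem us_emp {u : KF} {M r r' : ℝ} (hF : Fam u M r r') (X : Fin N → E) :
    US u (∅ : Finset (Fin N)) X = 0 := by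
  unfold US
  rw [Finset.powerset_empty, Finset.sum_singleton]
  exact zero' hF X (by simp) (by simp) (by simp)

/-- at most one near particle -/
theorem case1 {u : KF} {M r r' : ℝ} (hF : Fam u M r r') (t : Finset (Fin N)) (X : Fin N → E) :
    ∀ T : Finset (Fin N), Disjoint t T →
      (∀ l ∈ T, ∀ l' ∈ T, l ≠ l' → (∃ a ∈ t, ‖X l - X a‖ ≤ r') → (∃ a ∈ t, ‖X l' - X a‖ ≤ r') →
        False) →
      US u (t ∪ T) X ≤ US u T X + US u t X + ∑ l ∈ T, ∑ B ∈ t.powerset, ub u (insert l B) X := by
  classical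
  intro T
  induction T using Finset.induction_on with
  | empty =>
    intro _ _
    rw [Finset.union_empty, us_emp hF, Finset.sum_empty]
    linarith
  | insert l T hl ih =>
    intro hd hn
    rw [Finset.disjoint_insert_right] at hd
    have hih := ih hd.2 (fun a ha b hb => hn a (Finset.mem_insert_of_mem ha) b
      (Finset.mem_insert_of_mem hb))
    have hlu : l ∉ t ∪ T := by
      rw [Finset.mem_union]
      rintro (h | h)
      · exact hd.1 h
      · exact hl h
    rw [Finset.union_insert, us_ins u _ l X hlu, us_ins u T l X hl, Finset.sum_insert hl]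
    have key : ∑ B ∈ (t ∪ T).powerset, ub u (insert l B) X ≤
        ∑ B ∈ T.powerset, ub u (insert l B) X + ∑ B ∈ t.powerset, ub u (insert l B) X := by
      have hsub : T.powerset ∪ t.powerset ⊆ (t ∪ T).powerset := by
        intro B hB
        rw [Finset.mem_union, Finset.mem_powerset, Finset.mem_powerset] at hB
        rw [Finset.mem_powerset]
        rcases hB with h | h
        · exact h.trans Finset.subset_union_right
        · exact h.trans Finset.subset_union_left
      have hint : T.powerset ∩ t.powerset = ({∅} : Finset (Finset (Fin N))) := by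
        ext B
        rw [Finset.mem_inter, Finset.mem_powerset, Finset.mem_powerset, Finset.mem_singleton]
        constructor
        · rintro ⟨hB1, hB2⟩
          refine Finset.eq_empty_of_forall_notMem fun x hx => ?_
          exact Finset.disjoint_left.1 hd.2 (hB2 hx) (hB1 hx)
        · rintro rfl
          exact ⟨Finset.empty_subset _, Finset.empty_subset _⟩
      rw [← Finset.sum_sdiff hsub, ← Finset.sum_union_inter (s₁ := T.powerset) (s₂ := t.powerset),
        hint, Finset.sum_singleton]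
      have h0 : ub u (insert l (∅ : Finset (Fin N))) X = 0 :=
        zero' hF X (by simp) (by simp) (by simp)
      rw [h0, add_zero]
      have h1 : ∑ B ∈ (t ∪ T).powerset \ (T.powerset ∪ t.powerset), ub u (insert l B) X ≤ 0 := by
        refine Finset.sum_nonpos fun B hB => ?_
        rw [Finset.mem_sdiff, Finset.mem_union, Finset.mem_powerset, Finset.mem_powerset,
          Finset.mem_powerset, not_or, Finset.not_subset, Finset.not_subset] at hB
        obtain ⟨hB1, ⟨a, haB, haT⟩, ⟨b, hbB, hbt⟩⟩ := hB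
        have hat : a ∈ t := by
          rcases Finset.mem_union.1 (hB1 haB) with h | h
          · exact h
          · exact absurd h haT
        have hbT : b ∈ T := by
          rcases Finset.mem_union.1 (hB1 hbB) with h | h
          · exact absurd h hbt
          · exact h
        refine nonpos hF X fun h4 => ?_
        by_contra hne
        have hlb : l ≠ b := fun h => hl (h ▸ hbT)
        have hc3 : (insert l B).card ≠ 3 := by rw [h4]; norm_num
        exact hn l (Finset.mem_insert_self _ _) b (Finset.mem_insert_of_mem hbT) hlb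
          ⟨a, hat, near hF X hc3 hne (Finset.mem_insert_self _ _) (Finset.mem_insert_of_mem haB)⟩
          ⟨a, hat, near hF X hc3 hne (Finset.mem_insert_of_mem hbB) (Finset.mem_insert_of_mem haB)⟩
      linarith
    linarith

/-- second Bonferroni inequality -/
theorem bonf (hWPI : Stmt_WPI) {ι : Type} [DecidableEq ι] (s : Finset ι) (y z : ι → ℝ) (c : ℝ)
    (h : ∀ i ∈ s, 0 ≤ y i ∧ y i ≤ 1 ∧ y i ≤ c * z i) :
    ∏ i ∈ s, (1 - y i) ≤ 1 - ∑ i ∈ s, y i + 1 / 2 * (c ^ 2 * ∑ i ∈ s, ∑ j ∈ s.erase i, z i * z j) := by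
  have h1 := (hWPI ι s (fun i => if i ∈ s then y i else 0) (fun i => by
    split_ifs with hi
    · exact ⟨(h i hi).1, (h i hi).2.1⟩
    · exact ⟨le_rfl, zero_le_one⟩)).2
  have e1 : ∏ i ∈ s, (1 - if i ∈ s then y i else 0) = ∏ i ∈ s, (1 - y i) :=
    Finset.prod_congr rfl fun i hi => by rw [if_pos hi]
  have e2 : ∑ i ∈ s, (if i ∈ s then y i else 0) = ∑ i ∈ s, y i :=
    Finset.sum_congr rfl fun i hi => by rw [if_pos hi]
  rw [e1, e2] at h1
  refine h1.trans ?_
  have h2 : ∑ i ∈ s, ∑ j ∈ s.erase i, (if i ∈ s then y i else 0) * (if j ∈ s then y j else 0) ≤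
      c ^ 2 * ∑ i ∈ s, ∑ j ∈ s.erase i, z i * z j := by
    rw [Finset.mul_sum]
    refine Finset.sum_le_sum fun i hi => ?_
    rw [Finset.mul_sum]
    refine Finset.sum_le_sum fun j hj => ?_
    have hj' := Finset.mem_of_mem_erase hj
    rw [if_pos hi, if_pos hj']
    have a := mul_le_mul (h i hi).2.2 (h j hj').2.2 (h j hj').1 (le_trans (h i hi).1 (h i hi).2.2)
    refine a.trans (le_of_eq (by ring))
  linarith

/-- the scalar inequality of the first case -/
theorem scal {ι : Type} [DecidableEq ι] (hWPI : Stmt_WPI) (T : Finset ι) (y z : ι → ℝ) (nearp : ι → Prop) (K : ℝ)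
    (hK : 1 ≤ K) (hz : ∀ i ∈ T, 0 ≤ z i) (hy1 : ∀ i ∈ T, y i ≤ 1) (hyz : ∀ i ∈ T, y i ≤ K * z i)
    (hyK : ∀ i ∈ T, 1 - y i ≤ K)
    (hy0 : ∀ i ∈ T, ¬ nearp i → 0 ≤ y i) (hz1 : ∀ i ∈ T, nearp i → 1 ≤ z i)
    (hn : ∀ l ∈ T, ∀ l' ∈ T, l ≠ l' → nearp l → nearp l' → False) :
    ∏ i ∈ T, (1 - y i) ≤ 1 - ∑ i ∈ T, y i + 2 * (K ^ 3 * ∑ i ∈ T, ∑ j ∈ T.erase i, z i * z j) := by
  have hE : 0 ≤ ∑ i ∈ T, ∑ j ∈ T.erase i, z i * z j := Finset.sum_nonneg fun i hi =>
    Finset.sum_nonneg fun j hj => mul_nonneg (hz i hi) (hz j (Finset.mem_of_mem_erase hj))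
  have hK2 : K ^ 2 ≤ K ^ 3 := pow_le_pow_right₀ hK (by norm_num)
  have hK1 : K ≤ K ^ 3 := by
    calc K = K ^ 1 := (pow_one K).symm
      _ ≤ K ^ 3 := pow_le_pow_right₀ hK (by norm_num)
  have hK0 : 0 ≤ K ^ 3 := by positivity
  by_cases hc : ∃ l ∈ T, nearp l
  · obtain ⟨l, hl, hnl⟩ := hc
    have hb := bonf hWPI (T.erase l) y z K (fun i hi => by
      have hiT := Finset.mem_of_mem_erase hi
      refine ⟨hy0 i hiT fun hni => ?_, hy1 i hiT, hyz i hiT⟩
      exact hn i hiT l hl (Finset.ne_of_mem_erase hi) hni hnl)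
    have hsum : ∑ i ∈ T, y i = y l + ∑ i ∈ T.erase l, y i := (Finset.add_sum_erase T y hl).symm
    have hprod : ∏ i ∈ T, (1 - y i) = (1 - y l) * ∏ i ∈ T.erase l, (1 - y i) :=
      (Finset.mul_prod_erase T (fun i => 1 - y i) hl).symm
    have hYz : ∑ i ∈ T.erase l, y i ≤ K * ∑ i ∈ T.erase l, z i := by
      rw [Finset.mul_sum]
      exact Finset.sum_le_sum fun i hi => hyz i (Finset.mem_of_mem_erase hi)
    have hY0 : 0 ≤ ∑ i ∈ T.erase l, y i := Finset.sum_nonneg fun i hi => by
      have hiT := Finset.mem_of_mem_erase hi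
      refine hy0 i hiT fun hni => ?_
      exact hn i hiT l hl (Finset.ne_of_mem_erase hi) hni hnl
    have hZ0 : 0 ≤ ∑ i ∈ T.erase l, z i := Finset.sum_nonneg fun i hi =>
      hz i (Finset.mem_of_mem_erase hi)
    have g1 : ∑ i ∈ T.erase l, ∑ j ∈ (T.erase l).erase i, z i * z j ≤
        ∑ i ∈ T, ∑ j ∈ T.erase i, z i * z j := by
      refine (Finset.sum_le_sum fun i hi => ?_).trans (Finset.sum_le_sum_of_subset_of_nonneg
        (Finset.erase_subset l T) fun i hi _ => Finset.sum_nonneg fun j hj =>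
          mul_nonneg (hz i hi) (hz j (Finset.mem_of_mem_erase hj)))
      refine Finset.sum_le_sum_of_subset_of_nonneg (Finset.erase_subset_erase i
        (Finset.erase_subset l T)) fun j hj _ => ?_
      exact mul_nonneg (hz i (Finset.mem_of_mem_erase hi)) (hz j (Finset.mem_of_mem_erase hj))
    have g2 : z l * ∑ i ∈ T.erase l, z i ≤ ∑ i ∈ T, ∑ j ∈ T.erase i, z i * z j := by
      rw [Finset.mul_sum]
      exact Finset.single_le_sum (f := fun i => ∑ j ∈ T.erase i, z i * z j) (fun i hi =>
        Finset.sum_nonneg fun j hj => mul_nonneg (hz i hi) (hz j (Finset.mem_of_mem_erase hj))) hl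
    rw [hsum, hprod]
    set Y := ∑ i ∈ T.erase l, y i
    set Z := ∑ i ∈ T.erase l, z i
    set P' := ∑ i ∈ T.erase l, ∑ j ∈ (T.erase l).erase i, z i * z j with hP'
    set P := ∑ i ∈ T, ∑ j ∈ T.erase i, z i * z j
    have hP0 : 0 ≤ P' := by
      rw [hP']
      exact Finset.sum_nonneg fun i hi => Finset.sum_nonneg fun j hj =>
        mul_nonneg (hz i (Finset.mem_of_mem_erase hi))
          (hz j (Finset.mem_of_mem_erase (Finset.mem_of_mem_erase hj)))
    have h1 : 0 ≤ 1 - y l := by linarith [hy1 l hl]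
    have h2 := mul_le_mul_of_nonneg_left hb h1
    have h3 : (1 - y l) * (1 / 2 * (K ^ 2 * P')) ≤ 1 / 2 * (K ^ 3 * P) := by
      have a1 : (1 - y l) * (1 / 2 * (K ^ 2 * P')) ≤ K * (1 / 2 * (K ^ 2 * P')) :=
        mul_le_mul_of_nonneg_right (hyK l hl) (by positivity)
      have a2 : K ^ 3 * P' ≤ K ^ 3 * P := mul_le_mul_of_nonneg_left g1 hK0
      nlinarith
    have h4 : y l * Y ≤ K ^ 3 * P := by
      have a1 : y l * Y ≤ 1 * Y := mul_le_mul_of_nonneg_right (hy1 l hl) hY0
      have a2 : K * Z ≤ K * P := by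
        refine mul_le_mul_of_nonneg_left ?_ (by linarith)
        refine le_trans ?_ g2
        exact le_mul_of_one_le_left hZ0 (hz1 l hl hnl)
      have a3 : K * P ≤ K ^ 3 * P := mul_le_mul_of_nonneg_right hK1 hE
      linarith
    have h5 : 0 ≤ K ^ 3 * P := mul_nonneg hK0 hE
    nlinarith
  · have hb := bonf hWPI T y z K (fun i hi => ⟨hy0 i hi fun h => hc ⟨i, hi, h⟩, hy1 i hi, hyz i hi⟩)
    refine hb.trans ?_
    have a := mul_le_mul_of_nonneg_right hK2 hE
    have b := mul_nonneg hK0 hE
    linarith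

end PWC_

open PWC_ in
theorem pwc_proof (hWPI : Stmt_WPI) (_hUBV : Stmt_UBV) (hPWA : Stmt_PWA) (hWBA : Stmt_WBA)
    (_hWBD : Stmt_WBD) (hPWD : Stmt_PWD) : Stmt_PWC := by
  classical
  intro N u M r r' κ hF hN t T X hd ht
  obtain ⟨hb1, hb2, hb3, hb4, hb5⟩ := hWBA N u M r r' hF
  have hM := hF.M_nonneg
  have hWt := (hb1 t X).1
  have hWT := (hb1 T X).1
  have hlt : ∀ l ∈ T, l ∉ t := fun l hl h => Finset.disjoint_left.1 hd h hl
  have hn0 : ∀ l a, 0 ≤ nr κ X l a := fun l a => hN.nonneg _
  -- zz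
  have hz0 : ∀ l ∈ T, 0 ≤ zz u κ t l X := by
    intro l hl
    unfold zz
    refine add_nonneg (Finset.sum_nonneg fun p hp => ?_) (Finset.sum_nonneg fun a _ => hn0 l a)
    rw [Finset.mem_powersetCard] at hp
    refine (hb4 _ X ?_).1
    rw [Finset.card_insert_of_notMem fun h => hlt l hl (hp.1 h), hp.2]
  have hz1 : ∀ l ∈ T, (∃ a ∈ t, ‖X l - X a‖ ≤ r') → 1 ≤ zz u κ t l X := by
    rintro l hl ⟨a, ha, hla⟩
    unfold zz
    have h1 : 0 ≤ ∑ p ∈ t.powersetCard 2, a3 u (insert l p) X := by
      refine Finset.sum_nonneg fun p hp => ?_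
      rw [Finset.mem_powersetCard] at hp
      refine (hb4 _ X ?_).1
      rw [Finset.card_insert_of_notMem fun h => hlt l hl (hp.1 h), hp.2]
    have h2 := Finset.single_le_sum (f := fun a => nr κ X l a) (fun b _ => hn0 l b) ha
    have h3 : nr κ X l a = 1 := hN.one _ hla
    simp only [h3] at h2
    linarith
  have hD := fun l (hl : l ∈ T) => hPWD N u M r r' κ hF hN t l X ht (hlt l hl)
  have hK : 1 ≤ Real.exp (2 * M) := Real.one_le_exp (by linarith)
  have hK3 : Real.exp (2 * M) ^ 3 = Real.exp (6 * M) := by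
    rw [← Real.exp_nat_mul]
    congr 1
    push_cast
    ring
  have hE0 : 0 ≤ ∑ l ∈ T, ∑ l' ∈ T.erase l, zz u κ t l X * zz u κ t l' X :=
    Finset.sum_nonneg fun i hi => Finset.sum_nonneg fun j hj =>
      mul_nonneg (hz0 i hi) (hz0 j (Finset.mem_of_mem_erase hj))
  by_cases hc : ∀ l ∈ T, ∀ l' ∈ T, l ≠ l' → (∃ a ∈ t, ‖X l - X a‖ ≤ r') →
      (∃ a ∈ t, ‖X l' - X a‖ ≤ r') → False
  · -- at most one near particle
    have h1 := case1 hF t X T hd hc
    have hx : ∀ l ∈ T, WW u (insert l t) X =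
        WW u t X * Real.exp (2 * ∑ B ∈ t.powerset, ub u (insert l B) X) := by
      intro l hl
      unfold WW
      rw [us_ins u t l X (hlt l hl), ← Real.exp_add]
      congr 1
      ring
    have h2 : WW u (t ∪ T) X ≤ WW u T X * (WW u t X *
        ∏ l ∈ T, Real.exp (2 * ∑ B ∈ t.powerset, ub u (insert l B) X)) := by
      rw [← Real.exp_sum]
      unfold WW
      rw [← Real.exp_add, ← Real.exp_add]
      refine Real.exp_le_exp.2 ?_
      rw [← Finset.mul_sum]
      linarith
    set y : Fin N → ℝ := fun l => 1 - Real.exp (2 * ∑ B ∈ t.powerset, ub u (insert l B) X) with hy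
    have hyW : ∀ l ∈ T, WW u t X - WW u (insert l t) X = WW u t X * y l := by
      intro l hl
      rw [hx l hl, hy]
      ring
    have hyz : ∀ l ∈ T, |y l| ≤ Real.exp (2 * M) * zz u κ t l X := by
      intro l hl
      have h := hD l hl
      rw [hyW l hl, abs_mul, abs_of_pos hWt] at h
      have h' : WW u t X * |y l| ≤ WW u t X * (Real.exp (2 * M) * zz u κ t l X) := by
        refine h.trans (le_of_eq (by ring))
      exact le_of_mul_le_mul_left h' hWt
    have hy0 : ∀ l ∈ T, ¬ (∃ a ∈ t, ‖X l - X a‖ ≤ r') → 0 ≤ y l := by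
      intro l hl hnl
      have : ∑ B ∈ t.powerset, ub u (insert l B) X ≤ 0 := by
        refine Finset.sum_nonpos fun B hB => nonpos hF X fun h4 => ?_
        by_contra hne
        have hBt := Finset.mem_powerset.1 hB
        have hBne : B.Nonempty := by
          rw [Finset.nonempty_iff_ne_empty]
          rintro rfl
          simp at h4
        obtain ⟨a, ha⟩ := hBne
        exact hnl ⟨a, hBt ha, near hF X (by rw [h4]; norm_num) hne (Finset.mem_insert_self _ _)
          (Finset.mem_insert_of_mem ha)⟩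
      have h5 : Real.exp (2 * ∑ B ∈ t.powerset, ub u (insert l B) X) ≤ 1 :=
        Real.exp_le_one_iff.2 (by linarith)
      simp only [hy]
      linarith
    have hyK : ∀ l ∈ T, 1 - y l ≤ Real.exp (2 * M) := by
      intro l hl
      have h := (hPWA N u M r r' hF t l X (hlt l hl)).2
      rw [hx l hl, mul_comm] at h
      have h' := le_of_mul_le_mul_right h hWt
      simp only [hy]
      linarith
    have key := scal hWPI T y (fun l => zz u κ t l X) (fun l => ∃ a ∈ t, ‖X l - X a‖ ≤ r')
      (Real.exp (2 * M)) hK hz0 (fun l _ => by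
        simp only [hy]
        linarith [Real.exp_pos (2 * ∑ B ∈ t.powerset, ub u (insert l B) X)])
      (fun l hl => (le_abs_self _).trans (hyz l hl)) hyK hy0 hz1 hc
    rw [hK3] at key
    have e1 : ∏ l ∈ T, Real.exp (2 * ∑ B ∈ t.powerset, ub u (insert l B) X) =
        ∏ l ∈ T, (1 - y l) := Finset.prod_congr rfl fun l _ => by
      simp only [hy]
      ring
    rw [e1] at h2
    refine h2.trans (mul_le_mul_of_nonneg_left ?_ hWT.le)
    have e2 : ∑ l ∈ T, (WW u t X - WW u (insert l t) X) = WW u t X * ∑ l ∈ T, y l := by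
      rw [Finset.mul_sum]
      exact Finset.sum_congr rfl hyW
    rw [e2]
    refine (mul_le_mul_of_nonneg_left key hWt.le).trans (le_of_eq ?_)
    ring
  · -- two near particles
    have hc' : ∃ l ∈ T, ∃ l' ∈ T, l ≠ l' ∧ (∃ a ∈ t, ‖X l - X a‖ ≤ r') ∧
        (∃ a ∈ t, ‖X l' - X a‖ ≤ r') := by
      by_contra hcc
      refine hc fun l hl l' hl' hne h1 h2 => hcc ⟨l, hl, l', hl', hne, h1, h2⟩
    obtain ⟨l₁, hl₁, l₂, hl₂, hne, hn₁, hn₂⟩ := hc'
    have hup : US u (t ∪ T) X ≤ US u T X + 3 * M + ub u t X := by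
      obtain ⟨i, j, k, hij, hik, hjk, rfl⟩ := Finset.card_eq_three.1 ht
      have hiT : i ∉ T := fun h => hlt i h (by simp)
      have hjT : j ∉ insert i T := by
        rw [Finset.mem_insert]
        rintro (h | h)
        · exact hij h.symm
        · exact hlt j h (by simp)
      have hkT : k ∉ insert j (insert i T) := by
        rw [Finset.mem_insert, Finset.mem_insert]
        rintro (h | h | h)
        · exact hjk h.symm
        · exact hik h.symm
        · exact hlt k h (by simp)
      have hneg : ∀ (S : Finset (Fin N)) (l : Fin N), l ∉ S → ∀ p ∈ S.powersetCard 2,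
          ub u (insert l p) X ≤ 0 := by
        intro S l hl p hp
        rw [Finset.mem_powersetCard] at hp
        refine nonpos hF X fun h4 => ?_
        rw [Finset.card_insert_of_notMem fun h => hl (hp.1 h), hp.2] at h4
        norm_num at h4
      have a1 := (hPWA N u M r r' hF T i X hiT).1
      have a2 := (hPWA N u M r r' hF (insert i T) j X hjT).1
      have a3' := (hPWA N u M r r' hF (insert j (insert i T)) k X hkT).1
      have b1 := Finset.sum_nonpos (hneg T i hiT)
      have b2 := Finset.sum_nonpos (hneg (insert i T) j hjT)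
      have hp0 : ({i, j} : Finset (Fin N)) ∈ (insert j (insert i T)).powersetCard 2 := by
        rw [Finset.mem_powersetCard]
        refine ⟨?_, Finset.card_pair hij⟩
        intro x hx
        rw [Finset.mem_insert, Finset.mem_singleton] at hx
        rcases hx with rfl | rfl
        · simp
        · simp
      have b3 : ∑ p ∈ (insert j (insert i T)).powersetCard 2, ub u (insert k p) X ≤
          ub u (insert k {i, j}) X := by
        rw [← Finset.add_sum_erase _ _ hp0]
        have : ∑ p ∈ ((insert j (insert i T)).powersetCard 2).erase {i, j},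
            ub u (insert k p) X ≤ 0 :=
          Finset.sum_nonpos fun p hp => hneg _ k hkT p (Finset.mem_of_mem_erase hp)
        linarith
      have e1 : ({i, j, k} : Finset (Fin N)) ∪ T = insert k (insert j (insert i T)) := by
        ext x
        simp only [Finset.mem_union, Finset.mem_insert, Finset.mem_singleton]
        tauto
      have e2 : (insert k {i, j} : Finset (Fin N)) = {i, j, k} := by
        ext x
        simp only [Finset.mem_insert, Finset.mem_singleton]
        tauto
      rw [e1]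
      rw [e2] at b3
      linarith
    have hWW : WW u (t ∪ T) X ≤ WW u T X * (Real.exp (6 * M) * WW u t X) := by
      rw [(hb4 t X ht).2.2]
      unfold WW
      rw [← Real.exp_add, ← Real.exp_add]
      refine Real.exp_le_exp.2 ?_
      linarith
    refine hWW.trans (mul_le_mul_of_nonneg_left ?_ hWT.le)
    set s := ∑ l ∈ T, zz u κ t l X with hs
    have hs1 : 1 ≤ s := (hz1 l₁ hl₁ hn₁).trans (Finset.single_le_sum
      (f := fun l => zz u κ t l X) hz0 hl₁)
    have hEs : s ≤ ∑ l ∈ T, ∑ l' ∈ T.erase l, zz u κ t l X * zz u κ t l' X := by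
      rw [hs]
      refine Finset.sum_le_sum fun l hl => ?_
      rw [← Finset.mul_sum]
      refine le_mul_of_one_le_right (hz0 l hl) ?_
      have hz0' : ∀ l' ∈ T.erase l, 0 ≤ zz u κ t l' X := fun l' hl' =>
        hz0 l' (Finset.mem_of_mem_erase hl')
      by_cases h : l = l₁
      · have : l₂ ∈ T.erase l := Finset.mem_erase.2 ⟨by rw [h]; exact hne.symm, hl₂⟩
        exact (hz1 l₂ hl₂ hn₂).trans (Finset.single_le_sum (f := fun l => zz u κ t l X) hz0' this)
      · have : l₁ ∈ T.erase l := Finset.mem_erase.2 ⟨fun h' => h h'.symm, hl₁⟩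
        exact (hz1 l₁ hl₁ hn₁).trans (Finset.single_le_sum (f := fun l => zz u κ t l X) hz0' this)
    have hsumD : ∑ l ∈ T, (WW u t X - WW u (insert l t) X) ≤ Real.exp (2 * M) * (WW u t X * s) := by
      rw [hs, Finset.mul_sum, Finset.mul_sum]
      exact Finset.sum_le_sum fun l hl => (le_abs_self _).trans (hD l hl)
    set E2 := ∑ l ∈ T, ∑ l' ∈ T.erase l, zz u κ t l X * zz u κ t l' X
    have hK13 : Real.exp (2 * M) ≤ Real.exp (6 * M) := Real.exp_le_exp.2 (by linarith)
    have hWs : 0 ≤ WW u t X * s := mul_nonneg hWt.le (by linarith)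
    have c1 : Real.exp (2 * M) * (WW u t X * s) ≤ Real.exp (6 * M) * (WW u t X * s) :=
      mul_le_mul_of_nonneg_right hK13 hWs
    have c2 : Real.exp (6 * M) * (WW u t X * s) ≤ Real.exp (6 * M) * (WW u t X * E2) :=
      mul_le_mul_of_nonneg_left (mul_le_mul_of_nonneg_left hEs hWt.le) (Real.exp_pos _).le
    have c3 : Real.exp (6 * M) * WW u t X ≤ Real.exp (6 * M) * (WW u t X * s) :=
      mul_le_mul_of_nonneg_left (le_mul_of_one_le_right hWt.le hs1) (Real.exp_pos _).le
    linarith

end Pool.Agent.TBC
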