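import Pool.Agent.TBC.Stmts

set_option autoImplicit false

open MeasureTheory Filter Topology
open scoped ContDiff

namespace Pool.Agent.TBC

open Pool.Agent.TBG Pool.Agent.TBF

namespace PWD_

variable {N : ℕ}

/-- a nonzero interaction of a set of cardinality different from 3 forces nearness -/
theorem near {u : KF} {M r r' : ℝ} (hF : Fam u M r r') {A : Finset (Fin N)}
    (X : Fin N → E) (h3 : A.card ≠ 3) (hne : ub u A X ≠ 0) {l a : Fin N} (hl : l ∈ A) (ha : a ∈ A) :
    ‖X l - X a‖ ≤ r' := by
  classical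
  obtain ⟨i, hi⟩ : ∃ i : Fin A.card, A.orderEmbOfFin rfl i = l := by
    have : l ∈ Set.range (A.orderEmbOfFin rfl) := by rw [Finset.range_orderEmbOfFin]; exact hl
    exact this
  obtain ⟨j, hj⟩ : ∃ i : Fin A.card, A.orderEmbOfFin rfl i = a := by
    have : a ∈ Set.range (A.orderEmbOfFin rfl) := by rw [Finset.range_orderEmbOfFin]; exact ha
    exact this
  by_contra hc
  rw [not_le] at hc
  apply hne
  have hw : ∃ i j : Fin A.card, r' < ‖X (A.orderEmbOfFin rfl i) - X (A.orderEmbOfFin rfl j)‖ :=
    ⟨i, j, by rw [hi, hj]; exact hc⟩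
  unfold ub
  generalize (A.orderEmbOfFin rfl : Fin A.card ↪o Fin N) = s at hw ⊢
  revert s
  generalize A.card = k at h3 ⊢
  intro s hw
  by_cases h4 : k = 4
  · subst h4
    obtain ⟨i, j, h⟩ := hw
    exact hF.sup4 _ ⟨i, j, lt_of_le_of_lt hF.r_le h⟩
  · by_cases h5 : k = 5
    · subst h5
      obtain ⟨i, j, h⟩ := hw
      exact hF.sup5 _ ⟨i, j, h⟩
    · exact hF.zero k h3 h4 h5 _

theorem zero' {u : KF} {M r r' : ℝ} (hF : Fam u M r r') {A : Finset (Fin N)}
    (X : Fin N → E) (h3 : A.card ≠ 3) (h4 : A.card ≠ 4) (h5 : A.card ≠ 5) : ub u A X = 0 := by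
  unfold ub
  exact hF.zero _ h3 h4 h5 _

end PWD_

open PWD_ in
theorem pwd_proof (hWPI : Stmt_WPI) (_hUBV : Stmt_UBV) (hWBA : Stmt_WBA) (_hWBD : Stmt_WBD) :
    Stmt_PWD := by
  classical
  intro N u M r r' κ hF hN t l X ht hl
  obtain ⟨hb1, hb2, hb3, hb4, hb5⟩ := hWBA N u M r r' hF
  have hM := hF.M_nonneg
  have hWS := (hb1 t X).1
  have hWI := (hb1 (insert l t) X).1
  have hn0 : ∀ l a, 0 ≤ nr κ X l a := fun l a => hN.nonneg _
  have hcard : ∀ p ∈ t.powersetCard 2, (insert l p).card = 3 := by
    intro p hp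
    rw [Finset.mem_powersetCard] at hp
    rw [Finset.card_insert_of_notMem fun h => hl (hp.1 h), hp.2]
  have ha0 : ∀ p ∈ t.powersetCard 2, 0 ≤ a3 u (insert l p) X := fun p hp => (hb4 _ X (hcard p hp)).1
  have hs2 : 0 ≤ ∑ p ∈ t.powersetCard 2, a3 u (insert l p) X := Finset.sum_nonneg ha0
  have hs3 : 0 ≤ ∑ a ∈ t, nr κ X l a := Finset.sum_nonneg fun a _ => hn0 l a
  have he : 0 < Real.exp (2 * M) := Real.exp_pos _
  have he1 : 1 ≤ Real.exp (2 * M) := Real.one_le_exp (by linarith)
  have hct : (insert l t).card = 4 := by rw [Finset.card_insert_of_notMem hl, ht]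
  by_cases hcase : ub u (insert l t) X ≠ 0
  · have htne : t.Nonempty := by rw [← Finset.card_pos, ht]; norm_num
    obtain ⟨a, ha⟩ := htne
    have hla : nr κ X l a = 1 := hN.one _ (near hF X (by rw [hct]; norm_num) hcase (Finset.mem_insert_self _ _)
      (Finset.mem_insert_of_mem ha))
    have h1 : 1 ≤ zz u κ t l X := by
      unfold zz
      have := Finset.single_le_sum (f := fun a => nr κ X l a) (fun b _ => hn0 l b) ha
      simp only [hla] at this
      linarith
    have hup : WW u (insert l t) X ≤ Real.exp (2 * M) * WW u t X := by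
      have := hb3 {l} (insert l t) X (by simp)
      have h2 : insert l t \ {l} = t := by
        rw [Finset.insert_eq, Finset.union_sdiff_cancel_left (Finset.disjoint_singleton_left.2 hl)]
      rw [h2, Finset.card_singleton] at this
      simpa using this
    have h2 : WW u t X ≤ WW u t X * zz u κ t l X := le_mul_of_one_le_right hWS.le h1
    have h3 : WW u t X ≤ Real.exp (2 * M) * WW u t X := le_mul_of_one_le_left hWS.le he1
    refine le_trans ?_ (mul_le_mul_of_nonneg_left h2 he.le)
    rw [abs_le]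
    constructor <;> linarith
  · rw [not_not] at hcase
    have hUS : US u (insert l t) X = US u t X + ∑ p ∈ t.powersetCard 2, ub u (insert l p) X := by
      unfold US
      rw [Finset.sum_powerset_insert hl]
      congr 1
      have hps : t.powersetCard 2 ⊆ t.powerset := fun p hp =>
        Finset.mem_powerset.2 (Finset.mem_powersetCard.1 hp).1
      symm
      refine Finset.sum_subset hps fun B hB hB' => ?_
      have hBt := Finset.mem_powerset.1 hB
      have hB2 : B.card ≠ 2 := fun h2 => hB' (Finset.mem_powersetCard.2 ⟨hBt, h2⟩)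
      have hB3 : B.card ≤ 3 := by rw [← ht]; exact Finset.card_le_card hBt
      have hcB : (insert l B).card = B.card + 1 := Finset.card_insert_of_notMem fun h => hl (hBt h)
      by_cases h3 : B.card = 3
      · have : B = t := Finset.eq_of_subset_of_card_le hBt (by rw [h3, ht])
        rw [this]; exact hcase
      · exact zero' hF X (by rw [hcB]; omega) (by rw [hcB]; omega) (by rw [hcB]; omega)
    let g : Finset (Fin N) → ℝ := fun A => if (insert l A).card = 3 then a3 u (insert l A) X else 0
    have hg : ∀ A, 0 ≤ g A ∧ g A ≤ 1 := by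
      intro A
      simp only [g]
      split_ifs with h
      · exact ⟨(hb4 _ X h).1, (hb4 _ X h).2.1⟩
      · exact ⟨le_refl 0, zero_le_one⟩
    have hgg : ∀ p ∈ t.powersetCard 2, g p = a3 u (insert l p) X := fun p hp => by
      simp only [g, if_pos (hcard p hp)]
    have hprod : WW u (insert l t) X = WW u t X * ∏ A ∈ t.powersetCard 2, (1 - g A) := by
      have h1 : ∏ A ∈ t.powersetCard 2, (1 - g A) = Real.exp (2 * ∑ A ∈ t.powersetCard 2, ub u (insert l A) X) := by
        rw [Finset.mul_sum, Real.exp_sum]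
        refine Finset.prod_congr rfl fun A hA => ?_
        rw [hgg A hA, a3]
        ring
      rw [h1]
      unfold WW
      rw [← Real.exp_add, hUS]
      congr 1
      ring
    have hW := (hWPI (Finset (Fin N)) (t.powersetCard 2) g hg).1
    rw [Finset.sum_congr rfl hgg] at hW
    have hle1 : ∏ A ∈ t.powersetCard 2, (1 - g A) ≤ 1 := Finset.prod_le_one (fun A _ => by linarith [(hg A).2])
      (fun A _ => by linarith [(hg A).1])
    have hz : 1 - ∏ A ∈ t.powersetCard 2, (1 - g A) ≤ zz u κ t l X := by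
      unfold zz
      linarith
    rw [hprod]
    have h5 : WW u t X - WW u t X * ∏ A ∈ t.powersetCard 2, (1 - g A) =
      WW u t X * (1 - ∏ A ∈ t.powersetCard 2, (1 - g A)) := by ring
    rw [h5, abs_of_nonneg (mul_nonneg hWS.le (by linarith))]
    have h6 : WW u t X * (1 - ∏ A ∈ t.powersetCard 2, (1 - g A)) ≤ WW u t X * zz u κ t l X :=
      mul_le_mul_of_nonneg_left hz hWS.le
    have h7 : 0 ≤ WW u t X * zz u κ t l X := mul_nonneg hWS.le (le_trans (by linarith) hz)
    exact h6.trans (le_mul_of_one_le_left h7 he1)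

end Pool.Agent.TBC
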