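import Pool.Agent.TBC.Stmts

set_option autoImplicit false

open MeasureTheory Filter Topology
open scoped ContDiff

namespace Pool.Agent.TBC

open Pool.Agent.TBG Pool.Agent.TBF

namespace PWE_

variable {N : ℕ}

/-- the cross subsets -/
def cr (Q T : Finset (Fin N)) : Finset (Finset (Fin N)) :=
  (Q ∪ T).powerset.filter (fun A => ¬ A ⊆ Q ∧ ¬ A ⊆ T)

theorem mem_cr {Q T A : Finset (Fin N)} : A ∈ cr Q T ↔ A ⊆ Q ∪ T ∧ ¬ A ⊆ Q ∧ ¬ A ⊆ T := by
  rw [cr, Finset.mem_filter, Finset.mem_powerset]

/-- decomposition of the sum over the subsets of `Q ∪ T` -/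
theorem sum_split {Q T : Finset (Fin N)} (hd : Disjoint Q T) (f : Finset (Fin N) → ℝ) (h0 : f ∅ = 0) :
    ∑ A ∈ (Q ∪ T).powerset, f A = ∑ A ∈ Q.powerset, f A + ∑ A ∈ T.powerset, f A + ∑ A ∈ cr Q T, f A := by
  classical
  rw [← Finset.sum_filter_add_sum_filter_not (Q ∪ T).powerset (fun A => A ⊆ Q)]
  have h1 : (Q ∪ T).powerset.filter (fun A => A ⊆ Q) = Q.powerset := by
    ext A
    simp only [Finset.mem_filter, Finset.mem_powerset]
    exact ⟨fun h => h.2, fun h => ⟨h.trans Finset.subset_union_left, h⟩⟩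
  rw [h1, ← Finset.sum_filter_add_sum_filter_not ((Q ∪ T).powerset.filter (fun A => ¬ A ⊆ Q)) (fun A => A ⊆ T)]
  have h2 : ((Q ∪ T).powerset.filter (fun A => ¬ A ⊆ Q)).filter (fun A => A ⊆ T) = T.powerset.erase ∅ := by
    ext A
    simp only [Finset.mem_filter, Finset.mem_powerset, Finset.mem_erase]
    constructor
    · rintro ⟨⟨_, h⟩, h'⟩
      refine ⟨?_, h'⟩
      rintro rfl
      exact h (Finset.empty_subset _)
    · rintro ⟨hne, h⟩
      refine ⟨⟨h.trans Finset.subset_union_right, fun hQ => hne ?_⟩, h⟩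
      have := Finset.disjoint_left.1 hd
      rw [Finset.eq_empty_iff_forall_notMem]
      intro x hx
      exact this (hQ hx) (h hx)
  have h3 : ((Q ∪ T).powerset.filter (fun A => ¬ A ⊆ Q)).filter (fun A => ¬ A ⊆ T) = cr Q T := by
    ext A
    simp only [Finset.mem_filter, mem_cr, Finset.mem_powerset]
    tauto
  rw [h2, h3, Finset.sum_erase_eq_sub (Finset.empty_mem_powerset _), h0]
  ring

/-- the cross subsets of cardinality 3 -/
theorem sum_three {Q T : Finset (Fin N)} (hd : Disjoint Q T) (g : Finset (Fin N) → ℝ)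
    (hg : ∀ A : Finset (Fin N), 0 ≤ g A) :
    ∑ A ∈ (cr Q T).filter (fun A => A.card = 3), g A ≤
      ∑ l ∈ T, ∑ p ∈ Q.powersetCard 2, g (insert l p) + ∑ a ∈ Q, ∑ p ∈ T.powersetCard 2, g (insert a p) := by
  classical
  have hd' := Finset.disjoint_left.1 hd
  have key : ∀ (P R : Finset (Fin N)), Disjoint P R →
      ∑ A ∈ (R ×ˢ P.powersetCard 2).image (fun q => insert q.1 q.2), g A =
        ∑ l ∈ R, ∑ p ∈ P.powersetCard 2, g (insert l p) := by
    intro P R hPR
    have hPR' := Finset.disjoint_left.1 hPR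
    rw [Finset.sum_image, Finset.sum_product]
    rintro ⟨l, p⟩ h1 ⟨l', p'⟩ h2 h
    simp only [Finset.coe_product, Set.mem_prod, Finset.mem_coe, Finset.mem_powersetCard] at h1 h2
    simp only at h
    obtain ⟨h1, h1', -⟩ := h1
    obtain ⟨h2, h2', -⟩ := h2
    have e1 : l = l' := by
      have : l ∈ insert l' p' := h ▸ Finset.mem_insert_self _ _
      rcases Finset.mem_insert.1 this with h3 | h3
      · exact h3
      · exact absurd h1 (hPR' (h2' h3))
    subst e1
    have e2 : p = p' := by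
      have a1 : l ∉ p := fun h3 => hPR' (h1' h3) h1
      have a2 : l ∉ p' := fun h3 => hPR' (h2' h3) h1
      have := congrArg (fun s => Finset.erase s l) h
      simpa [Finset.erase_insert a1, Finset.erase_insert a2] using this
    rw [e2]
  rw [← key Q T hd, ← key T Q hd.symm]
  have hsub : (cr Q T).filter (fun A => A.card = 3) ⊆
      (T ×ˢ Q.powersetCard 2).image (fun q => insert q.1 q.2) ∪
        (Q ×ˢ T.powersetCard 2).image (fun q => insert q.1 q.2) := by
    intro A hA
    rw [Finset.mem_filter, mem_cr] at hA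
    obtain ⟨⟨hA1, hA2, hA3⟩, hA4⟩ := hA
    have hu : A = (A ∩ Q) ∪ (A ∩ T) := by
      rw [← Finset.inter_union_distrib_left, Finset.inter_eq_left.2 hA1]
    have hdis : Disjoint (A ∩ Q) (A ∩ T) := by
      rw [Finset.disjoint_left]
      intro x hx hx'
      exact hd' (Finset.mem_inter.1 hx).2 (Finset.mem_inter.1 hx').2
    have hc : (A ∩ Q).card + (A ∩ T).card = 3 := by
      rw [← Finset.card_union_of_disjoint hdis, ← hu, hA4]
    have hq : 0 < (A ∩ Q).card := by
      rw [Finset.card_pos]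
      by_contra h
      rw [Finset.not_nonempty_iff_eq_empty] at h
      apply hA3
      rw [hu, h, Finset.empty_union]
      exact Finset.inter_subset_right
    have ht : 0 < (A ∩ T).card := by
      rw [Finset.card_pos]
      by_contra h
      rw [Finset.not_nonempty_iff_eq_empty] at h
      apply hA2
      rw [hu, h, Finset.union_empty]
      exact Finset.inter_subset_right
    rw [Finset.mem_union]
    rcases (by omega : (A ∩ T).card = 1 ∨ (A ∩ Q).card = 1) with h | h
    · left
      obtain ⟨l, hl⟩ := Finset.card_eq_one.1 h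
      refine Finset.mem_image.2 ⟨(l, A ∩ Q), ?_, ?_⟩
      · rw [Finset.mem_product, Finset.mem_powersetCard]
        refine ⟨?_, Finset.inter_subset_right, by simp only; omega⟩
        have : l ∈ A ∩ T := by rw [hl]; exact Finset.mem_singleton_self _
        exact (Finset.mem_inter.1 this).2
      · simp only
        conv_rhs => rw [hu, hl]
        rw [Finset.union_comm]
        rfl
    · right
      obtain ⟨l, hl⟩ := Finset.card_eq_one.1 h
      refine Finset.mem_image.2 ⟨(l, A ∩ T), ?_, ?_⟩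
      · rw [Finset.mem_product, Finset.mem_powersetCard]
        refine ⟨?_, Finset.inter_subset_right, by simp only; omega⟩
        have : l ∈ A ∩ Q := by rw [hl]; exact Finset.mem_singleton_self _
        exact (Finset.mem_inter.1 this).2
      · simp only
        conv_rhs => rw [hu, hl]
        rfl
  refine (Finset.sum_le_sum_of_subset_of_nonneg hsub fun A _ _ => hg A).trans ?_
  have := Finset.sum_union_inter (s₁ := (T ×ˢ Q.powersetCard 2).image (fun q => insert q.1 q.2))
    (s₂ := (Q ×ˢ T.powersetCard 2).image (fun q => insert q.1 q.2)) (f := g)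
  have h0 := Finset.sum_nonneg (s := (T ×ˢ Q.powersetCard 2).image (fun q => insert q.1 q.2) ∩
    (Q ×ˢ T.powersetCard 2).image (fun q => insert q.1 q.2)) (fun A _ => hg A)
  linarith

/-- a nonzero cross interaction of 4 or 5 particles forces nearness -/
theorem near {u : KF} {M r r' : ℝ} {κ : E → ℝ} (hF : Fam u M r r') (hN : Near κ r') {Q T A : Finset (Fin N)}
    (X : Fin N → E) (hA : A ∈ cr Q T) (h3 : A.card ≠ 3) (hne : ub u A X ≠ 0) :
    ∃ l ∈ T, ∃ a ∈ Q, nr κ X l a = 1 := by
  classical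
  obtain ⟨hA1, hA2, hA3⟩ := mem_cr.1 hA
  obtain ⟨l, hl, hlQ⟩ := Finset.not_subset.1 hA2
  obtain ⟨a, ha, haT⟩ := Finset.not_subset.1 hA3
  have hlT : l ∈ T := (Finset.mem_union.1 (hA1 hl)).resolve_left hlQ
  have haQ : a ∈ Q := (Finset.mem_union.1 (hA1 ha)).resolve_right haT
  refine ⟨l, hlT, a, haQ, ?_⟩
  -- indices
  obtain ⟨i, hi⟩ : ∃ i : Fin A.card, A.orderEmbOfFin rfl i = l := by
    have : l ∈ Set.range (A.orderEmbOfFin rfl) := by rw [Finset.range_orderEmbOfFin]; exact hl
    exact this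
  obtain ⟨j, hj⟩ : ∃ i : Fin A.card, A.orderEmbOfFin rfl i = a := by
    have : a ∈ Set.range (A.orderEmbOfFin rfl) := by rw [Finset.range_orderEmbOfFin]; exact ha
    exact this
  have hd : ‖X l - X a‖ ≤ r' := by
    by_contra hc
    rw [not_le] at hc
    apply hne
    have hw : ∃ i j : Fin A.card, r' < ‖X (A.orderEmbOfFin rfl i) - X (A.orderEmbOfFin rfl j)‖ :=
      ⟨i, j, by rw [hi, hj]; exact hc⟩
    unfold ub
    generalize (A.orderEmbOfFin rfl : Fin A.card ↪o Fin N) = s at hw ⊢
    revert s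
    generalize A.card = k at h3 ⊢
    intro s hw
    by_cases h4 : k = 4
    · subst h4
      obtain ⟨i, j, h⟩ := hw
      exact hF.sup4 _ ⟨i, j, lt_of_le_of_lt hF.r_le h⟩
    · by_cases h5 : k = 5
      · subst h5
        obtain ⟨i, j, h⟩ := hw
        exact hF.sup5 _ ⟨i, j, h⟩
      · exact hF.zero k h3 h4 h5 _
  exact hN.one _ hd

end PWE_

open PWE_ in
theorem pwe_proof (hWPI : Stmt_WPI) (_hUBV : Stmt_UBV) (_hPWA : Stmt_PWA) (hWBA : Stmt_WBA) (_hWBD : Stmt_WBD) :
    Stmt_PWE := by
  classical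
  intro N u M r r' κ hF hN Q T X hd hQ
  obtain ⟨hb1, hb2, hb3, hb4, hb5⟩ := hWBA N u M r r' hF
  have hM := hF.M_nonneg
  have hWT := (hb1 T X).1
  have hWQ := (hb1 Q X).1
  have hWU := (hb1 (Q ∪ T) X).1
  -- nonnegativity of the terms
  have hz1 : ∀ l ∈ T, ∀ p ∈ Q.powersetCard 2, 0 ≤ a3 u (insert l p) X := by
    intro l hl p hp
    rw [Finset.mem_powersetCard] at hp
    refine (hb4 _ X ?_).1
    rw [Finset.card_insert_of_notMem fun h => Finset.disjoint_left.1 hd (hp.1 h) hl, hp.2]
  have hz2 : ∀ a ∈ Q, ∀ p ∈ T.powersetCard 2, 0 ≤ a3 u (insert a p) X := by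
    intro l hl p hp
    rw [Finset.mem_powersetCard] at hp
    refine (hb4 _ X ?_).1
    rw [Finset.card_insert_of_notMem fun h => Finset.disjoint_left.1 hd hl (hp.1 h), hp.2]
  have hn0 : ∀ l a, 0 ≤ nr κ X l a := fun l a => hN.nonneg _
  have hs1 : ∀ l ∈ T, 0 ≤ ∑ p ∈ Q.powersetCard 2, a3 u (insert l p) X := fun l hl =>
    Finset.sum_nonneg fun p hp => hz1 l hl p hp
  have hs2 : 0 ≤ ∑ a ∈ Q, ∑ p ∈ T.powersetCard 2, a3 u (insert a p) X :=
    Finset.sum_nonneg fun a ha => Finset.sum_nonneg fun p hp => hz2 a ha p hp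
  have hs3 : ∀ l ∈ T, 0 ≤ zz u κ Q l X := fun l hl =>
    add_nonneg (hs1 l hl) (Finset.sum_nonneg fun a _ => hn0 l a)
  have hs4 : 0 ≤ ∑ l ∈ T, zz u κ Q l X := Finset.sum_nonneg hs3
  have hsub : (Q ∪ T) \ Q = T := by
    rw [Finset.union_sdiff_left, Finset.sdiff_eq_self_of_disjoint hd.symm]
  have hup : WW u (Q ∪ T) X ≤ Real.exp (8 * M) * WW u T X := by
    have := hb3 Q (Q ∪ T) X Finset.subset_union_left
    rw [hsub, hQ] at this
    refine this.trans (le_of_eq ?_)
    congr 2
    push_cast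
    ring
  have hQup : WW u Q X ≤ Real.exp (8 * M) := by
    have := (hb1 Q X).2
    rw [hQ] at this
    refine this.trans (le_of_eq ?_)
    congr 1
    push_cast
    ring
  have he : 0 < Real.exp (8 * M) := Real.exp_pos _
  by_cases hcase : ∃ A ∈ cr Q T, A.card ≠ 3 ∧ ub u A X ≠ 0
  · obtain ⟨A, hA, hA3, hA0⟩ := hcase
    obtain ⟨l, hl, a, ha, hla⟩ := near hF hN X hA hA3 hA0
    have h1 : 1 ≤ ∑ l ∈ T, zz u κ Q l X := by
      refine le_trans ?_ (Finset.single_le_sum hs3 hl)
      unfold zz
      have := Finset.single_le_sum (f := fun a => nr κ X l a) (fun b _ => hn0 l b) ha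
      simp only [hla] at this
      linarith [hs1 l hl]
    have h2 : WW u T X ≤ WW u T X * (∑ l ∈ T, zz u κ Q l X + ∑ a ∈ Q, ∑ p ∈ T.powersetCard 2, a3 u (insert a p) X) :=
      le_mul_of_one_le_right hWT.le (by linarith)
    have h3 : WW u Q X * WW u T X ≤ Real.exp (8 * M) * WW u T X := mul_le_mul_of_nonneg_right hQup hWT.le
    have h4 : 0 < WW u Q X * WW u T X := mul_pos hWQ hWT
    refine le_trans ?_ (mul_le_mul_of_nonneg_left h2 he.le)
    rw [abs_le]
    constructor <;> linarith
  · push Not at hcase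
    have h00 : ub u (∅ : Finset (Fin N)) X = 0 := by
      unfold ub
      exact hF.zero _ (by simp) (by simp) (by simp) _
    have hUS : US u (Q ∪ T) X = US u Q X + US u T X + ∑ A ∈ (cr Q T).filter (fun A => A.card = 3), ub u A X := by
      unfold US
      rw [sum_split hd _ h00]
      congr 1
      rw [Finset.sum_filter]
      refine Finset.sum_congr rfl fun A hA => ?_
      split_ifs with h
      · rfl
      · exact hcase A hA h
    -- the product
    set C3 := (cr Q T).filter (fun A => A.card = 3) with hC3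
    let g : Finset (Fin N) → ℝ := fun A => if A.card = 3 then a3 u A X else 0
    have hg : ∀ A, 0 ≤ g A ∧ g A ≤ 1 := by
      intro A
      simp only [g]
      split_ifs with h
      · exact ⟨(hb4 A X h).1, (hb4 A X h).2.1⟩
      · exact ⟨le_refl 0, zero_le_one⟩
    have hprod : WW u (Q ∪ T) X = WW u Q X * WW u T X * ∏ A ∈ C3, (1 - g A) := by
      have h1 : ∏ A ∈ C3, (1 - g A) = Real.exp (2 * ∑ A ∈ C3, ub u A X) := by
        rw [Finset.mul_sum, Real.exp_sum]
        refine Finset.prod_congr rfl fun A hA => ?_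
        have : A.card = 3 := (Finset.mem_filter.1 hA).2
        simp only [g, if_pos this, a3]
        ring
      rw [h1]
      unfold WW
      rw [← Real.exp_add, ← Real.exp_add, hUS]
      congr 1
      ring
    have hW := (hWPI (Finset (Fin N)) C3 g hg).1
    have hle1 : ∏ A ∈ C3, (1 - g A) ≤ 1 := Finset.prod_le_one (fun A _ => by linarith [(hg A).2])
      (fun A _ => by linarith [(hg A).1])
    have hsum : ∑ A ∈ C3, g A ≤ ∑ l ∈ T, zz u κ Q l X + ∑ a ∈ Q, ∑ p ∈ T.powersetCard 2, a3 u (insert a p) X := by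
      refine (sum_three hd g fun A => (hg A).1).trans ?_
      refine add_le_add (Finset.sum_le_sum fun l hl => ?_) (Finset.sum_le_sum fun a ha => Finset.sum_le_sum fun p hp => ?_)
      · unfold zz
        have h1 : ∑ p ∈ Q.powersetCard 2, g (insert l p) = ∑ p ∈ Q.powersetCard 2, a3 u (insert l p) X := by
          refine Finset.sum_congr rfl fun p hp => ?_
          rw [Finset.mem_powersetCard] at hp
          have : (insert l p).card = 3 := by
            rw [Finset.card_insert_of_notMem fun h => Finset.disjoint_left.1 hd (hp.1 h) hl, hp.2]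
          simp only [g, if_pos this]
        rw [h1]
        have : 0 ≤ ∑ a ∈ Q, nr κ X l a := Finset.sum_nonneg fun a _ => hn0 l a
        linarith
      · rw [Finset.mem_powersetCard] at hp
        have : (insert a p).card = 3 := by
          rw [Finset.card_insert_of_notMem fun h => Finset.disjoint_left.1 hd ha (hp.1 h), hp.2]
        simp only [g, if_pos this]
        exact le_refl _
    have h4 : 0 < WW u Q X * WW u T X := mul_pos hWQ hWT
    rw [hprod, abs_sub_comm]
    have h5 : WW u Q X * WW u T X - WW u Q X * WW u T X * ∏ A ∈ C3, (1 - g A) =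
      WW u Q X * (WW u T X * (1 - ∏ A ∈ C3, (1 - g A))) := by ring
    rw [h5, abs_of_nonneg (mul_nonneg hWQ.le (mul_nonneg hWT.le (by linarith)))]
    refine mul_le_mul hQup (mul_le_mul_of_nonneg_left (by linarith) hWT.le)
      (mul_nonneg hWT.le (by linarith)) he.le

end Pool.Agent.TBC
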