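import Pool.Agent.TBC.Stmts

/-!
# Squad TBC, module REL: the functions which are integrated are of the class `Rel`
-/

set_option autoImplicit false

open MeasureTheory Filter Topology
open scoped ContDiff

namespace Pool.Agent.TBC

open Pool.Agent.TBG Pool.Agent.TBF

namespace REL_

/-- vanishes if two particles are far -/
def FarZ (R : ℝ) (v : KF) : Prop :=
  ∀ (k : ℕ) (y : Fin k → E), (∃ i j, R < ‖y i - y j‖) → v k y = 0

theorem ub_far {R : ℝ} {v : KF} (hv : FarZ R v) {N : ℕ} (A : Finset (Fin N)) (X : Fin N → E)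
    (i j : Fin N) (hi : i ∈ A) (hj : j ∈ A) (h : R < ‖X i - X j‖) : ub v A X = 0 := by
  have h1 : ∀ i ∈ A, ∃ m, A.orderEmbOfFin rfl m = i := by
    intro i hi
    have h2 : i ∈ Set.range (A.orderEmbOfFin rfl) := by
      rw [Finset.range_orderEmbOfFin]
      exact hi
    exact h2
  obtain ⟨m, hm⟩ := h1 i hi
  obtain ⟨m', hm'⟩ := h1 j hj
  apply hv
  refine ⟨m, m', ?_⟩
  rw [hm, hm']
  exact h

theorem fam_far {u : KF} {M r r' : ℝ} (h : Fam u M r r') : ∃ R : ℝ, 0 ≤ R ∧ FarZ R u := by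
  obtain ⟨R, hR⟩ := h.sup3
  refine ⟨max (max R r) (max r' 0), le_max_of_le_right (le_max_right _ _), ?_⟩
  rintro k y ⟨i, j, hij⟩
  have h1 : R < ‖y i - y j‖ := lt_of_le_of_lt ((le_max_left _ _).trans (le_max_left _ _)) hij
  have h2 : r < ‖y i - y j‖ := lt_of_le_of_lt ((le_max_right _ _).trans (le_max_left _ _)) hij
  have h3 : r' < ‖y i - y j‖ := lt_of_le_of_lt ((le_max_left _ _).trans (le_max_right _ _)) hij
  by_cases k3 : k = 3
  · subst k3
    exact hR y ⟨i, j, h1⟩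
  by_cases k4 : k = 4
  · subst k4
    exact h.sup4 y ⟨i, j, h2⟩
  by_cases k5 : k = 5
  · subst k5
    exact h.sup5 y ⟨i, j, h3⟩
  exact h.zero k k3 k4 k5 y

theorem ub_trans {v : KF} (hv : ∀ (k : ℕ) (a : E) (y : Fin k → E), v k (fun i => y i + a) = v k y)
    {N : ℕ} (A : Finset (Fin N)) (X : Fin N → E) (a : E) :
    ub v A (fun i => X i + a) = ub v A X := hv _ a _

theorem WW_trans {v : KF} (hv : ∀ (k : ℕ) (a : E) (y : Fin k → E), v k (fun i => y i + a) = v k y)
    {N : ℕ} (A : Finset (Fin N)) (X : Fin N → E) (a : E) :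
    WW v A (fun i => X i + a) = WW v A X := by
  unfold WW US
  rw [Finset.sum_congr rfl fun B _ => ub_trans hv B X a]

theorem GG_trans {u e : KF}
    (hu : ∀ (k : ℕ) (a : E) (y : Fin k → E), u k (fun i => y i + a) = u k y)
    (he : ∀ (k : ℕ) (a : E) (y : Fin k → E), e k (fun i => y i + a) = e k y)
    {N : ℕ} (A : Finset (Fin N)) (X : Fin N → E) (a : E) :
    GG u e A (fun i => X i + a) = GG u e A X := by
  unfold GG
  rw [ub_trans he, WW_trans hu]
  congr 1
  refine Finset.sum_congr rfl fun l _ => ?_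
  rw [ub_trans he, WW_trans hu]

theorem US_far {u : KF} {R : ℝ} (hR : FarZ R u) (h1 : ∀ y, u 1 y = 0) {N : ℕ}
    (S : Finset (Fin N)) (X : Fin N → E) (l : Fin N)
    (hl : ∀ k ∈ S, k ≠ l → R < ‖X l - X k‖) : US u S X = US u (S.erase l) X := by
  unfold US
  symm
  apply Finset.sum_subset
  · exact Finset.powerset_mono.2 (Finset.erase_subset _ _)
  · intro A hA hA2
    rw [Finset.mem_powerset] at hA hA2
    have hlA : l ∈ A := by
      by_contra h
      exact hA2 fun x hx => Finset.mem_erase.2 ⟨fun h2 => h (h2 ▸ hx), hA hx⟩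
    by_cases hk : ∃ k ∈ A, k ≠ l
    · obtain ⟨k, hk, hkl⟩ := hk
      exact ub_far hR A X l k hlA hk (hl k (hA hk) hkl)
    · push Not at hk
      have hA1 : A = {l} := by
        ext x
        rw [Finset.mem_singleton]
        exact ⟨fun hx => hk x hx, fun hx => hx ▸ hlA⟩
      subst hA1
      have h2 : ∀ (k : ℕ) (y : Fin k → E), k = 1 → u k y = 0 := by
        rintro k y rfl
        exact h1 y
      exact h2 _ _ (Finset.card_singleton l)

theorem G4_far {u e : KF} {R : ℝ} (hR0 : 0 ≤ R) (hu : FarZ R u) (he : FarZ R e)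
    (h1 : ∀ y, u 1 y = 0) (y : Fin 4 → E) (h : ∃ i j, 2 * R < ‖y i - y j‖) : G4 u e y = 0 := by
  obtain ⟨i, j, hij⟩ := h
  unfold G4 GG
  rw [ub_far he Finset.univ y i j (Finset.mem_univ _) (Finset.mem_univ _) (by linarith), zero_mul,
    zero_sub, neg_eq_zero]
  apply Finset.sum_eq_zero
  intro l _
  by_cases hz : ub e (Finset.univ.erase l) y = 0
  · rw [hz, zero_mul]
  · have hnear : ∀ a b : Fin 4, a ≠ l → b ≠ l → ‖y a - y b‖ ≤ R := by
      intro a b ha hb
      by_contra hc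
      push Not at hc
      exact hz (ub_far he _ y a b (Finset.mem_erase.2 ⟨ha, Finset.mem_univ _⟩)
        (Finset.mem_erase.2 ⟨hb, Finset.mem_univ _⟩) hc)
    -- one of `i`, `j` is `l`
    have hfar : ∃ j', j' ≠ l ∧ 2 * R < ‖y l - y j'‖ := by
      by_cases hi : i = l
      · subst hi
        refine ⟨j, ?_, hij⟩
        rintro rfl
        rw [sub_self, norm_zero] at hij
        linarith
      · by_cases hj : j = l
        · subst hj
          refine ⟨i, hi, ?_⟩
          rwa [norm_sub_rev]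
        · have := hnear i j hi hj
          linarith
    obtain ⟨j', hj', hd⟩ := hfar
    have hl : ∀ k ∈ (Finset.univ : Finset (Fin 4)), k ≠ l → R < ‖y l - y k‖ := by
      intro k _ hk
      have h2 := hnear j' k hj' hk
      have h3 : ‖y l - y j'‖ ≤ ‖y l - y k‖ + ‖y k - y j'‖ := by
        have : y l - y j' = (y l - y k) + (y k - y j') := by abel
        rw [this]
        exact norm_add_le _ _
      rw [norm_sub_rev (y k) (y j')] at h3
      linarith
    have h4 : WW u Finset.univ y = WW u (Finset.univ.erase l) y := by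
      unfold WW
      rw [US_far hu h1 Finset.univ y l hl]
    rw [h4, sub_self, mul_zero]

end REL_

open REL_ in
theorem rel_proof (hUBV : Stmt_UBV) (hKIV : Stmt_KIV) (_hWBA : Stmt_WBA) : Stmt_REL := by
  intro u V M r r' hF hV hVc hE
  obtain ⟨g1, -, -, g2, -, -, g3⟩ := hKIV u V hF.inv hF.smooth hV hVc
  obtain ⟨Re, hRe⟩ := hE.sup
  obtain ⟨Ru, hRu0, hRu⟩ := fam_far hF
  have huc : ∀ k, Continuous (u k) := fun k => (hF.smooth k).continuous
  have cG4 : Continuous (G4 u (ee V u)) := by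
    have a1 := (hUBV u).2.1 huc 4
    have a2 := (hUBV (ee V u)).2.1 hE.cont 4
    unfold G4 GG
    refine ((a2 _).1.mul (a1 _).2.2).sub (continuous_finset_sum _ fun l _ => ?_)
    exact (a2 _).1.mul ((a1 _).2.2.sub (a1 _).2.2)
  have tG4 : ∀ (a : E) (y : Fin 4 → E), G4 u (ee V u) (fun i => y i + a) = G4 u (ee V u) y :=
    fun a y => GG_trans hF.inv.trans hE.inv.trans _ y a
  have sG4 : ∃ R : ℝ, ∀ y : Fin 4 → E, (∃ i j, R < ‖y i - y j‖) → G4 u (ee V u) y = 0 := by
    refine ⟨2 * max Ru Re, fun y hy => G4_far (R := max Ru Re) (hRu0.trans (le_max_left _ _))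
      ?_ ?_ (fun y => hF.zero 1 (by norm_num) (by norm_num) (by norm_num) y) y hy⟩
    · rintro k y ⟨i, j, hij⟩
      exact hRu k y ⟨i, j, lt_of_le_of_lt (le_max_left _ _) hij⟩
    · rintro k y ⟨i, j, hij⟩
      exact hRe k y ⟨i, j, lt_of_le_of_lt (le_max_right _ _) hij⟩
  refine ⟨⟨?_, ?_, ?_⟩, ⟨cG4, tG4, sG4⟩, ⟨?_, ?_, ?_⟩, ⟨?_, ?_, ?_⟩, ⟨g2 3, ?_, ?_⟩,
    ⟨g2 4, ?_, ?_⟩, ⟨g2 5, ?_, ?_⟩, ⟨cG4.abs, ?_, ?_⟩⟩
  · unfold K3
    exact (hE.cont 3).mul ((Real.continuous_exp).comp ((continuous_const).mul (huc 3)))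
  · intro a y
    unfold K3
    rw [hE.inv.trans 3 a y, hF.inv.trans 3 a y]
  · refine ⟨Re, fun y hy => ?_⟩
    unfold K3
    rw [hRe 3 y hy, zero_mul]
  · exact (hE.cont 4).abs
  · intro a y
    show |ee V u 4 (fun i => y i + a)| = |ee V u 4 y|
    rw [hE.inv.trans 4 a y]
  · refine ⟨Re, fun y hy => ?_⟩
    show |ee V u 4 y| = 0
    rw [hRe 4 y hy, abs_zero]
  · exact (hE.cont 5).abs
  · intro a y
    show |ee V u 5 (fun i => y i + a)| = |ee V u 5 y|
    rw [hE.inv.trans 5 a y]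
  · refine ⟨Re, fun y hy => ?_⟩
    show |ee V u 5 y| = 0
    rw [hRe 5 y hy, abs_zero]
  · exact fun a y => g1.trans 3 a y
  · exact ⟨Ru, fun y hy => (g3 3 Ru (fun y hy => hRu 3 y hy) y hy).1⟩
  · exact fun a y => g1.trans 4 a y
  · exact ⟨Ru, fun y hy => (g3 4 Ru (fun y hy => hRu 4 y hy) y hy).1⟩
  · exact fun a y => g1.trans 5 a y
  · exact ⟨Ru, fun y hy => (g3 5 Ru (fun y hy => hRu 5 y hy) y hy).1⟩
  · intro a y
    show |G4 u (ee V u) (fun i => y i + a)| = |G4 u (ee V u) y|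
    rw [tG4]
  · obtain ⟨R, hR⟩ := sG4
    refine ⟨R, fun y hy => ?_⟩
    show |G4 u (ee V u) y| = 0
    rw [hR y hy, abs_zero]

end Pool.Agent.TBC
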