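import Pool.Agent.TBC.Stmts

/-!
# Three-body Bose gases (MP_80dc41_mp), sharp upper bound, module RTB: consequences of the ratios
-/

set_option autoImplicit false

open MeasureTheory Filter Topology
open scoped ContDiff

namespace Pool.Agent.TBC

open Pool.Agent.TBG Pool.Agent.TBF

namespace RTB_

theorem sdiff_bound {N : ℕ} (Z : Finset (Fin N) → ℝ) (η : ℝ) (h0 : 0 ≤ η) (h1 : η ≤ 1 / 2)
    (h : ∀ (S : Finset (Fin N)) (i : Fin N), i ∉ S →
      (1 - η) * Z S ≤ Z (insert i S) ∧ Z (insert i S) ≤ (1 + η) * Z S) (S : Finset (Fin N)) :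
    ∀ R : Finset (Fin N), R ⊆ S → (1 - η) ^ R.card * Z (S \ R) ≤ Z S ∧ Z S ≤ (1 + η) ^ R.card * Z (S \ R) := by
  intro R
  induction R using Finset.induction_on with
  | empty => intro _; simp
  | insert a R ha ih =>
    intro hR
    have haS : a ∈ S := hR (Finset.mem_insert_self a R)
    have hRS : R ⊆ S := (Finset.subset_insert a R).trans hR
    obtain ⟨i1, i2⟩ := ih hRS
    have h2 : insert a (S \ insert a R) = S \ R := by
      ext x
      simp only [Finset.mem_insert, Finset.mem_sdiff]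
      constructor
      · rintro (rfl | ⟨h, h'⟩)
        · exact ⟨haS, ha⟩
        · exact ⟨h, fun hx => h' (Or.inr hx)⟩
      · rintro ⟨h, h'⟩
        by_cases hx : x = a
        · exact Or.inl hx
        · exact Or.inr ⟨h, fun hc => hc.elim hx h'⟩
    have h3 : a ∉ S \ insert a R := by simp
    obtain ⟨h5, h6⟩ := h _ a h3
    rw [h2] at h5 h6
    rw [Finset.card_insert_of_notMem ha, pow_succ, pow_succ]
    have e1 : 0 ≤ 1 - η := by linarith
    have e2 : 0 ≤ 1 + η := by linarith
    constructor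
    · have h7 := mul_le_mul_of_nonneg_left h5 (pow_nonneg e1 R.card)
      rw [← mul_assoc] at h7
      exact h7.trans i1
    · have h7 := mul_le_mul_of_nonneg_left h6 (pow_nonneg e2 R.card)
      rw [← mul_assoc] at h7
      exact i2.trans h7

end RTB_

theorem rtb_proof (hCFD : Pool.Agent.TBG.Stmt_CFD) (hUBV : Stmt_UBV) (hWBA : Stmt_WBA) (_hGAC : Stmt_GAC)
    (hRTK : Stmt_RTK) : Stmt_RTB := by
  intro N L χ u κ M r r' A α η hpar
  have hχ := hpar.cut
  have hsys := hpar.sys
  have hfam := hsys.fam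
  have hA0 := hsys.A_nonneg
  have hp : IsProbabilityMeasure (nu χ) := (hCFD L χ hχ).1
  have hP : IsProbabilityMeasure (PP χ N) := by unfold PP; infer_instance
  obtain ⟨-, hU2, -⟩ := hUBV u
  have hcu : ∀ k, Continuous (u k) := fun k => (hfam.smooth k).continuous
  obtain ⟨hWpos, -, -, -, -⟩ := hWBA N u M r r' hfam
  have hcW : ∀ S : Finset (Fin N), Continuous (WW u S) := fun S => (hU2 hcu N S).2.2
  have hα0 : 0 ≤ α := by
    refine le_trans (integral_nonneg fun z => ?_) hsys.kera
    unfold ga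
    have h1 := hfam.le3 ![0, -z.1, -z.2]
    have h2 : Real.exp (2 * u 3 ![0, -z.1, -z.2]) ≤ 1 := by
      rw [Real.exp_le_one_iff]
      linarith
    show (0 : ℝ) ≤ _
    linarith
  have hvv : 0 < vv χ := hχ.pos
  have hη0 : 0 ≤ η := by
    refine le_trans ?_ hpar.small
    have := hvv
    positivity
  have hη1 := hpar.half
  have hintW1 : ∀ S : Finset (Fin N), Integrable (WW u S) (PP χ N) := by
    intro S
    refine (integrable_const (Real.exp (2 * M * S.card))).mono' (hcW S).aestronglyMeasurable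
      (ae_of_all _ fun X => ?_)
    rw [Real.norm_eq_abs, abs_of_nonneg (hWpos S X).1.le]
    exact (hWpos S X).2
  have hZ : ∀ T : Finset (Fin N), 0 < ZW u χ T := by
    intro T
    unfold ZW
    rw [integral_pos_iff_support_of_nonneg (fun X => (hWpos T X).1.le) (hintW1 T)]
    have h1 : Function.support (WW u T) = Set.univ := by
      ext X
      simp only [Function.mem_support, Set.mem_univ, iff_true]
      exact (hWpos T X).1.ne'
    rw [h1, measure_univ]
    exact one_pos
  have hrt := fun (S : Finset (Fin N)) (i : Fin N) (hi : i ∉ S) => hRTK N L χ u κ M r r' A α η hpar S i hi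
  have hb := fun R : Finset (Fin N) =>
    RTB_.sdiff_bound (ZW u χ) η hη0 hη1 hrt Finset.univ R (Finset.subset_univ R)
  refine ⟨hη0, hα0, hvv, hZ _, fun R => ⟨hZ R, ?_⟩, fun R hR => ?_, fun R hR => ?_⟩
  · have h1 := (hb R).1
    have h2 : (1 / 2 : ℝ) ^ R.card ≤ (1 - η) ^ R.card := pow_le_pow_left₀ (by norm_num) (by linarith) _
    have h3 := mul_le_mul_of_nonneg_right h2 (hZ (Finset.univ \ R)).le
    have h4 : (2 : ℝ) ^ R.card * ((1 / 2) ^ R.card * ZW u χ (Finset.univ \ R)) = ZW u χ (Finset.univ \ R) := by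
      rw [← mul_assoc, ← mul_pow]
      norm_num
    rw [← h4]
    exact mul_le_mul_of_nonneg_left (h3.trans h1) (by positivity)
  · obtain ⟨h1, h2⟩ := hb R
    have hz := hZ (Finset.univ \ R)
    have hz1 := hZ (Finset.univ : Finset (Fin N))
    have e1 : (1 - η) ^ 4 ≤ (1 - η) ^ R.card := pow_le_pow_of_le_one (by linarith) (by linarith) hR
    have e2 : (1 + η) ^ R.card ≤ (1 + η) ^ 4 := pow_le_pow_right₀ (by linarith) hR
    have h3 := (mul_le_mul_of_nonneg_right e1 hz.le).trans h1
    have h4 := h2.trans (mul_le_mul_of_nonneg_right e2 hz.le)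
    have p1 : 1 ≤ (1 + 30 * η) * (1 - η) ^ 4 := by
      have h5 : (1 + 30 * η) * (1 - η) ^ 4 - 1 =
          η * ((1 - 2 * η) * (26 - 62 * η + 52 * η ^ 2 - 15 * η ^ 3)) := by ring
      have h6 : 0 ≤ 26 - 62 * η + 52 * η ^ 2 - 15 * η ^ 3 := by
        have h7 : η ^ 3 ≤ 1 / 2 * η ^ 2 := by
          have := mul_le_mul_of_nonneg_right hη1 (sq_nonneg η)
          calc η ^ 3 = η * η ^ 2 := by ring
            _ ≤ 1 / 2 * η ^ 2 := this
        nlinarith [sq_nonneg (η - 1 / 2), sq_nonneg η]
      have h8 : 0 ≤ η * ((1 - 2 * η) * (26 - 62 * η + 52 * η ^ 2 - 15 * η ^ 3)) :=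
        mul_nonneg hη0 (mul_nonneg (by linarith) h6)
      linarith
    have p2 : (1 + η) ^ 4 ≤ 1 + 30 * η := by
      have h5 : η ^ 2 ≤ η := by nlinarith
      have h6 : η ^ 3 ≤ η := by
        calc η ^ 3 = η ^ 2 * η := by ring
          _ ≤ 1 * η := mul_le_mul_of_nonneg_right (by nlinarith) hη0
          _ = η := one_mul η
      have h7 : η ^ 4 ≤ η := by
        calc η ^ 4 = η ^ 3 * η := by ring
          _ ≤ 1 * η := mul_le_mul_of_nonneg_right (by linarith) hη0
          _ = η := one_mul η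
      nlinarith
    rw [abs_le]
    constructor
    · -- ZW univ - ZW (univ \ R) ≤ 30 η ZW univ
      by_cases hc : ZW u χ (Finset.univ : Finset (Fin N)) ≤ ZW u χ (Finset.univ \ R)
      · have : 0 ≤ 30 * η * ZW u χ (Finset.univ : Finset (Fin N)) := by positivity
        linarith
      · push Not at hc
        have h5 := mul_le_mul_of_nonneg_right p2 hz.le
        have h6 : η * ZW u χ (Finset.univ \ R) ≤ η * ZW u χ (Finset.univ : Finset (Fin N)) :=
          mul_le_mul_of_nonneg_left hc.le hη0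
        linarith
    · have h5 := mul_le_mul_of_nonneg_right p1 hz.le
      have h6 := mul_le_mul_of_nonneg_left h3 (by linarith : (0 : ℝ) ≤ 1 + 30 * η)
      linarith
  · obtain ⟨h1, -⟩ := hb R
    rw [hR] at h1
    have hz := hZ (Finset.univ \ R)
    have p1 : 1 ≤ (1 + 14 * η) * (1 - η) ^ 3 := by
      have h5 : (1 + 14 * η) * (1 - η) ^ 3 - 1 = η * ((1 - 2 * η) * (11 - 17 * η + 7 * η ^ 2)) := by ring
      have h6 : 0 ≤ 11 - 17 * η + 7 * η ^ 2 := by nlinarith [sq_nonneg η]
      have h8 : 0 ≤ η * ((1 - 2 * η) * (11 - 17 * η + 7 * η ^ 2)) :=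
        mul_nonneg hη0 (mul_nonneg (by linarith) h6)
      linarith
    have h5 := mul_le_mul_of_nonneg_right p1 hz.le
    have h6 := mul_le_mul_of_nonneg_left h1 (by linarith : (0 : ℝ) ≤ 1 + 14 * η)
    linarith

end Pool.Agent.TBC
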