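import Pool.Agent.TBC.Stmts

/-!
# Three-body Bose gases (MP_80dc41_mp), sharp upper bound, module RTK: ratios of normalisations
-/

set_option autoImplicit false

open MeasureTheory Filter Topology
open scoped ContDiff

namespace Pool.Agent.TBC

open Pool.Agent.TBG Pool.Agent.TBF

namespace RTK_

theorem erase_bound {N : ℕ} (Z : Finset (Fin N) → ℝ) (η : ℝ) (hη : η ≤ 1 / 2) (hZ : ∀ T, 0 ≤ Z T)
    (S : Finset (Fin N)) (h : ∀ S' : Finset (Fin N), S'.card < S.card → ∀ i, i ∉ S' →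
      (1 - η) * Z S' ≤ Z (insert i S')) :
    ∀ R : Finset (Fin N), R ⊆ S → Z (S \ R) ≤ 2 ^ R.card * Z S := by
  intro R
  induction R using Finset.induction_on with
  | empty => intro _; simp
  | insert a R ha ih =>
    intro hR
    have haS : a ∈ S := hR (Finset.mem_insert_self a R)
    have hRS : R ⊆ S := (Finset.subset_insert a R).trans hR
    have h1 := ih hRS
    have h2 : insert a (S \ insert a R) = S \ R := by
      ext x
      simp only [Finset.mem_insert, Finset.mem_sdiff]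
      constructor
      · rintro (rfl | ⟨h, h'⟩)
        · exact ⟨haS, ha⟩
        · exact ⟨h, fun hx => h' (Or.inr hx)⟩
      · rintro ⟨h, h'⟩
        by_cases hx : x = a
        · exact Or.inl hx
        · exact Or.inr ⟨h, fun hc => hc.elim hx h'⟩
    have h3 : a ∉ S \ insert a R := by simp
    have h4 : (S \ insert a R).card < S.card := by
      refine Finset.card_lt_card (Finset.ssubset_iff_subset_ne.2 ⟨Finset.sdiff_subset, fun hc => ?_⟩)
      rw [hc] at h3
      exact h3 haS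
    have h5 := h _ h4 a h3
    rw [h2] at h5
    rw [Finset.card_insert_of_notMem ha, pow_succ]
    have h6 := hZ (S \ insert a R)
    have h7 : 1 / 2 * Z (S \ insert a R) ≤ (1 - η) * Z (S \ insert a R) :=
      mul_le_mul_of_nonneg_right (by linarith) h6
    linarith

theorem card2 {N : ℕ} (S : Finset (Fin N)) : ((S.powersetCard 2).card : ℝ) ≤ (N : ℝ) ^ 2 / 2 := by
  rw [Finset.card_powersetCard]
  have h1 : S.card ≤ N := by simpa using Finset.card_le_univ S
  have h2 := Nat.choose_le_pow_div (α := ℝ) 2 S.card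
  have h3 : (S.card : ℝ) ≤ (N : ℝ) := by exact_mod_cast h1
  have h4 : (0 : ℝ) ≤ (S.card : ℝ) := Nat.cast_nonneg _
  have h5 : (S.card : ℝ) ^ 2 ≤ (N : ℝ) ^ 2 := pow_le_pow_left₀ h4 h3 2
  have h6 : ((Nat.factorial 2 : ℕ) : ℝ) = 2 := by norm_num [Nat.factorial]
  rw [h6] at h2
  linarith

theorem card3 {N : ℕ} (S : Finset (Fin N)) : ((S.powersetCard 3).card : ℝ) ≤ (N : ℝ) ^ 3 / 6 := by
  rw [Finset.card_powersetCard]
  have h1 : S.card ≤ N := by simpa using Finset.card_le_univ S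
  have h2 := Nat.choose_le_pow_div (α := ℝ) 3 S.card
  have h3 : (S.card : ℝ) ≤ (N : ℝ) := by exact_mod_cast h1
  have h4 : (0 : ℝ) ≤ (S.card : ℝ) := Nat.cast_nonneg _
  have h5 : (S.card : ℝ) ^ 3 ≤ (N : ℝ) ^ 3 := pow_le_pow_left₀ h4 h3 3
  have h6 : ((Nat.factorial 3 : ℕ) : ℝ) = 6 := by norm_num [Nat.factorial]
  rw [h6] at h2
  linarith

end RTK_

theorem rtk_proof (hCFD : Pool.Agent.TBG.Stmt_CFD) (hUBV : Stmt_UBV) (hWBA : Stmt_WBA) (hWBD : Stmt_WBD)
    (hPWB : Stmt_PWB) (hDEC : Stmt_DEC) (hTRB : Stmt_TRB) (hTRC : Stmt_TRC) : Stmt_RTK := by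
  intro N L χ u κ M r r' A α η hpar
  have hχ := hpar.cut
  have hsys := hpar.sys
  have hfam := hsys.fam
  have hnear := hsys.near
  have hA0 := hsys.A_nonneg
  have hM0 := hfam.M_nonneg
  have hp : IsProbabilityMeasure (nu χ) := (hCFD L χ hχ).1
  have hP : IsProbabilityMeasure (PP χ N) := by unfold PP; infer_instance
  obtain ⟨hU1, hU2, -⟩ := hUBV u
  have hcu : ∀ k, Continuous (u k) := fun k => (hfam.smooth k).continuous
  obtain ⟨hWpos, -, -, hW4, hW5⟩ := hWBA N u M r r' hfam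
  obtain ⟨hD1, -⟩ := hWBD N u M r r' κ hfam hnear
  have hcW : ∀ S : Finset (Fin N), Continuous (WW u S) := fun S => (hU2 hcu N S).2.2
  have hα0 : 0 ≤ α := by
    refine le_trans (integral_nonneg fun z => ?_) hsys.kera
    unfold ga
    have h1 := hfam.le3 ![0, -z.1, -z.2]
    have h2 : Real.exp (2 * u 3 ![0, -z.1, -z.2]) ≤ 1 := by
      rw [Real.exp_le_one_iff]
      linarith
    show (0 : ℝ) ≤ _
    linarith
  have hvv : 0 ≤ (vv χ)⁻¹ := by
    refine inv_nonneg.2 ?_
    unfold vv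
    exact integral_nonneg fun x => sq_nonneg _
  -- integrability of the products
  have hint : ∀ g : (Fin N → E) → ℝ, Continuous g → (∀ X, 0 ≤ g X ∧ g X ≤ 1) →
      Integrable g (PP χ N) := by
    intro g hg hb
    refine (integrable_const (1 : ℝ)).mono' hg.aestronglyMeasurable (ae_of_all _ fun X => ?_)
    rw [Real.norm_eq_abs, abs_of_nonneg (hb X).1]
    exact (hb X).2
  have hintW : ∀ (S : Finset (Fin N)) (g : (Fin N → E) → ℝ), Continuous g → (∀ X, 0 ≤ g X ∧ g X ≤ 1) →
      Integrable (fun X => WW u S X * g X) (PP χ N) := by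
    intro S g hg hb
    refine (integrable_const (Real.exp (2 * M * S.card))).mono' ((hcW S).mul hg).aestronglyMeasurable
      (ae_of_all _ fun X => ?_)
    rw [Real.norm_eq_abs, abs_of_nonneg (mul_nonneg (hWpos S X).1.le (hb X).1)]
    have h1 := mul_le_mul_of_nonneg_left (hb X).2 (hWpos S X).1.le
    rw [mul_one] at h1
    exact h1.trans (hWpos S X).2
  have hintW1 : ∀ S : Finset (Fin N), Integrable (WW u S) (PP χ N) := by
    intro S
    have h1 := hintW S (fun _ => 1) continuous_const (fun X => ⟨zero_le_one, le_refl _⟩)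
    simpa using h1
  have hZ0 : ∀ T : Finset (Fin N), 0 ≤ ZW u χ T := fun T =>
    integral_nonneg fun X => (hWpos T X).1.le
  have hone : Bnn (N := N) (fun _ => (1 : ℝ)) := ⟨measurable_const, fun _ => zero_le_one, 1, fun _ => le_refl _⟩
  have hdone : ∀ S : Finset (Fin N), Dep S (fun _ : Fin N → E => (1 : ℝ)) := fun S X Y _ => rfl
  have hI1 : ∫ _X : Fin N → E, (1 : ℝ) ∂(PP χ N) = 1 := by simp
  -- the bad triples with `i` and the near quadruples
  have hpr01 : ∀ (t : Finset (Fin N)) (i : Fin N) (X : Fin N → E), 0 ≤ ∏ a ∈ t, nr κ X i a ∧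
      ∏ a ∈ t, nr κ X i a ≤ 1 := by
    intro t i X
    exact ⟨Finset.prod_nonneg fun a _ => ((hD1 i a).2 X).1,
      Finset.prod_le_one (fun a _ => ((hD1 i a).2 X).1) (fun a _ => ((hD1 i a).2 X).2)⟩
  have hprc : ∀ (t : Finset (Fin N)) (i : Fin N), Continuous (fun X : Fin N → E => ∏ a ∈ t, nr κ X i a) :=
    fun t i => continuous_finset_prod _ fun a _ => (hD1 i a).1
  have hpair : ∀ (S p : Finset (Fin N)) (i : Fin N), i ∉ S → p ⊆ S → p.card = 2 →
      ∫ X, WW u S X * a3 u (insert i p) X ∂(PP χ N) ≤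
        Real.exp (4 * M) * ZW u χ (S \ p) * ((vv χ)⁻¹ ^ 2 * α) := by
    intro S p i hi hpS hpc
    have hip : i ∉ p := fun h => hi (hpS h)
    have hc3 : (insert i p).card = 3 := by rw [Finset.card_insert_of_notMem hip, hpc]
    have h01 : ∀ X, 0 ≤ a3 u (insert i p) X ∧ a3 u (insert i p) X ≤ 1 := fun X =>
      ⟨(hW4 _ X hc3).1, (hW4 _ X hc3).2.1⟩
    have hca := (hW5 (insert i p)).1
    have h1 := hDEC N L χ u M r r' S p (insert i p) (a3 u (insert i p)) hχ hfam hpS (by
      rw [Finset.disjoint_left]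
      intro x hx hx'
      rw [Finset.mem_sdiff] at hx
      rcases Finset.mem_insert.1 hx' with h | h
      · exact hi (h ▸ hx.1)
      · exact hx.2 h) hca.measurable (fun X => (h01 X).1) (hint _ hca h01) (hW5 (insert i p)).2
    have h2 := hTRB N L χ u κ M r r' A α {i} p i (fun _ => 1) hχ hsys (Finset.mem_singleton_self i) (by
      rw [Finset.disjoint_singleton_right]
      exact hip) hpc hone (hdone _)
    rw [hI1] at h2
    simp only [one_mul, mul_one] at h2
    have h3 : 2 * M * ((p.card : ℕ) : ℝ) = 4 * M := by rw [hpc]; push_cast; ring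
    rw [h3] at h1
    exact h1.trans (mul_le_mul_of_nonneg_left h2 (mul_nonneg (Real.exp_pos _).le (hZ0 _)))
  have htrip : ∀ (S t : Finset (Fin N)) (i : Fin N), i ∉ S → t ⊆ S → t.card = 3 →
      ∫ X, WW u S X * ∏ a ∈ t, nr κ X i a ∂(PP χ N) ≤
        Real.exp (6 * M) * ZW u χ (S \ t) * (A / vv χ) ^ 3 := by
    intro S t i hi htS htc
    have hit : i ∉ t := fun h => hi (htS h)
    have h1 := hDEC N L χ u M r r' S t (insert i t) (fun X => ∏ a ∈ t, nr κ X i a) hχ hfam htS (by
      rw [Finset.disjoint_left]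
      intro x hx hx'
      rw [Finset.mem_sdiff] at hx
      rcases Finset.mem_insert.1 hx' with h | h
      · exact hi (h ▸ hx.1)
      · exact hx.2 h) (hprc t i).measurable (fun X => (hpr01 t i X).1) (hint _ (hprc t i) (hpr01 t i))
      (fun X Y h => Finset.prod_congr rfl fun a ha => by
        unfold nr
        rw [h i (Finset.mem_insert_self i t), h a (Finset.mem_insert_of_mem ha)])
    have h2 := hTRC N L χ u κ M r r' A α {i} t i (fun _ => 1) hχ hsys (Finset.mem_singleton_self i) (by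
      rw [Finset.disjoint_singleton_right]
      exact hit) htc hone (hdone _)
    rw [hI1] at h2
    simp only [one_mul, mul_one] at h2
    have h3 : 2 * M * ((t.card : ℕ) : ℝ) = 6 * M := by rw [htc]; push_cast; ring
    rw [h3] at h1
    exact h1.trans (mul_le_mul_of_nonneg_left h2 (mul_nonneg (Real.exp_pos _).le (hZ0 _)))
  -- the sums
  have hsum2 : ∀ (S : Finset (Fin N)) (i : Fin N), i ∉ S →
      (∀ R : Finset (Fin N), R ⊆ S → ZW u χ (S \ R) ≤ 2 ^ R.card * ZW u χ S) →
      ∑ p ∈ S.powersetCard 2, ∫ X, WW u S X * a3 u (insert i p) X ∂(PP χ N) ≤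
        2 * ((N : ℝ) / vv χ) ^ 2 * (Real.exp (4 * M) * α) * ZW u χ S := by
    intro S i hi hR
    have hq : 0 ≤ Real.exp (4 * M) * (4 * ZW u χ S) * ((vv χ)⁻¹ ^ 2 * α) := by
      have := hZ0 S
      positivity
    calc ∑ p ∈ S.powersetCard 2, ∫ X, WW u S X * a3 u (insert i p) X ∂(PP χ N)
        ≤ ∑ p ∈ S.powersetCard 2, Real.exp (4 * M) * (4 * ZW u χ S) * ((vv χ)⁻¹ ^ 2 * α) := by
          refine Finset.sum_le_sum fun p hpm => ?_
          obtain ⟨hpS, hpc⟩ := Finset.mem_powersetCard.1 hpm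
          refine (hpair S p i hi hpS hpc).trans ?_
          have h1 := hR p hpS
          rw [hpc] at h1
          refine mul_le_mul_of_nonneg_right (mul_le_mul_of_nonneg_left ?_ (Real.exp_pos _).le)
            (mul_nonneg (pow_nonneg hvv 2) hα0)
          linarith
      _ = ((S.powersetCard 2).card : ℝ) * (Real.exp (4 * M) * (4 * ZW u χ S) * ((vv χ)⁻¹ ^ 2 * α)) := by
          rw [Finset.sum_const, nsmul_eq_mul]
      _ ≤ (N : ℝ) ^ 2 / 2 * (Real.exp (4 * M) * (4 * ZW u χ S) * ((vv χ)⁻¹ ^ 2 * α)) :=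
          mul_le_mul_of_nonneg_right (RTK_.card2 S) hq
      _ = 2 * ((N : ℝ) / vv χ) ^ 2 * (Real.exp (4 * M) * α) * ZW u χ S := by
          rw [div_eq_mul_inv]
          ring
  have hsum3 : ∀ (S : Finset (Fin N)) (i : Fin N), i ∉ S →
      (∀ R : Finset (Fin N), R ⊆ S → ZW u χ (S \ R) ≤ 2 ^ R.card * ZW u χ S) →
      ∑ t ∈ S.powersetCard 3, ∫ X, WW u S X * ∏ a ∈ t, nr κ X i a ∂(PP χ N) ≤
        2 * ((N : ℝ) / vv χ) ^ 3 * (Real.exp (6 * M) * A ^ 3) * ZW u χ S := by
    intro S i hi hR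
    have hq : 0 ≤ Real.exp (6 * M) * (8 * ZW u χ S) * (A * (vv χ)⁻¹) ^ 3 := by
      have := hZ0 S
      positivity
    calc ∑ t ∈ S.powersetCard 3, ∫ X, WW u S X * ∏ a ∈ t, nr κ X i a ∂(PP χ N)
        ≤ ∑ t ∈ S.powersetCard 3, Real.exp (6 * M) * (8 * ZW u χ S) * (A * (vv χ)⁻¹) ^ 3 := by
          refine Finset.sum_le_sum fun t htm => ?_
          obtain ⟨htS, htc⟩ := Finset.mem_powersetCard.1 htm
          refine (htrip S t i hi htS htc).trans ?_
          rw [div_eq_mul_inv]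
          have h1 := hR t htS
          rw [htc] at h1
          refine mul_le_mul_of_nonneg_right (mul_le_mul_of_nonneg_left ?_ (Real.exp_pos _).le)
            (pow_nonneg (mul_nonneg hA0 hvv) 3)
          linarith
      _ = ((S.powersetCard 3).card : ℝ) * (Real.exp (6 * M) * (8 * ZW u χ S) * (A * (vv χ)⁻¹) ^ 3) := by
          rw [Finset.sum_const, nsmul_eq_mul]
      _ ≤ (N : ℝ) ^ 3 / 6 * (Real.exp (6 * M) * (8 * ZW u χ S) * (A * (vv χ)⁻¹) ^ 3) :=
          mul_le_mul_of_nonneg_right (RTK_.card3 S) hq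
      _ = 8 / 6 * ((N : ℝ) / vv χ) ^ 3 * (Real.exp (6 * M) * A ^ 3) * ZW u χ S := by
          rw [div_eq_mul_inv (N : ℝ)]
          ring
      _ ≤ 2 * ((N : ℝ) / vv χ) ^ 3 * (Real.exp (6 * M) * A ^ 3) * ZW u χ S := by
          have h1 : 0 ≤ ((N : ℝ) / vv χ) ^ 3 * (Real.exp (6 * M) * A ^ 3) * ZW u χ S := by
            have := hZ0 S
            rw [div_eq_mul_inv]
            positivity
          nlinarith
  have hx0 : 0 ≤ ((N : ℝ) / vv χ) ^ 2 * (Real.exp (4 * M) * α) := by
    rw [div_eq_mul_inv]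
    positivity
  have hy0 : 0 ≤ ((N : ℝ) / vv χ) ^ 3 * (Real.exp (8 * M) * A ^ 3) := by
    rw [div_eq_mul_inv]
    positivity
  have hx6 : ((N : ℝ) / vv χ) ^ 3 * (Real.exp (6 * M) * A ^ 3) ≤
      ((N : ℝ) / vv χ) ^ 3 * (Real.exp (8 * M) * A ^ 3) := by
    refine mul_le_mul_of_nonneg_left (mul_le_mul_of_nonneg_right ?_ (pow_nonneg hA0 3)) ?_
    · exact Real.exp_le_exp.2 (by linarith)
    · rw [div_eq_mul_inv]
      positivity
  have hsmall := hpar.small
  have hhalf := hpar.half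
  -- integrated inequalities
  have hlow : ∀ (S : Finset (Fin N)) (i : Fin N), i ∉ S →
      ZW u χ S - ∑ p ∈ S.powersetCard 2, ∫ X, WW u S X * a3 u (insert i p) X ∂(PP χ N) -
        ∑ t ∈ S.powersetCard 3, ∫ X, WW u S X * ∏ a ∈ t, nr κ X i a ∂(PP χ N) ≤ ZW u χ (insert i S) := by
    intro S i hi
    have hc3 : ∀ p ∈ S.powersetCard 2, (insert i p).card = 3 := by
      intro p hpm
      obtain ⟨hpS, hpc⟩ := Finset.mem_powersetCard.1 hpm
      rw [Finset.card_insert_of_notMem (fun h => hi (hpS h)), hpc]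
    have hi2 : ∀ p ∈ S.powersetCard 2, Integrable (fun X => WW u S X * a3 u (insert i p) X) (PP χ N) :=
      fun p hpm => hintW S _ (hW5 (insert i p)).1 fun X =>
        ⟨(hW4 _ X (hc3 p hpm)).1, (hW4 _ X (hc3 p hpm)).2.1⟩
    have hi3 : ∀ t ∈ S.powersetCard 3, Integrable (fun X => WW u S X * ∏ a ∈ t, nr κ X i a) (PP χ N) :=
      fun t _ => hintW S _ (hprc t i) (hpr01 t i)
    rw [← integral_finsetSum _ hi2, ← integral_finsetSum _ hi3]
    unfold ZW
    have hs2 : Integrable (fun X => ∑ p ∈ S.powersetCard 2, WW u S X * a3 u (insert i p) X) (PP χ N) :=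
      integrable_finsetSum _ hi2
    have hs3 : Integrable (fun X => ∑ t ∈ S.powersetCard 3, WW u S X * ∏ a ∈ t, nr κ X i a) (PP χ N) :=
      integrable_finsetSum _ hi3
    have hs4 : Integrable (fun X => WW u S X - ∑ p ∈ S.powersetCard 2, WW u S X * a3 u (insert i p) X)
        (PP χ N) := (hintW1 S).sub hs2
    rw [← integral_sub (hintW1 S) hs2, ← integral_sub hs4 hs3]
    refine integral_mono (hs4.sub hs3) (hintW1 _) fun X => ?_
    have h1 := (hPWB N u M r r' κ hfam hnear S i X hi).1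
    show WW u S X - ∑ p ∈ S.powersetCard 2, WW u S X * a3 u (insert i p) X -
      ∑ t ∈ S.powersetCard 3, WW u S X * ∏ a ∈ t, nr κ X i a ≤ WW u (insert i S) X
    rw [← Finset.mul_sum, ← Finset.mul_sum]
    linarith
  have hupp : ∀ (S : Finset (Fin N)) (i : Fin N), i ∉ S →
      ZW u χ (insert i S) ≤ ZW u χ S + Real.exp (2 * M) *
        ∑ t ∈ S.powersetCard 3, ∫ X, WW u S X * ∏ a ∈ t, nr κ X i a ∂(PP χ N) := by
    intro S i hi
    have hi3 : ∀ t ∈ S.powersetCard 3, Integrable (fun X => WW u S X * ∏ a ∈ t, nr κ X i a) (PP χ N) :=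
      fun t _ => hintW S _ (hprc t i) (hpr01 t i)
    rw [← integral_finsetSum _ hi3, ← integral_const_mul]
    unfold ZW
    rw [← integral_add (hintW1 S) ((integrable_finsetSum _ hi3).const_mul _)]
    refine integral_mono (hintW1 _) ((hintW1 S).add ((integrable_finsetSum _ hi3).const_mul _)) fun X => ?_
    have h1 := (hPWB N u M r r' κ hfam hnear S i X hi).2
    show WW u (insert i S) X ≤ WW u S X + Real.exp (2 * M) *
      ∑ t ∈ S.powersetCard 3, WW u S X * ∏ a ∈ t, nr κ X i a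
    rw [← Finset.mul_sum]
    linarith
  have key : ∀ (n : ℕ) (S : Finset (Fin N)), S.card = n → ∀ i, i ∉ S →
      (1 - η) * ZW u χ S ≤ ZW u χ (insert i S) := by
    intro n
    induction n using Nat.strong_induction_on with
    | _ n ih =>
      intro S hS i hi
      have hR := RTK_.erase_bound (ZW u χ) η hhalf hZ0 S (fun S' hS' j hj => ih _ (hS ▸ hS') S' rfl j hj)
      have h1 := hlow S i hi
      have h2 := hsum2 S i hi hR
      have h3 := hsum3 S i hi hR
      have h4 := mul_le_mul_of_nonneg_right hsmall (hZ0 S)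
      have h5 := mul_le_mul_of_nonneg_right hx6 (hZ0 S)
      linarith
  intro S i hi
  refine ⟨key S.card S rfl i hi, ?_⟩
  have hR := RTK_.erase_bound (ZW u χ) η hhalf hZ0 S (fun S' _ j hj => key _ S' rfl j hj)
  have h1 := hupp S i hi
  have h3 := hsum3 S i hi hR
  have h4 := mul_le_mul_of_nonneg_right hsmall (hZ0 S)
  have h5 := mul_le_mul_of_nonneg_left h3 (Real.exp_pos (2 * M)).le
  have h6 : Real.exp (2 * M) * (2 * ((N : ℝ) / vv χ) ^ 3 * (Real.exp (6 * M) * A ^ 3) * ZW u χ S) =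
      2 * ((N : ℝ) / vv χ) ^ 3 * (Real.exp (8 * M) * A ^ 3) * ZW u χ S := by
    have h7 : Real.exp (8 * M) = Real.exp (2 * M) * Real.exp (6 * M) := by
      rw [← Real.exp_add]
      ring_nf
    rw [h7]
    ring
  have h8 := mul_nonneg hx0 (hZ0 S)
  rw [h6] at h5
  linarith

end Pool.Agent.TBC
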