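import Pool.Agent.TBC.Stmts

/-!
# Squad TBC, module SUM: a triple and a particle form a set of four particles
-/

set_option autoImplicit false

namespace Pool.Agent.TBC

theorem sum_proof : Stmt_SUM := by
  intro N F
  rw [Finset.sum_sigma', Finset.sum_sigma']
  refine Finset.sum_bij' (fun p _ => ⟨insert p.2 p.1, p.2⟩) (fun p _ => ⟨p.1.erase p.2, p.2⟩)
    ?_ ?_ ?_ ?_ ?_
  · rintro ⟨t, l⟩ h
    rw [Finset.mem_sigma, Finset.mem_powersetCard, Finset.mem_sdiff] at h
    rw [Finset.mem_sigma, Finset.mem_powersetCard]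
    refine ⟨⟨Finset.subset_univ _, ?_⟩, Finset.mem_insert_self _ _⟩
    rw [Finset.card_insert_of_notMem h.2.2, h.1.2]
  · rintro ⟨q, l⟩ h
    rw [Finset.mem_sigma, Finset.mem_powersetCard] at h
    rw [Finset.mem_sigma, Finset.mem_powersetCard, Finset.mem_sdiff]
    refine ⟨⟨Finset.subset_univ _, ?_⟩, Finset.mem_univ _, Finset.notMem_erase _ _⟩
    rw [Finset.card_erase_of_mem h.2, h.1.2]
  · rintro ⟨t, l⟩ h
    rw [Finset.mem_sigma, Finset.mem_powersetCard, Finset.mem_sdiff] at h
    simp only [Finset.erase_insert h.2.2]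
  · rintro ⟨q, l⟩ h
    rw [Finset.mem_sigma, Finset.mem_powersetCard] at h
    simp only [Finset.insert_erase h.2]
  · rintro ⟨t, l⟩ h
    rw [Finset.mem_sigma, Finset.mem_powersetCard, Finset.mem_sdiff] at h
    simp only [Finset.erase_insert h.2.2]

end Pool.Agent.TBC
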