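import Pool.Agent.TBC.Stmts

set_option autoImplicit false

open MeasureTheory Filter Topology
open scoped ContDiff

namespace Pool.Agent.TBC

open Pool.Agent.TBG Pool.Agent.TBF

namespace TRA_

/-- slices of compactly supported continuous functions -/
theorem slice_int (g : E × E → ℝ) (hc : Continuous g) (hs : HasCompactSupport g) (x w : E) :
    Integrable (fun y : E => g (x, w - y)) := by
  have hcont : Continuous (fun y : E => g (x, w - y)) := by fun_prop
  refine hcont.integrable_of_hasCompactSupport ?_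
  refine HasCompactSupport.intro (K := (fun z : E × E => w - z.2) '' (tsupport g)) ?_ ?_
  · exact hs.isCompact.image (by fun_prop)
  · intro y hy
    by_contra h
    apply hy
    refine ⟨(x, w - y), subset_tsupport g h, ?_⟩
    simp

end TRA_

open TRA_ in
theorem tra_proof (hCFD : Pool.Agent.TBG.Stmt_CFD) (_hUBV : Stmt_UBV) (hWBA : Stmt_WBA) (hWBD : Stmt_WBD)
    (hGAC : Stmt_GAC) (hOB1 : Stmt_OB1) : Stmt_TRA := by
  intro N L χ u κ M r r' A α S Q l H hχ hS hQS hl hH hHd
  obtain ⟨hprob, -, -⟩ := hCFD L χ hχ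
  haveI := hprob
  haveI : IsProbabilityMeasure (PP χ N) := by
    unfold PP; infer_instance
  obtain ⟨hHm, hH0, CH, hHC⟩ := hH
  obtain ⟨hgC, hg1, -, hgv⟩ := hGAC u M r r' hS.fam
  obtain ⟨-, -, -, hw3, hw4⟩ := hWBA N u M r r' hS.fam
  obtain ⟨hn, -⟩ := hWBD N u M r r' κ hS.fam hS.near
  have hlQ : l ∉ Q := fun h => hl (hQS h)
  set I : ℝ := ∫ X, H X ∂(PP χ N) with hI
  -- the three-body terms
  have hA3 : ∀ p ∈ Q.powersetCard 2, Integrable (fun X => H X * a3 u (insert l p) X) (PP χ N) ∧
      ∫ X, H X * a3 u (insert l p) X ∂(PP χ N) ≤ (A / vv χ) * I := by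
    intro p hp
    rw [Finset.mem_powersetCard] at hp
    obtain ⟨hpQ, hp2⟩ := hp
    obtain ⟨a, b, hab, rfl⟩ := Finset.card_eq_two.1 hp2
    have haQ : a ∈ Q := hpQ (by simp)
    have hbQ : b ∈ Q := hpQ (by simp)
    have hal : a ≠ l := fun h => hlQ (h ▸ haQ)
    have hbl : b ≠ l := fun h => hlQ (h ▸ hbQ)
    have hset : (insert l {a, b} : Finset (Fin N)) = {a, b, l} := by
      ext x; simp; tauto
    have hval : ∀ X : Fin N → E, a3 u (insert l {a, b}) X = ga u (X a - X b, X a - X l) := by
      intro X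
      rw [hset]
      exact hgv N X a b l (by simp [hab, hal, hbl])
    have hcard : (insert l {a, b} : Finset (Fin N)).card = 3 := by
      rw [hset, Finset.card_eq_three]
      exact ⟨a, b, l, hab, hal, hbl, rfl⟩
    constructor
    · have hm : AEStronglyMeasurable (fun X => H X * a3 u (insert l {a, b}) X) (PP χ N) :=
        (hHm.mul (hw4 _).1.measurable).aestronglyMeasurable
      refine Integrable.of_bound hm CH (Filter.Eventually.of_forall fun X => ?_)
      obtain ⟨h0, h1, -⟩ := hw3 _ X hcard
      rw [Real.norm_eq_abs, abs_of_nonneg (mul_nonneg (hH0 X) h0)]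
      calc H X * a3 u (insert l {a, b}) X ≤ H X * 1 := mul_le_mul_of_nonneg_left h1 (hH0 X)
        _ ≤ CH := by rw [mul_one]; exact hHC X
    · have h := hOB1 N L χ S l H (fun X y => ga u (X a - X b, X a - y)) A hχ hl ⟨hHm, hH0, CH, hHC⟩ hHd
        (by
          refine hgC.cont.measurable.comp ?_
          fun_prop)
        (fun X y => hgC.nonneg _) ⟨1, fun X y => hg1 _⟩
        (by
          intro y X Y hXY
          show ga u (X a - X b, X a - y) = ga u (Y a - Y b, Y a - y)
          rw [hXY a (hQS haQ), hXY b (hQS hbQ)])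
        (fun X => slice_int (ga u) hgC.cont hgC.cpt _ _)
        (by
          intro X
          have := integral_sub_left_eq_self (fun y : E => ga u (X a - X b, y)) volume (X a)
          rw [this]
          exact hS.kerA _)
      have e : (fun X : Fin N → E => H X * a3 u (insert l {a, b}) X) =
          fun X => H X * ga u (X a - X b, X a - X l) := by
        funext X; rw [hval X]
      rw [e]
      calc _ ≤ (vv χ)⁻¹ * A * I := h
        _ = (A / vv χ) * I := by rw [div_eq_mul_inv, mul_comm A]
  have hNR : ∀ a ∈ Q, Integrable (fun X => H X * nr κ X l a) (PP χ N) ∧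
      ∫ X, H X * nr κ X l a ∂(PP χ N) ≤ (A / vv χ) * I := by
    intro a ha
    obtain ⟨hc, hb⟩ := hn l a
    constructor
    · have hm : AEStronglyMeasurable (fun X => H X * nr κ X l a) (PP χ N) :=
        (hHm.mul hc.measurable).aestronglyMeasurable
      refine Integrable.of_bound hm CH (Filter.Eventually.of_forall fun X => ?_)
      rw [Real.norm_eq_abs, abs_of_nonneg (mul_nonneg (hH0 X) (hb X).1)]
      calc H X * nr κ X l a ≤ H X * 1 := mul_le_mul_of_nonneg_left (hb X).2 (hH0 X)
        _ ≤ CH := by rw [mul_one]; exact hHC X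
    · have h := hOB1 N L χ S l H (fun X y => κ (y - X a)) A hχ hl ⟨hHm, hH0, CH, hHC⟩ hHd
        (by
          refine hS.near.cont.measurable.comp ?_
          fun_prop)
        (fun X y => hS.near.nonneg _) ⟨1, fun X y => hS.near.le_one _⟩
        (by
          intro y X Y hXY
          show κ (y - X a) = κ (y - Y a)
          rw [hXY a (hQS ha)])
        (fun X => by
          have h1 : Integrable κ := hS.near.cont.integrable_of_hasCompactSupport hS.near.cpt
          exact h1.comp_sub_right (X a))
        (by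
          intro X
          have := integral_sub_right_eq_self (μ := (volume : Measure E)) κ (X a)
          rw [this]
          exact hS.kerk)
      calc _ ≤ (vv χ)⁻¹ * A * I := h
        _ = (A / vv χ) * I := by rw [div_eq_mul_inv, mul_comm A]
  have hexp : (fun X : Fin N → E => H X * zz u κ Q l X) = fun X =>
      (∑ p ∈ Q.powersetCard 2, H X * a3 u (insert l p) X) + ∑ a ∈ Q, H X * nr κ X l a := by
    funext X
    unfold zz
    rw [mul_add, Finset.mul_sum, Finset.mul_sum]
  rw [hexp, integral_add (integrable_finset_sum _ fun p hp => (hA3 p hp).1)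
    (integrable_finset_sum _ fun a ha => (hNR a ha).1),
    integral_finset_sum _ (fun p hp => (hA3 p hp).1), integral_finset_sum _ (fun a ha => (hNR a ha).1)]
  have s1 : ∑ p ∈ Q.powersetCard 2, ∫ X, H X * a3 u (insert l p) X ∂(PP χ N) ≤
      ((Q.card.choose 2 : ℕ) : ℝ) * ((A / vv χ) * I) := by
    calc _ ≤ ∑ p ∈ Q.powersetCard 2, (A / vv χ) * I := Finset.sum_le_sum fun p hp => (hA3 p hp).2
      _ = _ := by rw [Finset.sum_const, Finset.card_powersetCard, nsmul_eq_mul]
  have s2 : ∑ a ∈ Q, ∫ X, H X * nr κ X l a ∂(PP χ N) ≤ (Q.card : ℝ) * ((A / vv χ) * I) := by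
    calc _ ≤ ∑ a ∈ Q, (A / vv χ) * I := Finset.sum_le_sum fun a ha => (hNR a ha).2
      _ = _ := by rw [Finset.sum_const, nsmul_eq_mul]
  calc _ ≤ ((Q.card.choose 2 : ℕ) : ℝ) * ((A / vv χ) * I) + (Q.card : ℝ) * ((A / vv χ) * I) := add_le_add s1 s2
    _ = _ := by ring

end Pool.Agent.TBC
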