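import Pool.Agent.TBC.Stmts

/-!
# Three-body Bose gases (MP_80dc41_mp), sharp upper bound, module TRB: two new particles close to `l`
-/

set_option autoImplicit false

open MeasureTheory Filter Topology
open scoped ContDiff

namespace Pool.Agent.TBC

open Pool.Agent.TBG Pool.Agent.TBF

theorem trb_proof (hCFD : Pool.Agent.TBG.Stmt_CFD) (hOUT : Pool.Agent.TBG.Stmt_OUT) (_hUBV : Stmt_UBV)
    (_hWBA : Stmt_WBA) (hGAC : Stmt_GAC) (hOB1 : Stmt_OB1) : Stmt_TRB := by
  intro N L χ u κ M r r' A α S p l H hχ hsys hl hdisj hcard hH hD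
  have hfam := hsys.fam
  have hp : IsProbabilityMeasure (nu χ) := (hCFD L χ hχ).1
  have hnuI := (hCFD L χ hχ).2.1
  have hP : IsProbabilityMeasure (PP χ N) := by unfold PP; infer_instance
  have hvv : 0 < vv χ := hχ.pos
  have hvi : 0 ≤ (vv χ)⁻¹ := inv_nonneg.2 hvv.le
  obtain ⟨hcn, hle1, -, ha3⟩ := hGAC u M r r' hfam
  have hcg : Continuous (ga u) := hcn.cont
  have hgi : Integrable (ga u) := hcg.integrable_of_hasCompactSupport hcn.cpt
  obtain ⟨hm, hn, C, hC⟩ := hH
  -- the two particles
  obtain ⟨b, b', hbb, rfl⟩ := Finset.card_eq_two.1 hcard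
  have hbS : b ∉ S := fun h => (Finset.disjoint_left.1 hdisj) (Finset.mem_insert_self _ _) h
  have hbS' : b' ∉ S := fun h => (Finset.disjoint_left.1 hdisj)
    (Finset.mem_insert_of_mem (Finset.mem_singleton_self _)) h
  have hlb : l ≠ b := fun h => hbS (h ▸ hl)
  have hlb' : l ≠ b' := fun h => hbS' (h ▸ hl)
  -- the partial integral
  set F : E → ℝ := fun x => ∫ y, ga u (x, y) with hF
  have hFm : Measurable F := by
    have h1 : StronglyMeasurable (ga u) := hcg.stronglyMeasurable
    exact (h1.integral_prod_right' (ν := (volume : Measure E))).measurable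
  have hF0 : ∀ x, 0 ≤ F x := fun x => integral_nonneg fun y => hcn.nonneg _
  have hFA : ∀ x, F x ≤ A := fun x => hsys.kerA x
  have hFi : Integrable F := hgi.integral_prod_left
  have hFI : ∫ x, F x ≤ α := by
    have h1 : ∫ z, ga u z = ∫ x, F x := integral_prod (ga u) hgi
    rw [← h1]
    exact hsys.kera
  -- a slice is integrable
  have hslice : ∀ x : E, Integrable (fun y => ga u (x, y)) := by
    intro x
    have hcomp : Continuous (fun y : E => (x, y)) := by fun_prop
    have hcc : Continuous (fun y => ga u (x, y)) := hcg.comp hcomp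
    refine hcc.integrable_of_hasCompactSupport ?_
    refine HasCompactSupport.of_support_subset_isCompact
      (K := Prod.snd '' (tsupport (ga u))) (hcn.cpt.isCompact.image continuous_snd) ?_
    intro y hy
    exact ⟨(x, y), subset_tsupport _ hy, rfl⟩
  have hchi1 : ∀ y, χ y ^ 2 ≤ 1 := fun y => pow_le_one₀ (hχ.nonneg y) (hχ.le_one y)
  have hin : ∀ x z : E, ∫ y, ga u (x, z - y) ∂(nu χ) ≤ (vv χ)⁻¹ * F x := by
    intro x z
    rw [hnuI]
    refine mul_le_mul_of_nonneg_left ?_ hvi
    have h1 : F x = ∫ y, ga u (x, z - y) :=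
      (integral_sub_left_eq_self (fun y => ga u (x, y)) volume z).symm
    rw [h1]
    refine integral_mono_of_nonneg (ae_of_all _ fun y => mul_nonneg (sq_nonneg _) (hcn.nonneg _))
      ((hslice x).comp_sub_left z) (ae_of_all _ fun y => ?_)
    show χ y ^ 2 * ga u (x, z - y) ≤ ga u (x, z - y)
    have h2 := mul_le_mul_of_nonneg_right (hchi1 y) (hcn.nonneg (x, z - y))
    rw [one_mul] at h2
    exact h2
  have h0 : ∀ X : Fin N → E, a3 u (insert l {b, b'}) X = ga u (X l - X b, X l - X b') := by
    intro X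
    exact ha3 N X l b b' (by simp [hlb, hlb', hbb])
  have h1 := hOUT N L χ (insert b S) b' (fun X y => H X * ga u (X l - X b, X l - y)) hχ (by
      rw [Finset.mem_insert]
      rintro (h | h)
      · exact hbb h.symm
      · exact hbS' h) (by
      have h2 : Continuous (fun q : (Fin N → E) × E => ga u (q.1 l - q.1 b, q.1 l - q.2)) :=
        hcg.comp ((((continuous_apply l).comp continuous_fst).sub
          ((continuous_apply b).comp continuous_fst)).prodMk
          (((continuous_apply l).comp continuous_fst).sub continuous_snd))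
      exact (hm.comp measurable_fst).mul h2.measurable) ⟨C, fun X y => by
      rw [abs_of_nonneg (mul_nonneg (hn X) (hcn.nonneg _))]
      have h2 := mul_le_mul_of_nonneg_left (hle1 (X l - X b, X l - y)) (hn X)
      rw [mul_one] at h2
      exact h2.trans (hC X)⟩ (fun X Y y h => by
      have e1 : H X = H Y := hD X Y fun i hi => h i (Finset.mem_insert_of_mem hi)
      show H X * ga u (X l - X b, X l - y) = H Y * ga u (Y l - Y b, Y l - y)
      rw [e1, h l (Finset.mem_insert_of_mem hl), h b (Finset.mem_insert_self _ _)])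
  have hgm : Measurable (fun q : (Fin N → E) × E => F (q.1 l - q.2)) := by
    have : Continuous (fun q : (Fin N → E) × E => q.1 l - q.2) :=
      ((continuous_apply l).comp continuous_fst).sub continuous_snd
    exact hFm.comp this.measurable
  have h3 := hOB1 N L χ S b H (fun X y => F (X l - y)) α hχ hbS ⟨hm, hn, C, hC⟩ hD hgm
    (fun X y => hF0 _) ⟨A, fun X y => hFA _⟩ (fun y X Y h => by
      show F (X l - y) = F (Y l - y)
      rw [h l hl]) (fun X => hFi.comp_sub_left (X l)) (fun X => by
      rw [integral_sub_left_eq_self F volume (X l)]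
      exact hFI)
  have hHFi : Integrable (fun X : Fin N → E => H X * F (X l - X b)) (PP χ N) := by
    refine (integrable_const (C * A)).mono' (hm.mul (hFm.comp
      ((continuous_apply l).sub (continuous_apply b)).measurable)).aestronglyMeasurable (ae_of_all _ fun X => ?_)
    rw [Real.norm_eq_abs, abs_of_nonneg (mul_nonneg (hn X) (hF0 _))]
    exact mul_le_mul (hC X) (hFA _) (hF0 _) ((hn X).trans (hC X))
  calc ∫ X, H X * a3 u (insert l {b, b'}) X ∂(PP χ N)
      = ∫ X, H X * ga u (X l - X b, X l - X b') ∂(PP χ N) :=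
        integral_congr_ae (ae_of_all _ fun X => by
          show H X * a3 u (insert l {b, b'}) X = H X * ga u (X l - X b, X l - X b')
          rw [h0 X])
    _ = ∫ X, (∫ y, H X * ga u (X l - X b, X l - y) ∂(nu χ)) ∂(PP χ N) := h1
    _ ≤ ∫ X, (vv χ)⁻¹ * (H X * F (X l - X b)) ∂(PP χ N) := by
        refine integral_mono_of_nonneg (ae_of_all _ fun X => ?_) (hHFi.const_mul _) (ae_of_all _ fun X => ?_)
        · exact integral_nonneg fun y => mul_nonneg (hn X) (hcn.nonneg _)
        · show ∫ y, H X * ga u (X l - X b, X l - y) ∂(nu χ) ≤ (vv χ)⁻¹ * (H X * F (X l - X b))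
          rw [integral_const_mul]
          have h4 := mul_le_mul_of_nonneg_left (hin (X l - X b) (X l)) (hn X)
          linarith
    _ = (vv χ)⁻¹ * ∫ X, H X * F (X l - X b) ∂(PP χ N) := integral_const_mul _ _
    _ ≤ (vv χ)⁻¹ * ((vv χ)⁻¹ * α * ∫ X, H X ∂(PP χ N)) := mul_le_mul_of_nonneg_left h3 hvi
    _ = (vv χ)⁻¹ ^ 2 * α * ∫ X, H X ∂(PP χ N) := by ring

end Pool.Agent.TBC
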