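import Pool.Agent.TBC.Stmts

/-!
# Three-body Bose gases (MP_80dc41_mp), sharp upper bound, module TRC: three new particles close to `l`
-/

set_option autoImplicit false

open MeasureTheory Filter Topology
open scoped ContDiff

namespace Pool.Agent.TBC

open Pool.Agent.TBG Pool.Agent.TBF

theorem trc_proof (hCFD : Pool.Agent.TBG.Stmt_CFD) (hWBD : Stmt_WBD) (hOB1 : Stmt_OB1) : Stmt_TRC := by
  intro N L χ u κ M r r' A α S t l H hχ hsys hl hdisj hcard hH hD
  have hfam := hsys.fam
  have hnear := hsys.near
  have hp : IsProbabilityMeasure (nu χ) := (hCFD L χ hχ).1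
  have hP : IsProbabilityMeasure (PP χ N) := by unfold PP; infer_instance
  obtain ⟨hD1, -⟩ := hWBD N u M r r' κ hfam hnear
  have hvv : 0 < vv χ := hχ.pos
  have hpr01 : ∀ (t : Finset (Fin N)) (X : Fin N → E), 0 ≤ ∏ a ∈ t, nr κ X l a ∧
      ∏ a ∈ t, nr κ X l a ≤ 1 := by
    intro t X
    exact ⟨Finset.prod_nonneg fun a _ => ((hD1 l a).2 X).1,
      Finset.prod_le_one (fun a _ => ((hD1 l a).2 X).1) (fun a _ => ((hD1 l a).2 X).2)⟩
  have hprc : ∀ (t : Finset (Fin N)), Continuous (fun X : Fin N → E => ∏ a ∈ t, nr κ X l a) :=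
    fun t => continuous_finset_prod _ fun a _ => (hD1 l a).1
  have hki : Integrable κ := hnear.cont.integrable_of_hasCompactSupport hnear.cpt
  have key : ∀ t : Finset (Fin N), Disjoint t S →
      ∫ X, H X * ∏ a ∈ t, nr κ X l a ∂(PP χ N) ≤ (A / vv χ) ^ t.card * ∫ X, H X ∂(PP χ N) := by
    intro t
    induction t using Finset.induction_on with
    | empty => intro _; simp
    | insert a t ha ih =>
      intro hd
      rw [Finset.disjoint_insert_left] at hd
      have h1 := ih hd.2
      obtain ⟨hm, hn, C, hC⟩ := hH
      have h2 := hOB1 N L χ (S ∪ t) a (fun X => H X * ∏ b ∈ t, nr κ X l b) (fun X y => κ (X l - y)) A hχ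
        (by
          rw [Finset.mem_union]
          rintro (h | h)
          · exact hd.1 h
          · exact ha h)
        ⟨hm.mul (hprc t).measurable, fun X => mul_nonneg (hn X) (hpr01 t X).1, C, fun X => by
          have := mul_le_mul_of_nonneg_left (hpr01 t X).2 (hn X)
          rw [mul_one] at this
          exact this.trans (hC X)⟩
        (fun X Y h => by
          have e1 : H X = H Y := hD X Y fun i hi => h i (Finset.mem_union_left _ hi)
          have e2 : ∏ b ∈ t, nr κ X l b = ∏ b ∈ t, nr κ Y l b := Finset.prod_congr rfl fun b hb => by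
            unfold nr
            rw [h l (Finset.mem_union_left _ hl), h b (Finset.mem_union_right _ hb)]
          show H X * ∏ b ∈ t, nr κ X l b = H Y * ∏ b ∈ t, nr κ Y l b
          rw [e1, e2])
        (by
          have : Continuous (fun q : (Fin N → E) × E => κ (q.1 l - q.2)) :=
            hnear.cont.comp (((continuous_apply l).comp continuous_fst).sub continuous_snd)
          exact this.measurable)
        (fun X y => hnear.nonneg _) ⟨1, fun X y => hnear.le_one _⟩
        (fun y X Y h => by
          show κ (X l - y) = κ (Y l - y)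
          rw [h l (Finset.mem_union_left _ hl)])
        (fun X => hki.comp_sub_left (X l))
        (fun X => by
          rw [integral_sub_left_eq_self κ volume (X l)]
          exact hsys.kerk)
      rw [Finset.card_insert_of_notMem ha, pow_succ]
      calc ∫ X, H X * ∏ b ∈ insert a t, nr κ X l b ∂(PP χ N)
          = ∫ X, (H X * ∏ b ∈ t, nr κ X l b) * κ (X l - X a) ∂(PP χ N) := by
            refine integral_congr_ae (ae_of_all _ fun X => ?_)
            show H X * ∏ b ∈ insert a t, nr κ X l b = (H X * ∏ b ∈ t, nr κ X l b) * κ (X l - X a)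
            rw [Finset.prod_insert ha]
            unfold nr
            ring
        _ ≤ (vv χ)⁻¹ * A * ∫ X, H X * ∏ b ∈ t, nr κ X l b ∂(PP χ N) := h2
        _ ≤ (vv χ)⁻¹ * A * ((A / vv χ) ^ t.card * ∫ X, H X ∂(PP χ N)) :=
            mul_le_mul_of_nonneg_left h1 (mul_nonneg (inv_nonneg.2 hvv.le) hsys.A_nonneg)
        _ = (A / vv χ) ^ t.card * (A / vv χ) * ∫ X, H X ∂(PP χ N) := by
            rw [div_eq_mul_inv]
            ring
  have h := key t hdisj
  rw [hcard] at h
  exact h

end Pool.Agent.TBC
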