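import Pool.Agent.TBC.Stmts

set_option autoImplicit false

open MeasureTheory Filter Topology
open scoped ContDiff

namespace Pool.Agent.TBC

open Pool.Agent.TBG Pool.Agent.TBF

namespace UBV_

variable {N : ℕ}

theorem dep_ub (u : KF) (A : Finset (Fin N)) : Dep A (ub u A) := by
  intro X Y h
  unfold ub
  congr 1
  funext i
  exact h _ (Finset.orderEmbOfFin_mem A rfl i)

theorem dep_US (u : KF) (S : Finset (Fin N)) : Dep S (US u S) := by
  intro X Y h
  unfold US
  refine Finset.sum_congr rfl fun A hA => ?_
  exact dep_ub u A X Y (fun i hi => h i (Finset.mem_powerset.1 hA hi))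

theorem dep_WW (u : KF) (S : Finset (Fin N)) : Dep S (WW u S) := by
  intro X Y h
  unfold WW
  rw [dep_US u S X Y h]

theorem cont_ub (u : KF) (hc : ∀ k, Continuous (u k)) (A : Finset (Fin N)) :
    Continuous (ub u A) := by
  unfold ub
  exact (hc A.card).comp (continuous_pi fun i => continuous_apply _)

theorem cont_US (u : KF) (hc : ∀ k, Continuous (u k)) (S : Finset (Fin N)) :
    Continuous (US u S) := by
  unfold US
  exact continuous_finsetSum _ fun A _ => cont_ub u hc A

theorem cont_WW (u : KF) (hc : ∀ k, Continuous (u k)) (S : Finset (Fin N)) :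
    Continuous (WW u S) := by
  unfold WW
  exact (continuous_const.mul (cont_US u hc S)).rexp

theorem val' (u : KF)
    (hp : ∀ (k : ℕ) (σ : Equiv.Perm (Fin k)) (y : Fin k → E), u k (fun i => y (σ i)) = u k y)
    (k : ℕ) (s : Fin k → Fin N) (hs : Function.Injective s) (X : Fin N → E)
    (A : Finset (Fin N)) (hA : A = Finset.univ.image s) :
    ub u A X = u k (fun i => X (s i)) := by
  have hk : A.card = k := by
    rw [hA, Finset.card_image_of_injective _ hs, Finset.card_univ, Fintype.card_fin]
  subst hk
  have hmem : ∀ i, s i ∈ A := by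
    intro i
    rw [hA]
    exact Finset.mem_image_of_mem s (Finset.mem_univ i)
  have hr : ∀ i, ∃ j, A.orderEmbOfFin rfl j = s i := by
    intro i
    have h := Finset.range_orderEmbOfFin A rfl
    have h2 : s i ∈ (A : Set (Fin N)) := hmem i
    rw [← h] at h2
    exact h2
  choose τ hτ using hr
  have hinj : Function.Injective τ := by
    intro i j hij
    apply hs
    rw [← hτ i, ← hτ j, hij]
  have hbij : Function.Bijective τ := Finite.injective_iff_bijective.1 hinj
  have h := hp A.card (Equiv.ofBijective τ hbij) (fun i => X (A.orderEmbOfFin rfl i))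
  unfold ub
  rw [← h]
  congr 1
  funext i
  rw [Equiv.ofBijective_apply, hτ i]

theorem val (u : KF)
    (hp : ∀ (k : ℕ) (σ : Equiv.Perm (Fin k)) (y : Fin k → E), u k (fun i => y (σ i)) = u k y)
    (k : ℕ) (s : Fin k → Fin N) (hs : Function.Injective s) (X : Fin N → E) :
    ub u (Finset.univ.image s) X = u k (fun i => X (s i)) :=
  val' u hp k s hs X _ rfl

theorem nat_ub (u : KF)
    (hp : ∀ (k : ℕ) (σ : Equiv.Perm (Fin k)) (y : Fin k → E), u k (fun i => y (σ i)) = u k y)
    (K : ℕ) (s : Fin K → Fin N) (hs : Function.Injective s) (A : Finset (Fin K))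
    (X : Fin N → E) : ub u (A.image s) X = ub u A (fun i => X (s i)) := by
  have hi : Function.Injective (fun i => s (A.orderEmbOfFin rfl i)) :=
    hs.comp (A.orderEmbOfFin rfl).injective
  have hA : A.image s = Finset.univ.image (fun i => s (A.orderEmbOfFin rfl i)) := by
    have h1 : Finset.univ.image (A.orderEmbOfFin rfl) = A := Finset.image_orderEmbOfFin_univ A rfl
    conv_lhs => rw [← h1]
    rw [Finset.image_image]
    rfl
  rw [val' u hp A.card _ hi X _ hA]
  rfl

theorem nat_US (u : KF)
    (hp : ∀ (k : ℕ) (σ : Equiv.Perm (Fin k)) (y : Fin k → E), u k (fun i => y (σ i)) = u k y)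
    (K : ℕ) (s : Fin K → Fin N) (hs : Function.Injective s) (A : Finset (Fin K))
    (X : Fin N → E) : US u (A.image s) X = US u A (fun i => X (s i)) := by
  unfold US
  have h : (A.image s).powerset = A.powerset.image (fun B => B.image s) := by
    ext B
    rw [Finset.mem_powerset, Finset.mem_image]
    constructor
    · intro hB
      obtain ⟨C, hC, hCB⟩ := Finset.subset_image_iff.1 hB
      exact ⟨C, Finset.mem_powerset.2 (by exact_mod_cast hC), hCB⟩
    · rintro ⟨C, hC, rfl⟩
      exact Finset.image_subset_image (Finset.mem_powerset.1 hC)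
  rw [h, Finset.sum_image]
  · exact Finset.sum_congr rfl fun B _ => nat_ub u hp K s hs B X
  · intro B _ C _ hBC
    exact Finset.image_injective hs hBC

end UBV_

theorem ubv_proof : Stmt_UBV := by
  intro u
  refine ⟨fun N A => ⟨UBV_.dep_ub u A, UBV_.dep_US u A, UBV_.dep_WW u A⟩, fun hc N A =>
    ⟨UBV_.cont_ub u hc A, UBV_.cont_US u hc A, UBV_.cont_WW u hc A⟩, fun hp =>
    ⟨fun N k s hs X => UBV_.val u hp k s hs X, fun N K s hs A X =>
      ⟨UBV_.nat_ub u hp K s hs A X, UBV_.nat_US u hp K s hs A X, ?_⟩⟩⟩
  unfold WW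
  rw [UBV_.nat_US u hp K s hs A X]

end Pool.Agent.TBC
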