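import Pool.Agent.TBC.Stmts

/-!
# Squad TBC (MP_80dc41_mp), module VAL: the value of the integrands
-/

set_option autoImplicit false

open MeasureTheory Filter Topology
open scoped ContDiff

namespace Pool.Agent.TBC

open Pool.Agent.TBG Pool.Agent.TBF

namespace VAL_

theorem rl_cf (p : W4) : rl (cf p) = p := by
  unfold rl cf
  simp

theorem img3 (l : Fin 4) : (Finset.univ.image l.succAbove : Finset (Fin 4)) = Finset.univ.erase l := by
  revert l
  decide

theorem pc3 : Finset.powersetCard 3 (Finset.univ : Finset (Fin 4)) =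
    Finset.univ.image (fun l : Fin 4 => (Finset.univ.erase l : Finset (Fin 4))) := by
  decide

theorem inj3 : Function.Injective (fun l : Fin 4 => (Finset.univ.erase l : Finset (Fin 4))) := by
  decide

theorem ub_zero (u : KF) (h : ∀ k, k ≠ 3 → k ≠ 4 → k ≠ 5 → ∀ y, u k y = 0) {N : ℕ}
    (A : Finset (Fin N)) (X : Fin N → E) (hA : A.card < 3) : ub u A X = 0 := by
  unfold ub
  apply h <;> omega

theorem ub_univ (u : KF)
    (hv : ∀ (N k : ℕ) (s : Fin k → Fin N), Function.Injective s → ∀ X : Fin N → E,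
      ub u (Finset.univ.image s) X = u k (fun i => X (s i))) (N : ℕ) (X : Fin N → E) :
    ub u Finset.univ X = u N X := by
  have := hv N N id Function.injective_id X
  rw [Finset.image_id] at this
  exact this

theorem US3 (u : KF) (h : ∀ k, k ≠ 3 → k ≠ 4 → k ≠ 5 → ∀ y, u k y = 0)
    (hv : ∀ (N k : ℕ) (s : Fin k → Fin N), Function.Injective s → ∀ X : Fin N → E,
      ub u (Finset.univ.image s) X = u k (fun i => X (s i))) (X : Fin 3 → E) :
    US u Finset.univ X = u 3 X := by
  unfold US
  rw [Finset.sum_eq_single_of_mem (Finset.univ : Finset (Fin 3)) (by simp)]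
  · exact ub_univ u hv 3 X
  · intro A _ hA
    apply ub_zero u h
    have h1 : A.card < (Finset.univ : Finset (Fin 3)).card :=
      Finset.card_lt_card (Finset.ssubset_univ_iff.mpr hA)
    simpa using h1

theorem US4 (u : KF) (h : ∀ k, k ≠ 3 → k ≠ 4 → k ≠ 5 → ∀ y, u k y = 0)
    (hv : ∀ (N k : ℕ) (s : Fin k → Fin N), Function.Injective s → ∀ X : Fin N → E,
      ub u (Finset.univ.image s) X = u k (fun i => X (s i))) (X : Fin 4 → E) :
    US u Finset.univ X = (∑ l : Fin 4, u 3 (fun i => X (l.succAbove i))) + u 4 X := by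
  unfold US
  rw [Finset.sum_powerset]
  have hc : (Finset.univ : Finset (Fin 4)).card + 1 = 5 := by simp
  rw [hc, Finset.sum_range_succ, Finset.sum_range_succ, Finset.sum_range_succ,
    Finset.sum_range_succ, Finset.sum_range_succ, Finset.sum_range_zero]
  have h0 : ∀ j < 3, ∑ t ∈ Finset.powersetCard j (Finset.univ : Finset (Fin 4)), ub u t X = 0 := by
    intro j hj
    apply Finset.sum_eq_zero
    intro t ht
    apply ub_zero u h
    rw [(Finset.mem_powersetCard.mp ht).2]
    exact hj
  rw [h0 0 (by norm_num), h0 1 (by norm_num), h0 2 (by norm_num), pc3,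
    Finset.sum_image (fun a _ b _ hab => inj3 hab)]
  have h4 : Finset.powersetCard 4 (Finset.univ : Finset (Fin 4)) = {Finset.univ} := by decide
  rw [h4, Finset.sum_singleton, ub_univ u hv 4 X]
  have h3 : ∀ l : Fin 4, ub u (Finset.univ.erase l) X = u 3 (fun i => X (l.succAbove i)) := by
    intro l
    rw [← img3]
    exact hv 4 3 l.succAbove Fin.succAbove_right_injective X
  simp only [h3, zero_add]

end VAL_

open VAL_ in
theorem val_proof (_hKAF : Stmt_KAF) (hUBV : Stmt_UBV) (hFMU : Stmt_FMU) (_hLRL : Stmt_LRL)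
    (hENU : Stmt_ENU) : Stmt_VAL := by
  intro f V ξ h M r r' hN hX hH hr
  obtain ⟨hF, -, -⟩ := hFMU f ξ h M r r' hN.jas hX hH hr
  obtain ⟨hE, hE3, hE4, -⟩ := hENU f V ξ h M r r' hN hX hH hr
  have hu3 : ∀ y, uu f ξ (4 * M) h 3 y = Real.log (f (y 0 - y 1, y 0 - y 2)) := fun y => rfl
  have hu4 : ∀ y, uu f ξ (4 * M) h 4 y = ξ (rl y) := fun y => rfl
  generalize uu f ξ (4 * M) h = u at *
  generalize ee V u = e at *
  have hpos : ∀ z, 0 < f z := fun z => lt_of_lt_of_le (by norm_num) (hN.jas.half_le z)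
  constructor
  · intro z
    unfold K3
    rw [hE3, hu3]
    have h0 : ((![0, -z.1, -z.2] : Fin 3 → E) 0 - (![0, -z.1, -z.2] : Fin 3 → E) 1,
        (![0, -z.1, -z.2] : Fin 3 → E) 0 - (![0, -z.1, -z.2] : Fin 3 → E) 2) = z := by
      simp
    rw [h0, two_mul, Real.exp_add, Real.exp_log (hpos z)]
    unfold kk
    have := (hpos z).ne'
    field_simp
  · intro p
    obtain ⟨-, -, hUu⟩ := hUBV u
    obtain ⟨hv, hn⟩ := hUu hF.inv.perm
    obtain ⟨-, -, hUe⟩ := hUBV e
    obtain ⟨hve, -⟩ := hUe hE.inv.perm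
    have hW4 : WW u Finset.univ (cf p) = FX f ξ p ^ 2 := by
      unfold WW
      rw [US4 u hF.zero hv, hu4, rl_cf]
      simp only [hu3]
      have h1 : ∀ l : Fin 4, (cf p (l.succAbove 0) - cf p (l.succAbove 1),
          cf p (l.succAbove 0) - cf p (l.succAbove 2)) = pm l p := fun l => rfl
      simp only [h1]
      unfold FX
      rw [two_mul, Real.exp_add, Real.exp_add, Real.exp_sum]
      simp only [Real.exp_log (hpos _)]
      ring
    have hW3 : ∀ l : Fin 4, WW u (Finset.univ.erase l) (cf p) = f (pm l p) ^ 2 := by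
      intro l
      rw [← img3, (hn 4 3 l.succAbove Fin.succAbove_right_injective Finset.univ (cf p)).2.2]
      unfold WW
      rw [US3 u hF.zero hv, hu3, two_mul, Real.exp_add, Real.exp_log (hpos _)]
      have h1 : (cf p (l.succAbove 0) - cf p (l.succAbove 1),
          cf p (l.succAbove 0) - cf p (l.succAbove 2)) = pm l p := rfl
      rw [h1]
      ring
    have hb3 : ∀ l : Fin 4, ub e (Finset.univ.erase l) (cf p) = kk f V (pm l p) := by
      intro l
      rw [← img3, hve 4 3 l.succAbove Fin.succAbove_right_injective (cf p), hE3]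
      rfl
    have hb4 : ub e Finset.univ (cf p) = -(1 / 2 * Lap4 ξ p) := by
      rw [ub_univ e hve 4 (cf p), hE4, rl_cf]
    unfold G4 GG
    simp only [hW4, hW3, hb3, hb4]
    have h2 : ∑ l : Fin 4, kk f V (pm l p) * (f (pm l p) ^ 2 - FX f ξ p ^ 2) =
        -∑ m : Fin 4, kk f V (pm m p) * (FX f ξ p ^ 2 - f (pm m p) ^ 2) := by
      rw [← Finset.sum_neg_distrib]
      apply Finset.sum_congr rfl
      intro l _
      ring
    rw [h2]
    ring

end Pool.Agent.TBC
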