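import Pool.Agent.TBC.Stmts

/-!
# Three-body Bose gases (MP_80dc41_mp): elementary facts on the weights (module WBA of squad TBC)
-/

set_option autoImplicit false

open MeasureTheory Filter Topology
open scoped ContDiff

namespace Pool.Agent.TBC

open Pool.Agent.TBG Pool.Agent.TBF

namespace WBA_

theorem ub_card {N k : ℕ} (u : KF) (A : Finset (Fin N)) (X : Fin N → E) (h : A.card = k) :
    ub u A X = u k (fun i => X (A.orderEmbOfFin h i)) := by
  subst h
  rfl

theorem WW_pos {N : ℕ} (u : KF) (S : Finset (Fin N)) (X : Fin N → E) : 0 < WW u S X := Real.exp_pos _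

theorem WW_empty {N : ℕ} (u : KF) (M r r' : ℝ) (hF : Fam u M r r') (X : Fin N → E) :
    WW u (∅ : Finset (Fin N)) X = 1 := by
  unfold WW US
  rw [Finset.powerset_empty, Finset.sum_singleton]
  have h : ub u (∅ : Finset (Fin N)) X = 0 := by
    rw [ub_card u ∅ X (Finset.card_empty)]
    exact hF.zero 0 (by norm_num) (by norm_num) (by norm_num) _
  rw [h, mul_zero, Real.exp_zero]

theorem WW_diff {N : ℕ} (hP : Stmt_PWA) (u : KF) (M r r' : ℝ) (hF : Fam u M r r') (P T : Finset (Fin N))
    (X : Fin N → E) (hPT : P ⊆ T) : WW u T X ≤ Real.exp (2 * M * P.card) * WW u (T \ P) X := by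
  induction P using Finset.induction_on with
  | empty => simp
  | insert p P hp ih =>
    have h1 := ih (fun x hx => hPT (Finset.mem_insert_of_mem hx))
    have hpT : p ∈ T := hPT (Finset.mem_insert_self _ _)
    have e : T \ P = insert p (T \ insert p P) := by
      ext x
      simp only [Finset.mem_sdiff, Finset.mem_insert]
      constructor
      · rintro ⟨h2, h3⟩
        by_cases hx : x = p
        · exact Or.inl hx
        · exact Or.inr ⟨h2, fun h => h.elim hx h3⟩
      · rintro (h2 | ⟨h2, h3⟩)
        · rw [h2]; exact ⟨hpT, hp⟩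
        · exact ⟨h2, fun h => h3 (Or.inr h)⟩
    have h2 := (hP N u M r r' hF (T \ insert p P) p X (by simp)).2
    rw [← e] at h2
    rw [Finset.card_insert_of_notMem hp]
    calc WW u T X ≤ Real.exp (2 * M * P.card) * WW u (T \ P) X := h1
      _ ≤ Real.exp (2 * M * P.card) * (Real.exp (2 * M) * WW u (T \ insert p P) X) :=
        mul_le_mul_of_nonneg_left h2 (Real.exp_pos _).le
      _ = Real.exp (2 * M * ((P.card + 1 : ℕ) : ℝ)) * WW u (T \ insert p P) X := by
        rw [← mul_assoc, ← Real.exp_add]
        congr 2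
        push_cast
        ring

theorem US_three {N : ℕ} (u : KF) (M r r' : ℝ) (hF : Fam u M r r') (A : Finset (Fin N))
    (X : Fin N → E) (hA : A.card = 3) : US u A X = ub u A X := by
  unfold US
  rw [Finset.sum_eq_single A]
  · intro B hB hne
    have h1 : B.card < 3 := by
      rw [← hA]
      exact Finset.card_lt_card (Finset.ssubset_iff_subset_ne.2 ⟨Finset.mem_powerset.1 hB, hne⟩)
    unfold ub
    exact hF.zero _ (by omega) (by omega) (by omega) _
  · intro h
    exact absurd (Finset.mem_powerset_self A) h

end WBA_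

open WBA_

theorem wba_proof (hUBV : Stmt_UBV) (hPWA : Stmt_PWA) : Stmt_WBA := by
  intro N u M r r' hF
  refine ⟨?_, fun X => WW_empty u M r r' hF X, fun P T X h => WW_diff hPWA u M r r' hF P T X h, ?_, ?_⟩
  · intro S X
    refine ⟨WW_pos u S X, ?_⟩
    have h := WW_diff hPWA u M r r' hF S S X (Finset.Subset.refl S)
    rw [Finset.sdiff_self, WW_empty u M r r' hF, mul_one] at h
    exact h
  · intro A X hA
    have h1 : ub u A X ≤ 0 := by
      rw [ub_card u A X hA]
      exact hF.le3 _
    unfold a3
    refine ⟨?_, ?_, ?_⟩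
    · have : Real.exp (2 * ub u A X) ≤ 1 := Real.exp_le_one_iff.2 (by linarith)
      linarith
    · have := Real.exp_pos (2 * ub u A X)
      linarith
    · unfold WW
      rw [US_three u M r r' hF A X hA]
  · intro A
    have h1 := (hUBV u).1 N A
    have h2 := (hUBV u).2.1 (fun k => (hF.smooth k).continuous) N A
    refine ⟨?_, ?_⟩
    · unfold a3
      exact continuous_const.sub (Real.continuous_exp.comp (continuous_const.mul h2.1))
    · intro X Y hXY
      unfold a3
      rw [h1.1 X Y hXY]

end Pool.Agent.TBC
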