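import Pool.Agent.TBC.Stmts

/-!
# Three-body Bose gases (MP_80dc41_mp): elementary facts on the kernels (module WBD of squad TBC)
-/

set_option autoImplicit false

open MeasureTheory Filter Topology
open scoped ContDiff

namespace Pool.Agent.TBC

open Pool.Agent.TBG Pool.Agent.TBF

theorem wbd_proof (_hUBV : Stmt_UBV) (hWBA : Stmt_WBA) : Stmt_WBD := by
  intro N u M r r' κ hF hN
  have hnr : ∀ l a : Fin N, Continuous (fun X : Fin N → E => nr κ X l a) := by
    intro l a
    unfold nr
    exact hN.cont.comp ((continuous_apply l).sub (continuous_apply a))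
  refine ⟨fun l a => ⟨hnr l a, fun X => ⟨hN.nonneg _, hN.le_one _⟩⟩, ?_⟩
  intro Q l hl
  obtain ⟨_, _, _, h4, h5⟩ := hWBA N u M r r' hF
  have hcard : ∀ p ∈ Q.powersetCard 2, (insert l p).card = 3 := by
    intro p hp
    obtain ⟨hpQ, hpc⟩ := Finset.mem_powersetCard.1 hp
    rw [Finset.card_insert_of_notMem (fun h => hl (hpQ h)), hpc]
  refine ⟨?_, ?_, ⟨((Q.powersetCard 2).card : ℝ) + (Q.card : ℝ), ?_⟩, ?_⟩
  · unfold zz
    exact (continuous_finsetSum _ fun p _ => (h5 (insert l p)).1).add
      (continuous_finsetSum _ fun a _ => hnr l a)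
  · intro X
    unfold zz
    exact add_nonneg (Finset.sum_nonneg fun p hp => (h4 _ X (hcard p hp)).1)
      (Finset.sum_nonneg fun a _ => hN.nonneg _)
  · intro X
    unfold zz
    refine add_le_add ?_ ?_
    · refine (Finset.sum_le_sum (g := fun _ => (1 : ℝ)) fun p hp => (h4 _ X (hcard p hp)).2.1).trans ?_
      simp
    · refine (Finset.sum_le_sum (g := fun _ => (1 : ℝ)) fun a _ => hN.le_one _).trans ?_
      simp
  · intro X Y hXY
    unfold zz
    congr 1
    · refine Finset.sum_congr rfl fun p hp => ?_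
      refine (h5 (insert l p)).2 X Y fun i hi => hXY i ?_
      rcases Finset.mem_insert.1 hi with h | h
      · rw [h]; exact Finset.mem_insert_self _ _
      · exact Finset.mem_insert_of_mem ((Finset.mem_powersetCard.1 hp).1 h)
    · refine Finset.sum_congr rfl fun a ha => ?_
      unfold nr
      rw [hXY l (Finset.mem_insert_self _ _), hXY a (Finset.mem_insert_of_mem ha)]

end Pool.Agent.TBC
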