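import Pool.Agent.TBC.Stmts

/-!
# Three-body Bose gases (MP_80dc41_mp), sharp upper bound: module XDE
-/

set_option autoImplicit false

open MeasureTheory Filter Topology
open scoped ContDiff

namespace Pool.Agent.TBC

open Pool.Agent.TBG Pool.Agent.TBF

namespace XDE_

theorem nrl0 (y : Fin 4 → E) (i : Fin 4) : ‖y 0 - y i‖ ≤ ‖rl y‖ := by
  unfold rl
  fin_cases i
  · show ‖y 0 - y 0‖ ≤ _
    rw [sub_self, norm_zero]
    exact norm_nonneg _
  · exact norm_fst_le (y 0 - y 1, y 0 - y 2, y 0 - y 3)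
  · exact (norm_fst_le (y 0 - y 2, y 0 - y 3)).trans
      (norm_snd_le (y 0 - y 1, y 0 - y 2, y 0 - y 3))
  · exact (norm_snd_le (y 0 - y 2, y 0 - y 3)).trans
      (norm_snd_le (y 0 - y 1, y 0 - y 2, y 0 - y 3))

theorem nrl (y : Fin 4 → E) (i j : Fin 4) : ‖y i - y j‖ ≤ 2 * ‖rl y‖ := by
  have e : y i - y j = (y 0 - y j) - (y 0 - y i) := by abel
  rw [e]
  refine (norm_sub_le _ _).trans ?_
  have h1 := nrl0 y i
  have h2 := nrl0 y j
  linarith

end XDE_

open XDE_ in
theorem xde_proof : Stmt_XDE := by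
  intro ξ hξ hs
  obtain ⟨M, hM⟩ := hξ.1.continuous.bounded_above_of_compact_support hξ.2
  obtain ⟨R, hR⟩ := hξ.2.isCompact.isBounded.subset_closedBall 0
  refine ⟨M, 2 * max R 0, hξ.1, hξ.2, hs, fun p => ?_, by positivity, fun y hy => ?_⟩
  · have := hM p
    rwa [Real.norm_eq_abs] at this
  · obtain ⟨i, j, hij⟩ := hy
    by_contra h
    have h1 : rl y ∈ tsupport ξ := subset_tsupport ξ h
    have h2 := hR h1
    rw [mem_closedBall_zero_iff] at h2
    have h3 := nrl y i j
    have h4 : R ≤ max R 0 := le_max_left _ _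
    linarith

end Pool.Agent.TBC
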