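import Pool.Agent.TBG.All
import Pool.Agent.TBC.UBV
import Pool.Agent.TBC.KIV
import Pool.Agent.TBC.DUK
import Pool.Agent.TBC.POT
import Pool.Agent.TBC.ENK
import Pool.Agent.TBC.EUK
import Pool.Agent.TBC.PWA
import Pool.Agent.TBC.WBA
import Pool.Agent.TBC.WBD
import Pool.Agent.TBC.PWB
import Pool.Agent.TBC.PWD
import Pool.Agent.TBC.PWC
import Pool.Agent.TBC.PWE
import Pool.Agent.TBC.LWK
import Pool.Agent.TBC.DEC
import Pool.Agent.TBC.OB1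
import Pool.Agent.TBC.GAC
import Pool.Agent.TBC.TRA
import Pool.Agent.TBC.TRB
import Pool.Agent.TBC.TRC
import Pool.Agent.TBC.RTK
import Pool.Agent.TBC.RTB
import Pool.Agent.TBC.EBD
import Pool.Agent.TBC.BNF
import Pool.Agent.TBC.EXP
import Pool.Agent.TBC.EXA
import Pool.Agent.TBC.EXD
import Pool.Agent.TBC.EXC
import Pool.Agent.TBC.EXR
import Pool.Agent.TBC.EXQ
import Pool.Agent.TBC.EXF
import Pool.Agent.TBC.SUM
import Pool.Agent.TBC.EVA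
import Pool.Agent.TBC.NBK
import Pool.Agent.TBC.EIA
import Pool.Agent.TBC.EIB
import Pool.Agent.TBC.REL
import Pool.Agent.TBC.NBR
import Pool.Agent.TBC.NLK
import Pool.Agent.TBC.MBK
import Pool.Agent.TBC.NUC
import Pool.Agent.TBC.XDE
import Pool.Agent.TBC.FMU
import Pool.Agent.TBC.LRL
import Pool.Agent.TBC.ENU
import Pool.Agent.TBC.BRG
import Pool.Agent.TBC.FNA
import Pool.Agent.TBC.FNB
import Pool.Agent.TBC.VAL
import Pool.Agent.TBC.VRI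
import Pool.Agent.TBC.INF
import Pool.Agent.TBC.DMF
import Pool.Agent.TBC.PCF
import Pool.Agent.TBC.LMF
import Pool.Agent.TBC.GSF

/-!
# Three-body Bose gases, sharp upper bound: assembly
-/

set_option autoImplicit false

namespace Pool.Agent.TBC

theorem q_ubv : Stmt_UBV := ubv_proof
theorem q_kiv : Stmt_KIV := kiv_proof
theorem q_duk : Stmt_DUK := duk_proof
theorem q_pot : Stmt_POT := pot_proof
theorem q_enk : Stmt_ENK := enk_proof Pool.Agent.TBG.q_ims Pool.Agent.TBG.q_dcc Pool.Agent.TBG.q_lam q_duk q_pot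
theorem q_euk : Stmt_EUK := euk_proof Pool.Agent.TBG.q_tri Pool.Agent.TBG.q_cfd Pool.Agent.TBG.q_lam Pool.Agent.TBG.q_law Pool.Agent.TBG.q_dcc q_ubv q_kiv q_duk q_enk
theorem q_pwa : Stmt_PWA := pwa_proof q_ubv
theorem q_wba : Stmt_WBA := wba_proof q_ubv q_pwa
theorem q_wbd : Stmt_WBD := wbd_proof q_ubv q_wba
theorem q_pwb : Stmt_PWB := pwb_proof Pool.Agent.TBG.q_wpi q_ubv q_pwa q_wba q_wbd
theorem q_pwd : Stmt_PWD := pwd_proof Pool.Agent.TBG.q_wpi q_ubv q_wba q_wbd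
theorem q_pwc : Stmt_PWC := pwc_proof Pool.Agent.TBG.q_wpi q_ubv q_pwa q_wba q_wbd q_pwd
theorem q_pwe : Stmt_PWE := pwe_proof Pool.Agent.TBG.q_wpi q_ubv q_pwa q_wba q_wbd
theorem q_lwk : Stmt_LWK := lwk_proof Pool.Agent.TBG.q_cfd
theorem q_dec : Stmt_DEC := dec_proof Pool.Agent.TBG.q_cfd Pool.Agent.TBG.q_ind q_ubv q_wba
theorem q_ob1 : Stmt_OB1 := ob1_proof Pool.Agent.TBG.q_cfd Pool.Agent.TBG.q_out
theorem q_gac : Stmt_GAC := gac_proof q_ubv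
theorem q_tra : Stmt_TRA := tra_proof Pool.Agent.TBG.q_cfd q_ubv q_wba q_wbd q_gac q_ob1
theorem q_trb : Stmt_TRB := trb_proof Pool.Agent.TBG.q_cfd Pool.Agent.TBG.q_out q_ubv q_wba q_gac q_ob1
theorem q_trc : Stmt_TRC := trc_proof Pool.Agent.TBG.q_cfd q_wbd q_ob1
theorem q_rtk : Stmt_RTK := rtk_proof Pool.Agent.TBG.q_cfd q_ubv q_wba q_wbd q_pwb q_dec q_trb q_trc
theorem q_rtb : Stmt_RTB := rtb_proof Pool.Agent.TBG.q_cfd q_ubv q_wba q_gac q_rtk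
theorem q_ebd : Stmt_EBD := ebd_proof
theorem q_bnf : Stmt_BNF := bnf_proof q_ubv q_wba q_wbd q_ebd
theorem q_exp : Stmt_EXP := exp_proof Pool.Agent.TBG.q_cfd q_ubv q_wba q_wbd q_dec q_tra q_trb q_trc q_rtb q_bnf
theorem q_exa : Stmt_EXA := exa_proof Pool.Agent.TBG.q_cfd Pool.Agent.TBG.q_ind q_ubv q_wba q_wbd q_pwb q_pwd q_tra q_rtb q_bnf q_exp
theorem q_exd : Stmt_EXD := exd_proof Pool.Agent.TBG.q_cfd q_ubv q_wba q_wbd q_dec q_tra q_rtb q_bnf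
theorem q_exc : Stmt_EXC := exc_proof Pool.Agent.TBG.q_cfd Pool.Agent.TBG.q_ind q_ubv q_wba q_wbd q_pwc q_rtb q_bnf q_exa q_exd
theorem q_exr : Stmt_EXR := exr_proof Pool.Agent.TBG.q_cfd q_ubv q_wba q_wbd q_dec q_tra q_trb q_rtb q_bnf
theorem q_exq : Stmt_EXQ := exq_proof Pool.Agent.TBG.q_cfd Pool.Agent.TBG.q_ind q_ubv q_wba q_wbd q_pwe q_rtb q_bnf q_exr
theorem q_exf : Stmt_EXF := exf_proof Pool.Agent.TBG.q_cfd Pool.Agent.TBG.q_lam Pool.Agent.TBG.q_law q_ubv q_kiv q_wba q_dec q_rtb q_ebd q_bnf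
theorem q_sum : Stmt_SUM := sum_proof
theorem q_eva : Stmt_EVA := eva_proof Pool.Agent.TBG.q_cfd q_ubv q_wba q_lwk
theorem q_nbk : Stmt_NBK := nbk_proof Pool.Agent.TBG.q_cfd Pool.Agent.TBG.q_lam Pool.Agent.TBG.q_law q_ubv q_kiv q_wba q_euk q_rtb q_bnf q_exc q_exq q_exf q_sum q_eva
theorem q_eia : Stmt_EIA := eia_proof Pool.Agent.TBG.q_cfd q_ebd
theorem q_eib : Stmt_EIB := eib_proof Pool.Agent.TBG.q_cfd q_ebd q_eia
theorem q_rel : Stmt_REL := rel_proof q_ubv q_kiv q_wba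
theorem q_nbr : Stmt_NBR := nbr_proof Pool.Agent.TBG.q_cfd Pool.Agent.TBG.q_lam q_kiv q_rtb q_nbk q_eia q_eib q_rel
theorem q_nlk : Stmt_NLK := nlk_proof Pool.Agent.TBG.q_scu Pool.Agent.TBG.q_vcu Pool.Agent.TBG.q_the q_kiv q_eia q_rel q_nbr
theorem q_mbk : Stmt_MBK := mbk_proof Pool.Agent.TBG.q_cut q_eia q_rel q_nlk
theorem q_nuc : Stmt_NUC := nuc_proof
theorem q_xde : Stmt_XDE := xde_proof
theorem q_fmu : Stmt_FMU := fmu_proof Pool.Agent.TBG.q_lpc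
theorem q_lrl : Stmt_LRL := lrl_proof
theorem q_enu : Stmt_ENU := enu_proof Pool.Agent.TBG.q_kaf Pool.Agent.TBG.q_lpc q_kiv q_fmu q_lrl
theorem q_brg : Stmt_BRG := brg_proof
theorem q_fna : Stmt_FNA := fna_proof Pool.Agent.TBG.q_lpc q_lrl
theorem q_fnb : Stmt_FNB := fnb_proof Pool.Agent.TBG.q_ibp q_lrl q_fna
theorem q_val : Stmt_VAL := val_proof Pool.Agent.TBG.q_kaf q_ubv q_fmu q_lrl q_enu
theorem q_vri : Stmt_VRI := vri_proof Pool.Agent.TBG.q_kaf q_ubv q_kiv q_rel q_eia q_fmu q_enu q_brg q_fna q_fnb q_val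
theorem q_inf : Stmt_INF := inf_proof
theorem q_dmf : Stmt_DMF := dmf_proof Pool.Agent.TBG.q_lpc q_lrl q_fna
theorem q_pcf : Stmt_PCF := pcf_proof Pool.Agent.TBG.q_tdl Pool.Agent.TBG.q_fdj Pool.Agent.TBG.q_adm Pool.Agent.TBG.q_lpc q_lrl q_fna
theorem q_lmf : Stmt_LMF := lmf_proof Pool.Agent.TBG.q_tdl Pool.Agent.TBG.q_fdj Pool.Agent.TBG.q_adm Pool.Agent.TBG.q_lpc q_lrl q_fna q_inf q_dmf q_pcf
theorem q_gsf : Stmt_GSF := gsf_proof Pool.Agent.TBG.q_fdj Pool.Agent.TBG.q_adm Pool.Agent.TBG.q_kpo Pool.Agent.TBG.q_kin Pool.Agent.TBG.q_din Pool.Agent.TBG.q_abd Pool.Agent.TBG.q_kaf q_mbk q_nuc q_xde q_fmu q_enu q_vri q_lmf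

end Pool.Agent.TBC
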