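import Pool.Agent.TBF.Defs

/-!
# Three-body Bose gases (MP_80dc41_mp), sharp upper bound: definitions and statements of the modules

Trial function `∏ χ(x_i) · exp(∑_{triples} log f + ∑_{4-sets} ξ - 4 M ∑_{5-sets} η)`.
All the interactions are handled together as a family `u k` of functions of `k` particles (`k = 3, 4, 5`).
-/

set_option autoImplicit false

open MeasureTheory Filter Topology
open scoped ContDiff

namespace Pool.Agent.TBC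

open Pool.Agent.TBG Pool.Agent.TBF

/-! ## families of functions of `k` particles -/

/-- a function of `k` particles for every `k` -/
abbrev KF : Type := (k : ℕ) → (Fin k → E) → ℝ

/-- the value on the particles of `A` -/
noncomputable def ub {N : ℕ} (u : KF) (A : Finset (Fin N)) (X : Fin N → E) : ℝ :=
  u A.card (fun i => X (A.orderEmbOfFin rfl i))

/-- `∑_{A ⊆ S} u(A)` -/
noncomputable def US {N : ℕ} (u : KF) (S : Finset (Fin N)) (X : Fin N → E) : ℝ := ∑ A ∈ S.powerset, ub u A X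

/-- the weight `exp(2 ∑_{A ⊆ S} u(A))` -/
noncomputable def WW {N : ℕ} (u : KF) (S : Finset (Fin N)) (X : Fin N → E) : ℝ := Real.exp (2 * US u S X)

/-- its expectation -/
noncomputable def ZW {N : ℕ} (u : KF) (χ : E → ℝ) (S : Finset (Fin N)) : ℝ := ∫ X, WW u S X ∂(PP χ N)

/-- the trial function -/
noncomputable def PsiK {N : ℕ} (χ : E → ℝ) (u : KF) (X : Fin N → E) : ℝ :=
  CC χ X * Real.exp (US u Finset.univ X)

/-- symmetric and translation invariant -/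
structure KInv (u : KF) : Prop where
  perm : ∀ (k : ℕ) (σ : Equiv.Perm (Fin k)) (y : Fin k → E), u k (fun i => y (σ i)) = u k y
  trans : ∀ (k : ℕ) (a : E) (y : Fin k → E), u k (fun i => y i + a) = u k y

/-- `∑_i Δ_i` -/
noncomputable def Lk (k : ℕ) (g : (Fin k → E) → ℝ) (y : Fin k → E) : ℝ :=
  ∑ m : Fin k, ∑ c : Fin 3, dv (dir m c) (dv (dir m c) g) y

/-- `∑ |∂ u|` -/
noncomputable def gg (u : KF) : KF := fun k y => ∑ m : Fin k, ∑ c : Fin 3, |dv (dir m c) (u k) y|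

/-- the potential as a family -/
noncomputable def vb (V : E → E → ℝ) : KF
  | 3, y => V (y 0 - y 1) (y 0 - y 2)
  | _, _ => 0

/-- the energies `V - ½ Δ u` -/
noncomputable def ee (V : E → E → ℝ) (u : KF) : KF := fun k y => vb V k y - 1 / 2 * Lk k (u k) y

/-- the family of the trial function -/
noncomputable def uu (f : E × E → ℝ) (ξ : W4 → ℝ) (Λ : ℝ) (h : E → ℝ) : KF
  | 3, y => Real.log (f (y 0 - y 1, y 0 - y 2))
  | 4, y => ξ (rl y)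
  | 5, y => -(Λ * ∏ a, ∏ b ∈ Finset.Ioi a, h (y a - y b))
  | _, _ => 0

/-- the properties of the family which are used; `M` bounds the four-body function, `r` its range, `r'` the range of the
five-body function -/
structure Fam (u : KF) (M r r' : ℝ) : Prop where
  inv : KInv u
  smooth : ∀ k, ContDiff ℝ ∞ (u k)
  M_nonneg : 0 ≤ M
  le3 : ∀ y, u 3 y ≤ 0
  ge3 : ∀ y, -1 ≤ u 3 y
  sup3 : ∃ R : ℝ, ∀ y : Fin 3 → E, (∃ i j, R < ‖y i - y j‖) → u 3 y = 0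
  abs4 : ∀ y, |u 4 y| ≤ M
  sup4 : ∀ y : Fin 4 → E, (∃ i j, r < ‖y i - y j‖) → u 4 y = 0
  le5 : ∀ y, u 5 y ≤ 0
  val5 : ∀ y : Fin 5 → E, (∀ i j, ‖y i - y j‖ ≤ 2 * r) → u 5 y = -(4 * M)
  sup5 : ∀ y : Fin 5 → E, (∃ i j, r' < ‖y i - y j‖) → u 5 y = 0
  zero : ∀ k, k ≠ 3 → k ≠ 4 → k ≠ 5 → ∀ y, u k y = 0
  r_nonneg : 0 ≤ r
  r_le : r ≤ r'

/-- the kernel of nearness -/
structure Near (κ : E → ℝ) (r' : ℝ) : Prop where
  cont : Continuous κ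
  cpt : HasCompactSupport κ
  even : ∀ x, κ (-x) = κ x
  nonneg : ∀ x, 0 ≤ κ x
  le_one : ∀ x, κ x ≤ 1
  one : ∀ x, ‖x‖ ≤ r' → κ x = 1

/-- the energies -/
structure Ene (e : KF) : Prop where
  inv : KInv e
  cont : ∀ k, Continuous (e k)
  pos3 : ∀ y, 0 ≤ e 3 y
  sup : ∃ R : ℝ, ∀ (k : ℕ) (y : Fin k → E), (∃ i j, R < ‖y i - y j‖) → e k y = 0
  zero : ∀ k, k ≠ 3 → k ≠ 4 → k ≠ 5 → ∀ y, e k y = 0

/-- `1 - f²` on the triple `A` -/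
noncomputable def a3 {N : ℕ} (u : KF) (A : Finset (Fin N)) (X : Fin N → E) : ℝ := 1 - Real.exp (2 * ub u A X)

/-- `κ(x_l - x_a)` -/
def nr {N : ℕ} (κ : E → ℝ) (X : Fin N → E) (l a : Fin N) : ℝ := κ (X l - X a)

/-- the influence of the particle `l` on the cluster `Q` -/
noncomputable def zz {N : ℕ} (u : KF) (κ : E → ℝ) (Q : Finset (Fin N)) (l : Fin N) (X : Fin N → E) : ℝ :=
  ∑ p ∈ Q.powersetCard 2, a3 u (insert l p) X + ∑ a ∈ Q, nr κ X l a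

/-- the renormalised energy of the cluster `q` -/
noncomputable def GG {N : ℕ} (u e : KF) (q : Finset (Fin N)) (X : Fin N → E) : ℝ :=
  ub e q X * WW u q X - ∑ l ∈ q, ub e (q.erase l) X * (WW u (q.erase l) X - WW u q X)

/-- `1 - f²` in relative coordinates -/
noncomputable def ga (u : KF) (z : E × E) : ℝ := 1 - Real.exp (2 * u 3 ![0, -z.1, -z.2])

/-- the constant of the errors -/
noncomputable def KM (M : ℝ) : ℝ := 3000 * Real.exp (14 * M)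

/-- the hypotheses which do not depend on the number of particles -/
structure Sys (u : KF) (κ : E → ℝ) (M r r' A α : ℝ) : Prop where
  fam : Fam u M r r'
  near : Near κ r'
  A_nonneg : 0 ≤ A
  kerA : ∀ x : E, ∫ y : E, ga u (x, y) ≤ A
  kerk : ∫ x, κ x ≤ A
  kera : ∫ z, ga u z ≤ α

/-- the hypotheses for finite `N`; the number `η` controls the ratios of the normalisations -/
structure Par (N : ℕ) (L : ℝ) (χ : E → ℝ) (u : KF) (κ : E → ℝ) (M r r' A α η : ℝ) : Prop where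
  cut : Cut L χ
  sys : Sys u κ M r r' A α
  small : 2 * ((N : ℝ) / vv χ) ^ 2 * (Real.exp (4 * M) * α) + 2 * ((N : ℝ) / vv χ) ^ 3 * (Real.exp (8 * M) * A ^ 3) ≤ η
  half : η ≤ 1 / 2

/-- `H` depends only on the particles of `S` -/
def Dep {N : ℕ} (S : Finset (Fin N)) (H : (Fin N → E) → ℝ) : Prop :=
  ∀ X Y : Fin N → E, (∀ i ∈ S, X i = Y i) → H X = H Y

/-- measurable, nonnegative, bounded -/
def Bnn {N : ℕ} (H : (Fin N → E) → ℝ) : Prop := Measurable H ∧ (∀ X, 0 ≤ H X) ∧ ∃ C : ℝ, ∀ X, H X ≤ C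

/-! ## general modules -/

/-- values and naturality of `ub`, `US`, `WW` -/
def Stmt_UBV : Prop := ∀ u : KF,
  (∀ (N : ℕ) (A : Finset (Fin N)), Dep A (ub u A) ∧ Dep A (US u A) ∧ Dep A (WW u A)) ∧
  ((∀ k, Continuous (u k)) → ∀ (N : ℕ) (A : Finset (Fin N)), Continuous (ub u A) ∧ Continuous (US u A) ∧
    Continuous (WW u A)) ∧
  ((∀ (k : ℕ) (σ : Equiv.Perm (Fin k)) (y : Fin k → E), u k (fun i => y (σ i)) = u k y) →
    (∀ (N k : ℕ) (s : Fin k → Fin N), Function.Injective s → ∀ X : Fin N → E,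
      ub u (Finset.univ.image s) X = u k (fun i => X (s i))) ∧
    (∀ (N K : ℕ) (s : Fin K → Fin N), Function.Injective s → ∀ (A : Finset (Fin K)) (X : Fin N → E),
      ub u (A.image s) X = ub u A (fun i => X (s i)) ∧ US u (A.image s) X = US u A (fun i => X (s i)) ∧
      WW u (A.image s) X = WW u A (fun i => X (s i))))

/-- the energies and the gradients as families -/
def Stmt_KIV : Prop := ∀ (u : KF) (V : E → E → ℝ), KInv u → (∀ k, ContDiff ℝ ∞ (u k)) → Admissible V →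
  Continuous (fun z : E × E => V z.1 z.2) →
  KInv (gg u) ∧ KInv (ee V u) ∧ KInv (vb V) ∧ (∀ k, Continuous (gg u k)) ∧ (∀ k, Continuous (ee V u k)) ∧
  (∀ k y, 0 ≤ gg u k y) ∧
  (∀ (k : ℕ) (R : ℝ), (∀ y : Fin k → E, (∃ i j, R < ‖y i - y j‖) → u k y = 0) →
    ∀ y : Fin k → E, (∃ i j, R < ‖y i - y j‖) → gg u k y = 0 ∧ Lk k (u k) y = 0)

/-- derivatives of `US` -/
def Stmt_DUK : Prop := ∀ (N : ℕ) (u : KF), (∀ k, ContDiff ℝ ∞ (u k)) →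
  (∀ S : Finset (Fin N), ContDiff ℝ ∞ (US u S)) ∧
  (∀ (X : Fin N → E) (i : Fin N) (c : Fin 3), |dv (dir i c) (US u Finset.univ) X| ≤
    ∑ A ∈ (Finset.univ : Finset (Fin N)).powerset, if i ∈ A then ub (gg u) A X else 0) ∧
  (∀ X : Fin N → E, ∑ i, ∑ c, dv (dir i c) (dv (dir i c) (US u Finset.univ)) X =
    ∑ A ∈ (Finset.univ : Finset (Fin N)).powerset, ub (fun k => Lk k (u k)) A X)

/-- the interaction energy as a sum over subsets -/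
def Stmt_POT : Prop := ∀ (N : ℕ) (V : E → E → ℝ) (X : Fin N → E),
  pot V X = ∑ A ∈ (Finset.univ : Finset (Fin N)).powerset, ub (vb V) A X

/-- the energy of the trial function -/
def Stmt_ENK : Prop := ∀ (N : ℕ) (L : ℝ) (χ : E → ℝ) (u : KF) (V : E → E → ℝ), 0 < N → Cut L χ →
  (∀ k, ContDiff ℝ ∞ (u k)) → Admissible V → Continuous (fun z : E × E => V z.1 z.2) →
  enR V (PsiK (N := N) χ u) = ∫ X, CC χ X ^ 2 * (WW u Finset.univ X *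
    (∑ A ∈ (Finset.univ : Finset (Fin N)).powerset, ub (ee V u) A X
      + ∑ i, ∑ c, (lam χ c (X i) ^ 2 + lam χ c (X i) * dv (dir i c) (US u Finset.univ) X)))

/-- upper bound of the ground state energy by expectations -/
def Stmt_EUK : Prop := ∀ (N : ℕ) (L : ℝ) (χ : E → ℝ) (u : KF) (V : E → E → ℝ), 0 < N → Cut L χ → KInv u →
  (∀ k, ContDiff ℝ ∞ (u k)) → Admissible V → Continuous (fun z : E × E => V z.1 z.2) →
  E0 V N L * ZW u χ (Finset.univ : Finset (Fin N)) ≤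
    ∑ A ∈ (Finset.univ : Finset (Fin N)).powerset, ∫ X, WW u Finset.univ X * ub (ee V u) A X ∂(PP χ N) +
    ∑ i : Fin N, ∑ c : Fin 3, ∫ X, WW u Finset.univ X * lam χ c (X i) ^ 2 ∂(PP χ N) +
    ∑ A ∈ (Finset.univ : Finset (Fin N)).powerset, ∑ i ∈ A, ∑ c : Fin 3,
      ∫ X, WW u Finset.univ X * (|lam χ c (X i)| * ub (gg u) A X) ∂(PP χ N)

/-! ## pointwise bounds of the weights -/

/-- adding one particle: upper bound -/
def Stmt_PWA : Prop := ∀ (N : ℕ) (u : KF) (M r r' : ℝ), Fam u M r r' →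
  (∀ (S : Finset (Fin N)) (l : Fin N) (X : Fin N → E), l ∉ S →
    US u (insert l S) X ≤ US u S X + M + ∑ p ∈ S.powersetCard 2, ub u (insert l p) X ∧
    WW u (insert l S) X ≤ Real.exp (2 * M) * WW u S X)

/-- elementary facts on the weights -/
def Stmt_WBA : Prop := ∀ (N : ℕ) (u : KF) (M r r' : ℝ), Fam u M r r' →
  (∀ (S : Finset (Fin N)) (X : Fin N → E), 0 < WW u S X ∧ WW u S X ≤ Real.exp (2 * M * S.card)) ∧
  (∀ X : Fin N → E, WW u (∅ : Finset (Fin N)) X = 1) ∧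
  (∀ (P T : Finset (Fin N)) (X : Fin N → E), P ⊆ T → WW u T X ≤ Real.exp (2 * M * P.card) * WW u (T \ P) X) ∧
  (∀ (A : Finset (Fin N)) (X : Fin N → E), A.card = 3 → 0 ≤ a3 u A X ∧ a3 u A X ≤ 1 ∧
    WW u A X = Real.exp (2 * ub u A X)) ∧
  (∀ A : Finset (Fin N), Continuous (a3 u A) ∧ Dep A (a3 u A))

/-- elementary facts on the kernels -/
def Stmt_WBD : Prop := ∀ (N : ℕ) (u : KF) (M r r' : ℝ) (κ : E → ℝ), Fam u M r r' → Near κ r' →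
  (∀ l a : Fin N, Continuous (fun X : Fin N → E => nr κ X l a) ∧ (∀ X, 0 ≤ nr κ X l a ∧ nr κ X l a ≤ 1)) ∧
  (∀ (Q : Finset (Fin N)) (l : Fin N), l ∉ Q → Continuous (zz u κ Q l) ∧ (∀ X, 0 ≤ zz u κ Q l X) ∧
    (∃ C : ℝ, ∀ X, zz u κ Q l X ≤ C) ∧ Dep (insert l Q) (zz u κ Q l))

/-- adding one particle: bounds on both sides -/
def Stmt_PWB : Prop := ∀ (N : ℕ) (u : KF) (M r r' : ℝ) (κ : E → ℝ), Fam u M r r' → Near κ r' →
  (∀ (S : Finset (Fin N)) (l : Fin N) (X : Fin N → E), l ∉ S →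
    WW u S X * (1 - ∑ p ∈ S.powersetCard 2, a3 u (insert l p) X - ∑ t ∈ S.powersetCard 3, ∏ a ∈ t, nr κ X l a) ≤
      WW u (insert l S) X ∧
    WW u (insert l S) X ≤ WW u S X * (1 + Real.exp (2 * M) * ∑ t ∈ S.powersetCard 3, ∏ a ∈ t, nr κ X l a))

/-- influence of one particle on a triple -/
def Stmt_PWD : Prop := ∀ (N : ℕ) (u : KF) (M r r' : ℝ) (κ : E → ℝ), Fam u M r r' → Near κ r' →
  ∀ (t : Finset (Fin N)) (l : Fin N) (X : Fin N → E), t.card = 3 → l ∉ t →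
    |WW u t X - WW u (insert l t) X| ≤ Real.exp (2 * M) * (WW u t X * zz u κ t l X)

/-- a triple in the gas -/
def Stmt_PWC : Prop := ∀ (N : ℕ) (u : KF) (M r r' : ℝ) (κ : E → ℝ), Fam u M r r' → Near κ r' →
  ∀ (t T : Finset (Fin N)) (X : Fin N → E), Disjoint t T → t.card = 3 →
    WW u (t ∪ T) X ≤ WW u T X * (WW u t X - ∑ l ∈ T, (WW u t X - WW u (insert l t) X)
      + 2 * Real.exp (6 * M) * (WW u t X * ∑ l ∈ T, ∑ l' ∈ T.erase l, zz u κ t l X * zz u κ t l' X))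

/-- four particles in the gas -/
def Stmt_PWE : Prop := ∀ (N : ℕ) (u : KF) (M r r' : ℝ) (κ : E → ℝ), Fam u M r r' → Near κ r' →
  ∀ (Q T : Finset (Fin N)) (X : Fin N → E), Disjoint Q T → Q.card = 4 →
    |WW u (Q ∪ T) X - WW u Q X * WW u T X| ≤ Real.exp (8 * M) * (WW u T X *
      (∑ l ∈ T, zz u κ Q l X + ∑ a ∈ Q, ∑ p ∈ T.powersetCard 2, a3 u (insert a p) X))

/-! ## probability -/

/-- the law of `k` particles -/
def Stmt_LWK : Prop := ∀ (N k : ℕ) (L : ℝ) (χ : E → ℝ) (s : Fin k → Fin N), Cut L χ → Function.Injective s →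
  Measure.map (fun (X : Fin N → E) (i : Fin k) => X (s i)) (PP χ N) = PP χ k

/-- decoupling of `P` -/
def Stmt_DEC : Prop := ∀ (N : ℕ) (L : ℝ) (χ : E → ℝ) (u : KF) (M r r' : ℝ) (T P G : Finset (Fin N))
  (g : (Fin N → E) → ℝ), Cut L χ → Fam u M r r' → P ⊆ T → Disjoint (T \ P) G → Measurable g → (∀ X, 0 ≤ g X) →
  Integrable g (PP χ N) → Dep G g →
  ∫ X, WW u T X * g X ∂(PP χ N) ≤ Real.exp (2 * M * P.card) * ZW u χ (T \ P) * ∫ X, g X ∂(PP χ N)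

/-- integrating out one particle -/
def Stmt_OB1 : Prop := ∀ (N : ℕ) (L : ℝ) (χ : E → ℝ) (S : Finset (Fin N)) (l : Fin N) (H : (Fin N → E) → ℝ)
  (g : (Fin N → E) → E → ℝ) (A : ℝ), Cut L χ → l ∉ S → Bnn H → Dep S H →
  Measurable (fun q : (Fin N → E) × E => g q.1 q.2) → (∀ X y, 0 ≤ g X y) → (∃ C : ℝ, ∀ X y, g X y ≤ C) →
  (∀ y, Dep S (fun X => g X y)) → (∀ X, Integrable (g X)) → (∀ X, ∫ y, g X y ≤ A) →
  ∫ X, H X * g X (X l) ∂(PP χ N) ≤ (vv χ)⁻¹ * A * ∫ X, H X ∂(PP χ N)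

/-- the three-body kernel in relative coordinates -/
def Stmt_GAC : Prop := ∀ (u : KF) (M r r' : ℝ), Fam u M r r' → CN (ga u) ∧ (∀ z, ga u z ≤ 1) ∧
  (∀ x y, ga u (x, y) = ga u (y, x)) ∧
  (∀ (N : ℕ) (X : Fin N → E) (i j k : Fin N), ([i, j, k] : List (Fin N)).Nodup →
    a3 u ({i, j, k} : Finset (Fin N)) X = ga u (X i - X j, X i - X k))

/-- the expectation of the influence of a new particle -/
def Stmt_TRA : Prop := ∀ (N : ℕ) (L : ℝ) (χ : E → ℝ) (u : KF) (κ : E → ℝ) (M r r' A α : ℝ) (S Q : Finset (Fin N))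
  (l : Fin N) (H : (Fin N → E) → ℝ), Cut L χ → Sys u κ M r r' A α → Q ⊆ S → l ∉ S → Bnn H → Dep S H →
  ∫ X, H X * zz u κ Q l X ∂(PP χ N) ≤
    (((Q.card.choose 2 : ℕ) : ℝ) + (Q.card : ℝ)) * (A / vv χ) * ∫ X, H X ∂(PP χ N)

/-- two new particles close to `l` -/
def Stmt_TRB : Prop := ∀ (N : ℕ) (L : ℝ) (χ : E → ℝ) (u : KF) (κ : E → ℝ) (M r r' A α : ℝ) (S p : Finset (Fin N))
  (l : Fin N) (H : (Fin N → E) → ℝ), Cut L χ → Sys u κ M r r' A α → l ∈ S → Disjoint p S → p.card = 2 → Bnn H →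
  Dep S H → ∫ X, H X * a3 u (insert l p) X ∂(PP χ N) ≤ (vv χ)⁻¹ ^ 2 * α * ∫ X, H X ∂(PP χ N)

/-- three new particles close to `l` -/
def Stmt_TRC : Prop := ∀ (N : ℕ) (L : ℝ) (χ : E → ℝ) (u : KF) (κ : E → ℝ) (M r r' A α : ℝ) (S t : Finset (Fin N))
  (l : Fin N) (H : (Fin N → E) → ℝ), Cut L χ → Sys u κ M r r' A α → l ∈ S → Disjoint t S → t.card = 3 → Bnn H →
  Dep S H → ∫ X, H X * ∏ a ∈ t, nr κ X l a ∂(PP χ N) ≤ (A / vv χ) ^ 3 * ∫ X, H X ∂(PP χ N)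

/-- the ratios of the normalisations -/
def Stmt_RTK : Prop := ∀ (N : ℕ) (L : ℝ) (χ : E → ℝ) (u : KF) (κ : E → ℝ) (M r r' A α η : ℝ),
  Par N L χ u κ M r r' A α η → ∀ (S : Finset (Fin N)) (i : Fin N), i ∉ S →
    (1 - η) * ZW u χ S ≤ ZW u χ (insert i S) ∧ ZW u χ (insert i S) ≤ (1 + η) * ZW u χ S

/-- consequences -/
def Stmt_RTB : Prop := ∀ (N : ℕ) (L : ℝ) (χ : E → ℝ) (u : KF) (κ : E → ℝ) (M r r' A α η : ℝ),
  Par N L χ u κ M r r' A α η → 0 ≤ η ∧ 0 ≤ α ∧ 0 < vv χ ∧ 0 < ZW u χ (Finset.univ : Finset (Fin N)) ∧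
  (∀ R : Finset (Fin N), 0 < ZW u χ R ∧ ZW u χ (Finset.univ \ R) ≤ 2 ^ R.card * ZW u χ (Finset.univ : Finset (Fin N))) ∧
  (∀ R : Finset (Fin N), R.card ≤ 4 → |ZW u χ (Finset.univ \ R) - ZW u χ (Finset.univ : Finset (Fin N))| ≤
    30 * η * ZW u χ (Finset.univ : Finset (Fin N))) ∧
  (∀ R : Finset (Fin N), R.card = 3 → ZW u χ (Finset.univ \ R) ≤ (1 + 14 * η) * ZW u χ (Finset.univ : Finset (Fin N)))

/-- relatively compactly supported functions are bounded -/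
def Stmt_EBD : Prop := ∀ (k : ℕ) (g : (Fin k → E) → ℝ) (R : ℝ), Continuous g →
  (∀ (a : E) (y : Fin k → E), g (fun i => y i + a) = g y) → (∀ y : Fin k → E, (∃ i j, R < ‖y i - y j‖) → g y = 0) →
  ∃ C : ℝ, ∀ y, |g y| ≤ C

/-- the functions which occur are bounded -/
def Stmt_BNF : Prop := ∀ (N : ℕ) (u e : KF) (M r r' : ℝ) (κ : E → ℝ), Fam u M r r' → Near κ r' → Ene e →
  (∀ A : Finset (Fin N), Continuous (ub e A) ∧ Dep A (ub e A) ∧ (∃ C : ℝ, ∀ X, |ub e A X| ≤ C)) ∧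
  (∀ t : Finset (Fin N), t.card = 3 → Bnn (fun X => ub e t X * WW u t X) ∧ Dep t (fun X => ub e t X * WW u t X)) ∧
  (∀ (t : Finset (Fin N)) (l : Fin N), t.card = 3 → l ∉ t → Bnn (fun X => ub e t X * WW u t X * zz u κ t l X) ∧
    Dep (insert l t) (fun X => ub e t X * WW u t X * zz u κ t l X)) ∧
  (∀ A : Finset (Fin N), Bnn (fun X => |ub e A X|) ∧ Dep A (fun X => |ub e A X|))

/-- three or four more particles next to a triple -/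
def Stmt_EXP : Prop := ∀ (N : ℕ) (L : ℝ) (χ : E → ℝ) (u e : KF) (κ : E → ℝ) (M r r' A α η : ℝ),
  Par N L χ u κ M r r' A α η → Ene e → ∀ (t : Finset (Fin N)) (l : Fin N), t.card = 3 → l ∉ t →
  (∀ p : Finset (Fin N), p.card = 2 → Disjoint p (insert l t) →
    ∫ X, WW u (Finset.univ \ insert l t) X * (ub e t X * WW u t X * zz u κ t l X * a3 u (insert l p) X) ∂(PP χ N) ≤
    ZW u χ (Finset.univ : Finset (Fin N)) * (384 * Real.exp (4 * M) * (A / vv χ) * ((vv χ)⁻¹ ^ 2 * α) *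
      ∫ X, ub e t X * WW u t X ∂(PP χ N))) ∧
  (∀ s : Finset (Fin N), s.card = 3 → Disjoint s (insert l t) →
    ∫ X, WW u (Finset.univ \ insert l t) X * (ub e t X * WW u t X * zz u κ t l X * ∏ a ∈ s, nr κ X l a) ∂(PP χ N) ≤
    ZW u χ (Finset.univ : Finset (Fin N)) * (768 * Real.exp (6 * M) * (A / vv χ) ^ 4 *
      ∫ X, ub e t X * WW u t X ∂(PP χ N)))

/-- decoupling of one particle next to a triple -/
def Stmt_EXA : Prop := ∀ (N : ℕ) (L : ℝ) (χ : E → ℝ) (u e : KF) (κ : E → ℝ) (M r r' A α η : ℝ),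
  Par N L χ u κ M r r' A α η → Ene e → ∀ (t : Finset (Fin N)) (l : Fin N), t.card = 3 → l ∉ t →
  -(∫ X, WW u (Finset.univ \ t) X * (ub e t X * (WW u t X - WW u (insert l t) X)) ∂(PP χ N)) ≤
    ZW u χ (Finset.univ : Finset (Fin N)) * (-(∫ X, ub e t X * (WW u t X - WW u (insert l t) X) ∂(PP χ N))
      + 342 * Real.exp (2 * M) * η * (A / vv χ) * ∫ X, ub e t X * WW u t X ∂(PP χ N))

/-- two particles next to a triple -/
def Stmt_EXD : Prop := ∀ (N : ℕ) (L : ℝ) (χ : E → ℝ) (u e : KF) (κ : E → ℝ) (M r r' A α η : ℝ),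
  Par N L χ u κ M r r' A α η → Ene e → ∀ (t : Finset (Fin N)) (l l' : Fin N), t.card = 3 → l ∉ t → l' ∉ t → l ≠ l' →
  ∫ X, WW u (Finset.univ \ t) X * (ub e t X * WW u t X * (zz u κ t l X * zz u κ t l' X)) ∂(PP χ N) ≤
    ZW u χ (Finset.univ : Finset (Fin N)) * (1152 * Real.exp (4 * M) * (A / vv χ) ^ 2 *
      ∫ X, ub e t X * WW u t X ∂(PP χ N))

/-- the energy of a triple -/
def Stmt_EXC : Prop := ∀ (N : ℕ) (L : ℝ) (χ : E → ℝ) (u e : KF) (κ : E → ℝ) (M r r' A α η : ℝ),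
  Par N L χ u κ M r r' A α η → Ene e → ∀ t : Finset (Fin N), t.card = 3 →
  ∫ X, WW u Finset.univ X * ub e t X ∂(PP χ N) ≤ ZW u χ (Finset.univ : Finset (Fin N)) *
    ((1 + 14 * η + KM M * (η * (N / vv χ * A) + (N / vv χ * A) ^ 2)) * (∫ X, ub e t X * WW u t X ∂(PP χ N))
      - ∑ l ∈ Finset.univ \ t, ∫ X, ub e t X * (WW u t X - WW u (insert l t) X) ∂(PP χ N))

/-- one or two more particles next to four particles -/
def Stmt_EXR : Prop := ∀ (N : ℕ) (L : ℝ) (χ : E → ℝ) (u e : KF) (κ : E → ℝ) (M r r' A α η : ℝ),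
  Par N L χ u κ M r r' A α η → Ene e → ∀ q : Finset (Fin N), q.card = 4 →
  (∀ l : Fin N, l ∉ q → ∫ X, WW u (Finset.univ \ q) X * (|ub e q X| * zz u κ q l X) ∂(PP χ N) ≤
    ZW u χ (Finset.univ : Finset (Fin N)) * (320 * Real.exp (2 * M) * (A / vv χ) * ∫ X, |ub e q X| ∂(PP χ N))) ∧
  (∀ (a : Fin N) (p : Finset (Fin N)), a ∈ q → p.card = 2 → Disjoint p q →
    ∫ X, WW u (Finset.univ \ q) X * (|ub e q X| * a3 u (insert a p) X) ∂(PP χ N) ≤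
    ZW u χ (Finset.univ : Finset (Fin N)) * (64 * Real.exp (4 * M) * ((vv χ)⁻¹ ^ 2 * α) *
      ∫ X, |ub e q X| ∂(PP χ N)))

/-- the energy of four particles -/
def Stmt_EXQ : Prop := ∀ (N : ℕ) (L : ℝ) (χ : E → ℝ) (u e : KF) (κ : E → ℝ) (M r r' A α η : ℝ),
  Par N L χ u κ M r r' A α η → Ene e → ∀ q : Finset (Fin N), q.card = 4 →
  ∫ X, WW u Finset.univ X * ub e q X ∂(PP χ N) ≤ ZW u χ (Finset.univ : Finset (Fin N)) *
    ((∫ X, ub e q X * WW u q X ∂(PP χ N)) + KM M * (η + N / vv χ * A) * ∫ X, |ub e q X| ∂(PP χ N))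

/-- the other terms -/
def Stmt_EXF : Prop := ∀ (N : ℕ) (L : ℝ) (χ : E → ℝ) (u e : KF) (κ : E → ℝ) (M r r' A α η : ℝ),
  Par N L χ u κ M r r' A α η → Ene e →
  (∀ c : Finset (Fin N), c.card = 5 → ∫ X, WW u Finset.univ X * ub e c X ∂(PP χ N) ≤
    ZW u χ (Finset.univ : Finset (Fin N)) * (KM M * ∫ X, |ub e c X| ∂(PP χ N))) ∧
  (∀ (i : Fin N) (c : Fin 3), ∫ X, WW u Finset.univ X * lam χ c (X i) ^ 2 ∂(PP χ N) ≤
    ZW u χ (Finset.univ : Finset (Fin N)) * (KM M * ∫ x, lam χ c x ^ 2 ∂(nu χ))) ∧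
  (∀ (A' : Finset (Fin N)) (i : Fin N) (c : Fin 3), i ∈ A' → A'.card ≤ 5 →
    ∫ X, WW u Finset.univ X * (|lam χ c (X i)| * ub (gg u) A' X) ∂(PP χ N) ≤
    ZW u χ (Finset.univ : Finset (Fin N)) * (KM M * ∫ X, |lam χ c (X i)| * ub (gg u) A' X ∂(PP χ N)))

/-- a triple and a particle form a set of four particles -/
def Stmt_SUM : Prop := ∀ (N : ℕ) (F : Finset (Fin N) → Fin N → ℝ),
  ∑ t ∈ (Finset.univ : Finset (Fin N)).powersetCard 3, ∑ l ∈ Finset.univ \ t, F t l =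
    ∑ q ∈ (Finset.univ : Finset (Fin N)).powersetCard 4, ∑ l ∈ q, F (q.erase l) l

/-- expectations of functions of few particles -/
def Stmt_EVA : Prop := ∀ (N : ℕ) (L : ℝ) (χ : E → ℝ) (u e : KF) (M r r' : ℝ), Cut L χ → Fam u M r r' → Ene e →
  (∀ t : Finset (Fin N), t.card = 3 → ∫ X, ub e t X * WW u t X ∂(PP χ N) =
    ∫ y : Fin 3 → E, e 3 y * Real.exp (2 * u 3 y) ∂(PP χ 3)) ∧
  (∀ q : Finset (Fin N), q.card = 4 → ∫ X, GG u e q X ∂(PP χ N) =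
    ∫ y : Fin 4 → E, GG u e Finset.univ y ∂(PP χ 4)) ∧
  (∀ (k : ℕ) (A : Finset (Fin N)), A.card = k → ∫ X, |ub e A X| ∂(PP χ N) = ∫ y : Fin k → E, |e k y| ∂(PP χ k)) ∧
  (∀ (m : ℕ) (A : Finset (Fin N)) (i : Fin N) (w : E → ℝ) (g : KF), A.card = m + 1 → i ∈ A → Measurable w →
    (∀ (k : ℕ) (σ : Equiv.Perm (Fin k)) (y : Fin k → E), g k (fun i => y (σ i)) = g k y) → (∀ k, Continuous (g k)) →
    ∫ X, w (X i) * ub g A X ∂(PP χ N) = ∫ y : Fin (m + 1) → E, w (y 0) * g (m + 1) y ∂(PP χ (m + 1)))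

/-- the bound for finite `N` by expectations -/
def Stmt_NBK : Prop := ∀ (N : ℕ) (L : ℝ) (χ : E → ℝ) (u : KF) (κ : E → ℝ) (V : E → E → ℝ) (M r r' A α η : ℝ),
  5 ≤ N → Par N L χ u κ M r r' A α η → Admissible V → Continuous (fun z : E × E => V z.1 z.2) → Ene (ee V u) →
  E0 V N L ≤ (N : ℝ) * (N - 1) * (N - 2) / 6 * ((1 + 14 * η + KM M * (η * (N / vv χ * A) + (N / vv χ * A) ^ 2)) *
      ∫ y : Fin 3 → E, ee V u 3 y * Real.exp (2 * u 3 y) ∂(PP χ 3))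
    + (N : ℝ) * (N - 1) * (N - 2) * (N - 3) / 24 * (∫ y : Fin 4 → E, GG u (ee V u) Finset.univ y ∂(PP χ 4))
    + KM M * (N ^ 4 * (η + N / vv χ * A)) * (∫ y : Fin 4 → E, |ee V u 4 y| ∂(PP χ 4))
    + KM M * N ^ 5 * (∫ y : Fin 5 → E, |ee V u 5 y| ∂(PP χ 5))
    + KM M * N * (∑ c : Fin 3, ∫ x, lam χ c x ^ 2 ∂(nu χ))
    + KM M * ∑ c : Fin 3, (3 * N ^ 3 * (∫ y : Fin 3 → E, |lam χ c (y 0)| * gg u 3 y ∂(PP χ 3))
      + 4 * N ^ 4 * (∫ y : Fin 4 → E, |lam χ c (y 0)| * gg u 4 y ∂(PP χ 4))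
      + 5 * N ^ 5 * (∫ y : Fin 5 → E, |lam χ c (y 0)| * gg u 5 y ∂(PP χ 5)))

/-! ## relative integrals -/

/-- the integral in relative coordinates of a translation invariant function of `m + 1` particles -/
noncomputable def RI (m : ℕ) (g : (Fin (m + 1) → E) → ℝ) : ℝ := ∫ z : Fin m → E, g (Fin.cons (0 : E) z)

/-- translation invariant functions with relatively compact support -/
structure Rel (m : ℕ) (g : (Fin (m + 1) → E) → ℝ) : Prop where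
  cont : Continuous g
  trans : ∀ (a : E) (y : Fin (m + 1) → E), g (fun i => y i + a) = g y
  supp : ∃ R : ℝ, ∀ y : Fin (m + 1) → E, (∃ i j, R < ‖y i - y j‖) → g y = 0

/-- upper bound of an expectation with a weight -/
def Stmt_EIA : Prop := ∀ (m : ℕ) (L : ℝ) (χ : E → ℝ) (g : (Fin (m + 1) → E) → ℝ) (w : E → ℝ), Cut L χ → Rel m g →
  (∀ y, 0 ≤ g y) → (∀ x, 0 ≤ w x) → Measurable w → Integrable w (nu χ) →
  Integrable (fun z : Fin m → E => g (Fin.cons (0 : E) z)) ∧ 0 ≤ RI m g ∧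
  ∫ y, w (y 0) * g y ∂(PP χ (m + 1)) ≤ (vv χ)⁻¹ ^ m * (∫ x, w x ∂(nu χ)) * RI m g

/-- expectation of a function with values of both signs -/
def Stmt_EIB : Prop := ∀ (m : ℕ) (L : ℝ) (χ : E → ℝ) (g : (Fin (m + 1) → E) → ℝ) (R : ℝ) (D : Set E), Cut L χ →
  Rel m g → (∀ y : Fin (m + 1) → E, (∃ i j, R < ‖y i - y j‖) → g y = 0) → MeasurableSet D → volume D < ⊤ →
  (∀ x ∈ D, ∀ y, ‖y - x‖ ≤ R → χ y = 1) → 0 ≤ R →
  |(∫ y, g y ∂(PP χ (m + 1))) - (vv χ)⁻¹ ^ (m + 1) * (volume D).toReal * RI m g| ≤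
    (vv χ)⁻¹ ^ (m + 1) * (vv χ - (volume D).toReal) * RI m (fun y => |g y|)

/-- `κ` of a triple, as a function of three particles -/
noncomputable def K3 (u e : KF) (y : Fin 3 → E) : ℝ := e 3 y * Real.exp (2 * u 3 y)

/-- the renormalised energy of four particles -/
noncomputable def G4 (u e : KF) (y : Fin 4 → E) : ℝ := GG u e Finset.univ y

/-- the functions which are integrated are of the class `Rel` -/
def Stmt_REL : Prop := ∀ (u : KF) (V : E → E → ℝ) (M r r' : ℝ), Fam u M r r' → Admissible V →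
  Continuous (fun z : E × E => V z.1 z.2) → Ene (ee V u) →
  Rel 2 (K3 u (ee V u)) ∧ Rel 3 (G4 u (ee V u)) ∧ Rel 3 (fun y => |ee V u 4 y|) ∧ Rel 4 (fun y => |ee V u 5 y|) ∧
  Rel 2 (gg u 3) ∧ Rel 3 (gg u 4) ∧ Rel 4 (gg u 5) ∧ Rel 3 (fun y => |G4 u (ee V u) y|)

/-- the bound for finite `N` by relative integrals -/
def Stmt_NBR : Prop := ∀ (N : ℕ) (L : ℝ) (χ : E → ℝ) (u : KF) (κ : E → ℝ) (V : E → E → ℝ) (M r r' A α η R : ℝ)
  (D : Set E), 5 ≤ N → Par N L χ u κ M r r' A α η → Admissible V → Continuous (fun z : E × E => V z.1 z.2) →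
  Ene (ee V u) → (∀ y : Fin 4 → E, (∃ i j, R < ‖y i - y j‖) → G4 u (ee V u) y = 0) → 0 ≤ R → MeasurableSet D →
  volume D < ⊤ → (∀ x ∈ D, ∀ y, ‖y - x‖ ≤ R → χ y = 1) →
  E0 V N L ≤ (N : ℝ) ^ 3 / 6 * (1 + 14 * η + KM M * (η * (N / vv χ * A) + (N / vv χ * A) ^ 2)) *
      ((vv χ)⁻¹ ^ 2 * RI 2 (K3 u (ee V u)))
    + (N : ℝ) * (N - 1) * (N - 2) * (N - 3) / 24 * ((vv χ)⁻¹ ^ 4 * ((volume D).toReal * RI 3 (G4 u (ee V u))
      + (vv χ - (volume D).toReal) * RI 3 (fun y => |G4 u (ee V u) y|)))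
    + KM M * (N ^ 4 * (η + N / vv χ * A)) * ((vv χ)⁻¹ ^ 3 * RI 3 (fun y => |ee V u 4 y|))
    + KM M * N ^ 5 * ((vv χ)⁻¹ ^ 4 * RI 4 (fun y => |ee V u 5 y|))
    + KM M * N * ((vv χ)⁻¹ * ∑ c : Fin 3, ∫ x, (dv (ev c) χ x) ^ 2)
    + KM M * ((∑ c : Fin 3, ∫ x, χ x * |dv (ev c) χ x|) * (3 * N ^ 3 * ((vv χ)⁻¹ ^ 3 * RI 2 (gg u 3))
      + 4 * N ^ 4 * ((vv χ)⁻¹ ^ 4 * RI 3 (gg u 4)) + 5 * N ^ 5 * ((vv χ)⁻¹ ^ 5 * RI 4 (gg u 5))))

/-! ## the limit -/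

/-- the limit of the bound of `NBR` -/
noncomputable def PhiK (ρ η A M I Γ Γ' J4 J5 ε v : ℝ) : ℝ :=
  ρ ^ 3 / 6 * (1 + 14 * η + KM M * (η * (ρ / v * A) + (ρ / v * A) ^ 2)) * (v⁻¹ ^ 2 * I)
    + ρ ^ 4 / 24 * (v⁻¹ ^ 4 * ((1 - ε) ^ 3 * Γ + (v - (1 - ε) ^ 3) * Γ'))
    + KM M * (ρ ^ 4 * (η + ρ / v * A)) * (v⁻¹ ^ 3 * J4) + KM M * ρ ^ 5 * (v⁻¹ ^ 4 * J5)

/-- the limit for a fixed cutoff -/
def Stmt_NLK : Prop := ∀ (u : KF) (κ : E → ℝ) (V : E → E → ℝ) (M r r' A α η ρ ε B' : ℝ) (χ : E → ℝ),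
  Sys u κ M r r' A α → Admissible V → Continuous (fun z : E × E => V z.1 z.2) → Ene (ee V u) → 0 < ρ → 0 < ε → ε < 1 →
  Cut 1 χ → (∀ x : E, (∀ c, |x c| ≤ (1 - ε) / 2) → χ x = 1) →
  2 * (ρ / vv χ) ^ 2 * (Real.exp (4 * M) * α) + 2 * (ρ / vv χ) ^ 3 * (Real.exp (8 * M) * A ^ 3) < η → η ≤ 1 / 2 →
  PhiK ρ η A M (RI 2 (K3 u (ee V u))) (RI 3 (G4 u (ee V u))) (RI 3 (fun y => |G4 u (ee V u) y|))
    (RI 3 (fun y => |ee V u 4 y|)) (RI 4 (fun y => |ee V u 5 y|)) ε (vv χ) < B' →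
  ∀ᶠ p in thermo ρ, E0 V p.1 p.2 / p.2 ^ 3 ≤ B'

/-- the many-body theorem -/
def Stmt_MBK : Prop := ∀ (u : KF) (κ : E → ℝ) (V : E → E → ℝ) (M r r' A α η ρ B' : ℝ),
  Sys u κ M r r' A α → Admissible V → Continuous (fun z : E × E => V z.1 z.2) → Ene (ee V u) → 0 < ρ →
  2 * ρ ^ 2 * (Real.exp (4 * M) * α) + 2 * ρ ^ 3 * (Real.exp (8 * M) * A ^ 3) < η → η ≤ 1 / 2 →
  ρ ^ 3 / 6 * (1 + 14 * η + KM M * (η * (ρ * A) + (ρ * A) ^ 2)) * RI 2 (K3 u (ee V u))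
    + ρ ^ 4 / 24 * RI 3 (G4 u (ee V u)) + KM M * (ρ ^ 4 * (η + ρ * A)) * RI 3 (fun y => |ee V u 4 y|)
    + KM M * ρ ^ 5 * RI 4 (fun y => |ee V u 5 y|) < B' →
  ∀ᶠ p in thermo ρ, E0 V p.1 p.2 / p.2 ^ 3 ≤ B'

/-! ## the functions -/

/-- the cutoff of the five-body function -/
structure Hc (h : E → ℝ) (r r' : ℝ) : Prop where
  smooth : ContDiff ℝ ∞ h
  even : ∀ x, h (-x) = h x
  nonneg : ∀ x, 0 ≤ h x
  le_one : ∀ x, h x ≤ 1
  one : ∀ x, ‖x‖ ≤ 2 * r → h x = 1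
  zero : ∀ x, r' < ‖x‖ → h x = 0

/-- existence of the cutoffs -/
def Stmt_NUC : Prop := (∀ r : ℝ, 0 ≤ r → ∃ (r' : ℝ) (h : E → ℝ), r ≤ r' ∧ Hc h r r') ∧
  (∀ r' : ℝ, 0 ≤ r' → ∃ κ : E → ℝ, Near κ r')

/-- the data of the four-body function -/
structure Xd (ξ : W4 → ℝ) (M r : ℝ) : Prop where
  smooth : ContDiff ℝ ∞ ξ
  cpt : HasCompactSupport ξ
  sym : Sym4 ξ
  bdd : ∀ p, |ξ p| ≤ M
  r_nonneg : 0 ≤ r
  range : ∀ y : Fin 4 → E, (∃ i j, r < ‖y i - y j‖) → ξ (rl y) = 0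

def Stmt_XDE : Prop := ∀ ξ : W4 → ℝ, TF ξ → Sym4 ξ → ∃ M r : ℝ, Xd ξ M r

/-- the family satisfies the hypotheses -/
def Stmt_FMU : Prop := ∀ (f : E × E → ℝ) (ξ : W4 → ℝ) (h : E → ℝ) (M r r' : ℝ), Jas f → Xd ξ M r → Hc h r r' → r ≤ r' →
  Fam (uu f ξ (4 * M) h) M r r' ∧ (∀ z, ga (uu f ξ (4 * M) h) z = aa f z) ∧
  (∀ x : E, ∫ y : E, ga (uu f ξ (4 * M) h) (x, y) = AA f x)

/-- derivatives of functions of relative coordinates -/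
def Stmt_LRL : Prop := (∀ g : E × E → ℝ, ContDiff ℝ ∞ g → ∀ y : Fin 3 → E,
    Lk 3 (fun y => g (y 0 - y 1, y 0 - y 2)) y = Lap g (y 0 - y 1, y 0 - y 2)) ∧
  (∀ ξ : W4 → ℝ, ContDiff ℝ ∞ ξ → ∀ y : Fin 4 → E, Lk 4 (fun y => ξ (rl y)) y = Lap4 ξ (rl y)) ∧
  (∀ (m : Fin 4) (g : E × E → ℝ), ContDiff ℝ ∞ g → ContDiff ℝ ∞ (fun p => g (pm m p)) ∧
    (∀ p, gsq4 (fun p => g (pm m p)) p = gsq g (pm m p)) ∧ (∀ p, Lap4 (fun p => g (pm m p)) p = Lap g (pm m p)))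

/-- the energies of the family -/
def Stmt_ENU : Prop := ∀ (f : E × E → ℝ) (V : E → E → ℝ) (ξ : W4 → ℝ) (h : E → ℝ) (M r r' : ℝ), NBH f V → Xd ξ M r →
  Hc h r r' → r ≤ r' →
  Ene (ee V (uu f ξ (4 * M) h)) ∧
  (∀ y, ee V (uu f ξ (4 * M) h) 3 y = kk f V (y 0 - y 1, y 0 - y 2)) ∧
  (∀ y, ee V (uu f ξ (4 * M) h) 4 y = -(1 / 2 * Lap4 ξ (rl y))) ∧
  (∀ y, ee V (uu f ξ (4 * M) h) 5 y =
    -(1 / 2 * Lk 5 (fun y : Fin 5 → E => -(4 * M * ∏ a, ∏ b ∈ Finset.Ioi a, h (y a - y b))) y))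

/-- relative integrals of functions of three and of four particles -/
def Stmt_BRG : Prop := (∀ g : (Fin 3 → E) → ℝ, RI 2 g = ∫ z : E × E, g ![0, -z.1, -z.2]) ∧
  (∀ g : (Fin 4 → E) → ℝ, RI 3 g = ∫ p : W4, g (cf p))

/-- `∏_m f_m · e^ξ` -/
noncomputable def FX (f : E × E → ℝ) (ξ : W4 → ℝ) (p : W4) : ℝ := (∏ m, f (pm m p)) * Real.exp (ξ p)

/-- the integrand of `γ` -/
noncomputable def gamI (f : E × E → ℝ) (V : E → E → ℝ) (ξ : W4 → ℝ) (p : W4) : ℝ :=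
  gsq4 (FX f ξ) p - ∑ m, gsq f (pm m p) + ∑ m, V (pm m p).1 (pm m p).2 * (FX f ξ p ^ 2 - f (pm m p) ^ 2)

/-- the difference to the integrand of the energy is a divergence -/
noncomputable def HX (f : E × E → ℝ) (ξ : W4 → ℝ) (p : W4) : ℝ := FX f ξ p ^ 2 - ∑ m, f (pm m p) ^ 2 + 3

def Stmt_FNA : Prop := ∀ (f : E × E → ℝ) (V : E → E → ℝ) (ξ : W4 → ℝ) (p : W4), ContDiff ℝ ∞ f → (∀ z, 1 / 2 ≤ f z) →
  TF ξ → ContDiff ℝ ∞ (FX f ξ) ∧ ContDiff ℝ ∞ (HX f ξ) ∧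
  (∑ m, kk f V (pm m p) * (FX f ξ p ^ 2 - f (pm m p) ^ 2)) - 1 / 2 * Lap4 ξ p * FX f ξ p ^ 2 =
    gamI f V ξ p - 1 / 4 * Lap4 (HX f ξ) p

def Stmt_FNB : Prop := ∀ (f : E × E → ℝ) (ξ : W4 → ℝ), Jas f → TF ξ → HasCompactSupport (HX f ξ) ∧
  ∫ p, Lap4 (HX f ξ) p = 0 ∧ Integrable (fun p => Lap4 (HX f ξ) p)

/-- the value of the integrands -/
def Stmt_VAL : Prop := ∀ (f : E × E → ℝ) (V : E → E → ℝ) (ξ : W4 → ℝ) (h : E → ℝ) (M r r' : ℝ), NBH f V → Xd ξ M r →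
  Hc h r r' → r ≤ r' →
  (∀ z : E × E, K3 (uu f ξ (4 * M) h) (ee V (uu f ξ (4 * M) h)) ![0, -z.1, -z.2] = kap f V z) ∧
  (∀ p : W4, G4 (uu f ξ (4 * M) h) (ee V (uu f ξ (4 * M) h)) (cf p) =
    (∑ m, kk f V (pm m p) * (FX f ξ p ^ 2 - f (pm m p) ^ 2)) - 1 / 2 * Lap4 ξ p * FX f ξ p ^ 2)

/-- the values of the relative integrals -/
def Stmt_VRI : Prop := ∀ (f : E × E → ℝ) (V : E → E → ℝ) (ξ : W4 → ℝ) (h : E → ℝ) (M r r' : ℝ), NBH f V → Xd ξ M r →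
  Hc h r r' → r ≤ r' →
  RI 2 (K3 (uu f ξ (4 * M) h) (ee V (uu f ξ (4 * M) h))) = ∫ z, kap f V z ∧
  RI 3 (G4 (uu f ξ (4 * M) h) (ee V (uu f ξ (4 * M) h))) = ∫ p, gamI f V ξ p

/-! ## the limit of the four-body energy -/

/-- the dominating functions are integrable -/
def Stmt_INF : Prop := ∀ m m' : Fin 4, m ≠ m' →
  Integrable (fun p : W4 => ((1 + ‖pm m p‖) ^ 10)⁻¹ * ((1 + ‖pm m' p‖) ^ 4)⁻¹) ∧
  Integrable (fun p : W4 => ((1 + ‖pm m p‖) ^ 5)⁻¹ * ((1 + ‖pm m' p‖) ^ 5)⁻¹)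

/-- the dominating function -/
noncomputable def DB (p : W4) : ℝ := ∑ m : Fin 4, ∑ m' ∈ Finset.univ.erase m,
  (((1 + ‖pm m p‖) ^ 10)⁻¹ * ((1 + ‖pm m' p‖) ^ 4)⁻¹ + ((1 + ‖pm m p‖) ^ 5)⁻¹ * ((1 + ‖pm m' p‖) ^ 5)⁻¹)

/-- domination -/
def Stmt_DMF : Prop := ∀ (V : E → E → ℝ) (ξ : W4 → ℝ) (C : ℝ), Admissible V → TF ξ → ∃ C' : ℝ,
  ∀ f : E × E → ℝ, ContDiff ℝ ∞ f → (∀ z, 1 / 2 ≤ f z ∧ f z ≤ 1) → (∀ z, (1 + ‖z‖) ^ 4 * (1 - f z) ≤ C) →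
  (∀ z, (1 + ‖z‖) ^ 10 * gsq f z ≤ C) → ∀ p, |gamI f V ξ p| ≤ C' * DB p

/-- pointwise convergence -/
def Stmt_PCF : Prop := ∀ (φ : E × E → ℝ) (ξ : W4 → ℝ) (p : W4), Scat φ → TF ξ →
  Tendsto (fun δ : ℝ => gamI (fd δ φ) (VV φ) ξ p) (𝓝[>] 0) (𝓝 (gamI (fun z => 1 - φ z) (VV φ) ξ p))

/-- convergence of the four-body energies -/
def Stmt_LMF : Prop := ∀ (φ : E × E → ℝ) (ξ : W4 → ℝ), Scat φ → TF ξ →
  Tendsto (fun δ : ℝ => ∫ p, gamI (fd δ φ) (VV φ) ξ p) (𝓝[>] 0) (𝓝 (gam4 φ (fun p => PF φ p * Real.exp (ξ p))))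

/-- the sharp upper bound -/
def Stmt_GSF : Prop := ∀ (φ : E × E → ℝ) (ξ : W4 → ℝ) (B' : ℝ), Scat φ → TF ξ → Sym4 ξ →
  gam4 φ (fun p => PF φ p * Real.exp (ξ p)) < B' → ∃ ρ₀ : ℝ, 0 < ρ₀ ∧ ∀ ρ, 0 < ρ → ρ < ρ₀ →
  ∀ᶠ p in thermo ρ, E0 (VV φ) p.1 p.2 / p.2 ^ 3 ≤ 1 / 6 * ρ ^ 3 * (∫ z, ww φ z) + 1 / 24 * ρ ^ 4 * B'

end Pool.Agent.TBC
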