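import Pool.Agent.TBC.Stmts

/-!
# EVA: expectations of functions of few particles
-/

set_option autoImplicit false

open MeasureTheory Filter Topology
open scoped ContDiff

namespace Pool.Agent.TBC

open Pool.Agent.TBG Pool.Agent.TBF

namespace EVA_

/-- the law of the particles `s` -/
theorem law (hL : Stmt_LWK) {N k : ℕ} {L : ℝ} {χ : E → ℝ} {s : Fin k → Fin N} (hχ : Cut L χ)
    (hs : Function.Injective s) (F : (Fin k → E) → ℝ) (hF : Measurable F) :
    ∫ X, F (fun i => X (s i)) ∂(PP χ N) = ∫ y, F y ∂(PP χ k) := by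
  have h1 : Measurable (fun (X : Fin N → E) (i : Fin k) => X (s i)) :=
    measurable_pi_lambda _ fun i => measurable_pi_apply (s i)
  rw [← hL N k L χ s hχ hs, integral_map h1.aemeasurable hF.aestronglyMeasurable]

/-- enumeration of a finite set -/
theorem enum {N k : ℕ} (A : Finset (Fin N)) (hA : A.card = k) :
    ∃ s : Fin k → Fin N, Function.Injective s ∧ Finset.univ.image s = A := by
  refine ⟨A.orderEmbOfFin hA, (A.orderEmbOfFin hA).injective, ?_⟩
  apply Finset.coe_injective
  rw [Finset.coe_image, Finset.coe_univ, Set.image_univ]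
  exact A.range_orderEmbOfFin hA

/-- enumeration with prescribed first element -/
theorem enum0 {N m : ℕ} (A : Finset (Fin N)) (hA : A.card = m + 1) (i : Fin N) (hi : i ∈ A) :
    ∃ s : Fin (m + 1) → Fin N, Function.Injective s ∧ Finset.univ.image s = A ∧ s 0 = i := by
  classical
  obtain ⟨s, hs, hsA⟩ := enum A hA
  rw [← hsA, Finset.mem_image] at hi
  obtain ⟨j, -, hj⟩ := hi
  refine ⟨fun a => s (Equiv.swap 0 j a), hs.comp (Equiv.injective _), ?_, ?_⟩
  · rw [← hsA]
    ext x
    simp only [Finset.mem_image, Finset.mem_univ, true_and]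
    constructor
    · rintro ⟨a, ha⟩
      exact ⟨_, ha⟩
    · rintro ⟨a, ha⟩
      refine ⟨Equiv.swap 0 j a, ?_⟩
      rw [Equiv.swap_apply_self]
      exact ha
  · show s (Equiv.swap 0 j 0) = i
    rw [Equiv.swap_apply_left]
    exact hj

/-- value on all the particles -/
theorem ub_univ (hU : Stmt_UBV) {u : KF}
    (h : ∀ (k : ℕ) (σ : Equiv.Perm (Fin k)) (y : Fin k → E), u k (fun i => y (σ i)) = u k y)
    (k : ℕ) (y : Fin k → E) : ub u (Finset.univ : Finset (Fin k)) y = u k y := by
  have h1 := ((hU u).2.2 h).1 k k id Function.injective_id y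
  rw [Finset.image_id] at h1
  exact h1

end EVA_

open EVA_

theorem eva_proof (_hCFD : Pool.Agent.TBG.Stmt_CFD) (hUBV : Stmt_UBV) (hWBA : Stmt_WBA)
    (hLWK : Stmt_LWK) : Stmt_EVA := by
  classical
  intro N L χ u e M r r' hχ hu he
  have hus := hu.inv.perm
  have hes := he.inv.perm
  have huc : ∀ k, Continuous (u k) := fun k => (hu.smooth k).continuous
  refine ⟨fun t ht => ?_, fun q hq => ?_, fun k A hA => ?_, fun m A i w g hA hi hw hg hgc => ?_⟩
  · obtain ⟨s, hs, hst⟩ := enum t ht
    have hF : Measurable (fun y : Fin 3 → E => e 3 y * Real.exp (2 * u 3 y)) := by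
      refine Continuous.measurable ?_
      exact (he.cont 3).mul (Real.continuous_exp.comp (continuous_const.mul (huc 3)))
    rw [← law hLWK hχ hs _ hF]
    refine integral_congr_ae (ae_of_all _ fun X => ?_)
    simp only
    rw [← hst, ((hUBV e).2.2 hes).1 N 3 s hs X, (((hUBV u).2.2 hus).2 N 3 s hs Finset.univ X).2.2,
      ((hWBA 3 u M r r' hu).2.2.2.1 Finset.univ _ (by simp)).2.2, ub_univ hUBV hus]
  · obtain ⟨s, hs, hsq⟩ := enum q hq
    have hGc : Measurable (fun y : Fin 4 → E => GG u e Finset.univ y) := by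
      refine Continuous.measurable ?_
      unfold GG
      have h1 := (hUBV e).2.1 he.cont 4
      have h2 := (hUBV u).2.1 huc 4
      refine ((h1 _).1.mul (h2 _).2.2).sub (continuous_finsetSum _ fun l _ => ?_)
      exact (h1 _).1.mul ((h2 _).2.2.sub (h2 _).2.2)
    rw [← law hLWK hχ hs _ hGc]
    refine integral_congr_ae (ae_of_all _ fun X => ?_)
    simp only
    rw [← hsq]
    unfold GG
    have h1 := ((hUBV e).2.2 hes).2 N 4 s hs
    have h2 := ((hUBV u).2.2 hus).2 N 4 s hs
    rw [(h1 Finset.univ X).1, (h2 Finset.univ X).2.2, Finset.sum_image fun a _ b _ hab => hs hab]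
    congr 1
    refine Finset.sum_congr rfl fun j _ => ?_
    rw [← Finset.image_erase hs, (h1 _ X).1, (h2 _ X).2.2]
  · obtain ⟨s, hs, hsA⟩ := enum A hA
    have hF : Measurable (fun y : Fin k → E => |e k y|) := (he.cont k).abs.measurable
    rw [← law hLWK hχ hs _ hF]
    refine integral_congr_ae (ae_of_all _ fun X => ?_)
    simp only
    rw [← hsA, ((hUBV e).2.2 hes).1 N k s hs X]
  · obtain ⟨s, hs, hsA, hs0⟩ := enum0 A hA i hi
    have hF : Measurable (fun y : Fin (m + 1) → E => w (y 0) * g (m + 1) y) :=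
      (hw.comp (measurable_pi_apply 0)).mul (hgc (m + 1)).measurable
    rw [← law hLWK hχ hs _ hF]
    refine integral_congr_ae (ae_of_all _ fun X => ?_)
    simp only
    rw [← hsA, ((hUBV g).2.2 hg).1 N (m + 1) s hs X, hs0]

end Pool.Agent.TBC
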