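import Pool.Agent.TBC.Stmts

/-!
# Three-body Bose gases, sharp upper bound: module OB1 (integrating out one particle)
-/

set_option autoImplicit false

open MeasureTheory Filter Topology
open scoped ContDiff

namespace Pool.Agent.TBC

open Pool.Agent.TBG Pool.Agent.TBF

theorem ob1_proof (hCFD : Stmt_CFD) (hOUT : Stmt_OUT) : Stmt_OB1 := by
  intro N L χ S l H g A hχ hl hH hHd hgm hg0 hgb hgd hgi hgA
  have : IsProbabilityMeasure (nu χ) := (hCFD L χ hχ).1
  have : IsProbabilityMeasure (PP χ N) := by unfold PP; infer_instance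
  obtain ⟨hHm, hH0, CH, hHC⟩ := hH
  obtain ⟨Cg, hgC⟩ := hgb
  have hCH0 : ∀ X : Fin N → E, 0 ≤ CH := fun X => (hH0 X).trans (hHC X)
  have hv : 0 < vv χ := hχ.pos
  -- the inner integral
  have hin : ∀ X, ∫ y, H X * g X y ∂(nu χ) ≤ (vv χ)⁻¹ * A * H X := by
    intro X
    rw [integral_const_mul, (hCFD L χ hχ).2.1 (g X)]
    have h1 : ∫ x, χ x ^ 2 * g X x ≤ A := by
      refine le_trans (integral_mono_of_nonneg ?_ (hgi X) ?_) (hgA X)
      · exact Eventually.of_forall fun x => mul_nonneg (sq_nonneg _) (hg0 X x)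
      · refine Eventually.of_forall fun x => ?_
        show χ x ^ 2 * g X x ≤ g X x
        have h2 : χ x ^ 2 ≤ 1 := pow_le_one₀ (hχ.nonneg x) (hχ.le_one x)
        exact mul_le_of_le_one_left (hg0 X x) h2
    have h3 : (vv χ)⁻¹ * ∫ x, χ x ^ 2 * g X x ≤ (vv χ)⁻¹ * A :=
      mul_le_mul_of_nonneg_left h1 (inv_nonneg.mpr hv.le)
    calc H X * ((vv χ)⁻¹ * ∫ x, χ x ^ 2 * g X x) ≤ H X * ((vv χ)⁻¹ * A) :=
          mul_le_mul_of_nonneg_left h3 (hH0 X)
      _ = _ := by ring
  have hHi : Integrable H (PP χ N) := by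
    refine Integrable.of_bound hHm.aestronglyMeasurable CH (Eventually.of_forall fun X => ?_)
    rw [Real.norm_eq_abs, abs_of_nonneg (hH0 X)]
    exact hHC X
  rw [hOUT N L χ S l (fun X y => H X * g X y) hχ hl]
  · rw [← integral_const_mul]
    refine integral_mono_of_nonneg ?_ (hHi.const_mul _) (Eventually.of_forall hin)
    exact Eventually.of_forall fun X => integral_nonneg fun y => mul_nonneg (hH0 X) (hg0 X y)
  · exact (hHm.comp measurable_fst).mul hgm
  · refine ⟨CH * Cg, fun X y => ?_⟩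
    rw [abs_of_nonneg (mul_nonneg (hH0 X) (hg0 X y))]
    exact mul_le_mul (hHC X) (hgC X y) (hg0 X y) (hCH0 X)
  · intro X Y y hXY
    show H X * g X y = H Y * g Y y
    have h := hgd y X Y hXY
    simp only at h
    rw [hHd X Y hXY, h]

end Pool.Agent.TBC
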