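import Pool.Agent.TBC.Stmts
import Pool.Agent.TBF.EXP

/-!
# Three-body Bose gases, sharp upper bound: the interface to the conclusion (part E)
-/

set_option autoImplicit false

open MeasureTheory Filter Topology
open scoped ContDiff

namespace Pool.Agent.TBC

open Pool.Agent.TBG Pool.Agent.TBF

theorem uppE_of (hGSF : Stmt_GSF) (hOB1 : Pool.Agent.TBF.Stmt_OB1) (hP : Stmt_PLS) : UppE := by
  intro lam B' h0 h1 hB
  obtain ⟨ξ, hξ, hs, -, hg⟩ := hOB1 (pl lam) (hP lam h0 h1).1 ((B' - b4 (pl lam)) / 2) (by linarith)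
  exact hGSF (pl lam) ξ B' (hP lam h0 h1).1 hξ hs (by linarith)

end Pool.Agent.TBC
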