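import Pool.Agent.TBC.Stmts

set_option autoImplicit false

open MeasureTheory Filter Topology
open scoped ContDiff

namespace Pool.Agent.TBC

open Pool.Agent.TBG Pool.Agent.TBF

namespace VRI_

theorem continuous_cf : Continuous cf := by
  unfold cf
  refine continuous_pi ?_
  intro i
  fin_cases i
  · exact continuous_const
  · exact continuous_fst.neg
  · exact (continuous_fst.comp continuous_snd).neg
  · exact (continuous_snd.comp continuous_snd).neg

theorem cpt {g : (Fin 4 → E) → ℝ} (hg : Rel 3 g) : Continuous (fun p : W4 => g (cf p)) ∧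
    HasCompactSupport (fun p : W4 => g (cf p)) := by
  refine ⟨hg.cont.comp continuous_cf, ?_⟩
  obtain ⟨R, hR⟩ := hg.supp
  refine HasCompactSupport.of_support_subset_isCompact (isCompact_closedBall (0 : W4) R) ?_
  intro p hp
  rw [mem_closedBall_zero_iff]
  by_contra hcon
  rw [not_le] at hcon
  refine hp (hR (cf p) ?_)
  have h1 : R < ‖p.1‖ ∨ R < ‖p.2.1‖ ∨ R < ‖p.2.2‖ := by
    rw [Prod.norm_def, Prod.norm_def] at hcon
    rcases lt_max_iff.mp hcon with h | h
    · exact Or.inl h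
    · rcases lt_max_iff.mp h with h | h
      · exact Or.inr (Or.inl h)
      · exact Or.inr (Or.inr h)
  rcases h1 with h | h | h
  · refine ⟨0, 1, ?_⟩
    simpa [cf] using h
  · refine ⟨0, 2, ?_⟩
    simpa [cf] using h
  · refine ⟨0, 3, ?_⟩
    simpa [cf] using h

end VRI_

theorem vri_proof (_hKAF : Pool.Agent.TBG.Stmt_KAF) (_hUBV : Stmt_UBV) (_hKIV : Stmt_KIV) (hREL : Stmt_REL)
    (_hEIA : Stmt_EIA) (hFMU : Stmt_FMU) (hENU : Stmt_ENU) (hBRG : Stmt_BRG) (hFNA : Stmt_FNA)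
    (hFNB : Stmt_FNB) (hVAL : Stmt_VAL) : Stmt_VRI := by
  intro f V ξ h M r r' hN hX hH hr
  obtain ⟨hv1, hv2⟩ := hVAL f V ξ h M r r' hN hX hH hr
  have hFam := (hFMU f ξ h M r r' hN.jas hX hH hr).1
  have hEne := (hENU f V ξ h M r r' hN hX hH hr).1
  have hTF : TF ξ := ⟨hX.smooth, hX.cpt⟩
  have hRel := (hREL _ V M r r' hFam hN.adm hN.cont hEne).2.1
  refine ⟨?_, ?_⟩
  · rw [hBRG.1]
    exact integral_congr_ae (Eventually.of_forall hv1)
  · rw [hBRG.2]
    obtain ⟨hc, hs⟩ := VRI_.cpt hRel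
    have hI : Integrable (fun p : W4 => G4 (uu f ξ (4 * M) h) (ee V (uu f ξ (4 * M) h)) (cf p)) :=
      hc.integrable_of_hasCompactSupport hs
    obtain ⟨_, h0, hI2⟩ := hFNB f ξ hN.jas hTF
    have hkey : ∀ p : W4, gamI f V ξ p = G4 (uu f ξ (4 * M) h) (ee V (uu f ξ (4 * M) h)) (cf p) +
        1 / 4 * Lap4 (HX f ξ) p := by
      intro p
      have h1 := (hFNA f V ξ p hN.jas.smooth hN.jas.half_le hTF).2.2
      rw [hv2 p, h1]
      ring
    have : ∫ p, gamI f V ξ p = (∫ p : W4, G4 (uu f ξ (4 * M) h) (ee V (uu f ξ (4 * M) h)) (cf p)) +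
        ∫ p, 1 / 4 * Lap4 (HX f ξ) p := by
      rw [← integral_add hI (hI2.const_mul _)]
      exact integral_congr_ae (Eventually.of_forall hkey)
    rw [this, integral_const_mul, h0, mul_zero, add_zero]

end Pool.Agent.TBC
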